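import Pool.Agent.Helper26.Bmoa.Defs

set_option autoImplicit false
set_option linter.unusedSectionVars false

/-!
Elementary properties of the radii `rad`.
-/

namespace Pool.Agent.Helper26.Bmoa

open MeasureTheory ProbabilityTheory Set Filter Topology
open scoped ENNReal NNReal

variable {G ι : Type} [AddCommGroup G] [MeasurableSpace G] [Fintype ι] {μ : Measure G}
  {χ : ι → G → ℂ} {b : ι → ℝ}

lemma dsq_nonneg (χ : ι → G → ℂ) (b : ι → ℝ) (x : G) : 0 ≤ dsq χ b x :=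
  Finset.sum_nonneg fun _ _ => by positivity

lemma measurable_dsq (h : IsCharSys χ) (b : ι → ℝ) : Measurable (dsq χ b) := by
  unfold dsq
  have := h.meas
  fun_prop

lemma dsq_le (h : IsCharSys χ) (b : ι → ℝ) (x : G) : dsq χ b x ≤ 4 * ∑ i, b i ^ 2 := by
  rw [dsq, Finset.mul_sum]
  apply Finset.sum_le_sum
  intro i _
  have h1 : ‖χ i x - 1‖ ≤ 2 := by
    refine (norm_sub_le _ _).trans ?_
    rw [h.norm_eq, norm_one]; norm_num
  have h2 : ‖χ i x - 1‖ ^ 2 ≤ 2 ^ 2 := pow_le_pow_left₀ (norm_nonneg _) h1 2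
  nlinarith [sq_nonneg (b i)]

lemma measurableSet_ball (h : IsCharSys χ) (b : ι → ℝ) (r : ℝ) :
    MeasurableSet {x | dsq χ b x ≤ r} := measurableSet_le (measurable_dsq h b) measurable_const

lemma small_le_one (p : ℕ) : ENNReal.ofReal ((1 / 2) ^ (2 ^ p)) ≤ 1 := by
  rw [← ENNReal.ofReal_one]
  exact ENNReal.ofReal_le_ofReal (pow_le_one₀ (by norm_num) (by norm_num))

lemma rad_set_nonempty [IsProbabilityMeasure μ] (h : IsCharSys χ) (b : ι → ℝ) (p : ℕ) :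
    (2 * √(∑ i, b i ^ 2)) ∈ {ε : ℝ | 0 ≤ ε ∧ ENNReal.ofReal ((1 / 2) ^ (2 ^ p)) ≤
      μ {x | dsq χ b x ≤ ε ^ 2}} := by
  refine ⟨by positivity, ?_⟩
  have : {x | dsq χ b x ≤ (2 * √(∑ i, b i ^ 2)) ^ 2} = univ := by
    ext x
    simp only [mem_ofPred_eq, mem_univ, iff_true]
    rw [mul_pow, Real.sq_sqrt (Finset.sum_nonneg fun _ _ => by positivity)]
    have := dsq_le h b x
    linarith
  rw [this, measure_univ]
  exact small_le_one p

lemma rad_nonneg (μ : Measure G) (χ : ι → G → ℂ) (b : ι → ℝ) (p : ℕ) : 0 ≤ rad μ χ b p :=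
  Real.sInf_nonneg fun _ h => h.1

lemma bddBelow_rad_set (μ : Measure G) (χ : ι → G → ℂ) (b : ι → ℝ) (p : ℕ) :
    BddBelow {ε : ℝ | 0 ≤ ε ∧ ENNReal.ofReal ((1 / 2) ^ (2 ^ p)) ≤
      μ {x | dsq χ b x ≤ ε ^ 2}} := ⟨0, fun _ h => h.1⟩

lemma rad_le {ε : ℝ} {p : ℕ} (h0 : 0 ≤ ε)
    (h : ENNReal.ofReal ((1 / 2) ^ (2 ^ p)) ≤ μ {x | dsq χ b x ≤ ε ^ 2}) : rad μ χ b p ≤ ε :=
  csInf_le (bddBelow_rad_set μ χ b p) ⟨h0, h⟩

lemma rad_le_norm [IsProbabilityMeasure μ] (h : IsCharSys χ) (b : ι → ℝ) (p : ℕ) :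
    rad μ χ b p ≤ 2 * √(∑ i, b i ^ 2) :=
  csInf_le (bddBelow_rad_set μ χ b p) (rad_set_nonempty h b p)

/-- balls of a radius greater than `rad` have measure at least `2 ^ (-2 ^ p)` -/
lemma le_of_rad_lt [IsProbabilityMeasure μ] (h : IsCharSys χ) {p : ℕ} {ε : ℝ}
    (hε : rad μ χ b p < ε) : ENNReal.ofReal ((1 / 2) ^ (2 ^ p)) ≤ μ {x | dsq χ b x ≤ ε ^ 2} := by
  obtain ⟨δ, ⟨h1, h2⟩, h3⟩ := exists_lt_of_csInf_lt ⟨_, rad_set_nonempty h b p⟩ hε
  refine h2.trans (measure_mono fun x hx => ?_)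
  simp only [mem_ofPred_eq] at hx ⊢
  exact hx.trans (pow_le_pow_left₀ h1 h3.le 2)

/-- the infimum in the definition of `rad` is attained -/
lemma rad_spec [IsProbabilityMeasure μ] (h : IsCharSys χ) (b : ι → ℝ) (p : ℕ) :
    ENNReal.ofReal ((1 / 2) ^ (2 ^ p)) ≤ μ {x | dsq χ b x ≤ rad μ χ b p ^ 2} := by
  set ρ := rad μ χ b p with hρ
  have h0 : 0 ≤ ρ := rad_nonneg _ _ _ _
  have key := tendsto_measure_iInter_atTop (μ := μ)
    (s := fun n : ℕ => {x | dsq χ b x ≤ (ρ + 1 / ((n : ℝ) + 1)) ^ 2})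
    (fun n => (measurableSet_ball h b _).nullMeasurableSet)
    (by
      intro m n hmn x hx
      simp only [mem_ofPred_eq] at hx ⊢
      refine hx.trans (pow_le_pow_left₀ (by positivity) ?_ 2)
      gcongr)
    ⟨0, measure_ne_top _ _⟩
  have e : (⋂ n : ℕ, {x | dsq χ b x ≤ (ρ + 1 / ((n : ℝ) + 1)) ^ 2}) = {x | dsq χ b x ≤ ρ ^ 2} := by
    ext x
    simp only [mem_iInter, mem_ofPred_eq]
    constructor
    · intro hx
      have ht : Tendsto (fun n : ℕ => (ρ + 1 / ((n : ℝ) + 1)) ^ 2) atTop (𝓝 ((ρ + 0) ^ 2)) :=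
        (tendsto_const_nhds.add tendsto_one_div_add_atTop_nhds_zero_nat).pow 2
      rw [add_zero] at ht
      exact ge_of_tendsto' ht hx
    · intro hx n
      refine hx.trans (pow_le_pow_left₀ h0 ?_ 2)
      have : (0:ℝ) ≤ 1 / ((n : ℝ) + 1) := by positivity
      linarith
  rw [e] at key
  refine ge_of_tendsto' key fun n => ?_
  apply le_of_rad_lt h
  have : (0:ℝ) < 1 / ((n : ℝ) + 1) := by positivity
  linarith

/-- monotonicity in the metric up to an additive error -/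
lemma rad_le_rad_add [IsProbabilityMeasure μ] (h : IsCharSys χ) {b' : ι → ℝ} {p : ℕ} {δ : ℝ}
    (hδ : 0 ≤ δ) (hd : ∀ x, √(dsq χ b' x) ≤ √(dsq χ b x) + δ) :
    rad μ χ b' p ≤ rad μ χ b p + δ := by
  have h0 : 0 ≤ rad μ χ b p := rad_nonneg _ _ _ _
  apply rad_le (by positivity)
  refine (rad_spec h b p).trans (measure_mono fun x hx => ?_)
  simp only [mem_ofPred_eq] at hx ⊢
  have h1 : √(dsq χ b x) ≤ rad μ χ b p := Real.sqrt_le_left h0 |>.2 hx
  have h2 := (hd x).trans (add_le_add_left h1 δ)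
  calc dsq χ b' x = √(dsq χ b' x) ^ 2 := (Real.sq_sqrt (dsq_nonneg _ _ _)).symm
    _ ≤ _ := pow_le_pow_left₀ (Real.sqrt_nonneg _) h2 2

lemma rad_mono [IsProbabilityMeasure μ] (h : IsCharSys χ) {b' : ι → ℝ} {p : ℕ}
    (hb : ∀ i, b' i ^ 2 ≤ b i ^ 2) : rad μ χ b' p ≤ rad μ χ b p := by
  have := rad_le_rad_add (μ := μ) (b := b) (b' := b') (p := p) h le_rfl (fun x => ?_)
  · simpa using this
  · rw [add_zero]
    apply Real.sqrt_le_sqrt
    exact Finset.sum_le_sum fun i _ => mul_le_mul_of_nonneg_right (hb i) (by positivity)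

lemma rad_anti [IsProbabilityMeasure μ] (h : IsCharSys χ) (b : ι → ℝ) {p q : ℕ} (hpq : p ≤ q) :
    rad μ χ b q ≤ rad μ χ b p := by
  apply rad_le (rad_nonneg _ _ _ _)
  refine le_trans ?_ (rad_spec h b p)
  apply ENNReal.ofReal_le_ofReal
  apply pow_le_pow_of_le_one (by norm_num) (by norm_num)
  exact Nat.pow_le_pow_right (by norm_num) hpq

end Pool.Agent.Helper26.Bmoa
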