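import Pool.Agent.Helper26.Bmoa.Subg
import Pool.Agent.Helper26.Bmoa.Rad

set_option autoImplicit false
set_option linter.unusedSectionVars false

/-!
The chaining upper bound, in an averaged form (no nets on the group are needed).
-/

namespace Pool.Agent.Helper26.Bmoa

open MeasureTheory ProbabilityTheory Set Filter Topology
open scoped ENNReal NNReal

section norm
variable {ι : Type} [Fintype ι]

/-- the `ℓ²` norm -/
noncomputable def nrm (c : ι → ℂ) : ℝ := √(nsq c)

lemma nrm_eq (c : ι → ℂ) : nrm c = ‖(WithLp.toLp 2 c : EuclideanSpace ℂ ι)‖ := by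
  rw [EuclideanSpace.norm_eq, nrm, nsq]

lemma nrm_nonneg (c : ι → ℂ) : 0 ≤ nrm c := Real.sqrt_nonneg _

lemma nrm_sq (c : ι → ℂ) : nrm c ^ 2 = nsq c := Real.sq_sqrt (nsq_nonneg c)

lemma nrm_add_le (c d : ι → ℂ) : nrm (c + d) ≤ nrm c + nrm d := by
  rw [nrm_eq, nrm_eq, nrm_eq, WithLp.toLp_add]
  exact norm_add_le _ _

lemma Y_sub (c d : ι → ℂ) (α : ι → ℝ) : Y (c - d) α = Y c α - Y d α := by
  unfold Y
  rw [← Finset.sum_sub_distrib]
  apply Finset.sum_congr rfl
  intro i _
  rw [Pi.sub_apply, sub_mul, Complex.sub_re]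

lemma abs_Y_le (c : ι → ℂ) (α : ι → ℝ) : |Y c α| ≤ √(Fintype.card ι) * nrm c := by
  have h1 : |Y c α| ≤ ∑ i, ‖c i‖ := by
    unfold Y
    refine (Finset.abs_sum_le_sum_abs _ _).trans (Finset.sum_le_sum fun i _ => ?_)
    refine (Complex.abs_re_le_norm _).trans ?_
    rw [norm_mul, mul_comm Complex.I, Complex.norm_exp_ofReal_mul_I, mul_one]
  refine h1.trans ?_
  rw [nrm, ← Real.sqrt_mul (by positivity)]
  apply Real.le_sqrt_of_sq_le
  have := sq_sum_le_card_mul_sum_sq (s := (Finset.univ : Finset ι)) (f := fun i => ‖c i‖)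
  simpa [nsq] using this

end norm

section elem

/-- the elementary inequality replacing Jensen's inequality -/
lemma abs_le_exp {y N r L : ℝ} (hN : 0 ≤ N) (hr : 0 < r) (hNr : N ≤ r ^ 2) (hL : 1 ≤ L)
    (hy : N = 0 → y = 0) :
    |y| ≤ 2 * r * √L + r * Real.exp (-L) * Real.exp (y ^ 2 / (4 * N)) := by
  rcases hN.eq_or_lt with h | h
  · rw [hy h.symm, abs_zero]
    positivity
  have hs : 1 ≤ √L := Real.one_le_sqrt.2 hL
  have hL2 : √L ^ 2 = L := Real.sq_sqrt (by linarith)
  set t := y ^ 2 / (4 * N) with ht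
  have hy2 : y ^ 2 ≤ (2 * r) ^ 2 * t := by
    rw [ht]
    rw [mul_div_assoc', le_div_iff₀ (by positivity)]
    nlinarith [sq_nonneg y]
  -- `2 r √t ≤ 2 r √L + r exp (t - L)`
  have h3 : (t - L) + 1 ≤ Real.exp (t - L) := Real.add_one_le_exp _
  have h4 : Real.exp (-L) * Real.exp t = Real.exp (t - L) := by
    rw [← Real.exp_add]; congr 1; ring
  rw [mul_assoc r, h4]
  have h5 : 0 < Real.exp (t - L) := Real.exp_pos _
  apply abs_le_of_sq_le_sq _ (by positivity)
  refine hy2.trans ?_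
  have h6 : t ≤ L + Real.exp (t - L) := by linarith
  have h7 : (2 * r) ^ 2 * t ≤ (2 * r) ^ 2 * (L + Real.exp (t - L)) := by gcongr
  refine h7.trans ?_
  have h8 : (2 * r) ^ 2 * (L + Real.exp (t - L)) ≤ (2 * r) ^ 2 * (√L ^ 2 + √L * Real.exp (t - L)) := by
    rw [hL2]; gcongr; nlinarith
  refine h8.trans ?_
  nlinarith [mul_pos (mul_pos hr hr) (mul_pos h5 h5)]

end elem

section chain

variable {G ι : Type} [AddCommGroup G] [MeasurableSpace G] [MeasurableAdd₂ G] [Fintype ι]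

/-- the coefficients of the weighted and translated random sum -/
noncomputable def cf (χ : ι → G → ℂ) (a : ι → ℂ) (u : ι → ℝ) (x : G) : ι → ℂ :=
  fun i => (u i : ℂ) * a i * χ i x

/-- the exponential of the normalised square of an increment -/
noncomputable def epair (χ : ι → G → ℂ) (a : ι → ℂ) (u u' : ι → ℝ) (α : ι → ℝ) (z : G × G) : ℝ≥0∞ :=
  ENNReal.ofReal (Real.exp (Y (cf χ a u z.1 - cf χ a u' z.2) α ^ 2 /
    (4 * nsq (cf χ a u z.1 - cf χ a u' z.2))))

lemma measurable_epair {χ : ι → G → ℂ} (h : IsCharSys χ) (a : ι → ℂ) (u u' : ι → ℝ) :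
    Measurable (fun w : (ι → ℝ) × (G × G) => epair χ a u u' w.1 w.2) := by
  have := h.meas
  unfold epair cf Y nsq
  simp only [Pi.sub_apply]
  fun_prop

/-- the controlling random variable of one stage -/
noncomputable def stage (μ : Measure G) (χ : ι → G → ℂ) (a : ι → ℂ) (U : ℕ → Finset (ι → ℝ)) (p : ℕ)
    (α : ι → ℝ) : ℝ≥0∞ :=
  ∑ u ∈ U p, ∑ u' ∈ U (p + 1), ∫⁻ z, epair χ a u u' α z ∂(μ.prod μ)

lemma measurable_stage {μ : Measure G} [IsProbabilityMeasure μ] {χ : ι → G → ℂ} (h : IsCharSys χ)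
    (a : ι → ℂ) (U : ℕ → Finset (ι → ℝ)) (p : ℕ) : Measurable (stage μ χ a U p) := by
  unfold stage
  apply Finset.measurable_sum
  intro u _
  apply Finset.measurable_sum
  intro u' _
  exact (measurable_epair h a u u').lintegral_prod_right'

lemma lintegral_stage {μ : Measure G} [IsProbabilityMeasure μ] {χ : ι → G → ℂ} (h : IsCharSys χ)
    (a : ι → ℂ) (U : ℕ → Finset (ι → ℝ)) (p : ℕ) :
    ∫⁻ α, stage μ χ a U p α ∂(phases ι) ≤ (U p).card * (U (p + 1)).card * 2 := by
  unfold stage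
  rw [lintegral_finsetSum]
  · calc _ ≤ ∑ u ∈ U p, ((U (p + 1)).card * 2 : ℝ≥0∞) := by
          apply Finset.sum_le_sum
          intro u _
          rw [lintegral_finsetSum]
          · calc _ ≤ ∑ u' ∈ U (p + 1), (2 : ℝ≥0∞) := by
                  apply Finset.sum_le_sum
                  intro u' _
                  rw [lintegral_lintegral_swap (measurable_epair h a u u').aemeasurable]
                  calc _ ≤ ∫⁻ z, (2 : ℝ≥0∞) ∂(μ.prod μ) := by
                        apply lintegral_mono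
                        intro z
                        exact exp_Y_le _
                    _ = 2 := by simp
              _ = _ := by simp [nsmul_eq_mul]
          · intro u' _
            exact (measurable_epair h a u u').lintegral_prod_right'
      _ = _ := by simp [nsmul_eq_mul, mul_assoc]
  · intro u _
    apply Finset.measurable_sum
    intro u' _
    exact (measurable_epair h a u u').lintegral_prod_right'

/-- the controlling random variable -/
noncomputable def ctrl (μ : Measure G) (χ : ι → G → ℂ) (a : ι → ℂ) (U : ℕ → Finset (ι → ℝ))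
    (α : ι → ℝ) : ℝ≥0∞ :=
  ∑' p : ℕ, stage μ χ a U p α / ((U p).card * (U (p + 1)).card * 2 ^ (p + 2))

lemma measurable_ctrl {μ : Measure G} [IsProbabilityMeasure μ] {χ : ι → G → ℂ} (h : IsCharSys χ)
    (a : ι → ℂ) (U : ℕ → Finset (ι → ℝ)) : Measurable (ctrl μ χ a U) := by
  unfold ctrl
  exact Measurable.tsum fun p => (measurable_stage h a U p).div_const _

lemma lintegral_ctrl {μ : Measure G} [IsProbabilityMeasure μ] {χ : ι → G → ℂ} (h : IsCharSys χ)
    (a : ι → ℂ) (U : ℕ → Finset (ι → ℝ)) : ∫⁻ α, ctrl μ χ a U α ∂(phases ι) ≤ 1 := by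
  unfold ctrl
  rw [lintegral_tsum fun p => ((measurable_stage h a U p).div_const _).aemeasurable]
  calc _ ≤ ∑' p : ℕ, (2 : ℝ≥0∞)⁻¹ ^ (p + 1) := by
        apply ENNReal.tsum_le_tsum
        intro p
        simp_rw [div_eq_mul_inv]
        rw [lintegral_mul_const _ (measurable_stage h a U p)]
        refine (mul_le_mul_left (lintegral_stage h a U p) _).trans ?_
        rw [← div_eq_mul_inv]
        apply ENNReal.div_le_of_le_mul
        have : (2 : ℝ≥0∞)⁻¹ ^ (p + 1) * (((U p).card : ℝ≥0∞) * (U (p + 1)).card * 2 ^ (p + 2)) =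
            (U p).card * (U (p + 1)).card * 2 := by
          have e : (2 : ℝ≥0∞)⁻¹ ^ (p + 1) * 2 ^ (p + 1) = 1 := by
            rw [← mul_pow, ENNReal.inv_mul_cancel (by norm_num) (by norm_num), one_pow]
          calc _ = ((U p).card * (U (p + 1)).card * 2 : ℝ≥0∞) * ((2 : ℝ≥0∞)⁻¹ ^ (p + 1) * 2 ^ (p + 1)) := by
                ring
            _ = _ := by rw [e, mul_one]
        rw [this]
    _ = 1 := by
        rw [ENNReal.tsum_geometric_add_one]
        rw [ENNReal.one_sub_inv_two, inv_inv]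
        exact ENNReal.inv_mul_cancel (by norm_num) (by norm_num)

lemma nrm_cf {χ : ι → G → ℂ} (h : IsCharSys χ) (a : ι → ℂ) (u : ι → ℝ) (x : G) :
    nrm (cf χ a u x) = nrm (fun i => (u i : ℂ) * a i) := by
  unfold nrm nsq cf
  congr 1
  apply Finset.sum_congr rfl
  intro i _
  rw [norm_mul, h.norm_eq, mul_one]

lemma measurable_Ycf {χ : ι → G → ℂ} (h : IsCharSys χ) (a : ι → ℂ) (u : ι → ℝ) (α : ι → ℝ) :
    Measurable (fun x => Y (cf χ a u x) α) := by
  have := h.meas
  unfold cf Y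
  fun_prop

lemma stage_le {μ : Measure G} {χ : ι → G → ℂ} (a : ι → ℂ) (U : ℕ → Finset (ι → ℝ)) (p : ℕ)
    (α : ι → ℝ) {u u' : ι → ℝ} (hu : u ∈ U p) (hu' : u' ∈ U (p + 1)) :
    ∫⁻ z, epair χ a u u' α z ∂(μ.prod μ) ≤ stage μ χ a U p α := by
  unfold stage
  refine le_trans ?_ (Finset.single_le_sum (f := fun u => ∑ u' ∈ U (p + 1),
    ∫⁻ z, epair χ a u u' α z ∂(μ.prod μ)) (fun _ _ => zero_le) hu)
  exact Finset.single_le_sum (f := fun u' => ∫⁻ z, epair χ a u u' α z ∂(μ.prod μ))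
    (fun _ _ => zero_le) hu'

lemma stage_le_ctrl {μ : Measure G} {χ : ι → G → ℂ} (a : ι → ℂ) (U : ℕ → Finset (ι → ℝ)) (p : ℕ)
    (α : ι → ℝ) (h1 : (U p).Nonempty) (h2 : (U (p + 1)).Nonempty) :
    stage μ χ a U p α ≤ ctrl μ χ a U α * ((U p).card * (U (p + 1)).card * 2 ^ (p + 2)) := by
  have h3 : stage μ χ a U p α / ((U p).card * (U (p + 1)).card * 2 ^ (p + 2)) ≤ ctrl μ χ a U α :=
    ENNReal.le_tsum (f := fun p => stage μ χ a U p α / ((U p).card * (U (p + 1)).card * 2 ^ (p + 2))) p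
  have c1 := h1.card_pos
  have c2 := h2.card_pos
  rwa [ENNReal.div_le_iff_le_mul] at h3
  · left
    simp only [ne_eq, mul_eq_zero, Nat.cast_eq_zero, pow_eq_zero_iff', OfNat.ofNat_ne_zero, false_and,
      or_false, not_or]
    omega
  · left
    exact ENNReal.mul_ne_top (ENNReal.mul_ne_top (by simp) (by simp)) (by simp)

instance instMeasurableAddProd : MeasurableAdd (G × G) where
  measurable_const_add c :=
    (measurable_fst.const_add c.1).prodMk (measurable_snd.const_add c.2)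
  measurable_add_const c :=
    (measurable_fst.add_const c.1).prodMk (measurable_snd.add_const c.2)

/-- One step of the chain. -/
lemma chain_step {μ : Measure G} [IsProbabilityMeasure μ] [μ.IsAddLeftInvariant] {χ : ι → G → ℂ}
    (h : IsCharSys χ) (a : ι → ℂ) (U : ℕ → Finset (ι → ℝ)) (p : ℕ)
    (α : ι → ℝ) {u u' : ι → ℝ} (hu : u ∈ U p) (hu' : u' ∈ U (p + 1)) {B B' : Set G}
    (hB : MeasurableSet B) (hB' : MeasurableSet B') (θ : G) {r L : ℝ} (hr : 0 < r) (hL : 1 ≤ L)
    (hB1 : μ B ≠ 0) (hB1' : μ B' ≠ 0)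
    (hrr : ∀ x ∈ B, ∀ x' ∈ B', nrm (cf χ a u (θ + x) - cf χ a u' (θ + x')) ≤ r)
    (hW : ctrl μ χ a U α * ((U p).card * (U (p + 1)).card * 2 ^ (p + 2)) * ((μ B)⁻¹ * (μ B')⁻¹) ≤
      ENNReal.ofReal (Real.exp L)) :
    |∫ x, Y (cf χ a u (θ + x)) α ∂μ[|B] - ∫ x, Y (cf χ a u' (θ + x)) α ∂μ[|B']| ≤
      2 * r * √L + r := by
  have : IsProbabilityMeasure μ[|B] := cond_isProbabilityMeasure hB1
  have : IsProbabilityMeasure μ[|B'] := cond_isProbabilityMeasure hB1'
  set ν := μ[|B]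
  set ν' := μ[|B']
  have m1 : Measurable (fun x => Y (cf χ a u (θ + x)) α) :=
    (measurable_Ycf h a u α).comp (measurable_const_add θ)
  have m2 : Measurable (fun x => Y (cf χ a u' (θ + x)) α) :=
    (measurable_Ycf h a u' α).comp (measurable_const_add θ)
  have b1 : ∀ x, ‖Y (cf χ a u (θ + x)) α‖ ≤ √(Fintype.card ι) * nrm (fun i => (u i : ℂ) * a i) := by
    intro x
    rw [Real.norm_eq_abs, ← nrm_cf h a u (θ + x)]
    exact abs_Y_le _ _
  have b2 : ∀ x, ‖Y (cf χ a u' (θ + x)) α‖ ≤ √(Fintype.card ι) * nrm (fun i => (u' i : ℂ) * a i) := by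
    intro x
    rw [Real.norm_eq_abs, ← nrm_cf h a u' (θ + x)]
    exact abs_Y_le _ _
  have i1 : Integrable (fun z : G × G => Y (cf χ a u (θ + z.1)) α) (ν.prod ν') :=
    Integrable.of_bound (m1.comp measurable_fst).aestronglyMeasurable _
      (Eventually.of_forall fun z => b1 z.1)
  have i2 : Integrable (fun z : G × G => Y (cf χ a u' (θ + z.2)) α) (ν.prod ν') :=
    Integrable.of_bound (m2.comp measurable_snd).aestronglyMeasurable _
      (Eventually.of_forall fun z => b2 z.2)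
  have e1 : ∫ x, Y (cf χ a u (θ + x)) α ∂ν - ∫ x, Y (cf χ a u' (θ + x)) α ∂ν' =
      ∫ z, (Y (cf χ a u (θ + z.1)) α - Y (cf χ a u' (θ + z.2)) α) ∂(ν.prod ν') := by
    rw [integral_sub i1 i2, integral_fun_fst (f := fun x => Y (cf χ a u (θ + x)) α),
      integral_fun_snd (f := fun x => Y (cf χ a u' (θ + x)) α)]
    simp
  rw [e1]
  have i3 : Integrable (fun z : G × G => |Y (cf χ a u (θ + z.1)) α - Y (cf χ a u' (θ + z.2)) α|)
      (ν.prod ν') := (i1.sub i2).abs
  refine (abs_integral_le_integral_abs).trans ?_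
  rw [integral_eq_lintegral_of_nonneg_ae (Eventually.of_forall fun z => abs_nonneg _)
    i3.aestronglyMeasurable]
  apply ENNReal.toReal_le_of_le_ofReal (by positivity)
  have hprod : ν.prod ν' = ((μ B)⁻¹ * (μ B')⁻¹) • ((μ.prod μ).restrict (B ×ˢ B')) := by
    simp only [ν, ν', ProbabilityTheory.cond]
    rw [Measure.prod_smul_left, Measure.prod_smul_right, Measure.prod_restrict, smul_smul]
  have hle : ∀ z ∈ B ×ˢ B', ENNReal.ofReal |Y (cf χ a u (θ + z.1)) α - Y (cf χ a u' (θ + z.2)) α| ≤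
      ENNReal.ofReal (2 * r * √L) + ENNReal.ofReal (r * Real.exp (-L)) *
        epair χ a u u' α (((θ, θ) : G × G) + z) := by
    intro z hz
    have h1 := abs_le_exp (y := Y (cf χ a u (θ + z.1) - cf χ a u' (θ + z.2)) α)
      (N := nsq (cf χ a u (θ + z.1) - cf χ a u' (θ + z.2))) (nsq_nonneg _) hr (by
        rw [← nrm_sq]
        exact pow_le_pow_left₀ (nrm_nonneg _) (hrr _ hz.1 _ hz.2) 2) hL (by
        intro h0
        have h2 := abs_Y_le (cf χ a u (θ + z.1) - cf χ a u' (θ + z.2)) α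
        rw [nrm, h0, Real.sqrt_zero, mul_zero] at h2
        exact abs_eq_zero.1 (le_antisymm h2 (abs_nonneg _)))
    rw [Y_sub] at h1
    refine (ENNReal.ofReal_le_ofReal h1).trans ?_
    rw [ENNReal.ofReal_add (by positivity) (by positivity), ENNReal.ofReal_mul (p := r * Real.exp (-L))
      (by positivity), epair, ← Y_sub]
    simp only [Prod.fst_add, Prod.snd_add]
    exact le_rfl
  have hmE : Measurable (fun z : G × G => epair χ a u u' α (((θ, θ) : G × G) + z)) := by
    have := (measurable_epair h a u u').comp (measurable_prodMk_left (x := α))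
    exact this.comp (measurable_const_add _)
  calc ∫⁻ z, ENNReal.ofReal |Y (cf χ a u (θ + z.1)) α - Y (cf χ a u' (θ + z.2)) α| ∂(ν.prod ν')
      ≤ ∫⁻ z, (ENNReal.ofReal (2 * r * √L) + ENNReal.ofReal (r * Real.exp (-L)) *
        epair χ a u u' α (((θ, θ) : G × G) + z)) ∂(ν.prod ν') := by
        apply lintegral_mono_ae
        rw [hprod]
        apply Measure.ae_smul_measure
        rw [ae_restrict_iff' (hB.prod hB')]
        exact Eventually.of_forall hle
    _ = ENNReal.ofReal (2 * r * √L) + ENNReal.ofReal (r * Real.exp (-L)) *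
        ∫⁻ z, epair χ a u u' α (((θ, θ) : G × G) + z) ∂(ν.prod ν') := by
        rw [lintegral_add_left measurable_const, lintegral_const_mul _ hmE]
        simp
    _ ≤ ENNReal.ofReal (2 * r * √L) + ENNReal.ofReal (r * Real.exp (-L)) *
        ENNReal.ofReal (Real.exp L) := by
        gcongr
        refine le_trans ?_ hW
        rw [hprod, lintegral_smul_measure, smul_eq_mul, mul_comm]
        gcongr
        refine (setLIntegral_le_lintegral _ _).trans ?_
        rw [lintegral_add_left_eq_self (fun z => epair χ a u u' α z)]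
        exact (stage_le a U p α hu hu').trans (stage_le_ctrl a U p α ⟨u, hu⟩ ⟨u', hu'⟩)
    _ = ENNReal.ofReal (2 * r * √L + r) := by
        rw [← ENNReal.ofReal_mul (by positivity), ← ENNReal.ofReal_add (by positivity) (by positivity)]
        congr 2
        rw [mul_assoc, ← Real.exp_add]
        simp

/-- One step of the chain, also for `r = 0`. -/
lemma chain_step' {μ : Measure G} [IsProbabilityMeasure μ] [μ.IsAddLeftInvariant] {χ : ι → G → ℂ}
    (h : IsCharSys χ) (a : ι → ℂ) (U : ℕ → Finset (ι → ℝ)) (p : ℕ)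
    (α : ι → ℝ) {u u' : ι → ℝ} (hu : u ∈ U p) (hu' : u' ∈ U (p + 1)) {B B' : Set G}
    (hB : MeasurableSet B) (hB' : MeasurableSet B') (θ : G) {r L : ℝ} (hr : 0 ≤ r) (hL : 1 ≤ L)
    (hB1 : μ B ≠ 0) (hB1' : μ B' ≠ 0)
    (hrr : ∀ x ∈ B, ∀ x' ∈ B', nrm (cf χ a u (θ + x) - cf χ a u' (θ + x')) ≤ r)
    (hW : ctrl μ χ a U α * ((U p).card * (U (p + 1)).card * 2 ^ (p + 2)) * ((μ B)⁻¹ * (μ B')⁻¹) ≤
      ENNReal.ofReal (Real.exp L)) :
    |∫ x, Y (cf χ a u (θ + x)) α ∂μ[|B] - ∫ x, Y (cf χ a u' (θ + x)) α ∂μ[|B']| ≤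
      (2 * √L + 1) * r := by
  apply le_of_forall_pos_le_add
  intro ε hε
  have hs : 0 < 2 * √L + 1 := by positivity
  have := chain_step h a U p α hu hu' hB hB' θ (r := r + ε / (2 * √L + 1)) (by positivity) hL hB1 hB1'
    (fun x hx x' hx' => (hrr x hx x' hx').trans (by
      have : 0 < ε / (2 * √L + 1) := by positivity
      linarith)) hW
  refine this.trans (le_of_eq ?_)
  field_simp

/-- difference vector -/
noncomputable def dv (χ : ι → G → ℂ) (a : ι → ℂ) (u : ι → ℝ) (x : G) : ι → ℂ :=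
  fun i => (u i : ℂ) * a i * (χ i x - 1)

lemma nrm_congr {c d : ι → ℂ} (h : ∀ i, ‖c i‖ = ‖d i‖) : nrm c = nrm d := by
  unfold nrm nsq
  simp only [h]

lemma nrm_dv (χ : ι → G → ℂ) (a : ι → ℂ) (u : ι → ℝ) (x : G) :
    nrm (dv χ a u x) = √(dsq χ (fun i => |u i| * ‖a i‖) x) := by
  unfold nrm nsq dv dsq
  congr 1
  apply Finset.sum_congr rfl
  intro i _
  rw [norm_mul, norm_mul, Complex.norm_real, Real.norm_eq_abs]
  ring

lemma nrm_cf_sub {χ : ι → G → ℂ} (h : IsCharSys χ) (a : ι → ℂ) (u : ι → ℝ) (θ x : G) :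
    nrm (cf χ a u (θ + x) - cf χ a u θ) = nrm (dv χ a u x) := by
  apply nrm_congr
  intro i
  simp only [Pi.sub_apply, cf, dv, h.map_add]
  have : (u i : ℂ) * a i * (χ i θ * χ i x) - (u i : ℂ) * a i * χ i θ =
      χ i θ * ((u i : ℂ) * a i * (χ i x - 1)) := by ring
  rw [this, norm_mul, h.norm_eq, one_mul]

lemma nrm_neg (c : ι → ℂ) : nrm (-c) = nrm c := nrm_congr fun i => by simp

lemma nrm_sub_comm (c d : ι → ℂ) : nrm (c - d) = nrm (d - c) := by
  rw [← nrm_neg, neg_sub]

lemma nrm_sub_le (c d e : ι → ℂ) : nrm (c - e) ≤ nrm (c - d) + nrm (d - e) := by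
  have : c - e = (c - d) + (d - e) := by abel
  rw [this]
  exact nrm_add_le _ _

/-- distance of two weights -/
noncomputable def wd (a : ι → ℂ) (w u : ι → ℝ) : ℝ := √(∑ i, ‖a i‖ ^ 2 * (w i - u i) ^ 2)

lemma wd_nonneg (a : ι → ℂ) (w u : ι → ℝ) : 0 ≤ wd a w u := Real.sqrt_nonneg _

lemma nrm_cf_wd {χ : ι → G → ℂ} (h : IsCharSys χ) (a : ι → ℂ) (w u : ι → ℝ) (θ : G) :
    nrm (cf χ a w θ - cf χ a u θ) = wd a w u := by
  unfold nrm nsq wd
  congr 1
  apply Finset.sum_congr rfl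
  intro i _
  have : (cf χ a w θ - cf χ a u θ) i = ((w i - u i : ℝ) : ℂ) * a i * χ i θ := by
    simp only [Pi.sub_apply, cf]; push_cast; ring
  rw [this, norm_mul, norm_mul, h.norm_eq, Complex.norm_real, Real.norm_eq_abs, mul_one, mul_pow,
    sq_abs]
  ring

lemma wd_tri (χ : ι → G → ℂ) (h : IsCharSys χ) (a : ι → ℂ) (w u u' : ι → ℝ) :
    wd a u u' ≤ wd a w u + wd a w u' := by
  rw [← nrm_cf_wd h a u u' 0, ← nrm_cf_wd h a w u 0, ← nrm_cf_wd h a w u' 0,
    nrm_sub_comm (cf χ a w 0) (cf χ a u 0)]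
  exact nrm_sub_le _ _ _

lemma nrm_dv_le {χ : ι → G → ℂ} (h : IsCharSys χ) (a : ι → ℂ) (w u : ι → ℝ) (x : G) :
    nrm (dv χ a u x) ≤ nrm (dv χ a w x) + 2 * wd a w u := by
  have h1 : nrm (dv χ a u x) ≤ nrm (dv χ a w x) + nrm (dv χ a u x - dv χ a w x) := by
    have : dv χ a u x = dv χ a w x + (dv χ a u x - dv χ a w x) := by abel
    conv_lhs => rw [this]
    exact nrm_add_le _ _
  refine h1.trans ?_
  gcongr
  have h2 : nrm (dv χ a u x - dv χ a w x) ≤ nrm (cf χ a u x - cf χ a w x) +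
      nrm (cf χ a u 0 - cf χ a w 0) := by
    have h0 : ∀ i, χ i 0 = 1 := by
      intro i
      have := h.map_add i 0 0
      rw [add_zero] at this
      have h3 : χ i 0 ≠ 0 := by
        intro h4
        have := h.norm_eq i 0
        rw [h4, norm_zero] at this
        exact zero_ne_one this
      exact (mul_left_cancel₀ h3 (by rw [← this, mul_one])).symm
    have : dv χ a u x - dv χ a w x = (cf χ a u x - cf χ a w x) + -(cf χ a u 0 - cf χ a w 0) := by
      funext i
      simp only [Pi.sub_apply, Pi.add_apply, Pi.neg_apply, cf, dv, h0]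
      ring
    rw [this]
    refine (nrm_add_le _ _).trans ?_
    rw [nrm_neg]
  rw [nrm_sub_comm (cf χ a u x), nrm_sub_comm (cf χ a u 0), nrm_cf_wd h, nrm_cf_wd h] at h2
  linarith

end chain

end Pool.Agent.Helper26.Bmoa
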