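import Pool.Agent.Helper26.Bmoa.Chain

set_option autoImplicit false
set_option linter.unusedSectionVars false

/-!
The chaining upper bound: summation of the steps.
-/

namespace Pool.Agent.Helper26.Bmoa

open MeasureTheory ProbabilityTheory Set Filter Topology
open scoped ENNReal NNReal

variable {G ι : Type} [AddCommGroup G] [MeasurableSpace G] [MeasurableAdd₂ G] [Fintype ι]

/-- the ball used at stage `p` -/
def bl (χ : ι → G → ℂ) (a : ι → ℂ) (u : ι → ℝ) (r : ℝ) : Set G :=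
  {x | dsq χ (fun i => |u i| * ‖a i‖) x ≤ r ^ 2}

lemma mem_bl {χ : ι → G → ℂ} {a : ι → ℂ} {u : ι → ℝ} {r : ℝ} (hr : 0 ≤ r) {x : G} :
    x ∈ bl χ a u r ↔ nrm (dv χ a u x) ≤ r := by
  rw [nrm_dv, bl, mem_ofPred_eq, Real.sqrt_le_left hr]

lemma measurableSet_bl {χ : ι → G → ℂ} (h : IsCharSys χ) (a : ι → ℂ) (u : ι → ℝ) (r : ℝ) :
    MeasurableSet (bl χ a u r) := measurableSet_ball h _ _

/-- the radius of the target weight -/
noncomputable def rw' (μ : Measure G) (χ : ι → G → ℂ) (a : ι → ℂ) (w : ι → ℝ) (p : ℕ) : ℝ :=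
  rad μ χ (fun i => |w i| * ‖a i‖) p

lemma measure_bl {μ : Measure G} [IsProbabilityMeasure μ] {χ : ι → G → ℂ} (h : IsCharSys χ)
    (a : ι → ℂ) (w u : ι → ℝ) (p : ℕ) :
    ENNReal.ofReal ((1 / 2) ^ (2 ^ p)) ≤ μ (bl χ a u (rw' μ χ a w p + 2 * wd a w u)) := by
  have h0 : 0 ≤ rw' μ χ a w p := rad_nonneg _ _ _ _
  have h1 : 0 ≤ wd a w u := wd_nonneg _ _ _
  refine (rad_spec h (fun i => |w i| * ‖a i‖) p).trans (measure_mono fun x hx => ?_)
  rw [mem_bl (by positivity)]
  have h2 : x ∈ bl χ a w (rw' μ χ a w p) := hx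
  rw [mem_bl h0] at h2
  have := nrm_dv_le h a w u x
  linarith

lemma inv_measure_le {m : ℝ≥0∞} {p : ℕ} (h : ENNReal.ofReal ((1 / 2) ^ (2 ^ p)) ≤ m) :
    m⁻¹ ≤ ENNReal.ofReal (2 ^ (2 ^ p)) := by
  rw [ENNReal.inv_le_iff_inv_le]
  refine le_trans ?_ h
  rw [← ENNReal.ofReal_inv_of_pos (by positivity)]
  apply ENNReal.ofReal_le_ofReal
  rw [one_div, inv_pow]

lemma hW_aux {W : ℝ≥0∞} (hW : W < ∞) {c p n1 n2 : ℕ} (h1 : (n1 : ℝ) ≤ 2 ^ (c * 2 ^ p))
    (h2 : (n2 : ℝ) ≤ 2 ^ (c * 2 ^ (p + 1))) {m1 m2 : ℝ≥0∞} (hm1 : m1 ≤ ENNReal.ofReal (2 ^ (2 ^ p)))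
    (hm2 : m2 ≤ ENNReal.ofReal (2 ^ (2 ^ (p + 1)))) :
    W * ((n1 : ℝ≥0∞) * n2 * 2 ^ (p + 2)) * (m1 * m2) ≤
      ENNReal.ofReal (Real.exp (Real.log (1 + W.toReal) + (3 * c + 5) * 2 ^ p)) := by
  have hK : (0:ℝ) < 1 + W.toReal := by positivity
  have e1 : W ≤ ENNReal.ofReal (1 + W.toReal) := by
    rw [← ENNReal.ofReal_toReal hW.ne]
    rw [ENNReal.toReal_ofReal ENNReal.toReal_nonneg]
    exact ENNReal.ofReal_le_ofReal (by linarith)
  have e2 : (n1 : ℝ≥0∞) ≤ ENNReal.ofReal (2 ^ (c * 2 ^ p)) := by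
    rw [← ENNReal.ofReal_natCast]; exact ENNReal.ofReal_le_ofReal h1
  have e3 : (n2 : ℝ≥0∞) ≤ ENNReal.ofReal (2 ^ (c * 2 ^ (p + 1))) := by
    rw [← ENNReal.ofReal_natCast]; exact ENNReal.ofReal_le_ofReal h2
  have e4 : (2 : ℝ≥0∞) ^ (p + 2) = ENNReal.ofReal (2 ^ (p + 2)) := by
    rw [ENNReal.ofReal_pow (by norm_num)]; simp
  calc _ ≤ ENNReal.ofReal (1 + W.toReal) * (ENNReal.ofReal (2 ^ (c * 2 ^ p)) *
        ENNReal.ofReal (2 ^ (c * 2 ^ (p + 1))) * ENNReal.ofReal (2 ^ (p + 2))) *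
        (ENNReal.ofReal (2 ^ (2 ^ p)) * ENNReal.ofReal (2 ^ (2 ^ (p + 1)))) := by
        rw [← e4]
        gcongr
    _ = ENNReal.ofReal ((1 + W.toReal) * 2 ^ (c * 2 ^ p + c * 2 ^ (p + 1) + (p + 2) + 2 ^ p +
        2 ^ (p + 1))) := by
        rw [← ENNReal.ofReal_mul (by positivity), ← ENNReal.ofReal_mul (by positivity),
          ← ENNReal.ofReal_mul (by positivity), ← ENNReal.ofReal_mul (by positivity),
          ← ENNReal.ofReal_mul (by positivity)]
        congr 1
        rw [pow_add, pow_add, pow_add, pow_add]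
        ring
    _ ≤ _ := by
        apply ENNReal.ofReal_le_ofReal
        rw [Real.exp_add, Real.exp_log hK]
        gcongr
        have h5 : c * 2 ^ p + c * 2 ^ (p + 1) + (p + 2) + 2 ^ p + 2 ^ (p + 1) ≤ (3 * c + 5) * 2 ^ p := by
          have : p + 2 ≤ 2 * 2 ^ p := by
            have := Nat.lt_two_pow_self (n := p)
            omega
          rw [pow_succ]
          nlinarith
        calc (2 : ℝ) ^ (c * 2 ^ p + c * 2 ^ (p + 1) + (p + 2) + 2 ^ p + 2 ^ (p + 1))
            ≤ 2 ^ ((3 * c + 5) * 2 ^ p) := pow_le_pow_right₀ (by norm_num) h5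
          _ ≤ Real.exp 1 ^ ((3 * c + 5) * 2 ^ p) := by
              apply pow_le_pow_left₀ (by norm_num)
              have := Real.add_one_le_exp 1
              linarith
          _ = _ := by
              rw [← Real.exp_nat_mul]
              congr 1
              push_cast
              ring

lemma sqrt_add_le {x y : ℝ} (hx : 0 ≤ x) (hy : 0 ≤ y) : √(x + y) ≤ √x + √y := by
  rw [Real.sqrt_le_left (by positivity)]
  nlinarith [Real.sq_sqrt hx, Real.sq_sqrt hy, mul_nonneg (Real.sqrt_nonneg x) (Real.sqrt_nonneg y)]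

/-- **The chaining bound.** -/
theorem chain {μ : Measure G} [IsProbabilityMeasure μ] [μ.IsAddLeftInvariant] {χ : ι → G → ℂ}
    (h : IsCharSys χ) (a : ι → ℂ) (U : ℕ → Finset (ι → ℝ)) (c : ℕ)
    (hU : ∀ p, ((U p).card : ℝ) ≤ 2 ^ (c * 2 ^ p)) (hU0 : U 0 = {0}) (α : ι → ℝ)
    (hα : ctrl μ χ a U α < ∞) (w : ι → ℝ) (u : ℕ → ι → ℝ) (hu : ∀ p, u p ∈ U p) (S : ℝ)
    (hS : ∀ P, ∑ p ∈ Finset.range P, √(2 ^ p) * (rw' μ χ a w p + wd a w (u p)) ≤ S) (θ : G) :
    |Y (cf χ a w θ) α| ≤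
      18 * √(3 * c + 5) * (1 + √(Real.log (1 + (ctrl μ χ a U α).toReal))) * S := by
  set W := ctrl μ χ a U α with hW
  set l := √(Real.log (1 + W.toReal)) with hl
  have hW0 : (0:ℝ) ≤ W.toReal := ENNReal.toReal_nonneg
  have hlog : 0 ≤ Real.log (1 + W.toReal) := Real.log_nonneg (by linarith)
  set ρ : ℕ → ℝ := fun p => rw' μ χ a w p with hρ
  set ε : ℕ → ℝ := fun p => wd a w (u p) with hε
  have hρ0 : ∀ p, 0 ≤ ρ p := fun p => rad_nonneg _ _ _ _
  have hε0 : ∀ p, 0 ≤ ε p := fun p => wd_nonneg _ _ _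
  have hS0 : 0 ≤ S := by simpa using hS 0
  set B : ℕ → Set G := fun p => bl χ a (u p) (ρ p + 2 * ε p) with hB
  have hBm : ∀ p, MeasurableSet (B p) := fun p => measurableSet_bl h _ _ _
  have hB1 : ∀ p, ENNReal.ofReal ((1 / 2) ^ (2 ^ p)) ≤ μ (B p) := fun p => measure_bl h a w (u p) p
  have hB2 : ∀ p, μ (B p) ≠ 0 := fun p => by
    have : 0 < ENNReal.ofReal ((1 / 2) ^ (2 ^ p)) := ENNReal.ofReal_pos.2 (by positivity)
    exact (this.trans_le (hB1 p)).ne'
  set A : ℕ → ℝ := fun p => ∫ x, Y (cf χ a (u p) (θ + x)) α ∂μ[|B p] with hA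
  set R : ℕ → ℝ := fun p => (ρ p + 3 * ε p) + (ρ (p + 1) + 3 * ε (p + 1)) with hR
  -- one step
  have step : ∀ p, |A p - A (p + 1)| ≤ 3 * √(3 * c + 5) * (1 + l) * (√(2 ^ p) * R p) := by
    intro p
    set L := Real.log (1 + W.toReal) + (3 * c + 5) * 2 ^ p with hL
    have hL1 : 1 ≤ L := by
      have h1 : (1:ℝ) ≤ 2 ^ p := one_le_pow₀ (by norm_num)
      have h2 : (0:ℝ) ≤ c := Nat.cast_nonneg c
      have h3 : (5:ℝ) * 1 ≤ (3 * c + 5) * 2 ^ p := by
        apply mul_le_mul _ h1 (by norm_num) (by positivity)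
        linarith
      linarith
    have hstep := chain_step' h a U p α (hu p) (hu (p + 1)) (hBm p) (hBm (p + 1)) θ
      (r := R p) (L := L) (by have := hρ0 p; have := hε0 p; have := hρ0 (p+1); have := hε0 (p+1); positivity)
      hL1 (hB2 p) (hB2 (p + 1)) (by
        intro x hx x' hx'
        rw [mem_bl (by have := hρ0 p; have := hε0 p; positivity)] at hx
        rw [mem_bl (by have := hρ0 (p+1); have := hε0 (p+1); positivity)] at hx'
        have t1 := nrm_sub_le (cf χ a (u p) (θ + x)) (cf χ a (u p) θ) (cf χ a (u (p + 1)) (θ + x'))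
        have t2 := nrm_sub_le (cf χ a (u p) θ) (cf χ a (u (p + 1)) θ) (cf χ a (u (p + 1)) (θ + x'))
        rw [nrm_cf_sub h] at t1
        rw [nrm_cf_wd h, nrm_sub_comm (cf χ a (u (p + 1)) θ), nrm_cf_sub h] at t2
        have t3 := wd_tri χ h a w (u p) (u (p + 1))
        simp only [hR]
        linarith)
      (hW_aux hα (hU p) (hU (p + 1)) (inv_measure_le (hB1 p)) (inv_measure_le (hB1 (p + 1))))
    refine hstep.trans ?_
    have hR0 : 0 ≤ R p := by
      have := hρ0 p; have := hε0 p; have := hρ0 (p+1); have := hε0 (p+1); positivity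
    rw [← mul_assoc]
    apply mul_le_mul_of_nonneg_right _ hR0
    have s1 : √L ≤ l + √(3 * c + 5) * √(2 ^ p) := by
      rw [hL, hl, ← Real.sqrt_mul (by positivity)]
      exact sqrt_add_le hlog (by positivity)
    have s2 : 1 ≤ √(3 * c + 5 : ℝ) := Real.one_le_sqrt.2 (by
      have h2 : (0:ℝ) ≤ c := Nat.cast_nonneg c
      linarith)
    have s3 : 1 ≤ √((2:ℝ) ^ p) := Real.one_le_sqrt.2 (one_le_pow₀ (by norm_num))
    have s4 : 0 ≤ l := Real.sqrt_nonneg _
    have s5 : 1 ≤ √(3 * c + 5 : ℝ) * √(2 ^ p) := by nlinarith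
    nlinarith
  have step0 : A 0 = 0 := by
    have : u 0 = 0 := by
      have := hu 0
      rw [hU0] at this
      simpa using this
    simp only [hA, this]
    have : ∀ x, Y (cf χ a (0 : ι → ℝ) (θ + x)) α = 0 := by
      intro x
      simp [Y, cf]
    simp [this]
  have tot : ∀ P, |A P| ≤ 18 * √(3 * c + 5) * (1 + l) * S := by
    intro P
    have h1 : |A P| ≤ ∑ p ∈ Finset.range P, |A p - A (p + 1)| := by
      induction P with
      | zero => simp [step0]
      | succ P ih =>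
        rw [Finset.sum_range_succ]
        have := abs_sub_abs_le_abs_sub (A (P + 1)) (A P)
        rw [abs_sub_comm (A (P + 1))] at this
        linarith
    refine h1.trans ((Finset.sum_le_sum fun p _ => step p).trans ?_)
    rw [← Finset.mul_sum]
    have h2 : ∑ p ∈ Finset.range P, √(2 ^ p) * R p ≤ 6 * S := by
      have h3 : ∑ p ∈ Finset.range P, √(2 ^ p) * (ρ p + 3 * ε p) ≤ 3 * S := by
        refine le_trans ?_ (mul_le_mul_of_nonneg_left (hS P) (by norm_num))
        rw [Finset.mul_sum]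
        apply Finset.sum_le_sum
        intro p _
        have := hρ0 p
        have : √((2:ℝ) ^ p) * (ρ p + 3 * ε p) ≤ √(2 ^ p) * (3 * (ρ p + ε p)) := by
          gcongr
          linarith
        refine this.trans (le_of_eq ?_)
        simp only [hρ, hε]
        ring
      have h4 : ∑ p ∈ Finset.range P, √(2 ^ p) * (ρ (p + 1) + 3 * ε (p + 1)) ≤ 3 * S := by
        refine le_trans ?_ (mul_le_mul_of_nonneg_left (hS (P + 1)) (by norm_num))
        rw [Finset.sum_range_succ', mul_add, Finset.mul_sum]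
        have : 0 ≤ 3 * (√(2 ^ 0) * (rw' μ χ a w 0 + wd a w (u 0))) := by
          have := hρ0 0
          have := hε0 0
          positivity
        refine le_trans ?_ (le_add_of_nonneg_right this)
        apply Finset.sum_le_sum
        intro p _
        have h5 := hρ0 (p + 1)
        have h6 := hε0 (p + 1)
        have : √((2:ℝ) ^ p) * (ρ (p + 1) + 3 * ε (p + 1)) ≤
            √(2 ^ (p + 1)) * (3 * (ρ (p + 1) + ε (p + 1))) := by
          apply mul_le_mul _ (by linarith) (by positivity) (Real.sqrt_nonneg _)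
          apply Real.sqrt_le_sqrt
          exact pow_le_pow_right₀ (by norm_num) (by omega)
        refine this.trans (le_of_eq ?_)
        simp only [hρ, hε]
        ring
      have : ∑ p ∈ Finset.range P, √(2 ^ p) * R p = ∑ p ∈ Finset.range P, √(2 ^ p) * (ρ p + 3 * ε p) +
          ∑ p ∈ Finset.range P, √(2 ^ p) * (ρ (p + 1) + 3 * ε (p + 1)) := by
        rw [← Finset.sum_add_distrib]
        apply Finset.sum_congr rfl
        intro p _
        simp only [hR]
        ring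
      rw [this]
      linarith
    have h7 : 0 ≤ 3 * √(3 * c + 5) * (1 + l) := by positivity
    calc _ ≤ 3 * √(3 * c + 5) * (1 + l) * (6 * S) := mul_le_mul_of_nonneg_left h2 h7
      _ = _ := by ring
  -- the limit
  have lim : ∀ P, |Y (cf χ a w θ) α - A P| ≤ √(Fintype.card ι) * (ρ P + 3 * ε P) := by
    intro P
    have : IsProbabilityMeasure μ[|B P] := cond_isProbabilityMeasure (hB2 P)
    have m1 : Measurable (fun x => Y (cf χ a (u P) (θ + x)) α) :=
      (measurable_Ycf h a (u P) α).comp (measurable_const_add θ)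
    have i1 : Integrable (fun x => Y (cf χ a (u P) (θ + x)) α) μ[|B P] :=
      Integrable.of_bound m1.aestronglyMeasurable (√(Fintype.card ι) * nrm (fun i => (u P i : ℂ) * a i))
        (Eventually.of_forall fun x => by
          rw [Real.norm_eq_abs, ← nrm_cf h a (u P) (θ + x)]
          exact abs_Y_le _ _)
    have e1 : Y (cf χ a w θ) α - A P =
        ∫ x, (Y (cf χ a w θ) α - Y (cf χ a (u P) (θ + x)) α) ∂μ[|B P] := by
      rw [integral_sub (integrable_const _) i1]
      simp [hA]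
    rw [e1, ← Real.norm_eq_abs]
    have := norm_integral_le_of_norm_le_const (μ := μ[|B P])
      (f := fun x => Y (cf χ a w θ) α - Y (cf χ a (u P) (θ + x)) α)
      (C := √(Fintype.card ι) * (ρ P + 3 * ε P)) (by
        have hmem : ∀ᵐ x ∂μ[|B P], x ∈ B P := ae_cond_mem (hBm P)
        filter_upwards [hmem] with x hx
        rw [mem_bl (by have := hρ0 P; have := hε0 P; positivity)] at hx
        rw [Real.norm_eq_abs, ← Y_sub]
        refine (abs_Y_le _ _).trans ?_
        gcongr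
        have t1 := nrm_sub_le (cf χ a w θ) (cf χ a (u P) θ) (cf χ a (u P) (θ + x))
        rw [nrm_cf_wd h, nrm_sub_comm (cf χ a (u P) θ), nrm_cf_sub h] at t1
        simp only [hε] at hx ⊢
        linarith)
    simpa using this
  apply le_of_forall_pos_le_add
  intro δ hδ
  -- choose `P` large
  have hsmall : Tendsto (fun P : ℕ => √(Fintype.card ι) * (3 * S / √((2:ℝ) ^ P))) atTop (𝓝 0) := by
    have h1 : Tendsto (fun P : ℕ => √((2:ℝ) ^ P)) atTop atTop :=
      Real.tendsto_sqrt_atTop.comp (tendsto_pow_atTop_atTop_of_one_lt (by norm_num))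
    have h2 := (tendsto_const_nhds (x := 3 * S)).div_atTop h1
    simpa using h2.const_mul (√(Fintype.card ι : ℝ))
  obtain ⟨P, hP⟩ := (hsmall.eventually (gt_mem_nhds hδ)).exists
  have h8 : ρ P + 3 * ε P ≤ 3 * S / √((2:ℝ) ^ P) := by
    rw [le_div_iff₀ (by positivity)]
    have h9 := hS (P + 1)
    rw [Finset.sum_range_succ] at h9
    have h10 : 0 ≤ ∑ p ∈ Finset.range P, √((2:ℝ) ^ p) * (rw' μ χ a w p + wd a w (u p)) :=
      Finset.sum_nonneg fun p _ => mul_nonneg (Real.sqrt_nonneg _) (add_nonneg (hρ0 p) (hε0 p))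
    have h11 := hρ0 P
    have h12 : (ρ P + 3 * ε P) * √(2 ^ P) ≤ 3 * (√(2 ^ P) * (ρ P + ε P)) := by
      have := Real.sqrt_nonneg ((2:ℝ) ^ P)
      nlinarith
    refine h12.trans ?_
    simp only [hρ, hε]
    linarith
  have h13 := abs_sub_abs_le_abs_sub (Y (cf χ a w θ) α) (A P)
  have h14 := lim P
  have h15 := tot P
  have h16 : √(Fintype.card ι) * (ρ P + 3 * ε P) ≤ δ :=
    (mul_le_mul_of_nonneg_left h8 (Real.sqrt_nonneg _)).trans hP.le
  linarith

end Pool.Agent.Helper26.Bmoa
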