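import Mathlib

set_option autoImplicit false

/-!
Deterministic estimates for trigonometric polynomials, part 1: Bernstein's inequality and orthogonality.
-/

namespace Pool.Agent.Helper26.Bmoa.Det

open MeasureTheory Finset intervalIntegral

/-- `E x = exp (i x)` -/
noncomputable def E (x : ℝ) : ℂ := Complex.exp (Complex.I * x)

lemma norm_E (x : ℝ) : ‖E x‖ = 1 := by
  rw [E, mul_comm, Complex.norm_exp_ofReal_mul_I]

lemma E_add (x y : ℝ) : E (x + y) = E x * E y := by
  rw [E, E, E, ← Complex.exp_add]; congr 1; push_cast; ring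

lemma E_zero : E 0 = 1 := by simp [E]

lemma conj_E (x : ℝ) : (starRingEnd ℂ) (E x) = E (-x) := by
  rw [E, E, ← Complex.exp_conj]; congr 1; simp

lemma E_two_pi (m : ℤ) : E (2 * Real.pi * m) = 1 := by
  rw [E]
  have : Complex.I * ((2 * Real.pi * m : ℝ) : ℂ) = m * (2 * Real.pi * Complex.I) := by
    push_cast; ring
  rw [this, Complex.exp_int_mul_two_pi_mul_I]

lemma continuous_E : Continuous E := by unfold E; fun_prop

lemma hasDerivAt_E (c x : ℝ) : HasDerivAt (fun t : ℝ => E (c * t)) (Complex.I * c * E (c * x)) x := by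
  have h1 : HasDerivAt (fun t : ℝ => Complex.I * ((c * t : ℝ) : ℂ)) (Complex.I * c) x := by
    have h2 : HasDerivAt (fun t : ℝ => c * t) c x := by simpa using (hasDerivAt_id x).const_mul c
    exact (h2.ofReal_comp).const_mul Complex.I
  have := h1.cexp
  unfold E
  convert this using 1
  ring

/-- orthogonality on an interval of length `2π/D` -/
lemma integral_E {D : ℝ} (hD : 0 < D) (x : ℝ) (m : ℤ) :
    ∫ t in x..(x + 2 * Real.pi / D), E (m * D * t) = if m = 0 then ((2 * Real.pi / D : ℝ) : ℂ) else 0 := by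
  split_ifs with h
  · subst h
    simp [E_zero]
  · have hm : (m : ℝ) ≠ 0 := by exact_mod_cast h
    have hc : Complex.I * (m * D : ℂ) ≠ 0 := by
      refine mul_ne_zero Complex.I_ne_zero (mul_ne_zero (by exact_mod_cast h) (by exact_mod_cast hD.ne'))
    have e1 : ∀ t : ℝ, E (m * D * t) = Complex.exp ((Complex.I * (m * D : ℂ)) * t) := by
      intro t
      rw [E]; congr 1; push_cast; ring
    simp_rw [e1]
    rw [integral_exp_mul_complex hc]
    have e2 : Complex.exp (Complex.I * (m * D : ℂ) * ((x + 2 * Real.pi / D : ℝ) : ℂ)) =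
        Complex.exp (Complex.I * (m * D : ℂ) * x) := by
      rw [← e1, ← e1]
      have : (m : ℝ) * D * (x + 2 * Real.pi / D) = m * D * x + 2 * Real.pi * m := by
        field_simp
      rw [this, E_add, E_two_pi, mul_one]
    rw [e2, sub_self, zero_div]

lemma integral_E' (m : ℤ) :
    ∫ t in (0:ℝ)..(2 * Real.pi), E (m * t) = if m = 0 then ((2 * Real.pi : ℝ) : ℂ) else 0 := by
  have := integral_E (D := 1) one_pos 0 m
  simpa using this

/-- Bernstein's inequality. -/
lemma bernstein {κ : Type} (s : Finset κ) (x : κ → ℂ) (r : κ → ℕ) (R : ℕ) (hr : ∀ k ∈ s, r k ≤ R)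
    (B : ℝ) (hB : ∀ θ : ℝ, ‖∑ k ∈ s, x k * E (r k * θ)‖ ≤ B) (θ : ℝ) :
    ‖∑ k ∈ s, x k * (r k * E (r k * θ))‖ ≤ R * B := by
  set K : ℝ → ℂ := fun t => ∑ l ∈ range R, E (l * t) with hK
  have hKc : Continuous K := by
    simp only [hK]
    exact continuous_finsetSum _ fun l _ => continuous_E.comp (by fun_prop)
  -- the kernel
  have hKK : ∀ t, (((‖K t‖ ^ 2 : ℝ)) : ℂ) = ∑ l ∈ range R, ∑ l' ∈ range R, E ((0 + (l : ℤ) - l' : ℤ) * t) := by
    intro t
    push_cast
    rw [← Complex.conj_mul', map_sum, sum_mul_sum]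
    rw [sum_comm]
    apply sum_congr rfl
    intro l _
    apply sum_congr rfl
    intro l' _
    rw [conj_E, ← E_add]
    congr 1
    push_cast
    ring
  have hint : ∀ m : ℤ, IntervalIntegrable (fun t : ℝ => E (m * t)) volume 0 (2 * Real.pi) := fun m =>
    (continuous_E.comp (by fun_prop)).intervalIntegrable _ _
  have hc2 : ∀ (d : ℤ) (l : ℕ), Continuous (fun t : ℝ => ∑ l' ∈ range R, E ((d + l - l' : ℤ) * t)) :=
    fun d l => continuous_finsetSum _ fun l' _ => continuous_E.comp (by fun_prop)
  have hint2 : ∀ (d : ℤ) (l : ℕ), IntervalIntegrable (fun t : ℝ => ∑ l' ∈ range R, E ((d + l - l' : ℤ) * t))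
      volume 0 (2 * Real.pi) := fun d l => (hc2 d l).intervalIntegrable _ _
  -- counting
  have hcount : ∀ d : ℕ, d ≤ R → (∑ l ∈ range R, ∑ l' ∈ range R,
      if ((d : ℤ) + l - l' : ℤ) = 0 then (1 : ℂ) else 0) = ((R - d : ℕ) : ℂ) := by
    intro d hd
    have h1 : ∀ l ∈ range R, (∑ l' ∈ range R, if ((d : ℤ) + l - l' : ℤ) = 0 then (1 : ℂ) else 0) =
        if l < R - d then 1 else 0 := by
      intro l _
      split_ifs with h
      · rw [sum_eq_single (d + l)]
        · rw [if_pos (by push_cast; ring)]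
        · intro b _ hb
          rw [if_neg]
          intro h2
          apply hb
          omega
        · intro h2
          exact absurd (mem_range.2 (by omega)) h2
      · apply sum_eq_zero
        intro b hb
        rw [mem_range] at hb
        rw [if_neg]
        omega
    rw [sum_congr rfl h1, ← sum_filter, sum_const, nsmul_eq_mul, mul_one]
    congr 1
    have : (range R).filter (fun l => l < R - d) = range (R - d) := by
      ext l
      simp only [mem_filter, mem_range]
      omega
    rw [this, card_range]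
  have hmass : ∫ t in (0:ℝ)..(2 * Real.pi), ‖K t‖ ^ 2 = 2 * Real.pi * R := by
    have h1 : ((∫ t in (0:ℝ)..(2 * Real.pi), ‖K t‖ ^ 2 : ℝ) : ℂ) = ((2 * Real.pi * R : ℝ) : ℂ) := by
      rw [← intervalIntegral.integral_ofReal]
      simp_rw [hKK]
      rw [integral_finsetSum fun l _ => hint2 _ _]
      have h2 : ∀ l ∈ range R, ∫ t in (0:ℝ)..(2 * Real.pi), ∑ l' ∈ range R, E ((0 + (l : ℤ) - l' : ℤ) * t) =
          ∑ l' ∈ range R, if ((0 : ℕ) : ℤ) + l - l' = 0 then ((2 * Real.pi : ℝ) : ℂ) else 0 := by
        intro l _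
        rw [integral_finsetSum fun l' _ => hint _]
        apply sum_congr rfl
        intro l' _
        rw [integral_E']
        simp
      rw [sum_congr rfl h2]
      have h3 := hcount 0 (Nat.zero_le R)
      have h4 : ∑ l ∈ range R, ∑ l' ∈ range R,
          (if ((0 : ℕ) : ℤ) + l - l' = 0 then ((2 * Real.pi : ℝ) : ℂ) else 0) =
          ((2 * Real.pi : ℝ) : ℂ) * ∑ l ∈ range R, ∑ l' ∈ range R,
          (if ((0 : ℕ) : ℤ) + l - l' = 0 then (1 : ℂ) else 0) := by
        rw [mul_sum]
        apply sum_congr rfl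
        intro l _
        rw [mul_sum]
        apply sum_congr rfl
        intro l' _
        split_ifs <;> simp
      rw [h4, h3]
      simp
    exact_mod_cast h1
  -- reproduction
  have hrep : ((2 * Real.pi : ℝ) : ℂ) * ∑ k ∈ s, x k * (r k * E (r k * θ)) =
      ∫ t in (0:ℝ)..(2 * Real.pi), (∑ k ∈ s, x k * E (r k * (θ - t))) * E (R * t) * ((‖K t‖ ^ 2 : ℝ) : ℂ) := by
    have h1 : ∀ t, (∑ k ∈ s, x k * E (r k * (θ - t))) * E (R * t) * ((‖K t‖ ^ 2 : ℝ) : ℂ) =
        ∑ k ∈ s, x k * E (r k * θ) * ∑ l ∈ range R, ∑ l' ∈ range R,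
          E ((((R : ℤ) - r k) + l - l' : ℤ) * t) := by
      intro t
      rw [hKK, sum_mul, sum_mul]
      apply sum_congr rfl
      intro k _
      have h2 : x k * E (r k * (θ - t)) * E (R * t) = x k * E (r k * θ) * E (((R : ℝ) - r k) * t) := by
        rw [mul_assoc, ← E_add, mul_assoc, ← E_add]
        congr 2
        ring
      rw [h2, mul_assoc (x k * E (r k * θ)), mul_sum]
      congr 1
      apply sum_congr rfl
      intro l _
      rw [mul_sum]
      apply sum_congr rfl
      intro l' _
      rw [← E_add]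
      congr 1
      push_cast
      ring
    simp_rw [h1]
    rw [integral_finsetSum fun k _ => ((continuous_finsetSum _ fun l _ => hc2 _ l).intervalIntegrable _ _).const_mul _]
    rw [mul_sum]
    apply sum_congr rfl
    intro k hk
    rw [intervalIntegral.integral_const_mul, integral_finsetSum fun l _ => hint2 _ _]
    have h3 : ∀ l ∈ range R, ∫ t in (0:ℝ)..(2 * Real.pi), ∑ l' ∈ range R,
        E ((((R : ℤ) - r k) + l - l' : ℤ) * t) = ∑ l' ∈ range R,
          if (((R - r k : ℕ) : ℤ) + l - l') = 0 then ((2 * Real.pi : ℝ) : ℂ) else 0 := by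
      intro l _
      rw [integral_finsetSum fun l' _ => hint _]
      apply sum_congr rfl
      intro l' _
      rw [integral_E']
      congr 1
      have := hr k hk
      rw [Nat.cast_sub this]
    rw [sum_congr rfl h3]
    have h4 := hcount (R - r k) (Nat.sub_le _ _)
    have h5 : ∑ l ∈ range R, ∑ l' ∈ range R,
        (if ((R - r k : ℕ) : ℤ) + l - l' = 0 then ((2 * Real.pi : ℝ) : ℂ) else 0) =
        ((2 * Real.pi : ℝ) : ℂ) * ∑ l ∈ range R, ∑ l' ∈ range R,
        (if ((R - r k : ℕ) : ℤ) + l - l' = 0 then (1 : ℂ) else 0) := by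
      rw [mul_sum]
      apply sum_congr rfl
      intro l _
      rw [mul_sum]
      apply sum_congr rfl
      intro l' _
      split_ifs <;> simp
    rw [h5, h4]
    have h6 : R - (R - r k) = r k := by
      have := hr k hk
      omega
    rw [h6]
    ring
  have hpi : 0 < 2 * Real.pi := by positivity
  have h7 : 2 * Real.pi * ‖∑ k ∈ s, x k * (r k * E (r k * θ))‖ ≤ 2 * Real.pi * (R * B) := by
    have h8 : 2 * Real.pi * ‖∑ k ∈ s, x k * (r k * E (r k * θ))‖ =
        ‖((2 * Real.pi : ℝ) : ℂ) * ∑ k ∈ s, x k * (r k * E (r k * θ))‖ := by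
      rw [norm_mul, Complex.norm_real, Real.norm_of_nonneg hpi.le]
    rw [h8, hrep]
    calc _ ≤ ∫ t in (0:ℝ)..(2 * Real.pi), B * ‖K t‖ ^ 2 := by
          apply norm_integral_le_of_norm_le hpi.le
          · filter_upwards with t _
            rw [norm_mul, norm_mul, norm_E, mul_one, Complex.norm_real, Real.norm_of_nonneg (by positivity)]
            exact mul_le_mul_of_nonneg_right (hB _) (by positivity)
          · exact ((hKc.norm.pow 2).const_mul B).intervalIntegrable _ _
      _ = _ := by
          rw [intervalIntegral.integral_const_mul, hmass]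
          ring
  exact le_of_mul_le_mul_left h7 hpi

end Pool.Agent.Helper26.Bmoa.Det
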