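import Mathlib
import Pool.Agent.Helper26.Bmoa.Rad
import Pool.Agent.Helper26.Bmoa.Det1

set_option autoImplicit false

/-!
Specialisation to the circle.
-/

namespace Pool.Agent.Helper26.Bmoa.Circ

open MeasureTheory Set Filter Topology Det
open scoped ENNReal NNReal

local instance factTwoPi : Fact (0 < 2 * Real.pi) := ⟨Real.two_pi_pos⟩

/-- the circle -/
abbrev T : Type := AddCircle (2 * Real.pi)

/-- normalised Lebesgue measure on the circle -/
noncomputable def hm : Measure T := AddCircle.haarAddCircle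

instance : IsProbabilityMeasure hm := by unfold hm; infer_instance
instance : hm.IsAddLeftInvariant := by unfold hm; infer_instance

/-- the characters `e^{ikx}`, `k < N` -/
noncomputable def ck (N : ℕ) (k : Fin N) (x : T) : ℂ := fourier ((k : ℕ) : ℤ) x

lemma ck_coe (N : ℕ) (k : Fin N) (t : ℝ) : ck N k (t : T) = E ((k : ℕ) * t) := by
  unfold ck E
  rw [fourier_coe_apply]
  congr 1
  push_cast
  field_simp

lemma isCharSys (N : ℕ) : IsCharSys (ck N) := by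
  refine ⟨fun k => ?_, fun k x => ?_, fun k x y => ?_⟩
  · exact (fourier ((k : ℕ) : ℤ)).continuous.measurable
  · unfold ck; rw [fourier_apply]; exact Circle.norm_coe _
  · unfold ck; rw [fourier_apply, fourier_apply, fourier_apply, smul_add, AddCircle.toCircle_add, Circle.coe_mul]

/-- normalised measure of a set of the circle -/
lemma hm_apply (S : Set T) (hS : MeasurableSet S) :
    hm S = (ENNReal.ofReal (2 * Real.pi))⁻¹ * volume (Icc 0 (2 * Real.pi) ∩ ((fun t : ℝ => (t : T)) ⁻¹' S)) := by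
  have h1 : (volume : Measure T) S = ENNReal.ofReal (2 * Real.pi) * hm S := by
    rw [AddCircle.volume_eq_smul_haarAddCircle]
    rfl
  have h2 := AddCircle.add_projection_respects_measure (T := 2 * Real.pi) 0 hS
  rw [h1] at h2
  have h3 : volume ((fun t : ℝ => (t : T)) ⁻¹' S ∩ Ioc 0 (0 + 2 * Real.pi)) =
      volume (Icc 0 (2 * Real.pi) ∩ ((fun t : ℝ => (t : T)) ⁻¹' S)) := by
    rw [zero_add, inter_comm]
    apply measure_congr
    exact (Ioc_ae_eq_Icc).inter (ae_eq_refl _)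
  have h4 : ENNReal.ofReal (2 * Real.pi) ≠ 0 := by simp [Real.pi_pos]
  have h5 : (QuotientAddGroup.mk ⁻¹' S ∩ Ioc 0 (0 + 2 * Real.pi) : Set ℝ) =
    ((fun t : ℝ => (t : T)) ⁻¹' S ∩ Ioc 0 (0 + 2 * Real.pi)) := rfl
  rw [h5, h3] at h2
  rw [← h2, ← mul_assoc, ENNReal.inv_mul_cancel h4 ENNReal.ofReal_ne_top, one_mul]

/-- the squared distance on the line -/
noncomputable def dl (N : ℕ) (b : Fin N → ℝ) (t : ℝ) : ℝ := ∑ k, b k ^ 2 * ‖E ((k : ℕ) * t) - 1‖ ^ 2

lemma dsq_coe (N : ℕ) (b : Fin N → ℝ) (t : ℝ) : dsq (ck N) b (t : T) = dl N b t := by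
  unfold dsq dl
  apply Finset.sum_congr rfl
  intro k _
  rw [ck_coe]

lemma hm_ball (N : ℕ) (b : Fin N → ℝ) (r : ℝ) :
    hm {x | dsq (ck N) b x ≤ r} = (ENNReal.ofReal (2 * Real.pi))⁻¹ * volume {t | t ∈ Icc 0 (2 * Real.pi) ∧ dl N b t ≤ r} := by
  rw [hm_apply _ (measurableSet_le (measurable_dsq (isCharSys N) b) measurable_const)]
  congr 2
  ext t
  constructor
  · rintro ⟨h1, h2⟩
    refine ⟨h1, ?_⟩
    have : dsq (ck N) b (t : T) ≤ r := h2
    rwa [dsq_coe] at this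
  · rintro ⟨h1, h2⟩
    refine ⟨h1, ?_⟩
    change dsq (ck N) b (t : T) ≤ r
    rwa [dsq_coe]

lemma norm_E_sub_one (x : ℝ) : ‖E x - 1‖ ≤ |x| := by
  have := Real.norm_exp_I_mul_ofReal_sub_one_le (x := x)
  simpa [E] using this

lemma dl_le (N : ℕ) (b : Fin N → ℝ) (t : ℝ) : dl N b t ≤ (N * |t| * √(∑ k, b k ^ 2)) ^ 2 := by
  rw [mul_pow, Real.sq_sqrt (Finset.sum_nonneg fun _ _ => sq_nonneg _), Finset.mul_sum]
  unfold dl
  apply Finset.sum_le_sum
  intro k _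
  rw [mul_comm]
  apply mul_le_mul_of_nonneg_right _ (sq_nonneg _)
  apply pow_le_pow_left₀ (norm_nonneg _)
  refine (norm_E_sub_one _).trans ?_
  rw [abs_mul, Nat.abs_cast]
  apply mul_le_mul_of_nonneg_right _ (abs_nonneg _)
  exact_mod_cast k.2.le

lemma rad_le_circle (N : ℕ) (b : Fin N → ℝ) (p : ℕ) :
    rad hm (ck N) b p ≤ N * (2 * Real.pi * (1 / 2) ^ (2 ^ p)) * √(∑ k, b k ^ 2) := by
  have hpi := Real.pi_pos
  set δ : ℝ := 2 * Real.pi * (1 / 2) ^ (2 ^ p) with hδ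
  have hδ0 : 0 ≤ δ := by positivity
  have hδ1 : δ ≤ 2 * Real.pi := by
    rw [hδ]
    have : (1 / 2 : ℝ) ^ (2 ^ p) ≤ 1 := pow_le_one₀ (by norm_num) (by norm_num)
    nlinarith
  apply rad_le (by positivity)
  rw [hm_ball]
  have h1 : Icc 0 δ ⊆ {t | t ∈ Icc 0 (2 * Real.pi) ∧ dl N b t ≤ (N * δ * √(∑ k, b k ^ 2)) ^ 2} := by
    intro t ht
    refine ⟨⟨ht.1, ht.2.trans hδ1⟩, (dl_le N b t).trans ?_⟩
    apply pow_le_pow_left₀ (by positivity)
    rw [abs_of_nonneg ht.1]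
    gcongr
    exact ht.2
  calc ENNReal.ofReal ((1 / 2) ^ (2 ^ p)) = (ENNReal.ofReal (2 * Real.pi))⁻¹ * volume (Icc 0 δ) := by
        rw [Real.volume_Icc, sub_zero, hδ, ENNReal.ofReal_mul (by positivity : 0 ≤ 2 * Real.pi), ← mul_assoc,
          ENNReal.inv_mul_cancel (by simp [Real.pi_pos]) ENNReal.ofReal_ne_top, one_mul]
    _ ≤ _ := by gcongr

lemma sum_sqrt_geom (P : ℕ) : ∑ p ∈ Finset.range P, √(2 ^ p) * (1 / 2 : ℝ) ^ (2 ^ p) ≤ 4 := by
  have h1 : ∀ p : ℕ, √(2 ^ p) * (1 / 2 : ℝ) ^ (2 ^ p) ≤ (3 / 4) ^ p := by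
    intro p
    have h2 : (2 : ℝ) ^ p ≤ 2 ^ (2 ^ p) := by
      apply pow_le_pow_right₀ (by norm_num)
      exact Nat.lt_two_pow_self.le
    have h3 : (1 / 2 : ℝ) ^ (2 ^ p) ≤ (1 / 2) ^ p := by
      rw [one_div, inv_pow, inv_pow]
      exact inv_anti₀ (by positivity) h2
    have h4 : √((2:ℝ) ^ p) ≤ (3 / 2) ^ p := by
      rw [Real.sqrt_le_left (by positivity), ← pow_mul, mul_comm p 2, pow_mul]
      exact pow_le_pow_left₀ (by norm_num) (by norm_num) _
    calc _ ≤ (3 / 2 : ℝ) ^ p * (1 / 2) ^ p := mul_le_mul h4 h3 (by positivity) (by positivity)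
      _ = _ := by rw [← mul_pow]; norm_num
  refine (Finset.sum_le_sum fun p _ => h1 p).trans ?_
  have := geom_sum_eq (by norm_num : (3 / 4 : ℝ) ≠ 1) P
  rw [this]
  have h5 : (0:ℝ) ≤ (3 / 4) ^ P := by positivity
  rw [div_le_iff_of_neg (by norm_num)]
  linarith

lemma rad_sum_bdd (N : ℕ) (b : Fin N → ℝ) (P : ℕ) :
    ∑ p ∈ Finset.range P, √(2 ^ p) * rad hm (ck N) b p ≤ N * (2 * Real.pi) * √(∑ k, b k ^ 2) * 4 := by
  calc _ ≤ ∑ p ∈ Finset.range P, (N * (2 * Real.pi) * √(∑ k, b k ^ 2)) * (√(2 ^ p) * (1 / 2 : ℝ) ^ (2 ^ p)) := by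
        apply Finset.sum_le_sum
        intro p _
        calc _ ≤ √(2 ^ p) * (N * (2 * Real.pi * (1 / 2) ^ (2 ^ p)) * √(∑ k, b k ^ 2)) :=
              mul_le_mul_of_nonneg_left (rad_le_circle N b p) (Real.sqrt_nonneg _)
          _ = _ := by ring
    _ = (N * (2 * Real.pi) * √(∑ k, b k ^ 2)) * ∑ p ∈ Finset.range P, (√(2 ^ p) * (1 / 2 : ℝ) ^ (2 ^ p)) := by
        rw [Finset.mul_sum]
    _ ≤ _ := mul_le_mul_of_nonneg_left (sum_sqrt_geom P) (by have := Real.pi_pos; positivity)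

/-- scaling of the radius -/
lemma rad_smul {G ι : Type} [AddCommGroup G] [MeasurableSpace G] [Fintype ι] {μ : Measure G} [IsProbabilityMeasure μ]
    {χ : ι → G → ℂ} (h : IsCharSys χ) (b : ι → ℝ) (c : ℝ) (hc : 0 < c) (p : ℕ) :
    c * rad μ χ b p ≤ rad μ χ (fun i => c * b i) p := by
  have e : ∀ x, dsq χ (fun i => c * b i) x = c ^ 2 * dsq χ b x := by
    intro x
    unfold dsq
    rw [Finset.mul_sum]
    apply Finset.sum_congr rfl
    intro i _
    ring
  have h1 := rad_spec h (μ := μ) (fun i => c * b i) p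
  have h2 : rad μ χ b p ≤ rad μ χ (fun i => c * b i) p / c := by
    apply rad_le (div_nonneg (rad_nonneg _ _ _ _) hc.le)
    refine h1.trans (measure_mono fun x hx => ?_)
    simp only [mem_ofPred_eq] at hx ⊢
    rw [e] at hx
    rw [div_pow, le_div_iff₀ (by positivity)]
    linarith
  rw [le_div_iff₀ hc] at h2
  linarith

end Pool.Agent.Helper26.Bmoa.Circ
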