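import Mathlib

set_option autoImplicit false

/-!
Basic definitions for the characterisation of the random power series in `BMOA`.
`χ i`, `i : ι`, are characters (into the unit circle) of an additive group `G` with an invariant
probability measure `μ`; `b i ≥ 0` are the moduli of the coefficients of a random Fourier sum
`∑ i, b i * exp (I * α i) * χ i x` with independent uniform phases `α i`.
-/

namespace Pool.Agent.Helper26.Bmoa

open MeasureTheory ProbabilityTheory
open scoped ENNReal

/-- A finite family of measurable unitary characters of an additive group. -/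
structure IsCharSys {G ι : Type} [AddCommGroup G] [MeasurableSpace G] (χ : ι → G → ℂ) : Prop where
  meas : ∀ i, Measurable (χ i)
  norm_eq : ∀ i x, ‖χ i x‖ = 1
  map_add : ∀ i x y, χ i (x + y) = χ i x * χ i y

/-- The square of the translation invariant metric with weights `b i ^ 2`. -/
noncomputable def dsq {G ι : Type} [Fintype ι] (χ : ι → G → ℂ) (b : ι → ℝ) (x : G) : ℝ :=
  ∑ i, b i ^ 2 * ‖χ i x - 1‖ ^ 2

/-- `rad μ χ b p` is the least radius of a ball (about `0`) of the translation invariant metric with
measure at least `2 ^ (-2 ^ p)`. -/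
noncomputable def rad {G ι : Type} [MeasurableSpace G] [Fintype ι] (μ : Measure G)
    (χ : ι → G → ℂ) (b : ι → ℝ) (p : ℕ) : ℝ :=
  sInf {ε : ℝ | 0 ≤ ε ∧ ENNReal.ofReal ((1 / 2) ^ (2 ^ p)) ≤ μ {x | dsq χ b x ≤ ε ^ 2}}

/-- The uniform probability measure on `[0, 2π]`. -/
noncomputable def phase : Measure ℝ :=
  (ENNReal.ofReal (2 * Real.pi))⁻¹ • volume.restrict (Set.Icc 0 (2 * Real.pi))

/-- The law of a finite family of independent uniform phases. -/
noncomputable def phases (ι : Type) [Fintype ι] : Measure (ι → ℝ) := Measure.pi fun _ => phase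

/-- The random Fourier sum at the point `x` with moduli `b` and phases `α`. -/
noncomputable def rsum {G ι : Type} [Fintype ι] (χ : ι → G → ℂ) (b : ι → ℝ) (α : ι → ℝ) (x : G) :
    ℂ := ∑ i, (b i : ℂ) * Complex.exp (Complex.I * α i) * χ i x

end Pool.Agent.Helper26.Bmoa
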