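import Mathlib
import Pool.Agent.Helper26.Bmoa.Det1

set_option autoImplicit false

/-!
Deterministic estimates for trigonometric polynomials, part 2: mean oscillation from block square functions.
-/

namespace Pool.Agent.Helper26.Bmoa.Det

open MeasureTheory Finset intervalIntegral

/-- pairwise orthogonality gives the Pythagorean identity -/
lemma ortho_sum {κ : Type} [DecidableEq κ] (S : Finset κ) (P : κ → ℝ → ℂ) (hc : ∀ j, Continuous (P j))
    (h : ∀ j ∈ S, ∀ j' ∈ S, j ≠ j' → ∫ t in (0:ℝ)..(2 * Real.pi), P j t * (starRingEnd ℂ) (P j' t) = 0) :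
    ∫ t in (0:ℝ)..(2 * Real.pi), ‖∑ j ∈ S, P j t‖ ^ 2 = ∑ j ∈ S, ∫ t in (0:ℝ)..(2 * Real.pi), ‖P j t‖ ^ 2 := by
  have hcc : ∀ j j', Continuous fun t => P j t * (starRingEnd ℂ) (P j' t) := fun j j' =>
    (hc j).mul (Complex.continuous_conj.comp (hc j'))
  have key : ((∫ t in (0:ℝ)..(2 * Real.pi), ‖∑ j ∈ S, P j t‖ ^ 2 : ℝ) : ℂ) =
      ((∑ j ∈ S, ∫ t in (0:ℝ)..(2 * Real.pi), ‖P j t‖ ^ 2 : ℝ) : ℂ) := by
    rw [← intervalIntegral.integral_ofReal]
    have e1 : ∀ t, ((‖∑ j ∈ S, P j t‖ ^ 2 : ℝ) : ℂ) = ∑ j ∈ S, ∑ j' ∈ S, P j t * (starRingEnd ℂ) (P j' t) := by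
      intro t
      push_cast
      rw [← Complex.mul_conj', map_sum, sum_mul_sum]
    simp_rw [e1]
    rw [integral_finsetSum fun j _ => (continuous_finsetSum _ fun j' _ => hcc j j').intervalIntegrable _ _]
    push_cast
    apply sum_congr rfl
    intro j hj
    rw [integral_finsetSum fun j' _ => (hcc j j').intervalIntegrable _ _]
    rw [sum_eq_single j]
    · rw [← intervalIntegral.integral_ofReal]
      congr 1
      ext t
      push_cast
      rw [Complex.mul_conj']
    · intro j' hj' hne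
      exact h j hj j' hj' (Ne.symm hne)
    · intro h2
      exact absurd hj h2
  exact_mod_cast key

/-- trigonometric sums with disjoint spectra are orthogonal -/
lemma ortho_freq {κ κ' : Type} (A : Finset κ) (B : Finset κ') (x : κ → ℂ) (y : κ' → ℂ) (r : κ → ℕ) (r' : κ' → ℕ)
    (h : ∀ i ∈ A, ∀ i' ∈ B, r i ≠ r' i') :
    ∫ t in (0:ℝ)..(2 * Real.pi), (∑ i ∈ A, x i * E (r i * t)) * (starRingEnd ℂ) (∑ i ∈ B, y i * E (r' i * t)) = 0 := by
  have e1 : ∀ t : ℝ, (∑ i ∈ A, x i * E (r i * t)) * (starRingEnd ℂ) (∑ i ∈ B, y i * E (r' i * t)) =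
      ∑ i ∈ A, ∑ i' ∈ B, (x i * (starRingEnd ℂ) (y i')) * E (((r i : ℤ) - r' i' : ℤ) * t) := by
    intro t
    rw [map_sum, sum_mul_sum]
    apply sum_congr rfl
    intro i _
    apply sum_congr rfl
    intro i' _
    rw [map_mul, conj_E]
    have : E ((((r i : ℤ) - r' i' : ℤ) : ℝ) * t) = E (r i * t) * E (-(r' i' * t)) := by
      rw [← E_add]; congr 1; push_cast; ring
    rw [this]
    ring
  simp_rw [e1]
  have hcc : ∀ i i', Continuous fun t : ℝ => (x i * (starRingEnd ℂ) (y i')) * E (((r i : ℤ) - r' i' : ℤ) * t) :=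
    fun i i' => continuous_const.mul (continuous_E.comp (by fun_prop))
  rw [integral_finsetSum fun j _ => (continuous_finsetSum _ fun j' _ => hcc j j').intervalIntegrable _ _]
  apply sum_eq_zero
  intro i hi
  rw [integral_finsetSum fun j' _ => (hcc i j').intervalIntegrable _ _]
  apply sum_eq_zero
  intro i' hi'
  rw [intervalIntegral.integral_const_mul, integral_E', if_neg, mul_zero]
  have := h i hi i' hi'
  omega

/-- Parseval for a trigonometric sum with distinct frequencies -/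
lemma parseval (s : Finset ℕ) (x : ℕ → ℂ) :
    ∫ t in (0:ℝ)..(2 * Real.pi), ‖∑ k ∈ s, x k * E (k * t)‖ ^ 2 = 2 * Real.pi * ∑ k ∈ s, ‖x k‖ ^ 2 := by
  rw [ortho_sum s (fun k t => x k * E (k * t)) (fun k => continuous_const.mul (continuous_E.comp (by fun_prop)))]
  · rw [mul_sum]
    apply sum_congr rfl
    intro k _
    simp only [norm_mul, norm_E, mul_one]
    simp
  · intro j _ j' _ hne
    have := ortho_freq {j} {j'} x x id id (by simpa using hne)
    simpa using this

/-- Lipschitz bound from Bernstein's inequality. -/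
lemma lip_of_bound {κ : Type} (s : Finset κ) (x : κ → ℂ) (r : κ → ℕ) (R : ℕ) (hr : ∀ k ∈ s, r k ≤ R)
    (B : ℝ) (hB : ∀ θ : ℝ, ‖∑ k ∈ s, x k * E (r k * θ)‖ ≤ B) (θ θ' : ℝ) :
    ‖∑ k ∈ s, x k * E (r k * θ) - ∑ k ∈ s, x k * E (r k * θ')‖ ≤ R * B * |θ - θ'| := by
  have hder : ∀ t ∈ (Set.univ : Set ℝ), HasDerivWithinAt (fun t : ℝ => ∑ k ∈ s, x k * E (r k * t))
      (∑ k ∈ s, x k * (Complex.I * r k * E (r k * t))) Set.univ t := by
    intro t _
    apply HasDerivAt.hasDerivWithinAt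
    have := HasDerivAt.fun_sum (u := s) (A := fun k t => x k * E (r k * t))
      (A' := fun k => x k * (Complex.I * r k * E (r k * t))) (x := t)
      (fun k _ => by
        have := (hasDerivAt_E (r k) t).const_mul (x k)
        simpa using this)
    exact this
  have hbd : ∀ t ∈ (Set.univ : Set ℝ), ‖∑ k ∈ s, x k * (Complex.I * r k * E (r k * t))‖ ≤ R * B := by
    intro t _
    have e1 : ∑ k ∈ s, x k * (Complex.I * r k * E (r k * t)) =
        Complex.I * ∑ k ∈ s, x k * (r k * E (r k * t)) := by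
      rw [mul_sum]
      apply sum_congr rfl
      intro k _
      ring
    rw [e1, norm_mul, Complex.norm_I, one_mul]
    exact bernstein s x r R hr B hB t
  have := Convex.norm_image_sub_le_of_norm_hasDerivWithin_le hder hbd convex_univ (Set.mem_univ θ') (Set.mem_univ θ)
  simpa [Real.norm_eq_abs] using this

/-- the block `k / 2^n = j` of a polynomial -/
noncomputable def blk (c : ℕ → ℂ) (N n j : ℕ) (θ : ℝ) : ℂ :=
  ∑ k ∈ (range N).filter (fun k => k / 2 ^ n = j), c k * E (k * θ)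

lemma continuous_blk (c : ℕ → ℂ) (N n j : ℕ) : Continuous (blk c N n j) := by
  unfold blk
  exact continuous_finsetSum _ fun k _ => continuous_const.mul (continuous_E.comp (by fun_prop))

lemma blk_succ (c : ℕ → ℂ) (N n : ℕ) (θ : ℝ) : blk c N (n + 1) 0 θ = blk c N n 0 θ + blk c N n 1 θ := by
  unfold blk
  rw [← sum_union]
  · apply sum_congr _ (fun _ _ => rfl)
    ext k
    simp only [mem_filter, mem_union, mem_range]
    have : k / 2 ^ (n + 1) = k / 2 ^ n / 2 := by
      rw [pow_succ, Nat.div_div_eq_div_mul]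
    rw [this]
    constructor
    · rintro ⟨h1, h2⟩
      have : k / 2 ^ n < 2 := by
        by_contra h3
        have := Nat.div_pos (not_lt.1 h3) two_pos
        omega
      interval_cases h : k / 2 ^ n
      · exact Or.inl ⟨h1, rfl⟩
      · exact Or.inr ⟨h1, rfl⟩
    · rintro (⟨h1, h2⟩ | ⟨h1, h2⟩)
      · exact ⟨h1, by rw [h2]⟩
      · exact ⟨h1, by rw [h2]⟩
  · rw [disjoint_left]
    intro k h1 h2
    simp only [mem_filter] at h1 h2
    omega

lemma sum_blk (c : ℕ → ℂ) (N n : ℕ) (θ : ℝ) :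
    ∑ k ∈ range N, c k * E (k * θ) = ∑ j ∈ range N, blk c N n j θ := by
  unfold blk
  rw [sum_fiberwise_of_maps_to]
  intro k hk
  rw [mem_range] at hk ⊢
  exact lt_of_le_of_lt (Nat.div_le_self _ _) hk

lemma blk_low (c : ℕ → ℂ) (N : ℕ) (M : ℝ) (hM0 : 0 ≤ M)
    (hM : ∀ n θ, ∑ j ∈ Ico 1 N, ‖blk c N n j θ‖ ^ 2 ≤ M ^ 2) (n : ℕ) (θ θ' : ℝ) :
    ‖blk c N n 0 θ - blk c N n 0 θ'‖ ≤ 2 ^ (n + 1) * M * |θ - θ'| := by
  have h1 : ∀ n θ, ‖blk c N n 1 θ‖ ≤ M := by
    intro n θ
    by_cases hN : 1 < N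
    · have h2 : ‖blk c N n 1 θ‖ ^ 2 ≤ ∑ j ∈ Ico 1 N, ‖blk c N n j θ‖ ^ 2 :=
        single_le_sum (f := fun j => ‖blk c N n j θ‖ ^ 2) (fun _ _ => by positivity) (mem_Ico.2 ⟨le_refl _, hN⟩)
      exact le_of_sq_le_sq (h2.trans (hM n θ)) hM0
    · have : blk c N n 1 θ = 0 := by
        unfold blk
        apply sum_eq_zero
        intro k hk
        exfalso
        rw [mem_filter, mem_range] at hk
        have : k = 0 := by omega
        rw [this] at hk
        simp at hk
      rw [this, norm_zero]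
      exact hM0
  induction n with
  | zero =>
    have : ∀ θ, blk c N 0 0 θ = if 0 < N then c 0 else 0 := by
      intro θ
      unfold blk
      simp only [pow_zero, Nat.div_one]
      rw [sum_filter, ]
      split_ifs with h
      · rw [sum_eq_single 0]
        · simp [E_zero]
        · intro b _ hb
          rw [if_neg hb]
        · intro h2
          exact absurd (mem_range.2 h) h2
      · have : N = 0 := by omega
        subst this
        simp
    rw [this, this, sub_self, norm_zero]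
    positivity
  | succ n ih =>
    rw [blk_succ, blk_succ]
    have h2 : ‖blk c N n 1 θ - blk c N n 1 θ'‖ ≤ 2 ^ (n + 1) * M * |θ - θ'| := by
      have := lip_of_bound ((range N).filter (fun k => k / 2 ^ n = 1)) c id (2 ^ (n + 1)) (by
        intro k hk
        rw [mem_filter] at hk
        have h3 := hk.2
        have : k < 2 ^ n * 2 := by
          rw [mul_comm]
          apply (Nat.div_lt_iff_lt_mul (by positivity)).1
          omega
        rw [pow_succ]
        exact this.le) M (h1 n) θ θ'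
      unfold blk
      simpa using this
    calc _ = ‖(blk c N n 0 θ - blk c N n 0 θ') + (blk c N n 1 θ - blk c N n 1 θ')‖ := by congr 1; ring
      _ ≤ _ := norm_add_le _ _
      _ ≤ 2 ^ (n + 1) * M * |θ - θ'| + 2 ^ (n + 1) * M * |θ - θ'| := add_le_add ih h2
      _ = _ := by ring

/-- the kernel -/
noncomputable def Kd (D : ℕ) (t : ℝ) : ℂ := ∑ l ∈ range D, E (l * t)

lemma continuous_Kd (D : ℕ) : Continuous (Kd D) := by
  unfold Kd
  exact continuous_finsetSum _ fun l _ => continuous_E.comp (by fun_prop)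

lemma norm_Kd_le (D : ℕ) (t : ℝ) : ‖Kd D t‖ ≤ D := by
  unfold Kd
  refine (norm_sum_le _ _).trans ?_
  simp [norm_E]

lemma norm_Kd_ge (D : ℕ) (t : ℝ) (h0 : 0 ≤ t) (h1 : D ≤ 1 ∨ D * t ≤ Real.pi / 3) : (D : ℝ) / 2 ≤ ‖Kd D t‖ := by
  have h2 : (D : ℝ) / 2 ≤ (Kd D t).re := by
    unfold Kd
    rw [Complex.re_sum]
    have : (D : ℝ) / 2 = ∑ l ∈ range D, (1 / 2 : ℝ) := by simp; ring
    rw [this]
    apply sum_le_sum
    intro l hl
    rw [mem_range] at hl
    have e1 : (E (l * t)).re = Real.cos (l * t) := by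
      rw [E, mul_comm, Complex.exp_ofReal_mul_I_re]
    rw [e1]
    rcases h1 with h1 | h1
    · have : l = 0 := by omega
      subst this
      norm_num
    · have h3 : (l : ℝ) * t ≤ Real.pi / 3 := by
        refine le_trans ?_ h1
        apply mul_le_mul_of_nonneg_right _ h0
        exact_mod_cast hl.le
      rw [← Real.cos_pi_div_three]
      apply Real.cos_le_cos_of_nonneg_of_le_pi (by positivity) _ h3
      have := Real.pi_pos
      linarith
  exact h2.trans (Complex.re_le_norm _)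

lemma integral_Kd (D : ℕ) (a : ℝ) : ∫ t in (0:ℝ)..(2 * Real.pi), ‖Kd D (t - a)‖ ^ 2 = 2 * Real.pi * D := by
  have e1 : ∀ t, Kd D (t - a) = ∑ l ∈ range D, E (-(l * a)) * E (l * t) := by
    intro t
    unfold Kd
    apply sum_congr rfl
    intro l _
    rw [← E_add]
    congr 1
    ring
  simp_rw [e1]
  rw [parseval]
  simp [norm_E]

lemma high_aux (c : ℕ → ℂ) (N n : ℕ) (S : Finset ℕ) (hS : ∀ j ∈ S, ∀ j' ∈ S, j < j' → j + 2 ≤ j') (a : ℝ) :
    ∫ t in (0:ℝ)..(2 * Real.pi), ‖(∑ j ∈ S, blk c N n j t) * Kd (2 ^ n) (t - a)‖ ^ 2 =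
      ∑ j ∈ S, ∫ t in (0:ℝ)..(2 * Real.pi), ‖blk c N n j t * Kd (2 ^ n) (t - a)‖ ^ 2 := by
  have e0 : ∀ t, (∑ j ∈ S, blk c N n j t) * Kd (2 ^ n) (t - a) =
      ∑ j ∈ S, (blk c N n j t * Kd (2 ^ n) (t - a)) := fun t => sum_mul _ _ _
  simp_rw [e0]
  apply ortho_sum
  · intro j
    exact (continuous_blk c N n j).mul ((continuous_Kd _).comp (by fun_prop))
  · intro j hj j' hj' hne
    have e1 : ∀ j t, blk c N n j t * Kd (2 ^ n) (t - a) =
        ∑ q ∈ ((range N).filter (fun k => k / 2 ^ n = j)) ×ˢ (range (2 ^ n)),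
          (c q.1 * E (-(q.2 * a))) * E (((q.1 + q.2 : ℕ) : ℝ) * t) := by
      intro j t
      unfold blk Kd
      rw [sum_mul_sum, ← sum_product']
      apply sum_congr rfl
      intro q _
      have : E ((q.2 : ℝ) * (t - a)) = E (-(q.2 * a)) * E (q.2 * t) := by
        rw [← E_add]; congr 1; ring
      rw [this]
      have h2 : E (((q.1 + q.2 : ℕ) : ℝ) * t) = E (q.1 * t) * E (q.2 * t) := by
        rw [← E_add]; congr 1; push_cast; ring
      rw [h2]
      ring
    simp_rw [e1]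
    apply ortho_freq
    intro q hq q' hq'
    rw [mem_product, mem_filter, mem_range, mem_range] at hq hq'
    have hD : 0 < 2 ^ n := by positivity
    obtain ⟨⟨_, h1⟩, h2⟩ := hq
    obtain ⟨⟨_, h3⟩, h4⟩ := hq'
    have f1 := Nat.div_add_mod q.1 (2 ^ n)
    have f2 := Nat.mod_lt q.1 hD
    have f3 := Nat.div_add_mod q'.1 (2 ^ n)
    have f4 := Nat.mod_lt q'.1 hD
    rw [h1] at f1
    rw [h3] at f3
    rcases lt_or_gt_of_ne hne with h | h
    · have := hS j hj j' hj' h
      have h5 : 2 ^ n * (j + 2) ≤ 2 ^ n * j' := Nat.mul_le_mul_left _ this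
      have h6 : 2 ^ n * (j + 2) = 2 ^ n * j + 2 * 2 ^ n := by ring
      omega
    · have := hS j' hj' j hj h
      have h5 : 2 ^ n * (j' + 2) ≤ 2 ^ n * j := Nat.mul_le_mul_left _ this
      have h6 : 2 ^ n * (j' + 2) = 2 ^ n * j' + 2 * 2 ^ n := by ring
      omega

lemma norm_add_sq_le' (x y : ℂ) : ‖x + y‖ ^ 2 ≤ 2 * ‖x‖ ^ 2 + 2 * ‖y‖ ^ 2 := by
  have h1 := norm_add_le x y
  have h2 := norm_nonneg (x + y)
  nlinarith [sq_nonneg (‖x‖ - ‖y‖)]

lemma high_bound (c : ℕ → ℂ) (N : ℕ) (M : ℝ)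
    (hM : ∀ n θ, ∑ j ∈ Ico 1 N, ‖blk c N n j θ‖ ^ 2 ≤ M ^ 2) (n : ℕ) (a : ℝ) :
    ∫ t in (0:ℝ)..(2 * Real.pi), ‖(∑ j ∈ Ico 1 N, blk c N n j t) * Kd (2 ^ n) (t - a)‖ ^ 2 ≤
      4 * Real.pi * 2 ^ n * M ^ 2 := by
  set S0 := (Ico 1 N).filter (fun j => j % 2 = 0) with hS0
  set S1 := (Ico 1 N).filter (fun j => ¬ j % 2 = 0) with hS1
  have hK : Continuous fun t => Kd (2 ^ n) (t - a) := (continuous_Kd _).comp (by fun_prop)
  have hcS : ∀ S : Finset ℕ, Continuous fun t => ‖(∑ j ∈ S, blk c N n j t) * Kd (2 ^ n) (t - a)‖ ^ 2 := fun S =>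
    (((continuous_finsetSum _ fun j _ => continuous_blk c N n j).mul hK).norm.pow 2)
  have hcj : ∀ j : ℕ, Continuous fun t => ‖blk c N n j t * Kd (2 ^ n) (t - a)‖ ^ 2 := fun j =>
    (((continuous_blk c N n j).mul hK).norm.pow 2)
  have hpi : (0:ℝ) ≤ 2 * Real.pi := by positivity
  have e0 : ∀ t, ∑ j ∈ Ico 1 N, blk c N n j t = ∑ j ∈ S0, blk c N n j t + ∑ j ∈ S1, blk c N n j t := fun t =>
    (sum_filter_add_sum_filter_not _ _ _).symm
  have h1 : ∫ t in (0:ℝ)..(2 * Real.pi), ‖(∑ j ∈ Ico 1 N, blk c N n j t) * Kd (2 ^ n) (t - a)‖ ^ 2 ≤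
      ∫ t in (0:ℝ)..(2 * Real.pi), (2 * ‖(∑ j ∈ S0, blk c N n j t) * Kd (2 ^ n) (t - a)‖ ^ 2 +
        2 * ‖(∑ j ∈ S1, blk c N n j t) * Kd (2 ^ n) (t - a)‖ ^ 2) := by
    apply integral_mono_on hpi ((hcS _).intervalIntegrable _ _)
      ((((hcS _).const_mul 2).add ((hcS _).const_mul 2)).intervalIntegrable _ _)
    intro t _
    rw [e0, add_mul]
    exact norm_add_sq_le' _ _
  refine h1.trans ?_
  rw [intervalIntegral.integral_add (((hcS _).const_mul 2).intervalIntegrable _ _) (((hcS _).const_mul 2).intervalIntegrable _ _),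
    intervalIntegral.integral_const_mul, intervalIntegral.integral_const_mul, high_aux, high_aux]
  · rw [← mul_add, hS0, hS1, sum_filter_add_sum_filter_not]
    rw [← integral_finsetSum fun j _ => (hcj j).intervalIntegrable _ _]
    have h5 : ∫ t in (0:ℝ)..(2 * Real.pi), ∑ j ∈ Ico 1 N, ‖blk c N n j t * Kd (2 ^ n) (t - a)‖ ^ 2 ≤
        ∫ t in (0:ℝ)..(2 * Real.pi), M ^ 2 * ‖Kd (2 ^ n) (t - a)‖ ^ 2 := by
      apply integral_mono_on hpi ((continuous_finsetSum _ fun j _ => hcj j).intervalIntegrable _ _)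
        (((hK.norm.pow 2).const_mul _).intervalIntegrable _ _)
      intro t _
      have : ∑ j ∈ Ico 1 N, ‖blk c N n j t * Kd (2 ^ n) (t - a)‖ ^ 2 =
          (∑ j ∈ Ico 1 N, ‖blk c N n j t‖ ^ 2) * ‖Kd (2 ^ n) (t - a)‖ ^ 2 := by
        rw [sum_mul]
        apply sum_congr rfl
        intro j _
        rw [norm_mul, mul_pow]
      rw [this]
      exact mul_le_mul_of_nonneg_right (hM n t) (by positivity)
    rw [intervalIntegral.integral_const_mul, integral_Kd] at h5
    push_cast at h5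
    nlinarith
  · intro j hj j' hj' hlt
    rw [hS1, mem_filter] at hj hj'
    omega
  · intro j hj j' hj' hlt
    rw [hS0, mem_filter] at hj hj'
    omega

lemma blk_periodic (c : ℕ → ℂ) (N n j : ℕ) : Function.Periodic (blk c N n j) (2 * Real.pi) := by
  intro t
  unfold blk
  apply sum_congr rfl
  intro k _
  have : E (k * (t + 2 * Real.pi)) = E (k * t) := by
    have : (k : ℝ) * (t + 2 * Real.pi) = k * t + 2 * Real.pi * ((k : ℤ) : ℝ) := by push_cast; ring
    rw [this, E_add, E_two_pi, mul_one]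
  rw [this]

lemma Kd_periodic (D : ℕ) : Function.Periodic (Kd D) (2 * Real.pi) := by
  intro t
  unfold Kd
  apply sum_congr rfl
  intro k _
  have : (k : ℝ) * (t + 2 * Real.pi) = k * t + 2 * Real.pi * ((k : ℤ) : ℝ) := by push_cast; ring
  rw [this, E_add, E_two_pi, mul_one]

/-- **Deterministic sufficiency.** Uniform control of the block square functions bounds the mean oscillation. -/
theorem mean_osc (c : ℕ → ℂ) (N : ℕ) (M : ℝ) (hM0 : 0 ≤ M)
    (hM : ∀ n θ, ∑ j ∈ Ico 1 N, ‖blk c N n j θ‖ ^ 2 ≤ M ^ 2) (a b : ℝ) (hab : a < b) (hab2 : b - a ≤ 2 * Real.pi) :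
    ∃ κ : ℂ, ∫ t in a..b, ‖∑ k ∈ range N, c k * E (k * t) - κ‖ ^ 2 ≤ 400 * M ^ 2 * (b - a) := by
  have hpi := Real.pi_pos
  have hpi4 := Real.pi_lt_d2
  -- choice of the scale
  obtain ⟨n, hn1, hn2⟩ : ∃ n : ℕ, (n = 0 ∨ (2:ℝ) ^ n * (b - a) ≤ Real.pi / 3) ∧ Real.pi / 3 < 2 * (2 ^ n * (b - a)) := by
    by_cases h0 : Real.pi / 3 < b - a
    · exact ⟨0, Or.inl rfl, by simp; linarith⟩
    · have hx : (1:ℝ) ≤ Real.pi / 3 / (b - a) := by
        rw [le_div_iff₀ (by linarith)]
        linarith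
      obtain ⟨n, h1, h2⟩ := exists_nat_pow_near hx (one_lt_two)
      refine ⟨n, Or.inr ?_, ?_⟩
      · rwa [le_div_iff₀ (by linarith)] at h1
      · rw [div_lt_iff₀ (by linarith), pow_succ] at h2
        linarith
  set D : ℝ := 2 ^ n with hD
  have hD0 : 0 < D := by positivity
  have hba : 0 < b - a := by linarith
  -- low part
  have hlow : ∀ t ∈ Set.Icc a b, ‖blk c N n 0 t - blk c N n 0 a‖ ^ 2 ≤ 8 * M ^ 2 := by
    intro t ht
    rcases hn1 with h | h
    · have h1 : blk c N n 0 t = blk c N n 0 a := by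
        subst h
        have : ∀ θ, blk c N 0 0 θ = ∑ k ∈ range N, if k = 0 then c k else 0 := by
          intro θ
          unfold blk
          rw [sum_filter]
          apply sum_congr rfl
          intro k _
          simp only [pow_zero, Nat.div_one]
          split_ifs with h
          · subst h; simp [E_zero]
          · rfl
        rw [this, this]
      rw [h1, sub_self, norm_zero]
      nlinarith [sq_nonneg M]
    · have h1 := blk_low c N M hM0 hM n t a
      have h2 : |t - a| ≤ b - a := by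
        rw [abs_of_nonneg (by linarith [ht.1])]
        linarith [ht.2]
      have h3 : ‖blk c N n 0 t - blk c N n 0 a‖ ≤ 2.2 * M := by
        refine h1.trans ?_
        have h4 : 2 ^ (n + 1) * M * |t - a| ≤ 2 * (D * (b - a)) * M := by
          rw [pow_succ]
          have : (2:ℝ) ^ n * 2 * M * |t - a| = 2 * M * D * |t - a| := by rw [hD]; ring
          rw [this]
          have : 2 * M * D * |t - a| ≤ 2 * M * D * (b - a) := mul_le_mul_of_nonneg_left h2 (by positivity)
          linarith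
        refine h4.trans ?_
        apply mul_le_mul_of_nonneg_right _ hM0
        linarith
      have h5 : ‖blk c N n 0 t - blk c N n 0 a‖ ^ 2 ≤ (2.2 * M) ^ 2 := pow_le_pow_left₀ (norm_nonneg _) h3 2
      nlinarith [sq_nonneg M]
  -- high part
  set H : ℝ → ℂ := fun t => ∑ j ∈ Ico 1 N, blk c N n j t with hH
  have hHc : Continuous H := continuous_finsetSum _ fun j _ => continuous_blk c N n j
  have hK : Continuous fun t => Kd (2 ^ n) (t - a) := (continuous_Kd _).comp (by fun_prop)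
  have hhigh : ∫ t in a..b, ‖H t‖ ^ 2 ≤ 176 * M ^ 2 * (b - a) := by
    have h1 : ∀ t ∈ Set.Icc a b, ‖H t‖ ^ 2 ≤ 4 / D ^ 2 * ‖H t * Kd (2 ^ n) (t - a)‖ ^ 2 := by
      intro t ht
      have h2 := norm_Kd_ge (2 ^ n) (t - a) (by linarith [ht.1]) (by
        rcases hn1 with h | h
        · left; subst h; simp
        · right
          push_cast
          refine le_trans ?_ h
          exact mul_le_mul_of_nonneg_left (by linarith [ht.2]) hD0.le)
      push_cast at h2
      rw [← hD] at h2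
      rw [norm_mul, mul_pow]
      have h3 : (D / 2) ^ 2 ≤ ‖Kd (2 ^ n) (t - a)‖ ^ 2 := pow_le_pow_left₀ (by positivity) h2 2
      have h4 : 4 / D ^ 2 * (‖H t‖ ^ 2 * ‖Kd (2 ^ n) (t - a)‖ ^ 2) =
          ‖H t‖ ^ 2 * (4 / D ^ 2 * ‖Kd (2 ^ n) (t - a)‖ ^ 2) := by ring
      rw [h4]
      have h5 : 1 ≤ 4 / D ^ 2 * ‖Kd (2 ^ n) (t - a)‖ ^ 2 := by
        calc (1:ℝ) = 4 / D ^ 2 * (D / 2) ^ 2 := by field_simp; ring
          _ ≤ _ := mul_le_mul_of_nonneg_left h3 (by positivity)
      nlinarith [sq_nonneg ‖H t‖]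
    have hHK : Continuous fun t => ‖H t * Kd (2 ^ n) (t - a)‖ ^ 2 := ((hHc.mul hK).norm.pow 2)
    have h2 : ∫ t in a..b, ‖H t‖ ^ 2 ≤ ∫ t in a..b, 4 / D ^ 2 * ‖H t * Kd (2 ^ n) (t - a)‖ ^ 2 := by
      apply integral_mono_on hab.le ((hHc.norm.pow 2).intervalIntegrable _ _)
        ((hHK.const_mul _).intervalIntegrable _ _) h1
    refine h2.trans ?_
    rw [intervalIntegral.integral_const_mul]
    have h3 : ∫ t in a..b, ‖H t * Kd (2 ^ n) (t - a)‖ ^ 2 ≤
        ∫ t in a..(a + 2 * Real.pi), ‖H t * Kd (2 ^ n) (t - a)‖ ^ 2 := by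
      have := intervalIntegral.integral_add_adjacent_intervals (μ := volume) (hHK.intervalIntegrable a b)
        (hHK.intervalIntegrable b (a + 2 * Real.pi))
      rw [← this]
      have h4 : 0 ≤ ∫ t in b..(a + 2 * Real.pi), ‖H t * Kd (2 ^ n) (t - a)‖ ^ 2 :=
        intervalIntegral.integral_nonneg (by linarith) fun t _ => by positivity
      linarith
    have hper : Function.Periodic (fun t => ‖H t * Kd (2 ^ n) (t - a)‖ ^ 2) (2 * Real.pi) := by
      intro t
      have e1 : H (t + 2 * Real.pi) = H t := by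
        simp only [hH]
        apply sum_congr rfl
        intro j _
        exact blk_periodic c N n j t
      have e2 : Kd (2 ^ n) (t + 2 * Real.pi - a) = Kd (2 ^ n) (t - a) := by
        have : t + 2 * Real.pi - a = (t - a) + 2 * Real.pi := by ring
        rw [this]
        exact Kd_periodic _ _
      simp only [e1, e2]
    have h4 := hper.intervalIntegral_add_eq a 0
    rw [zero_add] at h4
    rw [h4] at h3
    have h5 := high_bound c N M hM n a
    have h6 : 4 / D ^ 2 * (4 * Real.pi * 2 ^ n * M ^ 2) ≤ 176 * M ^ 2 * (b - a) := by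
      have h7 : 4 / D ^ 2 * (4 * Real.pi * 2 ^ n * M ^ 2) = 16 * Real.pi * M ^ 2 / D := by
        rw [← hD]; field_simp; ring
      rw [h7, div_le_iff₀ hD0]
      have h8 : 16 * Real.pi * M ^ 2 ≤ 16 * (6 * (D * (b - a))) * M ^ 2 := by
        apply mul_le_mul_of_nonneg_right _ (sq_nonneg _)
        linarith
      nlinarith [mul_pos hD0 hba, mul_nonneg (mul_pos hD0 hba).le (sq_nonneg M)]
    calc _ ≤ 4 / D ^ 2 * (4 * Real.pi * 2 ^ n * M ^ 2) :=
          mul_le_mul_of_nonneg_left (h3.trans h5) (by positivity)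
      _ ≤ _ := h6
  refine ⟨blk c N n 0 a, ?_⟩
  have hf : ∀ t, ‖∑ k ∈ range N, c k * E (k * t) - blk c N n 0 a‖ ^ 2 ≤
      2 * ‖H t‖ ^ 2 + 2 * ‖blk c N n 0 t - blk c N n 0 a‖ ^ 2 := by
    intro t
    have : ∑ k ∈ range N, c k * E (k * t) - blk c N n 0 a = H t + (blk c N n 0 t - blk c N n 0 a) := by
      rw [sum_blk c N n t]
      have h9 : ∑ j ∈ range N, blk c N n j t = blk c N n 0 t + H t := by
        rcases Nat.eq_zero_or_pos N with h0 | h0
        · subst h0
          simp [hH, blk]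
        · rw [range_eq_Ico, sum_eq_sum_Ico_succ_bot h0]
      rw [h9]
      ring
    rw [this]
    exact norm_add_sq_le' _ _
  have hcf : Continuous fun t : ℝ => ∑ k ∈ range N, c k * E (k * t) - blk c N n 0 a :=
    (continuous_finsetSum _ fun k _ => continuous_const.mul (continuous_E.comp (by fun_prop))).sub continuous_const
  have hc1 : Continuous fun t => 2 * ‖H t‖ ^ 2 := (hHc.norm.pow 2).const_mul 2
  have hc2 : Continuous fun t => 2 * ‖H t‖ ^ 2 + 16 * M ^ 2 := hc1.add continuous_const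
  have hc3 : Continuous fun t : ℝ => ‖∑ k ∈ range N, c k * E (k * t) - blk c N n 0 a‖ ^ 2 := hcf.norm.pow 2
  calc ∫ t in a..b, ‖∑ k ∈ range N, c k * E (k * t) - blk c N n 0 a‖ ^ 2
      ≤ ∫ t in a..b, (2 * ‖H t‖ ^ 2 + 16 * M ^ 2) := by
        apply integral_mono_on hab.le (hc3.intervalIntegrable _ _) (hc2.intervalIntegrable _ _)
        intro t ht
        have := hf t
        have h2 := hlow t ht
        linarith
    _ = 2 * (∫ t in a..b, ‖H t‖ ^ 2) + 16 * M ^ 2 * (b - a) := by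
        rw [intervalIntegral.integral_add (hc1.intervalIntegrable _ _)
          (continuous_const.intervalIntegrable _ _), intervalIntegral.integral_const_mul]
        simp
        ring
    _ ≤ _ := by nlinarith [mul_nonneg (sq_nonneg M) hba.le]

end Pool.Agent.Helper26.Bmoa.Det
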