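import Mathlib
import Pool.Agent.Helper26.Bmoa.Det2

set_option autoImplicit false

/-!
Deterministic estimates for trigonometric polynomials, part 3: test functionals for the mean oscillation.
-/

namespace Pool.Agent.Helper26.Bmoa.Det

open MeasureTheory Finset intervalIntegral

/-- Fourier transform of the triangle kernel -/
noncomputable def Lh (L m : ℝ) : ℝ := if m = 0 then 1 else 2 * (1 - Real.cos (m * L)) / (m * L) ^ 2

lemma Lh_nonneg (L m : ℝ) : 0 ≤ Lh L m := by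
  unfold Lh
  split_ifs
  · exact zero_le_one
  · have := Real.cos_le_one (m * L)
    apply div_nonneg _ (sq_nonneg _)
    linarith

lemma Lh_ge {L m : ℝ} (hL : 0 < L) (h : |m * L| ≤ Real.pi) : 4 / Real.pi ^ 2 ≤ Lh L m := by
  unfold Lh
  have hpi := Real.pi_gt_three
  split_ifs with hm
  · rw [div_le_one (by positivity)]
    nlinarith
  · have h1 := Real.cos_le_one_sub_mul_cos_sq h
    have h2 : 0 < (m * L) ^ 2 := by positivity
    rw [le_div_iff₀ h2]
    have : 4 / Real.pi ^ 2 * (m * L) ^ 2 = 2 * (2 / Real.pi ^ 2 * (m * L) ^ 2) := by ring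
    linarith

lemma Lh_zero {L : ℝ} {m : ℝ} (hm : m ≠ 0) (j : ℤ) (h : m * L = 2 * Real.pi * j) : Lh L m = 0 := by
  unfold Lh
  rw [if_neg hm, h]
  have : Real.cos (2 * Real.pi * j) = 1 := by
    have := Real.cos_int_mul_two_pi j
    rwa [mul_comm] at this
  rw [this]
  simp

lemma integral_tri {L : ℝ} (hL : 0 < L) (m : ℝ) :
    ∫ u in (-L)..L, ((1 / L * (1 - |u| / L) : ℝ) : ℂ) * E (m * u) = (Lh L m : ℂ) := by
  have hc : Continuous fun u : ℝ => ((1 / L * (1 - |u| / L) : ℝ) : ℂ) * E (m * u) := by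
    apply Continuous.mul
    · exact Complex.continuous_ofReal.comp (by fun_prop)
    · exact continuous_E.comp (by fun_prop)
  have h1 : ∫ u in (-L)..L, ((1 / L * (1 - |u| / L) : ℝ) : ℂ) * E (m * u) =
      ∫ u in (0:ℝ)..L, (((1 / L * (1 - |u| / L) : ℝ) : ℂ) * E (m * u) +
        ((1 / L * (1 - |-u| / L) : ℝ) : ℂ) * E (m * (-u))) := by
    rw [← intervalIntegral.integral_add_adjacent_intervals (hc.intervalIntegrable (-L) 0) (hc.intervalIntegrable 0 L)]
    have h2 := intervalIntegral.integral_comp_neg (a := 0) (b := L) (fun u : ℝ => ((1 / L * (1 - |u| / L) : ℝ) : ℂ) * E (m * u))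
    rw [neg_zero] at h2
    rw [← h2, ← intervalIntegral.integral_add]
    · congr 1
      ext u
      ring
    · exact (hc.comp continuous_neg).intervalIntegrable _ _
    · exact hc.intervalIntegrable _ _
  rw [h1]
  have h3 : ∀ u ∈ Set.uIcc 0 L, (((1 / L * (1 - |u| / L) : ℝ) : ℂ) * E (m * u) +
        ((1 / L * (1 - |-u| / L) : ℝ) : ℂ) * E (m * (-u))) =
        ((2 / L * (1 - u / L) * Real.cos (m * u) : ℝ) : ℂ) := by
    intro u hu
    rw [Set.uIcc_of_le hL.le] at hu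
    rw [abs_neg, abs_of_nonneg hu.1, ← mul_add]
    have h4 : E (m * u) + E (m * -u) = ((2 * Real.cos (m * u) : ℝ) : ℂ) := by
      unfold E
      push_cast
      rw [Complex.cos]
      have : Complex.I * (m * -u : ℂ) = -(m * u : ℂ) * Complex.I := by ring
      rw [this, mul_comm Complex.I]
      ring
    rw [h4]
    push_cast
    ring
  rw [intervalIntegral.integral_congr h3, intervalIntegral.integral_ofReal]
  congr 1
  unfold Lh
  split_ifs with hm
  · subst hm
    have h5 : ∀ u ∈ Set.uIcc 0 L, HasDerivAt (fun u : ℝ => 2 / L * (u - u ^ 2 / (2 * L)))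
        (2 / L * (1 - u / L) * Real.cos (0 * u)) u := by
      intro u _
      have h6 : HasDerivAt (fun u : ℝ => 2 / L * (u - u ^ 2 / (2 * L))) (2 / L * (1 - (2 * u) / (2 * L))) u := by
        have h7 : HasDerivAt (fun u : ℝ => u ^ 2) (2 * u) u := by simpa using hasDerivAt_pow 2 u
        exact (((hasDerivAt_id u).sub (h7.div_const _)).const_mul _)
      convert h6 using 1
      rw [zero_mul, Real.cos_zero]
      field_simp
    rw [integral_eq_sub_of_hasDerivAt h5 ((by fun_prop : Continuous fun u : ℝ => 2 / L * (1 - u / L) * Real.cos (0 * u)).intervalIntegrable _ _)]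
    field_simp
    ring
  · have h5 : ∀ u ∈ Set.uIcc 0 L, HasDerivAt (fun u : ℝ => 2 / L * ((1 - u / L) * (Real.sin (m * u) / m) -
        Real.cos (m * u) / (m ^ 2 * L)))
        (2 / L * (1 - u / L) * Real.cos (m * u)) u := by
      intro u _
      have hmu : HasDerivAt (fun u : ℝ => m * u) m u := by simpa using (hasDerivAt_id u).const_mul m
      have h7 : HasDerivAt (fun u : ℝ => Real.sin (m * u) / m) (Real.cos (m * u) * m / m) u :=
        hmu.sin.div_const m
      have h8 : HasDerivAt (fun u : ℝ => Real.cos (m * u) / (m ^ 2 * L)) (-Real.sin (m * u) * m / (m ^ 2 * L)) u :=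
        hmu.cos.div_const _
      have h9 : HasDerivAt (fun u : ℝ => 1 - u / L) (-(1 / L)) u := by
        simpa using ((hasDerivAt_id u).div_const L).const_sub 1
      have h10 : HasDerivAt (fun u : ℝ => 2 / L * ((1 - u / L) * (Real.sin (m * u) / m) -
        Real.cos (m * u) / (m ^ 2 * L))) (2 / L * (-(1 / L) * (Real.sin (m * u) / m) +
          (1 - u / L) * (Real.cos (m * u) * m / m) - -Real.sin (m * u) * m / (m ^ 2 * L))) u :=
        ((h9.fun_mul h7).fun_sub h8).const_mul (2 / L)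
      convert h10 using 1
      field_simp
      ring
    rw [integral_eq_sub_of_hasDerivAt h5 ((by fun_prop : Continuous fun u : ℝ => 2 / L * (1 - u / L) * Real.cos (m * u)).intervalIntegrable _ _)]
    simp only [mul_zero, Real.sin_zero, Real.cos_zero, zero_div, sub_zero]
    field_simp
    ring

/-- the length of the arcs of generation `n` -/
noncomputable def Ln (n : ℕ) : ℝ := 2 * Real.pi / 2 ^ n

lemma Ln_pos (n : ℕ) : 0 < Ln n := by unfold Ln; positivity

/-- the modulating polynomial -/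
noncomputable def Pp (n J : ℕ) (p : ℕ → ℝ) (u : ℝ) : ℂ := ∑ j ∈ Ico 1 J, (p j : ℂ) * E (j * (2 ^ n * u))

/-- the test functional -/
noncomputable def Tg (n J : ℕ) (p : ℕ → ℝ) (g : ℝ → ℂ) (θ : ℝ) : ℂ :=
  ∫ u in (-(Ln n))..(Ln n), ((1 / Ln n * (1 - |u| / Ln n) : ℝ) : ℂ) * Pp n J p u * g (θ - u)

/-- its multiplier -/
noncomputable def lam (n J : ℕ) (p : ℕ → ℝ) (k : ℕ) : ℝ :=
  ∑ j ∈ Ico 1 J, p j * Lh (Ln n) (j * 2 ^ n - k)

lemma continuous_Pp (n J : ℕ) (p : ℕ → ℝ) : Continuous (Pp n J p) := by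
  unfold Pp
  exact continuous_finsetSum _ fun k _ => continuous_const.mul (continuous_E.comp (by fun_prop))

lemma continuous_tri (L : ℝ) : Continuous fun u : ℝ => ((1 / L * (1 - |u| / L) : ℝ) : ℂ) :=
  Complex.continuous_ofReal.comp (by fun_prop)

lemma Tg_exp (n J : ℕ) (p : ℕ → ℝ) (k : ℕ) (θ : ℝ) :
    Tg n J p (fun t => E (k * t)) θ = (lam n J p k : ℂ) * E (k * θ) := by
  unfold Tg Pp lam
  have e1 : ∀ u : ℝ, ((1 / Ln n * (1 - |u| / Ln n) : ℝ) : ℂ) * (∑ j ∈ Ico 1 J, (p j : ℂ) * E (j * (2 ^ n * u))) *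
      E (k * (θ - u)) = ∑ j ∈ Ico 1 J, ((p j : ℂ) * E (k * θ)) *
        (((1 / Ln n * (1 - |u| / Ln n) : ℝ) : ℂ) * E ((j * 2 ^ n - k) * u)) := by
    intro u
    rw [mul_sum, sum_mul]
    apply sum_congr rfl
    intro j _
    have h1 : E (k * (θ - u)) = E (k * θ) * E (-(k * u)) := by rw [← E_add]; congr 1; ring
    have h2 : E ((j * 2 ^ n - k) * u) = E (j * (2 ^ n * u)) * E (-(k * u)) := by rw [← E_add]; congr 1; ring
    rw [h1, h2]
    ring
  simp_rw [e1]
  have hc : ∀ j : ℕ, Continuous fun u : ℝ => ((p j : ℂ) * E (k * θ)) *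
        (((1 / Ln n * (1 - |u| / Ln n) : ℝ) : ℂ) * E ((j * 2 ^ n - k) * u)) := fun j =>
    continuous_const.mul ((continuous_tri _).mul (continuous_E.comp (by fun_prop)))
  rw [integral_finsetSum fun j _ => (hc j).intervalIntegrable _ _]
  push_cast
  rw [sum_mul]
  apply sum_congr rfl
  intro j _
  have h3 := integral_tri (Ln_pos n) (j * 2 ^ n - k)
  push_cast at h3
  rw [intervalIntegral.integral_const_mul, h3]
  ring

lemma Tg_add (n J : ℕ) (p : ℕ → ℝ) {g h : ℝ → ℂ} (hg : Continuous g) (hh : Continuous h) (θ : ℝ) :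
    Tg n J p (fun t => g t + h t) θ = Tg n J p g θ + Tg n J p h θ := by
  unfold Tg
  rw [← intervalIntegral.integral_add]
  · congr 1
    ext u
    ring
  · exact (((continuous_tri _).mul (continuous_Pp n J p)).mul (hg.comp (by fun_prop))).intervalIntegrable _ _
  · exact (((continuous_tri _).mul (continuous_Pp n J p)).mul (hh.comp (by fun_prop))).intervalIntegrable _ _

lemma Tg_const_mul (n J : ℕ) (p : ℕ → ℝ) (c : ℂ) (g : ℝ → ℂ) (θ : ℝ) :
    Tg n J p (fun t => c * g t) θ = c * Tg n J p g θ := by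
  unfold Tg
  rw [← intervalIntegral.integral_const_mul]
  congr 1
  ext u
  ring

lemma Tg_sum (n J : ℕ) (p : ℕ → ℝ) (c : ℕ → ℂ) (s : Finset ℕ) (θ : ℝ) :
    Tg n J p (fun t => ∑ k ∈ s, c k * E (k * t)) θ = ∑ k ∈ s, c k * ((lam n J p k : ℂ) * E (k * θ)) := by
  classical
  induction s using Finset.induction_on with
  | empty => simp [Tg]
  | insert k s hk ih =>
    simp_rw [sum_insert hk]
    rw [Tg_add, ih, Tg_const_mul, Tg_exp]
    · exact continuous_const.mul (continuous_E.comp (by fun_prop))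
    · exact continuous_finsetSum _ fun k _ => continuous_const.mul (continuous_E.comp (by fun_prop))

lemma lam_zero (n J : ℕ) (p : ℕ → ℝ) : lam n J p 0 = 0 := by
  unfold lam
  apply sum_eq_zero
  intro j hj
  rw [mem_Ico] at hj
  rw [Lh_zero (L := Ln n) (m := ((j : ℝ) * 2 ^ n - (0 : ℕ))) _ j, mul_zero]
  · unfold Ln
    push_cast
    field_simp
    ring
  · have : (0:ℝ) < (j : ℝ) * 2 ^ n := by
      have : (0:ℝ) < j := by exact_mod_cast hj.1
      positivity
    simp only [Nat.cast_zero, sub_zero]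
    exact this.ne'

lemma Tg_const (n J : ℕ) (p : ℕ → ℝ) (κ : ℂ) (θ : ℝ) : Tg n J p (fun _ => κ) θ = 0 := by
  have h := Tg_sum n J p (fun _ => κ) {0} θ
  simp only [sum_singleton, Nat.cast_zero, zero_mul, E_zero, mul_one, lam_zero] at h
  rw [h]
  simp

lemma integral_Pp (n J : ℕ) (p : ℕ → ℝ) :
    ∫ u in (-(Ln n))..(Ln n), ‖Pp n J p u‖ ^ 2 = 2 * Ln n * ∑ j ∈ Ico 1 J, p j ^ 2 := by
  have hD : (0:ℝ) < 2 ^ n := by positivity
  set Q : ℝ → ℝ := fun t => ‖∑ j ∈ Ico 1 J, (p j : ℂ) * E (j * t)‖ ^ 2 with hQ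
  have hQc : Continuous Q := by
    simp only [hQ]
    exact (continuous_finsetSum _ fun k _ => continuous_const.mul (continuous_E.comp (by fun_prop))).norm.pow 2
  have h1 : ∫ u in (-(Ln n))..(Ln n), ‖Pp n J p u‖ ^ 2 = ∫ u in (-(Ln n))..(Ln n), Q (2 ^ n * u) := rfl
  rw [h1, intervalIntegral.integral_comp_mul_left Q hD.ne']
  have h2 : (2:ℝ) ^ n * -Ln n = -(2 * Real.pi) := by unfold Ln; field_simp
  have h3 : (2:ℝ) ^ n * Ln n = 2 * Real.pi := by unfold Ln; field_simp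
  rw [h2, h3]
  have hper : Function.Periodic Q (2 * Real.pi) := by
    intro t
    simp only [hQ]
    congr 2
    apply sum_congr rfl
    intro k _
    have : (k : ℝ) * (t + 2 * Real.pi) = k * t + 2 * Real.pi * ((k : ℤ) : ℝ) := by push_cast; ring
    rw [this, E_add, E_two_pi, mul_one]
  have h4 : ∫ t in (0:ℝ)..(2 * Real.pi), Q t = 2 * Real.pi * ∑ j ∈ Ico 1 J, p j ^ 2 := by
    have := parseval (Ico 1 J) (fun j => (p j : ℂ))
    simp only [hQ, this]
    congr 1
    apply sum_congr rfl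
    intro j _
    rw [Complex.norm_real, Real.norm_eq_abs, sq_abs]
  have h5 : ∫ t in (-(2 * Real.pi))..(0:ℝ), Q t = ∫ t in (0:ℝ)..(2 * Real.pi), Q t := by
    have := hper.intervalIntegral_add_eq (-(2 * Real.pi)) 0
    simpa using this
  rw [← intervalIntegral.integral_add_adjacent_intervals (hQc.intervalIntegrable _ 0) (hQc.intervalIntegrable 0 _),
    h5, h4]
  unfold Ln
  rw [smul_eq_mul]
  field_simp
  ring

/-- **Deterministic necessity.** The functional is controlled by the mean oscillation. -/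
theorem Tg_bound (n J : ℕ) (p : ℕ → ℝ) (hp : ∑ j ∈ Ico 1 J, p j ^ 2 ≤ 4) (g : ℝ → ℂ) (hg : Continuous g)
    (θ : ℝ) (κ : ℂ) (B : ℝ) (hB : 0 < B)
    (h : ∫ t in (θ - Ln n)..(θ + Ln n), ‖g t - κ‖ ^ 2 ≤ B ^ 2 * (2 * Ln n)) : ‖Tg n J p g θ‖ ≤ 4 * B := by
  have hL := Ln_pos n
  have hgc : Continuous fun t => g t - κ := hg.sub continuous_const
  have e1 : Tg n J p g θ = Tg n J p (fun t => g t - κ) θ := by
    have : g = fun t => (g t - κ) + κ := by ext t; ring
    conv_lhs => rw [this]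
    rw [Tg_add _ _ _ hgc continuous_const, Tg_const, add_zero]
  rw [e1]
  unfold Tg
  have hc1 : Continuous fun u : ℝ => 1 / (B * Ln n) * ‖g (θ - u) - κ‖ ^ 2 :=
    continuous_const.mul ((hgc.comp (by fun_prop : Continuous fun u : ℝ => θ - u)).norm.pow 2)
  have hc2 : Continuous fun u : ℝ => B / (4 * Ln n) * ‖Pp n J p u‖ ^ 2 :=
    continuous_const.mul ((continuous_Pp n J p).norm.pow 2)
  have h1 : ‖∫ u in (-(Ln n))..(Ln n), ((1 / Ln n * (1 - |u| / Ln n) : ℝ) : ℂ) * Pp n J p u * (g (θ - u) - κ)‖ ≤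
      ∫ u in (-(Ln n))..(Ln n), (1 / (B * Ln n) * ‖g (θ - u) - κ‖ ^ 2 + B / (4 * Ln n) * ‖Pp n J p u‖ ^ 2) := by
    apply intervalIntegral.norm_integral_le_of_norm_le (by linarith)
    · filter_upwards with u hu
      rw [norm_mul, norm_mul, Complex.norm_real, Real.norm_eq_abs]
      have h2 : |1 / Ln n * (1 - |u| / Ln n)| ≤ 1 / Ln n := by
        have h3 : |u| ≤ Ln n := abs_le.2 ⟨hu.1.le, hu.2⟩
        have h4 : |u| / Ln n ≤ 1 := by rw [div_le_one hL]; exact h3
        have h5 : 0 ≤ |u| / Ln n := by positivity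
        rw [abs_of_nonneg (mul_nonneg (by positivity) (by linarith))]
        calc 1 / Ln n * (1 - |u| / Ln n) ≤ 1 / Ln n * 1 := mul_le_mul_of_nonneg_left (by linarith) (by positivity)
          _ = _ := mul_one _
      have h6 : ‖Pp n J p u‖ * ‖g (θ - u) - κ‖ ≤ 1 / B * ‖g (θ - u) - κ‖ ^ 2 + B / 4 * ‖Pp n J p u‖ ^ 2 := by
        have h7 : 1 / B * ‖g (θ - u) - κ‖ ^ 2 + B / 4 * ‖Pp n J p u‖ ^ 2 - ‖Pp n J p u‖ * ‖g (θ - u) - κ‖ =
            1 / B * (‖g (θ - u) - κ‖ - B / 2 * ‖Pp n J p u‖) ^ 2 := by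
          field_simp
          ring
        have h8 : 0 ≤ 1 / B * (‖g (θ - u) - κ‖ - B / 2 * ‖Pp n J p u‖) ^ 2 := by positivity
        linarith
      calc |1 / Ln n * (1 - |u| / Ln n)| * ‖Pp n J p u‖ * ‖g (θ - u) - κ‖
          = |1 / Ln n * (1 - |u| / Ln n)| * (‖Pp n J p u‖ * ‖g (θ - u) - κ‖) := by ring
        _ ≤ 1 / Ln n * (1 / B * ‖g (θ - u) - κ‖ ^ 2 + B / 4 * ‖Pp n J p u‖ ^ 2) :=
            mul_le_mul h2 h6 (by positivity) (by positivity)
        _ = _ := by field_simp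
    · exact (hc1.add hc2).intervalIntegrable _ _
  refine h1.trans ?_
  rw [intervalIntegral.integral_add (hc1.intervalIntegrable _ _) (hc2.intervalIntegrable _ _),
    intervalIntegral.integral_const_mul, intervalIntegral.integral_const_mul, integral_Pp]
  have h9 : ∫ u in (-(Ln n))..(Ln n), ‖g (θ - u) - κ‖ ^ 2 = ∫ t in (θ - Ln n)..(θ + Ln n), ‖g t - κ‖ ^ 2 := by
    have := intervalIntegral.integral_comp_sub_left (a := -(Ln n)) (b := Ln n) (fun t => ‖g t - κ‖ ^ 2) θ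
    rw [this]
    simp
  rw [h9]
  have h10 : 1 / (B * Ln n) * (∫ t in (θ - Ln n)..(θ + Ln n), ‖g t - κ‖ ^ 2) ≤ 2 * B := by
    calc _ ≤ 1 / (B * Ln n) * (B ^ 2 * (2 * Ln n)) := mul_le_mul_of_nonneg_left h (by positivity)
      _ = _ := by field_simp
  have h11 : B / (4 * Ln n) * (2 * Ln n * ∑ j ∈ Ico 1 J, p j ^ 2) ≤ 2 * B := by
    calc _ = B / 2 * ∑ j ∈ Ico 1 J, p j ^ 2 := by field_simp; ring
      _ ≤ B / 2 * 4 := mul_le_mul_of_nonneg_left hp (by positivity)
      _ = _ := by ring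
  linarith

/-- upper bound for the multiplier -/
lemma lam_le (n J : ℕ) (p : ℕ → ℝ) (hp : ∑ j ∈ Ico 1 J, p j ^ 2 ≤ 4) (k : ℕ) : |lam n J p k| ≤ 4 := by
  have h := Tg_bound n J p hp (fun t => E (k * t)) (continuous_E.comp (by fun_prop)) 0 0 1 one_pos (by
    simp only [sub_zero, norm_E]
    simp
    linarith)
  rw [Tg_exp, norm_mul, norm_E, mul_one, Complex.norm_real, Real.norm_eq_abs] at h
  linarith

/-- lower bound for the multiplier -/
lemma lam_ge (n J : ℕ) (v : ℕ → ℝ) (hv : ∀ j, 0 ≤ v j) (hv0 : v 0 = 0) (hJ : ∀ j, J ≤ j + 1 → v j = 0) (k : ℕ) :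
    4 / Real.pi ^ 2 * v (k / 2 ^ n) ≤ lam n J (fun j => v j + v (j - 1)) k := by
  have hD : (0:ℝ) < 2 ^ n := by positivity
  have hpi := Real.pi_pos
  set j := k / 2 ^ n with hj
  by_cases hv1 : v j = 0
  · rw [hv1, mul_zero]
    unfold lam
    exact sum_nonneg fun i _ => mul_nonneg (add_nonneg (hv _) (hv _)) (Lh_nonneg _ _)
  have hj1 : 1 ≤ j := by
    by_contra h
    have : j = 0 := Nat.lt_one_iff.1 (not_le.1 h)
    rw [this] at hv1
    exact hv1 hv0
  have hj2 : j + 1 < J := by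
    by_contra h
    exact hv1 (hJ j (by omega))
  -- position of k
  set r := k % 2 ^ n with hr
  have hk : (k : ℝ) = 2 ^ n * j + r := by
    have := Nat.div_add_mod k (2 ^ n)
    rw [← hj, ← hr] at this
    exact_mod_cast this.symm
  have hr2 : (r : ℝ) < 2 ^ n := by
    have := Nat.mod_lt k (by positivity : 0 < 2 ^ n)
    rw [← hr] at this
    exact_mod_cast this
  have hr0 : (0:ℝ) ≤ r := Nat.cast_nonneg _
  have key : ∀ i ∈ Ico 1 J, v j ≤ v i + v (i - 1) → |((i : ℝ) * 2 ^ n - k) * Ln n| ≤ Real.pi →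
      4 / Real.pi ^ 2 * v j ≤ lam n J (fun j => v j + v (j - 1)) k := by
    intro i hi h1 h2
    calc 4 / Real.pi ^ 2 * v j ≤ (v i + v (i - 1)) * Lh (Ln n) (i * 2 ^ n - k) := by
          rw [mul_comm]
          exact mul_le_mul h1 (Lh_ge (Ln_pos n) h2) (by positivity) (add_nonneg (hv _) (hv _))
      _ ≤ _ := single_le_sum (f := fun i => (v i + v (i - 1)) * Lh (Ln n) ((i:ℝ) * 2 ^ n - k))
          (fun i _ => mul_nonneg (add_nonneg (hv _) (hv _)) (Lh_nonneg _ _)) hi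
  by_cases hrD : (2:ℝ) * r ≤ 2 ^ n
  · apply key j (mem_Ico.2 ⟨hj1, by omega⟩)
    · have := hv (j - 1); linarith
    · rw [hk]
      have : ((j : ℝ) * 2 ^ n - (2 ^ n * j + r)) * Ln n = -(r * Ln n) := by ring
      rw [this, abs_neg, abs_of_nonneg (mul_nonneg hr0 (Ln_pos n).le)]
      unfold Ln
      rw [mul_div_assoc', div_le_iff₀ hD]
      nlinarith
  · apply key (j + 1) (mem_Ico.2 ⟨by omega, hj2⟩)
    · have := hv (j + 1)
      rw [Nat.add_sub_cancel]
      linarith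
    · rw [hk]
      have : (((j + 1 : ℕ) : ℝ) * 2 ^ n - (2 ^ n * j + r)) * Ln n = (2 ^ n - r) * Ln n := by push_cast; ring
      rw [this, abs_of_nonneg (mul_nonneg (by linarith) (Ln_pos n).le)]
      unfold Ln
      rw [mul_div_assoc', div_le_iff₀ hD]
      nlinarith

lemma sum_pair_sq (J : ℕ) (v : ℕ → ℝ) (h : ∑ j ∈ range J, v j ^ 2 ≤ 1) :
    ∑ j ∈ Ico 1 J, (v j + v (j - 1)) ^ 2 ≤ 4 := by
  have h1 : ∑ j ∈ Ico 1 J, (v j + v (j - 1)) ^ 2 ≤ ∑ j ∈ Ico 1 J, (2 * v j ^ 2 + 2 * v (j - 1) ^ 2) := by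
    apply sum_le_sum
    intro j _
    nlinarith [sq_nonneg (v j - v (j - 1))]
  have h2 : ∑ j ∈ Ico 1 J, v j ^ 2 ≤ ∑ j ∈ range J, v j ^ 2 := by
    apply sum_le_sum_of_subset_of_nonneg
    · intro j hj
      rw [mem_Ico] at hj
      exact mem_range.2 hj.2
    · intros; positivity
  have h3 : ∑ j ∈ Ico 1 J, v (j - 1) ^ 2 ≤ ∑ j ∈ range J, v j ^ 2 := by
    rw [sum_Ico_eq_sum_range]
    simp only [Nat.add_sub_cancel_left]
    apply sum_le_sum_of_subset_of_nonneg
    · intro j hj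
      rw [mem_range] at hj ⊢
      omega
    · intros; positivity
  rw [sum_add_distrib, ← mul_sum, ← mul_sum] at h1
  linarith

end Pool.Agent.Helper26.Bmoa.Det
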