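import Pool.Agent.Helper26.Bmoa.Defs

set_option autoImplicit false

/-!
Sub-Gaussian bounds for random sums with independent uniform phases.
-/

namespace Pool.Agent.Helper26.Bmoa

open MeasureTheory ProbabilityTheory Set
open scoped ENNReal NNReal

instance : IsProbabilityMeasure phase := by
  constructor
  rw [phase, Measure.smul_apply, Measure.restrict_apply_univ, Real.volume_Icc, sub_zero, smul_eq_mul]
  apply ENNReal.inv_mul_cancel
  · simp [Real.pi_pos]
  · exact ENNReal.ofReal_ne_top

instance {ι : Type} [Fintype ι] : IsProbabilityMeasure (phases ι) := by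
  unfold phases; infer_instance

lemma integral_phase (f : ℝ → ℝ) :
    ∫ x, f x ∂phase = (2 * Real.pi)⁻¹ * ∫ x in (0:ℝ)..(2 * Real.pi), f x := by
  rw [phase, integral_smul_measure, ENNReal.toReal_inv, ENNReal.toReal_ofReal (by positivity),
    integral_Icc_eq_integral_Ioc, intervalIntegral.integral_of_le (by positivity), smul_eq_mul]

lemma integral_re_phase (c : ℂ) : ∫ x, (c * Complex.exp (Complex.I * x)).re ∂phase = 0 := by
  rw [integral_phase]
  have h : ∀ x : ℝ, (c * Complex.exp (Complex.I * x)).re = c.re * Real.cos x - c.im * Real.sin x := by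
    intro x
    rw [mul_comm Complex.I, Complex.exp_mul_I]
    simp [Complex.cos_ofReal_re, Complex.sin_ofReal_re]
  simp_rw [h]
  rw [intervalIntegral.integral_sub, intervalIntegral.integral_const_mul,
    intervalIntegral.integral_const_mul, integral_cos, integral_sin]
  · simp
  · exact (Continuous.intervalIntegrable (by fun_prop) _ _)
  · exact (Continuous.intervalIntegrable (by fun_prop) _ _)

/-- the real part of the sum with complex coefficients -/
noncomputable def Y {ι : Type} [Fintype ι] (c : ι → ℂ) (α : ι → ℝ) : ℝ :=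
  ∑ i, (c i * Complex.exp (Complex.I * α i)).re

/-- sum of the squared moduli -/
noncomputable def nsq {ι : Type} [Fintype ι] (c : ι → ℂ) : ℝ := ∑ i, ‖c i‖ ^ 2

lemma nsq_nonneg {ι : Type} [Fintype ι] (c : ι → ℂ) : 0 ≤ nsq c :=
  Finset.sum_nonneg fun _ _ => by positivity

lemma subg_one {ι : Type} [Fintype ι] (c : ι → ℂ) (i : ι) :
    HasSubgaussianMGF (fun α : ι → ℝ => (c i * Complex.exp (Complex.I * α i)).re)
      (‖c i‖₊ ^ 2) (phases ι) := by
  have hm : Measurable (fun x : ℝ => (c i * Complex.exp (Complex.I * x)).re) := by fun_prop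
  have h1 : HasSubgaussianMGF (fun x : ℝ => (c i * Complex.exp (Complex.I * x)).re)
      ((‖‖c i‖ - -‖c i‖‖₊ / 2) ^ 2) phase := by
    apply hasSubgaussianMGF_of_mem_Icc_of_integral_eq_zero hm.aemeasurable
    · filter_upwards with x
      have : |(c i * Complex.exp (Complex.I * x)).re| ≤ ‖c i‖ := by
        refine (Complex.abs_re_le_norm _).trans ?_
        rw [norm_mul, mul_comm Complex.I, Complex.norm_exp_ofReal_mul_I, mul_one]
      exact abs_le.1 this
    · exact integral_re_phase _
  have e : (‖‖c i‖ - -‖c i‖‖₊ / 2) ^ 2 = ‖c i‖₊ ^ 2 := by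
    congr 1
    apply NNReal.eq
    rw [NNReal.coe_div, coe_nnnorm, coe_nnnorm, sub_neg_eq_add, Real.norm_of_nonneg (by positivity)]
    simp
  rw [e] at h1
  have h2 : MeasurePreserving (Function.eval i) (phases ι) phase := measurePreserving_eval _ i
  have h3 : HasSubgaussianMGF (fun x : ℝ => (c i * Complex.exp (Complex.I * x)).re)
      (‖c i‖₊ ^ 2) ((phases ι).map (Function.eval i)) := by
    rw [h2.map_eq]; exact h1
  have := HasSubgaussianMGF.of_map (h2.measurable.aemeasurable) h3
  exact this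

lemma subg {ι : Type} [Fintype ι] (c : ι → ℂ) :
    HasSubgaussianMGF (Y c) (∑ i, ‖c i‖₊ ^ 2) (phases ι) := by
  have h : iIndepFun (fun i (α : ι → ℝ) => (c i * Complex.exp (Complex.I * α i)).re) (phases ι) := by
    have := iIndepFun_pi (μ := fun _ : ι => phase)
      (X := fun i (x : ℝ) => (c i * Complex.exp (Complex.I * x)).re)
      (fun i => Measurable.aemeasurable (by fun_prop))
    exact this
  exact HasSubgaussianMGF.sum_of_iIndepFun h (s := Finset.univ) (fun i _ => subg_one c i)

lemma gauss_quarter : ∫⁻ x, ENNReal.ofReal (Real.exp (x ^ 2 / 4)) ∂(gaussianReal 0 1) ≤ 2 := by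
  have h1 : ∫⁻ x, ENNReal.ofReal (Real.exp (x ^ 2 / 4)) ∂(gaussianReal 0 1)
      = ∫⁻ x : ℝ, ENNReal.ofReal ((√(2 * Real.pi))⁻¹ * Real.exp (-(1/4) * x ^ 2)) := by
    rw [gaussianReal_of_var_ne_zero _ one_ne_zero,
      lintegral_withDensity_eq_lintegral_mul _ (measurable_gaussianPDF _ _) (by fun_prop)]
    apply lintegral_congr
    intro x
    rw [Pi.mul_apply, gaussianPDF, ← ENNReal.ofReal_mul (gaussianPDFReal_nonneg _ _ _), gaussianPDFReal,
      mul_assoc, ← Real.exp_add]
    congr 2
    · simp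
    · congr 1
      simp only [sub_zero, NNReal.coe_one, mul_one]
      ring
  rw [h1, ← ofReal_integral_eq_lintegral_ofReal]
  · rw [integral_const_mul, integral_gaussian]
    rw [show (2 : ℝ≥0∞) = ENNReal.ofReal 2 by simp]
    apply ENNReal.ofReal_le_ofReal
    rw [← Real.sqrt_inv, ← Real.sqrt_mul (by positivity), Real.sqrt_le_left (by norm_num)]
    have hp := Real.pi_pos
    field_simp
    norm_num
  · exact (integrable_exp_neg_mul_sq (by norm_num)).const_mul _
  · filter_upwards with x
    positivity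

/-- Exponential square integrability of sub-Gaussian variables. -/
lemma exp_sq_le {Ω : Type} [MeasurableSpace Ω] {P : Measure Ω} [IsProbabilityMeasure P] {X : Ω → ℝ}
    (hX : Measurable X) {c : ℝ≥0} (h : HasSubgaussianMGF X c P) (hc : 0 < c) :
    ∫⁻ ω, ENNReal.ofReal (Real.exp (X ω ^ 2 / (4 * c))) ∂P ≤ 2 := by
  have hc' : (0:ℝ) < c := hc
  set s : ℝ := √((2 * c)⁻¹) with hs
  have hs2 : s ^ 2 = (2 * (c:ℝ))⁻¹ := Real.sq_sqrt (by positivity)
  have h1 : ∀ ω, ENNReal.ofReal (Real.exp (X ω ^ 2 / (4 * c))) =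
      ∫⁻ x, ENNReal.ofReal (Real.exp ((s * X ω) * x)) ∂(gaussianReal 0 1) := by
    intro ω
    have h2 := mgf_id_gaussianReal (μ := 0) (v := 1)
    have h3 := congrFun h2 (s * X ω)
    rw [mgf] at h3
    have h4 : Integrable (fun x => Real.exp ((s * X ω) * x)) (gaussianReal 0 1) :=
      integrable_exp_mul_gaussianReal _
    rw [← ofReal_integral_eq_lintegral_ofReal h4 (by filter_upwards with x; positivity)]
    congr 1
    simp only [id] at h3
    rw [h3]
    congr 1
    simp only [NNReal.coe_one, zero_mul, zero_add, one_mul]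
    rw [mul_pow, hs2]
    field_simp
    ring
  simp_rw [h1]
  rw [lintegral_lintegral_swap (by fun_prop)]
  calc ∫⁻ x, ∫⁻ ω, ENNReal.ofReal (Real.exp (s * X ω * x)) ∂P ∂(gaussianReal 0 1)
      ≤ ∫⁻ x, ENNReal.ofReal (Real.exp (x ^ 2 / 4)) ∂(gaussianReal 0 1) := by
        apply lintegral_mono
        intro x
        have h5 : Integrable (fun ω => Real.exp ((s * x) * X ω)) P := h.integrable_exp_mul _
        have e : ∀ ω, s * X ω * x = (s * x) * X ω := fun ω => by ring
        simp only [e]
        rw [← ofReal_integral_eq_lintegral_ofReal h5 (by filter_upwards with x; positivity)]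
        apply ENNReal.ofReal_le_ofReal
        refine (h.mgf_le (s * x)).trans (le_of_eq ?_)
        congr 1
        rw [mul_pow, hs2]
        field_simp
        ring
    _ ≤ 2 := gauss_quarter

lemma measurable_Y {ι : Type} [Fintype ι] (c : ι → ℂ) : Measurable (Y c) := by
  unfold Y; fun_prop

lemma exp_Y_le {ι : Type} [Fintype ι] (c : ι → ℂ) :
    ∫⁻ α, ENNReal.ofReal (Real.exp (Y c α ^ 2 / (4 * nsq c))) ∂(phases ι) ≤ 2 := by
  have e : ((∑ i, ‖c i‖₊ ^ 2 : ℝ≥0) : ℝ) = nsq c := by
    rw [NNReal.coe_sum, nsq]; simp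
  rcases (nsq_nonneg c).eq_or_lt with h | h
  · rw [← h]
    simp
  · rw [← e]
    apply exp_sq_le (measurable_Y c) (subg c)
    rw [← e] at h
    exact_mod_cast h

end Pool.Agent.Helper26.Bmoa
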