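import Mathlib
import Pool.Agent.Helper26.Bmoa.Subg

set_option autoImplicit false

/-!
The Efron-Stein bounded difference inequality for the variance.
-/

namespace Pool.Agent.Helper26.Bmoa

open MeasureTheory Set Filter Topology

lemma int_sq_of_bdd {Ω : Type*} [MeasurableSpace Ω] {P : Measure Ω} [IsFiniteMeasure P] {f : Ω → ℝ}
    (hf : StronglyMeasurable f) {B : ℝ} (hB : ∀ x, |f x| ≤ B) : Integrable (fun x => f x ^ 2) P := by
  have h : StronglyMeasurable (fun x => f x ^ 2) := hf.pow 2
  apply Integrable.of_bound (C := B ^ 2) h.aestronglyMeasurable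
  filter_upwards with q
  rw [Real.norm_eq_abs, abs_pow]
  exact pow_le_pow_left₀ (abs_nonneg _) (hB _) 2

/-- the variance of a function with bounded differences -/
theorem efron_stein (P : Measure ℝ) [IsProbabilityMeasure P] : ∀ (n : ℕ) (f : (Fin n → ℝ) → ℝ) (_ : StronglyMeasurable f)
    (B : ℝ) (_ : ∀ x, |f x| ≤ B) (c : Fin n → ℝ) (_ : ∀ i x y, (∀ j, j ≠ i → x j = y j) → |f x - f y| ≤ c i),
    ∫ x, f x ^ 2 ∂(Measure.pi fun _ : Fin n => P) ≤ (∫ x, f x ∂(Measure.pi fun _ : Fin n => P)) ^ 2 + ∑ i, c i ^ 2 := by
  intro n
  induction n with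
  | zero =>
    intro f hf B hB c hc
    have h1 : ∀ x, f x = f default := fun x => by congr 1; exact Subsingleton.elim _ _
    simp_rw [h1]
    simp
  | succ n ih =>
    intro f hf B hB c hc
    set ν : Measure (Fin n → ℝ) := Measure.pi fun _ : Fin n => P with hν
    -- splitting off the coordinate 0
    have hmp := measurePreserving_piFinSuccAbove (fun _ : Fin (n + 1) => P) 0
    have hmp2 := hmp.symm
    set F : ℝ × (Fin n → ℝ) → ℝ := fun q => f (Fin.cons q.1 q.2) with hF
    have hcons : ∀ q : ℝ × (Fin n → ℝ), (MeasurableEquiv.piFinSuccAbove (fun _ : Fin (n + 1) => ℝ) 0).symm q = Fin.cons q.1 q.2 := by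
      intro q
      simp [MeasurableEquiv.piFinSuccAbove, Fin.insertNthEquiv]
    have hconsm : Measurable (fun q : ℝ × (Fin n → ℝ) => (Fin.cons q.1 q.2 : Fin (n + 1) → ℝ)) := by
      have := (MeasurableEquiv.piFinSuccAbove (fun _ : Fin (n + 1) => ℝ) 0).symm.measurable
      have e : (fun q : ℝ × (Fin n → ℝ) => (Fin.cons q.1 q.2 : Fin (n + 1) → ℝ)) =
          (MeasurableEquiv.piFinSuccAbove (fun _ : Fin (n + 1) => ℝ) 0).symm := by
        ext q : 1
        exact (hcons q).symm
      rw [e]
      exact this
    have hFm : StronglyMeasurable F := hf.comp_measurable hconsm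
    have hB0 : 0 ≤ B := (abs_nonneg _).trans (hB 0)
    have hFi : Integrable F (P.prod ν) := by
      apply Integrable.of_bound (C := B) hFm.aestronglyMeasurable
      filter_upwards with q
      exact hB _
    have hF2i : Integrable (fun q => F q ^ 2) (P.prod ν) := int_sq_of_bdd hFm fun q => hB _
    have e1 : ∀ ψ : (Fin (n + 1) → ℝ) → ℝ, ∫ x, ψ x ∂(Measure.pi fun _ : Fin (n + 1) => P) =
        ∫ q, ψ (Fin.cons q.1 q.2) ∂(P.prod ν) := by
      intro ψ
      have := hmp2.integral_comp' (g := ψ)
      rw [← this]
      congr 1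
      ext q
      rw [hcons]
    rw [e1 (fun x => f x ^ 2), e1 f]
    -- the averaged function
    set g : (Fin n → ℝ) → ℝ := fun y => ∫ t, F (t, y) ∂P with hg
    have hgm : StronglyMeasurable g := hFm.integral_prod_left'
    have hgB : ∀ y, |g y| ≤ B := by
      intro y
      have := norm_integral_le_of_norm_le_const (μ := P) (f := fun t => F (t, y)) (C := B)
        (Eventually.of_forall fun t => hB _)
      simpa using this
    have hFt : ∀ y, Integrable (fun t => F (t, y)) P := by
      intro y
      apply Integrable.of_bound (C := B) (hFm.comp_measurable (by fun_prop)).aestronglyMeasurable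
      filter_upwards with q
      exact hB _
    have hFt2 : ∀ y, Integrable (fun t => F (t, y) ^ 2) P := by
      intro y
      exact int_sq_of_bdd (hFm.comp_measurable (by fun_prop : Measurable fun t : ℝ => (t, y))) fun q => hB _
    have hgc : ∀ i x y, (∀ j, j ≠ i → x j = y j) → |g x - g y| ≤ c i.succ := by
      intro i x y hxy
      simp only [hg]
      rw [← integral_sub (hFt x) (hFt y)]
      have := norm_integral_le_of_norm_le_const (μ := P) (f := fun t => F (t, x) - F (t, y)) (C := c i.succ)
        (Eventually.of_forall fun t => by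
          apply hc i.succ
          intro j hj
          induction j using Fin.cases with
          | zero => simp
          | succ j =>
            simp only [Fin.cons_succ]
            exact hxy j (fun h => hj (by rw [h])))
      simpa using this
    have hIH := ih g hgm B hgB (fun i => c i.succ) hgc
    -- the inner variance
    have hinner : ∀ y, ∫ t, F (t, y) ^ 2 ∂P ≤ g y ^ 2 + c 0 ^ 2 := by
      intro y
      have h1 : ∀ t, |F (t, y) - g y| ≤ c 0 := by
        intro t
        have h2 : F (t, y) - g y = ∫ s, (F (t, y) - F (s, y)) ∂P := by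
          rw [integral_sub (integrable_const _) (hFt y)]
          simp [hg]
        rw [h2]
        have := norm_integral_le_of_norm_le_const (μ := P) (f := fun s => F (t, y) - F (s, y)) (C := c 0)
          (Eventually.of_forall fun s => by
            apply hc 0
            intro j hj
            induction j using Fin.cases with
            | zero => exact absurd rfl hj
            | succ j => simp)
        simpa using this
      have h3 : ∀ t, F (t, y) ^ 2 ≤ c 0 ^ 2 + 2 * g y * F (t, y) - g y ^ 2 := by
        intro t
        have h4 : (F (t, y) - g y) ^ 2 ≤ c 0 ^ 2 := by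
          rw [← sq_abs]
          exact pow_le_pow_left₀ (abs_nonneg _) (h1 t) 2
        nlinarith
      have hi : Integrable (fun t => c 0 ^ 2 + 2 * g y * F (t, y) - g y ^ 2) P :=
        ((integrable_const _).add ((hFt y).const_mul _)).sub (integrable_const _)
      calc _ ≤ ∫ t, (c 0 ^ 2 + 2 * g y * F (t, y) - g y ^ 2) ∂P := integral_mono (hFt2 y) hi h3
        _ = c 0 ^ 2 + 2 * g y * g y - g y ^ 2 := by
            have hi2 : Integrable (fun t => c 0 ^ 2 + 2 * g y * F (t, y)) P := (integrable_const _).add ((hFt y).const_mul _)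
            rw [integral_sub hi2 (integrable_const _), integral_add (integrable_const _) ((hFt y).const_mul _),
              integral_const_mul]
            simp [hg]
        _ = _ := by ring
    have hg2i : Integrable (fun y => g y ^ 2) ν := int_sq_of_bdd hgm hgB
    have hA : ∫ q, f (Fin.cons q.1 q.2) ^ 2 ∂(P.prod ν) ≤ ∫ y, g y ^ 2 ∂ν + c 0 ^ 2 := by
      calc ∫ q, f (Fin.cons q.1 q.2) ^ 2 ∂(P.prod ν) = ∫ y, ∫ t, F (t, y) ^ 2 ∂P ∂ν := by
            rw [← integral_prod_symm _ hF2i]
        _ ≤ ∫ y, (g y ^ 2 + c 0 ^ 2) ∂ν := by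
            apply integral_mono hF2i.integral_prod_right (hg2i.add (integrable_const _))
            exact hinner
        _ = _ := by
            rw [integral_add hg2i (integrable_const _)]
            simp
    have hE : ∫ q, f (Fin.cons q.1 q.2) ∂(P.prod ν) = ∫ y, g y ∂ν := by
      rw [← integral_prod_symm _ hFi]
    rw [hE, Fin.sum_univ_succ]
    linarith

end Pool.Agent.Helper26.Bmoa
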