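import Mathlib

set_option autoImplicit false

/-!
Gaussian linear forms: definitions and basic facts.
-/

namespace Pool.Agent.Helper26.Bmoa
open MeasureTheory ProbabilityTheory

/-- the value of the Gaussian linear form with coefficients `a` -/
noncomputable def gl {κ : Type} [Fintype κ] (a x : κ → ℝ) : ℝ := ∑ k, a k * x k

/-- standard Gaussian measure -/
noncomputable def gs (κ : Type) [Fintype κ] : Measure (κ → ℝ) := Measure.pi fun _ => gaussianReal 0 1

instance (κ : Type) [Fintype κ] : IsProbabilityMeasure (gs κ) := by unfold gs; infer_instance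

lemma integrable_sup' {Ω κ : Type*} [MeasurableSpace Ω] {μ : Measure Ω} (s : Finset κ) (hs : s.Nonempty)
    (f : κ → Ω → ℝ) (hf : ∀ i ∈ s, Integrable (f i) μ) :
    Integrable (fun ω => s.sup' hs (fun i => f i ω)) μ := by
  classical
  induction hs using Finset.Nonempty.cons_induction with
  | singleton a => simpa using hf a (by simp)
  | cons a s h hs ih =>
    have h1 : Integrable (fun ω => s.sup' hs (fun i => f i ω)) μ := ih (fun i hi => hf i (by simp [hi]))
    have h2 : (fun ω => (Finset.cons a s h).sup' (Finset.cons_nonempty h) (fun i => f i ω)) =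
        fun ω => f a ω ⊔ s.sup' hs (fun i => f i ω) := by
      ext ω
      rw [Finset.sup'_cons hs]
    rw [h2]
    exact (hf a (by simp)).sup h1

variable {κ κ' : Type} [Fintype κ] [Fintype κ']

lemma integrable_coord (k : κ) : Integrable (fun x : κ → ℝ => x k) (gs κ) := by
  have h : Integrable (id : ℝ → ℝ) (gaussianReal 0 1) := IsGaussian.integrable_id
  exact integrable_comp_eval (μ := fun _ : κ => gaussianReal 0 1) (f := id) h

lemma integrable_gl (a : κ → ℝ) : Integrable (gl a) (gs κ) := by
  unfold gl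
  exact integrable_finsetSum _ fun k _ => (integrable_coord k).const_mul _

lemma measurable_gl (a : κ → ℝ) : Measurable (gl a) := by
  unfold gl
  fun_prop

lemma integral_coord (k : κ) : ∫ x, x k ∂(gs κ) = 0 := by
  have h := integral_comp_eval (μ := fun _ : κ => gaussianReal 0 1) (i := k) (f := fun x : ℝ => x)
    (by fun_prop)
  unfold gs
  rw [h]
  exact integral_id_gaussianReal

lemma integral_gl (a : κ → ℝ) : ∫ x, gl a x ∂(gs κ) = 0 := by
  unfold gl
  rw [integral_finsetSum _ fun k _ => (integrable_coord k).const_mul _]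
  apply Finset.sum_eq_zero
  intro k _
  rw [integral_const_mul, integral_coord, mul_zero]

/-- co-isometries preserve the standard Gaussian measure -/
lemma gs_map (T : κ' → κ → ℝ) (hT : ∀ t : κ' → ℝ, ∑ k, (∑ k', t k' * T k' k) ^ 2 = ∑ k', t k' ^ 2) :
    (gs κ).map (fun x k' => gl (T k') x) = gs κ' := by
  have hm : Measurable (fun (x : κ → ℝ) k' => gl (T k') x) := measurable_pi_lambda _ fun k' => measurable_gl _
  have key : ((gs κ).map (fun x k' => gl (T k') x)).map (WithLp.toLp 2) =
      (gs κ').map (WithLp.toLp 2) := by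
    apply Measure.ext_of_charFun (E := EuclideanSpace ℝ κ')
    ext t
    rw [charFun_apply, charFun_apply, Measure.map_map (by fun_prop) hm, integral_map, integral_map]
    rotate_left
    · fun_prop
    · exact (by fun_prop : Measurable fun x : EuclideanSpace ℝ κ' => Complex.exp (inner ℝ x t * Complex.I)).aestronglyMeasurable
    · exact ((by fun_prop : Measurable (WithLp.toLp 2 : (κ' → ℝ) → EuclideanSpace ℝ κ')).comp hm).aemeasurable
    · exact (by fun_prop : Measurable fun x : EuclideanSpace ℝ κ' => Complex.exp (inner ℝ x t * Complex.I)).aestronglyMeasurable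
    have gen : ∀ {κ : Type} [Fintype κ] (s : κ → ℝ), ∫ x, Complex.exp (((∑ k, x k * s k : ℝ) : ℂ) * Complex.I) ∂(gs κ) =
        Complex.exp (-(∑ k, s k ^ 2 : ℝ) / 2) := by
      intro κ _ s
      have h1 : ∀ x : κ → ℝ, Complex.exp (((∑ k, x k * s k : ℝ) : ℂ) * Complex.I) =
          ∏ k, Complex.exp (((x k * s k : ℝ) : ℂ) * Complex.I) := by
        intro x
        rw [← Complex.exp_sum]
        congr 1
        push_cast
        rw [Finset.sum_mul]
      simp_rw [h1]
      unfold gs
      rw [integral_fintype_prod_eq_prod (f := fun k x => Complex.exp (((x * s k : ℝ) : ℂ) * Complex.I))]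
      have h2 : ∀ k, ∫ x, Complex.exp (((x * s k : ℝ) : ℂ) * Complex.I) ∂(gaussianReal 0 1) =
          Complex.exp (-(s k ^ 2 : ℝ) / 2) := by
        intro k
        have := charFun_gaussianReal (μ := 0) (v := 1) (s k)
        rw [charFun_apply_real] at this
        have e : ∀ x : ℝ, ((x * s k : ℝ) : ℂ) * Complex.I = (s k : ℂ) * x * Complex.I := by
          intro x; push_cast; ring
        simp_rw [e]
        rw [this]
        congr 1
        push_cast
        ring
      rw [Finset.prod_congr rfl fun k _ => h2 k, ← Complex.exp_sum]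
      congr 1
      push_cast
      rw [← Finset.sum_div, Finset.sum_neg_distrib]
    have e1 : ∀ x : κ → ℝ, (inner ℝ ((WithLp.toLp 2 ∘ fun (x : κ → ℝ) k' => gl (T k') x) x : EuclideanSpace ℝ κ') t : ℝ) =
        ∑ k, x k * (∑ k', t k' * T k' k) := by
      intro x
      simp only [Function.comp_apply, PiLp.inner_apply, gl]
      simp only [Finset.mul_sum]
      rw [Finset.sum_comm]
      apply Finset.sum_congr rfl
      intro k' _
      simp only [RCLike.inner_apply, conj_trivial, Finset.mul_sum]
      apply Finset.sum_congr rfl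
      intro k _
      ring
    have e2 : ∀ x : κ' → ℝ, (inner ℝ (WithLp.toLp 2 x : EuclideanSpace ℝ κ') t : ℝ) = ∑ k, x k * t k := by
      intro x
      simp only [PiLp.inner_apply]
      apply Finset.sum_congr rfl
      intro k' _
      simp only [RCLike.inner_apply, conj_trivial]
      ring
    simp only [e1, e2]
    have := gen (fun k => ∑ k', t k' * T k' k)
    rw [this, gen (fun k => t k), hT]
  have h2 := congrArg (Measure.map (WithLp.ofLp : EuclideanSpace ℝ κ' → κ' → ℝ)) key
  have ho : Measurable (WithLp.ofLp : EuclideanSpace ℝ κ' → κ' → ℝ) := by fun_prop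
  have ht : Measurable (WithLp.toLp 2 : (κ' → ℝ) → EuclideanSpace ℝ κ') := by fun_prop
  rw [Measure.map_map ho ht, Measure.map_map ho ht] at h2
  have h3 : (WithLp.ofLp ∘ WithLp.toLp 2 : (κ' → ℝ) → (κ' → ℝ)) = id := rfl
  rw [h3, Measure.map_id, Measure.map_id] at h2
  exact h2

/-- the absolute first moment -/
lemma integral_abs_gauss : ∫ x, |x| ∂(gaussianReal 0 1) = √(2 / Real.pi) := by
  rw [integral_gaussianReal_eq_integral_smul one_ne_zero]
  have h1 : ∀ x : ℝ, gaussianPDFReal 0 1 x • |x| = (fun y => (√(2 * Real.pi))⁻¹ * (y * Real.exp (-(1/2) * y ^ 2))) |x| := by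
    intro x
    simp only [gaussianPDFReal, smul_eq_mul, sub_zero, NNReal.coe_one, mul_one, sq_abs]
    have : -x ^ 2 / 2 = -(1/2) * x ^ 2 := by ring
    rw [this]
    ring
  simp_rw [h1]
  rw [integral_comp_abs (f := fun y => (√(2 * Real.pi))⁻¹ * (y * Real.exp (-(1/2) * y ^ 2))), integral_const_mul]
  have h2 : ∫ y in Set.Ioi (0:ℝ), y * Real.exp (-(1/2) * y ^ 2) = 1 := by
    have h3 := integral_mul_cexp_neg_mul_sq (b := (1/2 : ℝ)) (by simp)
    have h4 : ∀ y : ℝ, (y : ℂ) * Complex.exp (-((1/2 : ℝ) : ℂ) * (y : ℂ) ^ 2) = ((y * Real.exp (-(1/2) * y ^ 2) : ℝ) : ℂ) := by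
      intro y; push_cast; rfl
    simp_rw [h4] at h3
    rw [integral_complex_ofReal] at h3
    have h5 : ((2 * ((1/2 : ℝ) : ℂ))⁻¹ : ℂ) = ((1 : ℝ) : ℂ) := by push_cast; norm_num
    rw [h5] at h3
    exact_mod_cast h3
  rw [h2]
  rw [mul_one, ← Real.sqrt_inv]
  have h6 : (2:ℝ) = √4 := by
    rw [show (4:ℝ) = 2 ^ 2 by norm_num]
    exact (Real.sqrt_sq (by norm_num)).symm
  conv_lhs => rw [h6]
  rw [← Real.sqrt_mul (by norm_num)]
  congr 1
  field_simp
  norm_num

end Pool.Agent.Helper26.Bmoa
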