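import Mathlib
import Pool.Agent.Helper26.Bmoa.SFDefs
import Pool.Agent.Helper51.Bmoa.SF

set_option autoImplicit false

namespace Pool.Agent.Helper26.Bmoa
open MeasureTheory ProbabilityTheory

/-- Sudakov-Fernique comparison. -/
theorem sudakov_fernique {ι κ κ' : Type} [Fintype ι] [Nonempty ι] [Fintype κ] [Fintype κ']
    (A : ι → κ → ℝ) (B : ι → κ' → ℝ)
    (h : ∀ i j, ∑ k, (B i k - B j k) ^ 2 ≤ ∑ k, (A i k - A j k) ^ 2) :
    ∫ x, Finset.univ.sup' Finset.univ_nonempty (fun i => gl (B i) x) ∂(gs κ') ≤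
      ∫ x, Finset.univ.sup' Finset.univ_nonempty (fun i => gl (A i) x) ∂(gs κ) :=
  Pool.Agent.Helper51.Bmoa.sudakov_fernique A B h

end Pool.Agent.Helper26.Bmoa
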