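import Mathlib
import Pool.Agent.Helper26.Bmoa.Rad
import Pool.Agent.Helper26.Bmoa.SF

set_option autoImplicit false

/-!
Growth of the expected maximum of a stationary Gaussian process.
-/

namespace Pool.Agent.Helper26.Bmoa
open MeasureTheory ProbabilityTheory Finset

variable {G ι : Type} [AddCommGroup G] [MeasurableSpace G] [Fintype ι]

/-- the coefficient vector of the Gaussian process at `x` -/
noncomputable def gv (χ : ι → G → ℂ) (b : ι → ℝ) (x : G) : ι ⊕ ι → ℝ :=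
  Sum.elim (fun i => b i * (χ i x).re) (fun i => b i * (χ i x).im)

/-- the weighted character vector -/
noncomputable def cv (χ : ι → G → ℂ) (b : ι → ℝ) (x : G) : EuclideanSpace ℂ ι :=
  WithLp.toLp 2 (fun i => (b i : ℂ) * χ i x)

lemma dsq_eq {χ : ι → G → ℂ} (h : IsCharSys χ) (b : ι → ℝ) (x y : G) :
    dsq χ b (x - y) = ‖cv χ b x - cv χ b y‖ ^ 2 := by
  rw [EuclideanSpace.norm_sq_eq]
  unfold dsq cv
  apply Finset.sum_congr rfl
  intro i _
  have h1 : χ i x = χ i (x - y) * χ i y := by rw [← h.map_add, sub_add_cancel]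
  simp only [PiLp.sub_apply]
  rw [h1]
  have h2 : (b i : ℂ) * (χ i (x - y) * χ i y) - (b i : ℂ) * χ i y = (b i : ℂ) * (χ i (x - y) - 1) * χ i y := by ring
  rw [h2, norm_mul, norm_mul, h.norm_eq, mul_one, Complex.norm_real, mul_pow, Real.norm_eq_abs, sq_abs]

lemma gv_dist {χ : ι → G → ℂ} (h : IsCharSys χ) (b : ι → ℝ) (x y : G) :
    ∑ k, (gv χ b x k - gv χ b y k) ^ 2 = dsq χ b (x - y) := by
  rw [dsq_eq h, EuclideanSpace.norm_sq_eq, Fintype.sum_sum_type, ← Finset.sum_add_distrib]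
  apply Finset.sum_congr rfl
  intro i _
  simp only [gv, cv, Sum.elim_inl, Sum.elim_inr, PiLp.sub_apply]
  rw [← Complex.normSq_eq_norm_sq, Complex.normSq_apply]
  simp
  ring

/-- expected maximum of the Gaussian process on `F` -/
noncomputable def GS (χ : ι → G → ℂ) (b : ι → ℝ) (F : Finset G) (hF : F.Nonempty) : ℝ :=
  ∫ x, F.sup' hF (fun t => gl (gv χ b t) x) ∂(gs (ι ⊕ ι))

lemma dsq_zero_sub {χ : ι → G → ℂ} (h : IsCharSys χ) (b : ι → ℝ) (x : G) : dsq χ b x = ‖cv χ b x - cv χ b 0‖ ^ 2 := by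
  rw [← dsq_eq h, sub_zero]

/-- the growth step -/
lemma growth {χ : ι → G → ℂ} (h : IsCharSys χ) (b : ι → ℝ) (m : ℕ) (t : (Fin m → Bool) → G) (a : ℝ) (ha : 0 ≤ a)
    (hsep : ∀ ε ε', ε ≠ ε' → a ^ 2 ≤ dsq χ b (t ε - t ε'))
    (H : Finset G) (hH : H.Nonempty) (hHr : ∀ x ∈ H, dsq χ b x ≤ (a / 8) ^ 2)
    (F : Finset G) (hF : F.Nonempty) (hFF : ∀ ε, ∀ x ∈ H, t ε + x ∈ F) :
    GS χ b H hH + a / 2 * √(m / Real.pi) ≤ GS χ b F hF := by
  classical
  have : Nonempty {x // x ∈ H} := ⟨⟨hH.choose, hH.choose_spec⟩⟩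
  set κ0 : ℝ := a / √(8 * m) with hκ0
  have hκn : 0 ≤ κ0 := by positivity
  have hκm : 4 * κ0 ^ 2 * m ≤ a ^ 2 / 2 := by
    rcases Nat.eq_zero_or_pos m with h0 | h0
    · subst h0
      simp
      positivity
    · have hm : (0:ℝ) < m := by exact_mod_cast h0
      rw [hκ0, div_pow, Real.sq_sqrt (by positivity)]
      apply le_of_eq
      field_simp
      ring
  -- the two processes
  set A : ((Fin m → Bool) × {x // x ∈ H}) → ι ⊕ ι → ℝ := fun q => gv χ b (t q.1 + q.2) with hA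
  set B : ((Fin m → Bool) × {x // x ∈ H}) → Fin m ⊕ (ι ⊕ ι) → ℝ := fun q =>
    Sum.elim (fun i => if q.1 i then κ0 else -κ0) (gv χ b q.2) with hB
  have hcomp : ∀ q q', ∑ k, (B q k - B q' k) ^ 2 ≤ ∑ k, (A q k - A q' k) ^ 2 := by
    intro q q'
    rw [hA, gv_dist h, Fintype.sum_sum_type]
    simp only [hB, Sum.elim_inl, Sum.elim_inr]
    rw [gv_dist h]
    by_cases hq : q.1 = q'.1
    · rw [hq]
      have : ∑ i, ((if q'.1 i then κ0 else -κ0) - (if q'.1 i then κ0 else -κ0)) ^ 2 = 0 := by simp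
      rw [this, zero_add, add_sub_add_left_eq_sub]
    · have h1 : ∑ i, ((if q.1 i then κ0 else -κ0) - (if q'.1 i then κ0 else -κ0)) ^ 2 ≤ a ^ 2 / 2 := by
        refine le_trans ?_ hκm
        have : 4 * κ0 ^ 2 * m = ∑ i : Fin m, 4 * κ0 ^ 2 := by simp; ring
        rw [this]
        apply Finset.sum_le_sum
        intro i _
        split_ifs <;> nlinarith [sq_nonneg κ0]
      have h2 := hsep _ _ hq
      have h3 := hHr _ q.2.2
      have h4 := hHr _ q'.2.2
      rw [dsq_eq h] at h2 ⊢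
      rw [dsq_eq h]
      have f1 : ‖cv χ b (t q.1 + q.2) - cv χ b (t q.1)‖ ≤ a / 8 := by
        rw [← Real.sqrt_sq (norm_nonneg _), ← dsq_eq h, add_sub_cancel_left, ← Real.sqrt_sq (by positivity : 0 ≤ a / 8)]
        exact Real.sqrt_le_sqrt h3
      have f2 : ‖cv χ b (t q'.1 + q'.2) - cv χ b (t q'.1)‖ ≤ a / 8 := by
        rw [← Real.sqrt_sq (norm_nonneg _), ← dsq_eq h, add_sub_cancel_left, ← Real.sqrt_sq (by positivity : 0 ≤ a / 8)]
        exact Real.sqrt_le_sqrt h4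
      have f3 : a ≤ ‖cv χ b (t q.1) - cv χ b (t q'.1)‖ := le_of_sq_le_sq h2 (norm_nonneg _)
      have f4 : ‖cv χ b (q.2 : G) - cv χ b (q'.2 : G)‖ ≤ a / 4 := by
        have g1 : ‖cv χ b (q.2 : G) - cv χ b 0‖ ≤ a / 8 := by
          rw [← Real.sqrt_sq (norm_nonneg _), ← dsq_zero_sub h, ← Real.sqrt_sq (by positivity : 0 ≤ a / 8)]
          exact Real.sqrt_le_sqrt h3
        have g2 : ‖cv χ b (q'.2 : G) - cv χ b 0‖ ≤ a / 8 := by
          rw [← Real.sqrt_sq (norm_nonneg _), ← dsq_zero_sub h, ← Real.sqrt_sq (by positivity : 0 ≤ a / 8)]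
          exact Real.sqrt_le_sqrt h4
        have : cv χ b (q.2 : G) - cv χ b (q'.2 : G) = (cv χ b (q.2 : G) - cv χ b 0) - (cv χ b (q'.2 : G) - cv χ b 0) := by abel
        rw [this]
        refine (norm_sub_le _ _).trans ?_
        linarith
      have f5 : 3 * a / 4 ≤ ‖cv χ b (t q.1 + q.2) - cv χ b (t q'.1 + q'.2)‖ := by
        have : cv χ b (t q.1) - cv χ b (t q'.1) = (cv χ b (t q.1 + q.2) - cv χ b (t q'.1 + q'.2)) -
            (cv χ b (t q.1 + q.2) - cv χ b (t q.1)) + (cv χ b (t q'.1 + q'.2) - cv χ b (t q'.1)) := by abel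
        rw [this] at f3
        have g3 := norm_add_le ((cv χ b (t q.1 + q.2) - cv χ b (t q'.1 + q'.2)) -
            (cv χ b (t q.1 + q.2) - cv χ b (t q.1))) (cv χ b (t q'.1 + q'.2) - cv χ b (t q'.1))
        have g4 := norm_sub_le (cv χ b (t q.1 + q.2) - cv χ b (t q'.1 + q'.2))
            (cv χ b (t q.1 + q.2) - cv χ b (t q.1))
        linarith
      have f6 : (3 * a / 4) ^ 2 ≤ ‖cv χ b (t q.1 + q.2) - cv χ b (t q'.1 + q'.2)‖ ^ 2 :=
        pow_le_pow_left₀ (by positivity) f5 2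
      have f7 : ‖cv χ b (q.2 : G) - cv χ b (q'.2 : G)‖ ^ 2 ≤ (a / 4) ^ 2 := pow_le_pow_left₀ (norm_nonneg _) f4 2
      nlinarith
  have hsf := sudakov_fernique A B hcomp
  -- the upper process
  have hup : ∫ x, Finset.univ.sup' Finset.univ_nonempty (fun q => gl (A q) x) ∂(gs (ι ⊕ ι)) ≤ GS χ b F hF := by
    unfold GS
    apply integral_mono
    · exact integrable_sup' _ _ _ fun q _ => integrable_gl _
    · exact integrable_sup' _ _ _ fun q _ => integrable_gl _
    · intro x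
      apply Finset.sup'_le
      intro q _
      exact Finset.le_sup' (fun t => gl (gv χ b t) x) (hFF q.1 q.2 q.2.2)
  -- the lower process
  have hmarg : (gs (Fin m ⊕ (ι ⊕ ι))).map (fun x k' => x (Sum.inr k')) = gs (ι ⊕ ι) := by
    have := gs_map (κ := Fin m ⊕ (ι ⊕ ι)) (κ' := ι ⊕ ι) (fun k' => Pi.single (Sum.inr k') 1) (by
      intro s
      rw [Fintype.sum_sum_type]
      have e1 : ∀ i : Fin m, (∑ k', s k' * (Pi.single (Sum.inr k') (1:ℝ) : Fin m ⊕ (ι ⊕ ι) → ℝ) (Sum.inl i)) = 0 := by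
        intro i
        apply Finset.sum_eq_zero
        intro k' _
        simp
      have e2 : ∀ k : ι ⊕ ι, (∑ k', s k' * (Pi.single (Sum.inr k') (1:ℝ) : Fin m ⊕ (ι ⊕ ι) → ℝ) (Sum.inr k)) = s k := by
        intro k
        rw [Finset.sum_eq_single k]
        · simp
        · intro k' _ hne
          rw [Pi.single_eq_of_ne, mul_zero]
          intro hh
          exact hne (Sum.inr_injective hh).symm
        · intro hh
          exact absurd (Finset.mem_univ _) hh
      simp only [e1, e2]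
      simp)
    have e3 : (fun (x : Fin m ⊕ (ι ⊕ ι) → ℝ) (k' : ι ⊕ ι) => gl (Pi.single (Sum.inr k') 1) x) =
        fun x k' => x (Sum.inr k') := by
      ext x k'
      unfold gl
      rw [Finset.sum_eq_single (Sum.inr k')]
      · simp
      · intro k _ hne
        rw [Pi.single_eq_of_ne hne, zero_mul]
      · intro hh
        exact absurd (Finset.mem_univ _) hh
    rw [e3] at this
    exact this
  have hintsup : Integrable (fun x => H.sup' hH (fun t => gl (gv χ b t) x)) (gs (ι ⊕ ι)) :=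
    integrable_sup' _ _ _ fun q _ => integrable_gl _
  have hmr : Measurable (fun (x : Fin m ⊕ (ι ⊕ ι) → ℝ) (k' : ι ⊕ ι) => x (Sum.inr k')) := by fun_prop
  have hint2 : Integrable (fun x : Fin m ⊕ (ι ⊕ ι) → ℝ => H.sup' hH (fun t => gl (gv χ b t) (fun k' => x (Sum.inr k'))))
      (gs (Fin m ⊕ (ι ⊕ ι))) := by
    have := (integrable_map_measure (μ := gs (Fin m ⊕ (ι ⊕ ι))) (f := fun (x : Fin m ⊕ (ι ⊕ ι) → ℝ) (k' : ι ⊕ ι) => x (Sum.inr k'))
      (g := fun x => H.sup' hH (fun t => gl (gv χ b t) x)) (by rw [hmarg]; exact hintsup.aestronglyMeasurable) hmr.aemeasurable).1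
      (by rw [hmarg]; exact hintsup)
    exact this
  have hval2 : ∫ x : Fin m ⊕ (ι ⊕ ι) → ℝ, H.sup' hH (fun t => gl (gv χ b t) (fun k' => x (Sum.inr k'))) ∂(gs (Fin m ⊕ (ι ⊕ ι))) =
      GS χ b H hH := by
    unfold GS
    rw [← hmarg, integral_map hmr.aemeasurable (by rw [hmarg]; exact hintsup.aestronglyMeasurable)]
  have hint1 : Integrable (fun x : Fin m ⊕ (ι ⊕ ι) → ℝ => κ0 * ∑ i : Fin m, |x (Sum.inl i)|) (gs (Fin m ⊕ (ι ⊕ ι))) :=
    (integrable_finsetSum _ fun i _ => (integrable_coord _).abs).const_mul _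
  have hval1 : ∫ x : Fin m ⊕ (ι ⊕ ι) → ℝ, κ0 * ∑ i : Fin m, |x (Sum.inl i)| ∂(gs (Fin m ⊕ (ι ⊕ ι))) =
      κ0 * (m * √(2 / Real.pi)) := by
    rw [integral_const_mul, integral_finsetSum _ fun i _ => (integrable_coord _).abs]
    have : ∀ i : Fin m, ∫ x : Fin m ⊕ (ι ⊕ ι) → ℝ, |x (Sum.inl i)| ∂(gs (Fin m ⊕ (ι ⊕ ι))) = √(2 / Real.pi) := by
      intro i
      have h := integral_comp_eval (μ := fun _ : Fin m ⊕ (ι ⊕ ι) => gaussianReal 0 1) (i := Sum.inl i) (f := fun x : ℝ => |x|)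
        (by fun_prop)
      unfold gs
      rw [h, integral_abs_gauss]
    simp_rw [this]
    simp
  have hlow : GS χ b H hH + a / 2 * √(m / Real.pi) ≤
      ∫ x, Finset.univ.sup' Finset.univ_nonempty (fun q => gl (B q) x) ∂(gs (Fin m ⊕ (ι ⊕ ι))) := by
    have h1 : GS χ b H hH + a / 2 * √(m / Real.pi) = ∫ x : Fin m ⊕ (ι ⊕ ι) → ℝ,
        (κ0 * ∑ i : Fin m, |x (Sum.inl i)| + H.sup' hH (fun t => gl (gv χ b t) (fun k' => x (Sum.inr k'))))
        ∂(gs (Fin m ⊕ (ι ⊕ ι))) := by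
      rw [integral_add hint1 hint2, hval1, hval2, add_comm]
      congr 1
      rw [hκ0]
      rcases Nat.eq_zero_or_pos m with h0 | h0
      · subst h0; simp
      · have hm : (0:ℝ) < m := by exact_mod_cast h0
        have e8 : √(8 * m : ℝ) = 2 * √2 * √m := by
          rw [show (8 * m : ℝ) = 2 ^ 2 * (2 * m) by ring, Real.sqrt_mul (by norm_num), Real.sqrt_sq (by norm_num),
            Real.sqrt_mul (by norm_num)]
          ring
        rw [e8, Real.sqrt_div hm.le, Real.sqrt_div (by norm_num)]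
        have hpi := Real.sqrt_pos.2 Real.pi_pos
        have h2 : (0:ℝ) < √2 := by positivity
        have h3 : (0:ℝ) < √(m:ℝ) := by positivity
        have h4 : √(m:ℝ) * √(m:ℝ) = m := Real.mul_self_sqrt hm.le
        field_simp
        nlinarith
    rw [h1]
    apply integral_mono (hint1.add hint2)
    · exact integrable_sup' _ _ _ fun q _ => integrable_gl _
    · intro x
      change κ0 * ∑ i : Fin m, |x (Sum.inl i)| + H.sup' hH (fun t => gl (gv χ b t) (fun k' => x (Sum.inr k'))) ≤ _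
      obtain ⟨y, hy, hy2⟩ := Finset.exists_mem_eq_sup' hH (fun t => gl (gv χ b t) (fun k' => x (Sum.inr k')))
      rw [hy2]
      have h3 := Finset.le_sup' (s := Finset.univ) (fun q => gl (B q) x)
        (Finset.mem_univ ((fun i => decide (0 ≤ x (Sum.inl i)), ⟨y, hy⟩) : (Fin m → Bool) × {x // x ∈ H}))
      refine le_trans (le_of_eq ?_) h3
      simp only [gl, hB, Fintype.sum_sum_type, Sum.elim_inl, Sum.elim_inr]
      congr 1
      rw [Finset.mul_sum]
      apply Finset.sum_congr rfl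
      intro i _
      by_cases hx : 0 ≤ x (Sum.inl i)
      · simp [hx, abs_of_nonneg hx]
      · simp [hx, abs_of_neg (not_le.1 hx)]
  exact hlow.trans (hsf.trans hup)

end Pool.Agent.Helper26.Bmoa
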