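import Mathlib
import Pool.Agent.Helper26.Bmoa.Growth

set_option autoImplicit false

/-!
Lower bound for the expected maximum of a stationary Gaussian process in terms of the radii `rad`.
-/

namespace Pool.Agent.Helper26.Bmoa
open MeasureTheory ProbabilityTheory Finset
open scoped ENNReal

variable {G ι : Type} [AddCommGroup G] [MeasurableSpace G] [Fintype ι]

/-- a ball is covered by few small balls or contains many separated points -/
lemma exists_sep [MeasurableAdd₂ G] {μ : Measure G} [IsProbabilityMeasure μ] [μ.IsAddLeftInvariant]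
    {χ : ι → G → ℂ} (h : IsCharSys χ) (b : ι → ℝ) (r a : ℝ) (N : ℕ)
    (hN : N * μ {x | dsq χ b x ≤ a ^ 2} < μ {x | dsq χ b x ≤ r ^ 2}) :
    ∃ t : Fin (N + 1) → G, (∀ i, dsq χ b (t i) ≤ r ^ 2) ∧ ∀ i j, i ≠ j → a ^ 2 ≤ dsq χ b (t i - t j) := by
  -- the balls are translates
  have htr : ∀ y : G, μ {x | dsq χ b (x - y) ≤ a ^ 2} = μ {x | dsq χ b x ≤ a ^ 2} := by
    intro y
    have := measure_preimage_add μ (-y) {x | dsq χ b x ≤ a ^ 2}
    rw [← this]
    congr 1
    ext x
    simp only [Set.mem_ofPred_eq, Set.mem_preimage]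
    rw [neg_add_eq_sub]
  have key : ∀ k : ℕ, k ≤ N + 1 → ∃ t : Fin k → G, (∀ i, dsq χ b (t i) ≤ r ^ 2) ∧
      ∀ i j, i < j → a ^ 2 ≤ dsq χ b (t j - t i) := by
    intro k
    induction k with
    | zero => intro _; exact ⟨Fin.elim0, fun i => i.elim0, fun i => i.elim0⟩
    | succ k ih =>
      intro hk
      obtain ⟨t, ht1, ht2⟩ := ih (by omega)
      have h1 : μ (⋃ i, {x | dsq χ b (x - t i) ≤ a ^ 2}) < μ {x | dsq χ b x ≤ r ^ 2} := by
        refine lt_of_le_of_lt (measure_iUnion_fintype_le _ _) ?_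
        simp_rw [htr]
        rw [Finset.sum_const, nsmul_eq_mul, Finset.card_univ, Fintype.card_fin]
        refine lt_of_le_of_lt ?_ hN
        gcongr
        exact_mod_cast (by omega : k ≤ N)
      obtain ⟨y, hy1, hy2⟩ : ∃ y, dsq χ b y ≤ r ^ 2 ∧ ∀ i, a ^ 2 < dsq χ b (y - t i) := by
        by_contra hcon
        push Not at hcon
        have : {x | dsq χ b x ≤ r ^ 2} ⊆ ⋃ i, {x | dsq χ b (x - t i) ≤ a ^ 2} := by
          intro x hx
          obtain ⟨i, hi⟩ := hcon x hx
          exact Set.mem_iUnion.2 ⟨i, hi⟩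
        exact absurd (measure_mono this) (not_le.2 h1)
      refine ⟨Fin.snoc t y, ?_, ?_⟩
      · intro i
        induction i using Fin.lastCases with
        | last => simpa using hy1
        | cast i => simpa using ht1 i
      · intro i j hij
        induction j using Fin.lastCases with
        | last =>
          induction i using Fin.lastCases with
          | last => exact absurd hij (lt_irrefl _)
          | cast i => simpa using (hy2 i).le
        | cast j =>
          induction i using Fin.lastCases with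
          | last => exact absurd hij (not_lt.2 (Fin.le_last _))
          | cast i => simpa using ht2 i j (by simpa using hij)
  obtain ⟨t, ht1, ht2⟩ := key (N + 1) le_rfl
  refine ⟨t, ht1, fun i j hij => ?_⟩
  rcases lt_or_gt_of_ne hij with hlt | hlt
  · have := ht2 i j hlt
    rw [dsq_eq h] at this ⊢
    rwa [norm_sub_rev]
  · exact ht2 j i hlt

/-- the value `V` is reached by the expected maximum on a finite subset of the ball of radius `r` -/
def Reach (χ : ι → G → ℂ) (b : ι → ℝ) (r V : ℝ) : Prop :=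
  ∃ (F : Finset G) (hF : F.Nonempty), (∀ x ∈ F, dsq χ b x ≤ r ^ 2) ∧ V ≤ GS χ b F hF

omit [AddCommGroup G] [MeasurableSpace G] in
lemma Reach.mono {χ : ι → G → ℂ} {b : ι → ℝ} {r r' V V' : ℝ} (h0 : 0 ≤ r) (h : Reach χ b r V) (hr : r ≤ r') (hV : V' ≤ V) :
    Reach χ b r' V' := by
  obtain ⟨F, hF, h1, h2⟩ := h
  exact ⟨F, hF, fun x hx => (h1 x hx).trans (pow_le_pow_left₀ h0 hr 2), hV.trans h2⟩

lemma reach_zero {χ : ι → G → ℂ} (h : IsCharSys χ) (b : ι → ℝ) (r : ℝ) : Reach χ b r 0 := by
  refine ⟨{0}, singleton_nonempty _, ?_, ?_⟩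
  · intro x hx
    rw [mem_singleton] at hx
    subst hx
    rw [dsq_zero_sub h, sub_self, norm_zero]
    simpa using sq_nonneg r
  · unfold GS
    simp only [Finset.sup'_singleton]
    rw [integral_gl]

lemma reach_step [MeasurableAdd₂ G] {μ : Measure G} [IsProbabilityMeasure μ] [μ.IsAddLeftInvariant]
    {χ : ι → G → ℂ} (h : IsCharSys χ) (b : ι → ℝ) (r a V : ℝ) (ha : 0 ≤ a) (hr : 0 ≤ r) (m : ℕ)
    (hN : ((2 ^ m - 1 : ℕ) : ℝ≥0∞) * μ {x | dsq χ b x ≤ a ^ 2} < μ {x | dsq χ b x ≤ r ^ 2})
    (hR : Reach χ b (a / 8) V) : Reach χ b (r + a / 8) (V + a / 2 * √(m / Real.pi)) := by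
  classical
  obtain ⟨H, hH, hH1, hH2⟩ := hR
  have h2m : 1 ≤ 2 ^ m := Nat.one_le_two_pow
  obtain ⟨t, ht1, ht2⟩ := exists_sep h b r a (2 ^ m - 1) hN
  have hcard : Fintype.card (Fin m → Bool) = 2 ^ m - 1 + 1 := by
    rw [Fintype.card_fun, Fintype.card_bool, Fintype.card_fin]
    omega
  let e : (Fin m → Bool) ≃ Fin (2 ^ m - 1 + 1) := Fintype.equivFinOfCardEq hcard
  set F : Finset G := (Finset.univ ×ˢ H).image (fun q : (Fin m → Bool) × G => t (e q.1) + q.2) with hF
  have hFne : F.Nonempty := by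
    rw [hF, Finset.image_nonempty]
    exact Finset.univ_nonempty.product hH
  refine ⟨F, hFne, ?_, ?_⟩
  · intro x hx
    rw [hF, Finset.mem_image] at hx
    obtain ⟨q, hq, rfl⟩ := hx
    have hq2 := hH1 q.2 (Finset.mem_product.1 hq).2
    have hq1 := ht1 (e q.1)
    rw [dsq_zero_sub h] at hq1 hq2 ⊢
    have g1 : ‖cv χ b (t (e q.1)) - cv χ b 0‖ ≤ r := le_of_sq_le_sq hq1 hr
    have g2 : ‖cv χ b (t (e q.1) + q.2) - cv χ b (t (e q.1))‖ ≤ a / 8 := by
      apply le_of_sq_le_sq _ (by positivity)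
      rw [← dsq_eq h, add_sub_cancel_left]
      exact hH1 q.2 (Finset.mem_product.1 hq).2
    apply pow_le_pow_left₀ (norm_nonneg _)
    have : cv χ b (t (e q.1) + q.2) - cv χ b 0 = (cv χ b (t (e q.1) + q.2) - cv χ b (t (e q.1))) + (cv χ b (t (e q.1)) - cv χ b 0) := by abel
    rw [this]
    refine (norm_add_le _ _).trans ?_
    linarith
  · have := growth h b m (fun ε => t (e ε)) a ha (fun ε ε' hne => ht2 _ _ (fun hh => hne (e.injective hh))) H hH hH1 F hFne
      (fun ε x hx => by
        rw [hF, Finset.mem_image]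
        exact ⟨(ε, x), Finset.mem_product.2 ⟨Finset.mem_univ _, hx⟩, rfl⟩)
    linarith

lemma reach_step_a [MeasurableAdd₂ G] {μ : Measure G} [IsProbabilityMeasure μ] [μ.IsAddLeftInvariant]
    {χ : ι → G → ℂ} (h : IsCharSys χ) (b : ι → ℝ) (r a V : ℝ) (p q m : ℕ) (ha : 0 < a) (haq : a < rad μ χ b q)
    (hpr : rad μ χ b p ≤ r) (hm : m + 2 ^ p ≤ 2 ^ q)
    (hR : Reach χ b (a / 8) V) : Reach χ b (r + a / 8) (V + a / 2 * √(m / Real.pi)) := by
  have hr : 0 ≤ r := (rad_nonneg _ _ _ _).trans hpr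
  apply reach_step (μ := μ) h b r a V ha.le hr m _ hR
  have h1 : μ {x | dsq χ b x ≤ a ^ 2} < ENNReal.ofReal ((1 / 2) ^ (2 ^ q)) := by
    by_contra hcon
    exact absurd (rad_le ha.le (not_lt.1 hcon)) (not_le.2 haq)
  have h2 : ENNReal.ofReal ((1 / 2) ^ (2 ^ p)) ≤ μ {x | dsq χ b x ≤ r ^ 2} := by
    refine (rad_spec h b p).trans (measure_mono fun x hx => ?_)
    simp only [Set.mem_ofPred_eq] at hx ⊢
    exact hx.trans (pow_le_pow_left₀ (rad_nonneg _ _ _ _) hpr 2)
  refine lt_of_lt_of_le ?_ h2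
  have h3 : ((2 ^ m - 1 : ℕ) : ℝ≥0∞) ≤ ENNReal.ofReal ((2:ℝ) ^ m - 1) := by
    have : ((2:ℝ) ^ m - 1) = ((2 ^ m - 1 : ℕ) : ℝ) := by
      rw [Nat.cast_sub Nat.one_le_two_pow]; push_cast; ring
    rw [this, ENNReal.ofReal_natCast]
  have h5 : (0:ℝ) ≤ 2 ^ m - 1 := by
    have : (1:ℝ) ≤ 2 ^ m := one_le_pow₀ (by norm_num)
    linarith
  calc ((2 ^ m - 1 : ℕ) : ℝ≥0∞) * μ {x | dsq χ b x ≤ a ^ 2}
      ≤ ENNReal.ofReal ((2:ℝ) ^ m - 1) * ENNReal.ofReal ((1 / 2) ^ (2 ^ q)) := mul_le_mul' h3 h1.le
    _ = ENNReal.ofReal (((2:ℝ) ^ m - 1) * (1 / 2) ^ (2 ^ q)) := (ENNReal.ofReal_mul h5).symm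
    _ < ENNReal.ofReal ((1 / 2) ^ (2 ^ p)) := by
        apply (ENNReal.ofReal_lt_ofReal_iff (by positivity)).2
        have h4 : (2:ℝ) ^ m * (1 / 2) ^ (2 ^ q) ≤ (1 / 2) ^ (2 ^ p) := by
          obtain ⟨d, hd⟩ := Nat.exists_eq_add_of_le hm
          rw [hd]
          have : (2:ℝ) ^ m * (1 / 2) ^ (m + 2 ^ p + d) = (1/2) ^ (2 ^ p) * (1 / 2) ^ d := by
            rw [pow_add, pow_add]
            have : (2:ℝ) ^ m * (1/2) ^ m = 1 := by rw [← mul_pow]; norm_num
            calc _ = ((2:ℝ) ^ m * (1/2) ^ m) * ((1/2) ^ (2 ^ p) * (1 / 2) ^ d) := by ring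
              _ = _ := by rw [this, one_mul]
          rw [this]
          have h6 : ((1:ℝ)/2) ^ d ≤ 1 := pow_le_one₀ (by norm_num) (by norm_num)
          have h7 : (0:ℝ) < (1/2) ^ (2 ^ p) := by positivity
          nlinarith
        have h8 : (0:ℝ) < (1/2) ^ (2 ^ q) := by positivity
        nlinarith

lemma reach_step_b [MeasurableAdd₂ G] {μ : Measure G} [IsProbabilityMeasure μ] [μ.IsAddLeftInvariant]
    {χ : ι → G → ℂ} (h : IsCharSys χ) (b : ι → ℝ) (r a V : ℝ) (ha : 0 < a) (haq : a < rad μ χ b 0)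
    (hpr : rad μ χ b 0 ≤ r)
    (hR : Reach χ b (a / 8) V) : Reach χ b (r + a / 8) (V + a / 2 * √((1:ℕ) / Real.pi)) := by
  have hr : 0 ≤ r := (rad_nonneg _ _ _ _).trans hpr
  apply reach_step (μ := μ) h b r a V ha.le hr 1 _ hR
  have h1 : μ {x | dsq χ b x ≤ a ^ 2} < ENNReal.ofReal ((1 / 2) ^ (2 ^ 0)) := by
    by_contra hcon
    exact absurd (rad_le ha.le (not_lt.1 hcon)) (not_le.2 haq)
  have h2 : ENNReal.ofReal ((1 / 2) ^ (2 ^ 0)) ≤ μ {x | dsq χ b x ≤ r ^ 2} := by
    refine (rad_spec h b 0).trans (measure_mono fun x hx => ?_)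
    simp only [Set.mem_ofPred_eq] at hx ⊢
    exact hx.trans (pow_le_pow_left₀ (rad_nonneg _ _ _ _) hpr 2)
  have : ((2 ^ 1 - 1 : ℕ) : ℝ≥0∞) = 1 := by norm_num
  rw [this, one_mul]
  exact lt_of_lt_of_le h1 h2

/-- The combinatorial part of the lower bound. -/
lemma iterate_reach (R : ℝ → ℝ → Prop) (e : ℕ → ℝ) (he0 : ∀ p, 0 ≤ e p) (hanti : Antitone e)
    (hR0 : ∀ r, R r 0)
    (hmono : ∀ r r' V, 0 ≤ r → r ≤ r' → R r V → R r' V)
    (hstep : ∀ (r a V : ℝ) (p q m : ℕ), 0 < a → a < e q → e p ≤ r → m + 2 ^ p ≤ 2 ^ q → R (a / 8) V →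
      R (r + a / 8) (V + a / 2 * √(m / Real.pi)))
    (hstep0 : ∀ (r a V : ℝ), 0 < a → a < e 0 → e 0 ≤ r → R (a / 8) V →
      R (r + a / 8) (V + a / 2 * √((1:ℕ) / Real.pi)))
    (P : ℕ) : ∃ r V, R r V ∧ ∑ p ∈ range P, √(2 ^ p) * e p ≤ 2000 * V := by
  classical
  by_cases h00 : e 0 = 0
  · refine ⟨0, 0, hR0 0, ?_⟩
    rw [mul_zero]
    apply le_of_eq
    apply Finset.sum_eq_zero
    intro p _
    have : e p = 0 := le_antisymm ((hanti (Nat.zero_le p)).trans h00.le) (he0 p)
    rw [this, mul_zero]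
  have he : 0 < e 0 := lt_of_le_of_ne (he0 0) (Ne.symm h00)
  rcases Nat.eq_zero_or_pos P with hP | hP
  · exact ⟨0, 0, hR0 0, by simp [hP]⟩
  -- scales
  set c : ℕ → ℝ := fun l => e 0 / 4 ^ l with hc
  have hcpos : ∀ l, 0 < c l := fun l => by simp only [hc]; positivity
  have hc1 : ∀ l, c (l + 1) = c l / 4 := fun l => by simp only [hc]; rw [pow_succ]; field_simp
  have hc0 : c 0 = e 0 := by simp [hc]
  have hex : ∀ l, ∃ p, P ≤ p ∨ e p ≤ c l := fun l => ⟨P, Or.inl le_rfl⟩
  set q : ℕ → ℕ := fun l => Nat.find (hex l) with hq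
  have hq1 : ∀ l, P ≤ q l ∨ e (q l) ≤ c l := fun l => Nat.find_spec (hex l)
  have hq2 : ∀ l p, p < q l → p < P ∧ c l < e p := fun l p hp => by
    have := Nat.find_min (hex l) hp
    push Not at this
    exact this
  have hqP : ∀ l, q l ≤ P := fun l => Nat.find_min' (hex l) (Or.inl le_rfl)
  have hqmono : ∀ l, q l ≤ q (l + 1) := fun l => by
    by_contra hcon
    have h1 := hq2 l (q (l + 1)) (not_le.1 hcon)
    rcases hq1 (l + 1) with h2 | h2
    · omega
    · have := hc1 l
      have := hcpos l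
      linarith [h1.2]
  have hq0 : q 0 = 0 := Nat.le_zero.1 (Nat.find_min' (hex 0) (Or.inr (by rw [hc0])))
  have hq1' : 1 ≤ q 1 := by
    by_contra hcon
    have h1 : q 1 = 0 := by omega
    rcases hq1 1 with h2 | h2
    · omega
    · rw [h1, hc1, hc0] at h2
      linarith
  -- step sizes
  set m : ℕ → ℕ := fun l => if q l + 2 ≤ q (l + 1) then 2 ^ (q (l + 1) - 2) else if l = 0 then 1 else 0 with hm
  set w : ℕ → ℝ := fun l => c (l + 1) / 2 * √(m l / Real.pi) with hw
  have hwn : ∀ l, 0 ≤ w l := fun l => by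
    have := hcpos (l + 1)
    simp only [hw]; positivity
  have step : ∀ l V, R (c (l + 1) / 8) V → R (c l + c (l + 1) / 8) (V + w l) := by
    intro l V hV
    by_cases hg : q l + 2 ≤ q (l + 1)
    · have hml : m l = 2 ^ (q (l + 1) - 2) := by simp only [hm]; rw [if_pos hg]
      simp only [hw]
      rw [hml]
      apply hstep (c l) (c (l + 1)) V (q l) (q (l + 1) - 1) _ (hcpos _)
      · exact (hq2 (l + 1) (q (l + 1) - 1) (by omega)).2
      · rcases hq1 l with h2 | h2
        · have := hqP (l + 1); omega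
        · exact h2
      · have h3 : 2 ^ q l ≤ 2 ^ (q (l + 1) - 2) := Nat.pow_le_pow_right (by norm_num) (by omega)
        have h4 : q (l + 1) - 1 = (q (l + 1) - 2) + 1 := by omega
        rw [h4, pow_succ]
        omega
      · exact hV
    · by_cases hl : l = 0
      · have hml : m l = 1 := by simp only [hm]; rw [if_neg hg, if_pos hl]
        simp only [hw]
        rw [hml]
        subst hl
        apply hstep0 (c 0) (c (0 + 1)) V (hcpos _)
        · rw [hc1, hc0]; linarith
        · rw [hc0]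
        · exact hV
      · have hml : m l = 0 := by simp only [hm]; rw [if_neg hg, if_neg hl]
        simp only [hw]
        rw [hml]
        simp only [Nat.cast_zero, zero_div, Real.sqrt_zero, mul_zero, add_zero]
        have := hcpos l
        have := hcpos (l + 1)
        exact hmono (c (l + 1) / 8) _ V (by positivity) (by linarith) hV
  have iter : ∀ K j, R (c j + c (j + 1) / 8) (∑ k ∈ range K, w (j + 3 * k)) := by
    intro K
    induction K with
    | zero => intro j; simpa using hR0 _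
    | succ K ih =>
      intro j
      have h1 := ih (j + 3)
      have h2 : R (c (j + 1) / 8) (∑ k ∈ range K, w (j + 3 + 3 * k)) := by
        refine hmono _ _ _ ?_ ?_ h1
        · have := hcpos (j + 3); have := hcpos (j + 3 + 1); positivity
        · have a1 := hc1 j
          have a2 := hc1 (j + 1)
          have a3 := hc1 (j + 2)
          have a4 := hc1 (j + 3)
          have a5 := hcpos j
          norm_num [add_assoc] at a1 a2 a3 a4 ⊢
          linarith
      have h3 := step j _ h2
      rw [Finset.sum_range_succ']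
      convert h3 using 1
      rw [mul_zero, add_zero]
      congr 1
      apply Finset.sum_congr rfl
      intro k _
      congr 1
      ring
  -- sum of the weights
  have hsum3 : ∀ K, ∑ j ∈ range (3 * K), w j = ∑ k ∈ range K, w (0 + 3 * k) + ∑ k ∈ range K, w (1 + 3 * k) +
      ∑ k ∈ range K, w (2 + 3 * k) := by
    intro K
    induction K with
    | zero => simp
    | succ K ih =>
      rw [show 3 * (K + 1) = 3 * K + 1 + 1 + 1 by ring]
      simp only [Finset.sum_range_succ]
      rw [ih]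
      have e1 : 1 + 3 * K = 3 * K + 1 := by ring
      have e2 : 2 + 3 * K = 3 * K + 1 + 1 := by ring
      rw [e1, e2, zero_add]
      ring
  -- choose the number of scales
  set s : ℕ → ℝ := fun p => √(2 ^ p) with hs
  have hs0 : ∀ p, 0 < s p := fun p => by simp only [hs]; positivity
  have hs1 : ∀ p, s (p + 1) = √2 * s p := fun p => by
    simp only [hs]
    rw [pow_succ, mul_comm, Real.sqrt_mul (by norm_num)]
  have h2a : (1.41 : ℝ) < √2 := by
    apply Real.lt_sqrt_of_sq_lt; norm_num
  have h2b : √2 < 1.42 := by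
    rw [Real.sqrt_lt' (by norm_num)]; norm_num
  have hsmono : Monotone s := by
    apply monotone_nat_of_le_succ
    intro p
    rw [hs1]
    have := hs0 p
    nlinarith
  have hssum : ∀ k, ∑ p ∈ range k, s p ≤ 5 / 2 * s k := by
    intro k
    induction k with
    | zero => simp; exact (hs0 0).le
    | succ k ih =>
      rw [Finset.sum_range_succ, hs1]
      have := hs0 k
      nlinarith
  obtain ⟨K, hK⟩ : ∃ K : ℕ, (∑ p ∈ range P, s p) ≤ 4 ^ K :=
    (pow_unbounded_of_one_lt _ (by norm_num : (1:ℝ) < 4)).imp fun _ h => h.le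
  set L := 3 * (K + 1) with hL
  set x : ℕ → ℝ := fun l => c l * s (q (l + 1)) with hx
  have hxn : ∀ l, 0 < x l := fun l => mul_pos (hcpos l) (hs0 _)
  -- first claim
  have claimA : ∀ l, ∑ p ∈ range (q l), s p * e p ≤ 5 / 2 * ∑ j ∈ range l, x j := by
    intro l
    induction l with
    | zero => simp [hq0]
    | succ l ih =>
      rw [Finset.sum_range_succ, mul_add]
      have h1 : ∑ p ∈ range (q (l + 1)), s p * e p = ∑ p ∈ range (q l), s p * e p + ∑ p ∈ Ico (q l) (q (l + 1)), s p * e p :=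
        (Finset.sum_range_add_sum_Ico _ (hqmono l)).symm
      rw [h1]
      apply add_le_add ih
      by_cases hlt : q l < q (l + 1)
      · have h2 : e (q l) ≤ c l := by
          rcases hq1 l with h2 | h2
          · have := hqP (l + 1); omega
          · exact h2
        calc ∑ p ∈ Ico (q l) (q (l + 1)), s p * e p ≤ ∑ p ∈ Ico (q l) (q (l + 1)), s p * c l := by
              apply Finset.sum_le_sum
              intro p hp
              exact mul_le_mul_of_nonneg_left ((hanti (Finset.mem_Ico.1 hp).1).trans h2) (hs0 p).le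
          _ = (∑ p ∈ Ico (q l) (q (l + 1)), s p) * c l := by rw [Finset.sum_mul]
          _ ≤ (∑ p ∈ range (q (l + 1)), s p) * c l := by
              apply mul_le_mul_of_nonneg_right _ (hcpos l).le
              apply Finset.sum_le_sum_of_subset_of_nonneg
              · intro p hp
                exact Finset.mem_range.2 (Finset.mem_Ico.1 hp).2
              · intro p _ _; exact (hs0 p).le
          _ ≤ 5 / 2 * s (q (l + 1)) * c l := mul_le_mul_of_nonneg_right (hssum _) (hcpos l).le
          _ = _ := by simp only [hx]; ring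
      · rw [Finset.Ico_eq_empty hlt, Finset.sum_empty]
        have := hxn l
        positivity
  -- the total sum
  have claimT : ∑ p ∈ range P, s p * e p ≤ 2 * ∑ p ∈ range (q L), s p * e p := by
    have h1 : ∑ p ∈ range P, s p * e p = ∑ p ∈ range (q L), s p * e p + ∑ p ∈ Ico (q L) P, s p * e p :=
      (Finset.sum_range_add_sum_Ico _ (hqP L)).symm
    have hqL : 0 < q L := by
      have : ∀ l, 1 ≤ q (l + 1) := by
        intro l
        induction l with
        | zero => exact hq1'
        | succ l ih => exact ih.trans (hqmono _)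
      have h3 := this (L - 1)
      rwa [Nat.sub_add_cancel (by omega)] at h3
    have h2 : ∑ p ∈ Ico (q L) P, s p * e p ≤ e 0 := by
      by_cases hlt : q L < P
      · have h3 : e (q L) ≤ c L := by
          rcases hq1 L with h2 | h2
          · omega
          · exact h2
        calc ∑ p ∈ Ico (q L) P, s p * e p ≤ ∑ p ∈ Ico (q L) P, s p * c L := by
              apply Finset.sum_le_sum
              intro p hp
              exact mul_le_mul_of_nonneg_left ((hanti (Finset.mem_Ico.1 hp).1).trans h3) (hs0 p).le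
          _ = (∑ p ∈ Ico (q L) P, s p) * c L := by rw [Finset.sum_mul]
          _ ≤ (∑ p ∈ range P, s p) * c L := by
              apply mul_le_mul_of_nonneg_right _ (hcpos L).le
              apply Finset.sum_le_sum_of_subset_of_nonneg
              · intro p hp
                exact Finset.mem_range.2 (Finset.mem_Ico.1 hp).2
              · intro p _ _; exact (hs0 p).le
          _ ≤ 4 ^ K * c L := mul_le_mul_of_nonneg_right hK (hcpos L).le
          _ ≤ 4 ^ L * c L := by
              apply mul_le_mul_of_nonneg_right _ (hcpos L).le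
              apply pow_le_pow_right₀ (by norm_num)
              omega
          _ = e 0 := by simp only [hc]; field_simp
      · rw [Finset.Ico_eq_empty hlt, Finset.sum_empty]
        exact he.le
    have h4 : e 0 ≤ ∑ p ∈ range (q L), s p * e p := by
      have := Finset.single_le_sum (f := fun p => s p * e p) (s := range (q L))
        (fun p _ => mul_nonneg (hs0 p).le (he0 p)) (Finset.mem_range.2 hqL)
      refine le_trans ?_ this
      simp [hs]
    linarith
  -- second claim
  set y : ℕ → ℝ := fun l => if q l + 2 ≤ q (l + 1) then x l else 0 with hy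
  have hyn : ∀ l, 0 ≤ y l := fun l => by simp only [hy]; split_ifs; exact (hxn l).le; exact le_rfl
  have hxy : ∀ l, x (l + 1) ≤ y (l + 1) + 1 / 2 * x l := by
    intro l
    simp only [hy]
    split_ifs with hg
    · have := hxn l; linarith
    · simp only [hx]
      have h1 : q (l + 1 + 1) ≤ q (l + 1) + 1 := by omega
      have h2 : s (q (l + 1 + 1)) ≤ √2 * s (q (l + 1)) := by rw [← hs1]; exact hsmono h1
      have h3 := hcpos l
      rw [hc1, zero_add]
      calc c l / 4 * s (q (l + 1 + 1)) ≤ c l / 4 * (√2 * s (q (l + 1))) := mul_le_mul_of_nonneg_left h2 (by positivity)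
        _ ≤ _ := by
          have := mul_pos h3 (hs0 (q (l + 1)))
          nlinarith
  have claimB : ∀ l, ∑ j ∈ range (l + 1), x j ≤ 2 * (x 0 + ∑ j ∈ range (l + 1), y j) - x l := by
    intro l
    induction l with
    | zero => simp; have := hyn 0; linarith
    | succ l ih =>
      rw [Finset.sum_range_succ, Finset.sum_range_succ (fun j => y j) (l + 1)]
      have := hxy l
      linarith
  have hpi := Real.pi_pos
  have hpis : √Real.pi < 1.8 := by
    rw [Real.sqrt_lt' (by norm_num)]
    have := Real.pi_lt_d2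
    norm_num
    linarith
  have hpis0 : 0 < √Real.pi := Real.sqrt_pos.2 hpi
  have hyw : ∀ l, y l ≤ 30 * w l := by
    intro l
    simp only [hy]
    split_ifs with hg
    · have hml : m l = 2 ^ (q (l + 1) - 2) := by simp only [hm]; rw [if_pos hg]
      simp only [hw, hx]
      rw [hml, hc1]
      have h1 : √(((2 ^ (q (l + 1) - 2) : ℕ) : ℝ) / Real.pi) = s (q (l + 1) - 2) / √Real.pi := by
        rw [Real.sqrt_div (by positivity)]
        simp only [hs]
        push_cast
        rfl
      have h2 : s (q (l + 1)) = 2 * s (q (l + 1) - 2) := by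
        have : q (l + 1) = (q (l + 1) - 2) + 1 + 1 := by omega
        conv_lhs => rw [this]
        rw [hs1, hs1, ← mul_assoc, Real.mul_self_sqrt (by norm_num)]
      rw [h1, h2]
      have h3 := mul_pos (hcpos l) (hs0 (q (l + 1) - 2))
      have h4 : 30 * (c l / 4 / 2 * (s (q (l + 1) - 2) / √Real.pi)) = (c l * s (q (l + 1) - 2)) * (30 / 8 / √Real.pi) := by
        field_simp; ring
      rw [h4]
      have h5 : (2:ℝ) ≤ 30 / 8 / √Real.pi := by
        rw [le_div_iff₀ hpis0]; linarith
      nlinarith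
    · have := hwn l; positivity
  have hx0 : x 0 ≤ 30 * w 0 := by
    by_cases hg : q 0 + 2 ≤ q (0 + 1)
    · have := hyw 0
      simp only [hy] at this
      rwa [if_pos hg] at this
    · have hml : m 0 = 1 := by simp only [hm]; rw [if_neg hg]; simp
      have hq11 : q (0 + 1) = 1 := by
        have : q (0 + 1) = q 1 := rfl
        omega
      simp only [hx, hw]
      rw [hml, hq11, hc1]
      have h1 : s 1 = √2 := by simp [hs]
      rw [h1]
      have h2 : √(((1:ℕ):ℝ) / Real.pi) = 1 / √Real.pi := by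
        rw [Nat.cast_one, Real.sqrt_div (by norm_num), Real.sqrt_one]
      rw [h2]
      have h4 : 30 * (c 0 / 4 / 2 * (1 / √Real.pi)) = c 0 * (30 / 8 / √Real.pi) := by
        field_simp; ring
      rw [h4]
      apply mul_le_mul_of_nonneg_left _ (hcpos 0).le
      rw [le_div_iff₀ hpis0]
      nlinarith
  -- conclusion
  have hL1 : L = (L - 1) + 1 := by omega
  have hfin : ∑ p ∈ range P, s p * e p ≤ 600 * ∑ j ∈ range L, w j := by
    have h1 := claimA L
    have h2 := claimB (L - 1)
    rw [← hL1] at h2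
    have h3 : ∑ j ∈ range L, y j ≤ 30 * ∑ j ∈ range L, w j := by
      rw [Finset.mul_sum]
      exact Finset.sum_le_sum fun j _ => hyw j
    have h4 : w 0 ≤ ∑ j ∈ range L, w j :=
      Finset.single_le_sum (f := w) (fun j _ => hwn j) (Finset.mem_range.2 (by omega))
    have h5 := hxn (L - 1)
    linarith
  have h0 := iter (K + 1) 0
  have h1 := iter (K + 1) 1
  have h2 := iter (K + 1) 2
  have h3 := hsum3 (K + 1)
  rw [← hL] at h3
  by_cases hA : ∑ j ∈ range L, w j ≤ 3 * ∑ k ∈ range (K + 1), w (0 + 3 * k)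
  · refine ⟨_, _, h0, ?_⟩
    have : 0 ≤ ∑ k ∈ range (K + 1), w (0 + 3 * k) := Finset.sum_nonneg fun _ _ => hwn _
    calc _ ≤ _ := hfin
      _ ≤ _ := by linarith
  · by_cases hB : ∑ j ∈ range L, w j ≤ 3 * ∑ k ∈ range (K + 1), w (1 + 3 * k)
    · refine ⟨_, _, h1, ?_⟩
      have : 0 ≤ ∑ k ∈ range (K + 1), w (1 + 3 * k) := Finset.sum_nonneg fun _ _ => hwn _
      calc _ ≤ _ := hfin
        _ ≤ _ := by linarith
    · refine ⟨_, _, h2, ?_⟩
      have : 0 ≤ ∑ k ∈ range (K + 1), w (2 + 3 * k) := Finset.sum_nonneg fun _ _ => hwn _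
      push Not at hA hB
      calc _ ≤ _ := hfin
        _ ≤ _ := by linarith

/-- **Lower bound for stationary Gaussian processes.** -/
theorem lb_gauss [MeasurableAdd₂ G] {μ : Measure G} [IsProbabilityMeasure μ] [μ.IsAddLeftInvariant]
    {χ : ι → G → ℂ} (h : IsCharSys χ) (b : ι → ℝ) (P : ℕ) :
    ∃ (F : Finset G) (hF : F.Nonempty), ∑ p ∈ range P, √(2 ^ p) * rad μ χ b p ≤ 2000 * GS χ b F hF := by
  obtain ⟨r, V, ⟨F, hF, _, h2⟩, h3⟩ := iterate_reach (Reach χ b) (rad μ χ b) (rad_nonneg μ χ b)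
    (fun p q hpq => rad_anti h b hpq) (fun r => reach_zero h b r) (fun r r' V h0 hr hR => hR.mono h0 hr le_rfl)
    (fun r a V p q m ha haq hpr hm hR => reach_step_a h b r a V p q m ha haq hpr hm hR)
    (fun r a V ha haq hpr hR => reach_step_b h b r a V ha haq hpr hR) P
  exact ⟨F, hF, h3.trans (mul_le_mul_of_nonneg_left h2 (by norm_num))⟩

end Pool.Agent.Helper26.Bmoa
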