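import Mathlib
import Pool.Agent.Helper26.Bmoa.Chain2

set_option autoImplicit false

/-!
Upper bound for the expected maximum of a random Fourier sum with independent uniform phases.
-/

namespace Pool.Agent.Helper26.Bmoa
open MeasureTheory ProbabilityTheory Set Filter Topology
open scoped ENNReal NNReal

variable {G ι : Type} [AddCommGroup G] [MeasurableSpace G] [MeasurableAdd₂ G] [Fintype ι]

/-- the random sum with complex coefficients -/
noncomputable def csum (χ : ι → G → ℂ) (a : ι → ℂ) (α : ι → ℝ) (x : G) : ℂ :=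
  ∑ i, a i * Complex.exp (Complex.I * α i) * χ i x

omit [AddCommGroup G] [MeasurableSpace G] [MeasurableAdd₂ G] in
lemma continuous_csum (χ : ι → G → ℂ) (a : ι → ℂ) (x : G) : Continuous (fun α => csum χ a α x) := by
  unfold csum; fun_prop

omit [MeasurableAdd₂ G] in
lemma norm_csum_le {χ : ι → G → ℂ} (h : IsCharSys χ) (a : ι → ℂ) (α : ι → ℝ) (x : G) : ‖csum χ a α x‖ ≤ ∑ i, ‖a i‖ := by
  unfold csum
  refine (norm_sum_le _ _).trans (Finset.sum_le_sum fun i _ => ?_)
  rw [norm_mul, norm_mul, h.norm_eq, mul_comm Complex.I, Complex.norm_exp_ofReal_mul_I, mul_one, mul_one]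

omit [MeasurableAdd₂ G] in
lemma integrable_csum {χ : ι → G → ℂ} (h : IsCharSys χ) (a : ι → ℂ) (x : G) :
    Integrable (fun α => ‖csum χ a α x‖) (phases ι) := by
  apply Integrable.of_bound (C := ∑ i, ‖a i‖)
  · exact (continuous_csum χ a x).norm.aestronglyMeasurable
  · filter_upwards with α
    rw [norm_norm]
    exact norm_csum_le h a α x

/-- integrability of finite maxima -/
lemma integrable_supp {Ω κ : Type*} [MeasurableSpace Ω] {μ : Measure Ω} (s : Finset κ) (hs : s.Nonempty)
    (f : κ → Ω → ℝ) (hf : ∀ i ∈ s, Integrable (f i) μ) :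
    Integrable (fun ω => s.sup' hs (fun i => f i ω)) μ := by
  classical
  induction hs using Finset.Nonempty.cons_induction with
  | singleton a => simpa using hf a (by simp)
  | cons a s h hs ih =>
    have h1 : Integrable (fun ω => s.sup' hs (fun i => f i ω)) μ := ih (fun i hi => hf i (by simp [hi]))
    have h2 : (fun ω => (Finset.cons a s h).sup' (Finset.cons_nonempty h) (fun i => f i ω)) =
        fun ω => f a ω ⊔ s.sup' hs (fun i => f i ω) := by
      ext ω
      rw [Finset.sup'_cons hs]
    rw [h2]
    exact (hf a (by simp)).sup h1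

/-- expected maximum of the norm of the random sum -/
noncomputable def ES (χ : ι → G → ℂ) (a : ι → ℂ) (F : Finset G) (hF : F.Nonempty) : ℝ :=
  ∫ α, F.sup' hF (fun x => ‖csum χ a α x‖) ∂(phases ι)

/-- the nets used -/
noncomputable def U1 (ι : Type) (p : ℕ) : Finset (ι → ℝ) := if p = 0 then {0} else {fun _ => 1}

lemma sqrt_log_le {x : ℝ} (hx : 0 ≤ x) : √(Real.log (1 + x)) ≤ (1 + x) / 2 := by
  have h1 : Real.log (1 + x) ≤ x := by
    have := Real.log_le_sub_one_of_pos (by linarith : 0 < 1 + x)
    linarith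
  calc √(Real.log (1 + x)) ≤ √x := Real.sqrt_le_sqrt h1
    _ ≤ (1 + x) / 2 := by
      rw [Real.sqrt_le_left (by linarith)]
      nlinarith [sq_nonneg (1 - x)]

theorem upper_single {μ : Measure G} [IsProbabilityMeasure μ] [μ.IsAddLeftInvariant] {χ : ι → G → ℂ}
    (h : IsCharSys χ) (a : ι → ℂ) (S : ℝ)
    (hS : ∀ P, ∑ p ∈ Finset.range P, √(2 ^ p) * rad μ χ (fun i => ‖a i‖) p ≤ S) (F : Finset G) (hF : F.Nonempty) :
    ES χ a F hF ≤ 180 * (S + nrm a) := by
  have hU : ∀ p, (((U1 ι p).card : ℕ) : ℝ) ≤ 2 ^ (0 * 2 ^ p) := by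
    intro p
    unfold U1
    split_ifs <;> simp
  have hU0 : U1 ι 0 = {0} := by simp [U1]
  set w : ι → ℝ := fun _ => 1 with hw
  set u : ℕ → ι → ℝ := fun p => if p = 0 then 0 else fun _ => 1 with hu
  have huU : ∀ p, u p ∈ U1 ι p := by
    intro p
    simp only [hu, U1]
    split_ifs <;> simp
  have hS0 : 0 ≤ S := by simpa using hS 0
  have hn0 := nrm_nonneg a
  -- the chaining sum
  have hsum : ∀ (a' : ι → ℂ), (∀ i, ‖a' i‖ = ‖a i‖) → ∀ P, ∑ p ∈ Finset.range P, √(2 ^ p) * (rw' μ χ a' w p + wd a' w (u p)) ≤ S + nrm a := by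
    intro a' ha' P
    have e1 : ∀ p, rw' μ χ a' w p = rad μ χ (fun i => ‖a i‖) p := by
      intro p
      unfold rw'
      congr 1
      ext i
      simp [hw, ha']
    have e2 : ∀ p, wd a' w (u p) = if p = 0 then nrm a else 0 := by
      intro p
      simp only [hu]
      unfold wd
      split_ifs with hp
      · unfold nrm nsq
        congr 1
        apply Finset.sum_congr rfl
        intro i _
        simp [hw, ha']
      · simp [hw]
    simp only [e1, e2, mul_add, Finset.sum_add_distrib]
    apply add_le_add (hS P)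
    rcases Nat.eq_zero_or_pos P with hP | hP
    · subst hP; simpa using hn0
    · rw [Finset.sum_eq_single 0]
      · simp
      · intro p _ hp
        rw [if_neg hp, mul_zero]
      · intro hh
        exact absurd (Finset.mem_range.2 hP) hh
  have hsq5 : √(3 * ((0:ℕ):ℝ) + 5) ≤ 9 / 4 := by
    rw [Real.sqrt_le_left (by norm_num)]; norm_num
  -- pointwise bound
  set W : (ι → ℝ) → ℝ≥0∞ := ctrl μ χ a (U1 ι) with hW
  set W' : (ι → ℝ) → ℝ≥0∞ := ctrl μ χ (fun i => -Complex.I * a i) (U1 ι) with hW'
  have hpt : ∀ α, W α < ∞ → W' α < ∞ → F.sup' hF (fun x => ‖csum χ a α x‖) ≤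
      81 / 2 * (3 + (W α).toReal / 2 + (W' α).toReal / 2) * (S + nrm a) := by
    intro α h1 h2
    apply Finset.sup'_le
    intro x _
    have t1 := chain h a (U1 ι) 0 hU hU0 α h1 w u huU (S + nrm a) (hsum a fun _ => rfl) x
    have t2 := chain h (fun i => -Complex.I * a i) (U1 ι) 0 hU hU0 α h2 w u huU (S + nrm a) (hsum _ fun i => by
      rw [norm_mul, norm_neg, Complex.norm_I, one_mul]) x
    have y1 : Y (cf χ a w x) α = (csum χ a α x).re := by
      unfold Y csum cf
      rw [Complex.re_sum]
      apply Finset.sum_congr rfl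
      intro i _
      congr 1
      simp only [hw]
      push_cast
      ring
    have y2 : Y (cf χ (fun i => -Complex.I * a i) w x) α = (csum χ a α x).im := by
      have : (csum χ a α x).im = (-Complex.I * csum χ a α x).re := by simp
      rw [this]
      unfold Y csum cf
      rw [Finset.mul_sum, Complex.re_sum]
      apply Finset.sum_congr rfl
      intro i _
      congr 1
      simp only [hw]
      push_cast
      ring
    rw [y1] at t1
    rw [y2] at t2
    have hpos : 0 ≤ S + nrm a := by positivity
    have k1 := sqrt_log_le (ENNReal.toReal_nonneg (a := W α))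
    have k2 := sqrt_log_le (ENNReal.toReal_nonneg (a := W' α))
    have w1 := ENNReal.toReal_nonneg (a := W α)
    have w2 := ENNReal.toReal_nonneg (a := W' α)
    have t1' : |(csum χ a α x).re| ≤ 81 / 2 * (1 + (1 + (W α).toReal) / 2) * (S + nrm a) := by
      refine t1.trans (mul_le_mul_of_nonneg_right ?_ hpos)
      apply mul_le_mul _ (by linarith) (by positivity) (by norm_num)
      linarith
    have t2' : |(csum χ a α x).im| ≤ 81 / 2 * (1 + (1 + (W' α).toReal) / 2) * (S + nrm a) := by
      refine t2.trans (mul_le_mul_of_nonneg_right ?_ hpos)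
      apply mul_le_mul _ (by linarith) (by positivity) (by norm_num)
      linarith
    have := Complex.norm_le_abs_re_add_abs_im (csum χ a α x)
    calc _ ≤ _ := this
      _ ≤ _ := add_le_add t1' t2'
      _ = _ := by ring
  have hWm : Measurable W := measurable_ctrl h _ _
  have hWm' : Measurable W' := measurable_ctrl h _ _
  have hWi : ∫⁻ α, W α ∂(phases ι) ≤ 1 := lintegral_ctrl h _ _
  have hWi' : ∫⁻ α, W' α ∂(phases ι) ≤ 1 := lintegral_ctrl h _ _
  have hWf := ae_lt_top hWm (ne_top_of_le_ne_top ENNReal.one_ne_top hWi)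
  have hWf' := ae_lt_top hWm' (ne_top_of_le_ne_top ENNReal.one_ne_top hWi')
  have hI : Integrable (fun α => (W α).toReal) (phases ι) := integrable_toReal_of_lintegral_ne_top hWm.aemeasurable (ne_top_of_le_ne_top ENNReal.one_ne_top hWi)
  have hI' : Integrable (fun α => (W' α).toReal) (phases ι) := integrable_toReal_of_lintegral_ne_top hWm'.aemeasurable (ne_top_of_le_ne_top ENNReal.one_ne_top hWi')
  have hV : ∫ α, (W α).toReal ∂(phases ι) ≤ 1 := by
    rw [integral_toReal hWm.aemeasurable hWf]
    have := ENNReal.toReal_mono ENNReal.one_ne_top hWi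
    simpa using this
  have hV' : ∫ α, (W' α).toReal ∂(phases ι) ≤ 1 := by
    rw [integral_toReal hWm'.aemeasurable hWf']
    have := ENNReal.toReal_mono ENNReal.one_ne_top hWi'
    simpa using this
  have hJ : Integrable (fun α => 81 / 2 * (3 + (W α).toReal / 2 + (W' α).toReal / 2) * (S + nrm a)) (phases ι) :=
    ((((integrable_const _).add (hI.div_const _)).add (hI'.div_const _)).const_mul _).mul_const _
  unfold ES
  calc _ ≤ ∫ α, 81 / 2 * (3 + (W α).toReal / 2 + (W' α).toReal / 2) * (S + nrm a) ∂(phases ι) := by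
        apply integral_mono_ae
        · exact integrable_supp _ _ _ fun x _ => integrable_csum h a x
        · exact hJ
        · filter_upwards [hWf, hWf'] with α h1 h2
          exact hpt α h1 h2
    _ = 81 / 2 * (3 + (∫ α, (W α).toReal ∂(phases ι)) / 2 + (∫ α, (W' α).toReal ∂(phases ι)) / 2) * (S + nrm a) := by
        have hI1 : Integrable (fun α => 3 + (W α).toReal / 2) (phases ι) := (integrable_const _).add (hI.div_const _)
        rw [integral_mul_const, integral_const_mul, integral_add hI1 (hI'.div_const _),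
          integral_add (integrable_const _) (hI.div_const _), integral_div, integral_div]
        simp
    _ ≤ 81 / 2 * (3 + 1 / 2 + 1 / 2) * (S + nrm a) := by
        apply mul_le_mul_of_nonneg_right _ (by positivity)
        linarith
    _ ≤ _ := by
        apply mul_le_mul_of_nonneg_right _ (by positivity)
        norm_num

end Pool.Agent.Helper26.Bmoa
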