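import Mathlib
import Pool.Agent.Helper26.Bmoa.Upper
import Pool.Agent.Helper26.Bmoa.Growth2

set_option autoImplicit false
set_option linter.unusedSectionVars false

/-!
Rotation invariance and contraction for random sums with independent uniform phases.
-/

namespace Pool.Agent.Helper26.Bmoa
open MeasureTheory ProbabilityTheory Set Filter Topology
open scoped ENNReal NNReal

variable {G ι : Type} [AddCommGroup G] [MeasurableSpace G] [Fintype ι]

/-- the law of the unimodular random variable -/
noncomputable def circ : Measure ℂ := phase.map (fun x : ℝ => Complex.exp (Complex.I * x))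

lemma measurable_cexp : Measurable (fun x : ℝ => Complex.exp (Complex.I * x)) := by fun_prop

instance : IsProbabilityMeasure circ := by
  unfold circ; exact Measure.isProbabilityMeasure_map measurable_cexp.aemeasurable

lemma circ_rot (u : ℂ) (hu : ‖u‖ = 1) : circ.map (fun z => u * z) = circ := by
  obtain ⟨β, hβ⟩ : ∃ β : ℝ, u = Complex.exp (Complex.I * β) := by
    refine ⟨Complex.arg u, ?_⟩
    have := Complex.norm_mul_exp_arg_mul_I u
    rw [hu] at this
    simp only [Complex.ofReal_one, one_mul] at this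
    rw [mul_comm Complex.I, this]
  ext s hs
  have hmu : Measurable (fun z : ℂ => u * z) := by fun_prop
  rw [Measure.map_apply hmu hs, circ, Measure.map_apply measurable_cexp (hmu hs), Measure.map_apply measurable_cexp hs]
  set f : ℝ → ℝ := fun x => ((fun x : ℝ => Complex.exp (Complex.I * x)) ⁻¹' s).indicator (fun _ => (1:ℝ)) x with hf
  have e1 : ∀ t : Set ℝ, MeasurableSet t → phase t = ENNReal.ofReal (∫ x, t.indicator (fun _ => (1:ℝ)) x ∂phase) := by
    intro t ht
    rw [integral_indicator_const _ ht]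
    simp
  rw [e1 _ (measurable_cexp (hmu hs)), e1 _ (measurable_cexp hs), integral_phase, integral_phase]
  congr 2
  have e2 : ∀ x : ℝ, ((fun x : ℝ => Complex.exp (Complex.I * x)) ⁻¹' ((fun z => u * z) ⁻¹' s)).indicator (fun _ => (1:ℝ)) x =
      f (x + β) := by
    intro x
    have h4 : u * Complex.exp (Complex.I * x) = Complex.exp (Complex.I * ((x + β : ℝ) : ℂ)) := by
      rw [hβ, ← Complex.exp_add]; congr 1; push_cast; ring
    have h5 : (x ∈ (fun x : ℝ => Complex.exp (Complex.I * x)) ⁻¹' ((fun z => u * z) ⁻¹' s)) ↔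
        (x + β ∈ (fun x : ℝ => Complex.exp (Complex.I * x)) ⁻¹' s) := by
      change u * Complex.exp (Complex.I * x) ∈ s ↔ Complex.exp (Complex.I * ((x + β : ℝ) : ℂ)) ∈ s
      rw [h4]
    simp only [hf]
    by_cases h6 : x ∈ (fun x : ℝ => Complex.exp (Complex.I * x)) ⁻¹' ((fun z => u * z) ⁻¹' s)
    · rw [indicator_of_mem h6, indicator_of_mem (h5.1 h6)]
    · rw [indicator_of_notMem h6, indicator_of_notMem (fun h7 => h6 (h5.2 h7))]
  simp_rw [e2]
  have hper : Function.Periodic f (2 * Real.pi) := by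
    intro x
    have h4 : Complex.exp (Complex.I * ((x + 2 * Real.pi : ℝ) : ℂ)) = Complex.exp (Complex.I * x) := by
      have h := Complex.exp_periodic (Complex.I * x)
      rw [← h]; congr 1; push_cast; ring
    have h5 : (x + 2 * Real.pi ∈ (fun x : ℝ => Complex.exp (Complex.I * x)) ⁻¹' s) ↔
        (x ∈ (fun x : ℝ => Complex.exp (Complex.I * x)) ⁻¹' s) := by
      change Complex.exp (Complex.I * ((x + 2 * Real.pi : ℝ) : ℂ)) ∈ s ↔ Complex.exp (Complex.I * x) ∈ s
      rw [h4]
    simp only [hf]
    by_cases h6 : x ∈ (fun x : ℝ => Complex.exp (Complex.I * x)) ⁻¹' s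
    · rw [indicator_of_mem h6, indicator_of_mem (h5.2 h6)]
    · rw [indicator_of_notMem h6, indicator_of_notMem (fun h7 => h6 (h5.1 h7))]
  rw [intervalIntegral.integral_comp_add_right f β]
  have := hper.intervalIntegral_add_eq (0 + β) 0
  rw [zero_add] at this ⊢
  rw [zero_add] at this
  rw [add_comm (2 * Real.pi) β, this]

/-- the vector of unimodular variables -/
noncomputable def ph (α : ι → ℝ) : ι → ℂ := fun i => Complex.exp (Complex.I * α i)

lemma measurable_ph : Measurable (ph : (ι → ℝ) → (ι → ℂ)) := by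
  unfold ph
  fun_prop

lemma phases_map : (phases ι).map ph = Measure.pi (fun _ : ι => circ) := by
  unfold phases ph circ
  exact Measure.pi_map_pi (μ := fun _ : ι => phase) (f := fun _ x => Complex.exp (Complex.I * x))
    (fun _ => measurable_cexp.aemeasurable)

lemma rot_phases (u : ι → ℂ) (hu : ∀ i, ‖u i‖ = 1) (Φ : (ι → ℂ) → ℝ) (hΦ : Continuous Φ) :
    ∫ α, Φ (fun i => u i * ph α i) ∂(phases ι) = ∫ α, Φ (ph α) ∂(phases ι) := by
  have hm : Measurable (fun (z : ι → ℂ) i => u i * z i) := by fun_prop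
  have h1 : ((phases ι).map ph).map (fun z i => u i * z i) = (phases ι).map ph := by
    rw [phases_map, Measure.pi_map_pi (μ := fun _ : ι => circ) (f := fun i z => u i * z) (fun i => by fun_prop)]
    simp_rw [circ_rot _ (hu _)]
  have h2 : ∫ z, Φ z ∂(((phases ι).map ph).map (fun z i => u i * z i)) = ∫ z, Φ z ∂((phases ι).map ph) := by rw [h1]
  rw [integral_map hm.aemeasurable hΦ.aestronglyMeasurable, integral_map (f := fun z => Φ (fun i => u i * z i))
    measurable_ph.aemeasurable
    (hΦ.comp (by fun_prop : Continuous fun (z : ι → ℂ) i => u i * z i)).aestronglyMeasurable,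
    integral_map measurable_ph.aemeasurable hΦ.aestronglyMeasurable] at h2
  exact h2

/-- the seminorm -/
noncomputable def NF (χ : ι → G → ℂ) (F : Finset G) (hF : F.Nonempty) (c : ι → ℂ) : ℝ :=
  F.sup' hF (fun x => ‖∑ i, c i * χ i x‖)

omit [AddCommGroup G] [MeasurableSpace G] in
lemma continuous_NF (χ : ι → G → ℂ) (F : Finset G) (hF : F.Nonempty) : Continuous (NF χ F hF) := by
  unfold NF
  apply Continuous.finset_sup'_apply
  intro x _
  fun_prop

omit [AddCommGroup G] [MeasurableSpace G] in
lemma NF_add_le (χ : ι → G → ℂ) (F : Finset G) (hF : F.Nonempty) (c d : ι → ℂ) :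
    NF χ F hF (fun i => c i + d i) ≤ NF χ F hF c + NF χ F hF d := by
  unfold NF
  apply Finset.sup'_le
  intro x hx
  have : ∑ i, (c i + d i) * χ i x = ∑ i, c i * χ i x + ∑ i, d i * χ i x := by
    rw [← Finset.sum_add_distrib]; apply Finset.sum_congr rfl; intro i _; ring
  rw [this]
  refine (norm_add_le _ _).trans (add_le_add ?_ ?_)
  · exact Finset.le_sup' (fun x => ‖∑ i, c i * χ i x‖) hx
  · exact Finset.le_sup' (fun x => ‖∑ i, d i * χ i x‖) hx

omit [AddCommGroup G] [MeasurableSpace G] in
lemma NF_smul (χ : ι → G → ℂ) (F : Finset G) (hF : F.Nonempty) (r : ℝ) (hr : 0 ≤ r) (c : ι → ℂ) :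
    NF χ F hF (fun i => (r : ℂ) * c i) = r * NF χ F hF c := by
  unfold NF
  have : ∀ x, ‖∑ i, (r : ℂ) * c i * χ i x‖ = r * ‖∑ i, c i * χ i x‖ := by
    intro x
    have : ∑ i, (r : ℂ) * c i * χ i x = (r : ℂ) * ∑ i, c i * χ i x := by
      rw [Finset.mul_sum]; apply Finset.sum_congr rfl; intro i _; ring
    rw [this, norm_mul, Complex.norm_real, Real.norm_of_nonneg hr]
  simp_rw [this]
  apply le_antisymm
  · apply Finset.sup'_le
    intro x hx
    exact mul_le_mul_of_nonneg_left (Finset.le_sup' (fun x => ‖∑ i, c i * χ i x‖) hx) hr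
  · obtain ⟨x, hx, hx2⟩ := Finset.exists_mem_eq_sup' hF (fun x => ‖∑ i, c i * χ i x‖)
    rw [hx2]
    exact Finset.le_sup' (fun x => r * ‖∑ i, c i * χ i x‖) hx

lemma NF_nonneg (χ : ι → G → ℂ) (F : Finset G) (hF : F.Nonempty) (c : ι → ℂ) : 0 ≤ NF χ F hF c := by
  obtain ⟨x, hx, hx2⟩ := Finset.exists_mem_eq_sup' hF (fun x => ‖∑ i, c i * χ i x‖)
  unfold NF
  rw [hx2]
  exact norm_nonneg _

lemma NF_le {χ : ι → G → ℂ} (h : IsCharSys χ) (F : Finset G) (hF : F.Nonempty) (c : ι → ℂ) : NF χ F hF c ≤ ∑ i, ‖c i‖ := by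
  unfold NF
  apply Finset.sup'_le
  intro x hx
  refine (norm_sum_le _ _).trans (Finset.sum_le_sum fun i _ => ?_)
  rw [norm_mul, h.norm_eq, mul_one]

lemma ES_eq (χ : ι → G → ℂ) (a : ι → ℂ) (F : Finset G) (hF : F.Nonempty) :
    ES χ a F hF = ∫ α, NF χ F hF (fun i => a i * ph α i) ∂(phases ι) := rfl

lemma norm_ph (α : ι → ℝ) (i : ι) : ‖ph α i‖ = 1 := by
  unfold ph
  rw [mul_comm, Complex.norm_exp_ofReal_mul_I]

lemma integrable_NF {χ : ι → G → ℂ} (h : IsCharSys χ) (F : Finset G) (hF : F.Nonempty) (a : ι → ℂ) :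
    Integrable (fun α => NF χ F hF (fun i => a i * ph α i)) (phases ι) := by
  apply Integrable.of_bound (C := ∑ i, ‖a i‖)
  · apply Continuous.aestronglyMeasurable
    apply (continuous_NF χ F hF).comp
    unfold ph
    fun_prop
  · filter_upwards with α
    rw [Real.norm_of_nonneg (NF_nonneg _ _ _ _)]
    refine (NF_le h F hF _).trans (le_of_eq ?_)
    apply Finset.sum_congr rfl
    intro i _
    rw [norm_mul, norm_ph, mul_one]

lemma ES_rot {χ : ι → G → ℂ} (a : ι → ℂ) (F : Finset G) (hF : F.Nonempty) (u : ι → ℂ) (hu : ∀ i, ‖u i‖ = 1) :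
    ES χ (fun i => u i * a i) F hF = ES χ a F hF := by
  rw [ES_eq, ES_eq]
  have := rot_phases u hu (fun z => NF χ F hF (fun i => a i * z i)) ((continuous_NF χ F hF).comp (by fun_prop))
  rw [← this]
  congr 1
  ext α
  congr 1
  ext i
  ring

lemma ES_nonneg {χ : ι → G → ℂ} (a : ι → ℂ) (F : Finset G) (hF : F.Nonempty) : 0 ≤ ES χ a F hF := by
  rw [ES_eq]
  exact integral_nonneg fun α => NF_nonneg _ _ _ _

lemma ES_add_le {χ : ι → G → ℂ} (h : IsCharSys χ) (a a' : ι → ℂ) (F : Finset G) (hF : F.Nonempty) :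
    ES χ (fun i => a i + a' i) F hF ≤ ES χ a F hF + ES χ a' F hF := by
  have h1 : Integrable (fun α => NF χ F hF (fun i => a i * ph α i) + NF χ F hF (fun i => a' i * ph α i))
      (phases ι) := (integrable_NF h F hF a).add (integrable_NF h F hF a')
  calc ES χ (fun i => a i + a' i) F hF
      ≤ ∫ α, (NF χ F hF (fun i => a i * ph α i) + NF χ F hF (fun i => a' i * ph α i)) ∂(phases ι) := by
        refine integral_mono (integrable_NF h F hF (fun i => a i + a' i)) h1 (fun α => ?_)
        have h2 : (fun i => (a i + a' i) * ph α i) = fun i => a i * ph α i + a' i * ph α i := by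
          ext i; ring
        change NF χ F hF (fun i => (a i + a' i) * ph α i) ≤ _
        rw [h2]
        exact NF_add_le χ F hF (fun i => a i * ph α i) (fun i => a' i * ph α i)
    _ = _ := integral_add (integrable_NF h F hF a) (integrable_NF h F hF a')

lemma ES_smul {χ : ι → G → ℂ} (a : ι → ℂ) (F : Finset G) (hF : F.Nonempty) (r : ℝ) (hr : 0 ≤ r) :
    ES χ (fun i => (r : ℂ) * a i) F hF = r * ES χ a F hF := by
  rw [ES_eq, ES_eq, ← integral_const_mul]
  congr 1
  ext α
  rw [← NF_smul χ F hF r hr]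
  congr 1
  ext i
  ring

/-- the contraction principle -/
lemma contraction {χ : ι → G → ℂ} (h : IsCharSys χ) (a w : ι → ℂ) (hw : ∀ i, ‖w i‖ ≤ 1) (F : Finset G) (hF : F.Nonempty) :
    ES χ (fun i => w i * a i) F hF ≤ ES χ a F hF := by
  classical
  -- reduction to real multipliers
  obtain ⟨u, hu, hwu⟩ : ∃ u : ι → ℂ, (∀ i, ‖u i‖ = 1) ∧ ∀ i, w i = u i * (‖w i‖ : ℂ) := by
    refine ⟨fun i => if w i = 0 then 1 else w i / ‖w i‖, ?_, ?_⟩
    · intro i
      simp only
      split_ifs with h0
      · simp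
      · rw [norm_div, Complex.norm_real, norm_norm, div_self (norm_ne_zero_iff.2 h0)]
    · intro i
      simp only
      split_ifs with h0
      · simp [h0]
      · have : (‖w i‖ : ℂ) ≠ 0 := by exact_mod_cast norm_ne_zero_iff.2 h0
        field_simp
  have e1 : ES χ (fun i => w i * a i) F hF = ES χ (fun i => (‖w i‖ : ℂ) * a i) F hF := by
    rw [← ES_rot (χ := χ) (fun i => (‖w i‖ : ℂ) * a i) F hF u hu]
    congr 1
    ext i
    conv_lhs => rw [hwu i]
    ring
  rw [e1]
  have key : ∀ A : Finset ι, ES χ (fun i => (if i ∈ A then (‖w i‖ : ℂ) else 1) * a i) F hF ≤ ES χ a F hF := by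
    intro A
    induction A using Finset.induction_on with
    | empty => simp
    | insert j A hj ih =>
      refine le_trans ?_ ih
      set c : ι → ℂ := fun i => (if i ∈ A then (‖w i‖ : ℂ) else 1) * a i with hc
      set σ : ι → ℂ := fun i => if i = j then -1 else 1 with hσ
      have hσ1 : ∀ i, ‖σ i‖ = 1 := by
        intro i; simp only [hσ]; split_ifs <;> simp
      have hr0 : 0 ≤ ‖w j‖ := norm_nonneg _
      have hr1 := hw j
      have e2 : (fun i => (if i ∈ insert j A then (‖w i‖ : ℂ) else 1) * a i) =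
          fun i => (((1 + ‖w j‖) / 2 : ℝ) : ℂ) * c i + (((1 - ‖w j‖) / 2 : ℝ) : ℂ) * (σ i * c i) := by
        ext i
        simp only [hc, hσ, Finset.mem_insert]
        by_cases hij : i = j
        · subst hij
          simp only [hj, if_false, if_true, or_false]
          push_cast
          ring
        · simp only [hij, if_false, false_or]
          push_cast
          ring
      rw [e2]
      refine (ES_add_le h _ _ F hF).trans ?_
      rw [ES_smul c F hF _ (by positivity), ES_smul (fun i => σ i * c i) F hF _ (by linarith), ES_rot c F hF σ hσ1]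
      apply le_of_eq
      ring
  have := key Finset.univ
  simpa using this

end Pool.Agent.Helper26.Bmoa
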