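import Mathlib
import Pool.Agent.Helper26.Bmoa.Rot

set_option autoImplicit false
set_option linter.unusedSectionVars false

/-!
Averaging a Gaussian random Fourier sum over independent uniform phases.
-/

namespace Pool.Agent.Helper26.Bmoa
open MeasureTheory ProbabilityTheory Set Filter Topology
open scoped ENNReal NNReal

variable {G ι : Type} [AddCommGroup G] [MeasurableSpace G] [Fintype ι]

/-- the complex Gaussian variables -/
noncomputable def zt (z : ι ⊕ ι → ℝ) (i : ι) : ℂ := (z (Sum.inl i) : ℂ) - Complex.I * z (Sum.inr i)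

lemma continuous_zt : Continuous (fun z : ι ⊕ ι → ℝ => zt z) := by
  unfold zt; fun_prop

lemma gl_gv (χ : ι → G → ℂ) (b : ι → ℝ) (x : G) (z : ι ⊕ ι → ℝ) :
    gl (gv χ b x) z = (∑ i, ((b i : ℂ) * zt z i) * χ i x).re := by
  unfold gl gv zt
  rw [Fintype.sum_sum_type, Complex.re_sum, ← Finset.sum_add_distrib]
  apply Finset.sum_congr rfl
  intro i _
  simp
  ring

lemma rot_gs (u : ι → ℂ) (hu : ∀ i, ‖u i‖ = 1) (Φ : (ι → ℂ) → ℝ) (hΦ : Continuous Φ) :
    ∫ z, Φ (fun i => u i * zt z i) ∂(gs (ι ⊕ ι)) = ∫ z, Φ (zt z) ∂(gs (ι ⊕ ι)) := by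
  classical
  set T : ι ⊕ ι → ι ⊕ ι → ℝ := fun k' => Sum.elim
    (fun i => (u i).re • (Pi.single (Sum.inl i) 1 : ι ⊕ ι → ℝ) + (u i).im • (Pi.single (Sum.inr i) 1 : ι ⊕ ι → ℝ))
    (fun i => (-(u i).im) • (Pi.single (Sum.inl i) 1 : ι ⊕ ι → ℝ) + (u i).re • (Pi.single (Sum.inr i) 1 : ι ⊕ ι → ℝ)) k' with hT
  have hT1 : ∀ i (z : ι ⊕ ι → ℝ), gl (T (Sum.inl i)) z = (u i).re * z (Sum.inl i) + (u i).im * z (Sum.inr i) := by
    intro i z
    unfold gl
    rw [Fintype.sum_sum_type]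
    simp [hT, Pi.single_apply]
  have hT2 : ∀ i (z : ι ⊕ ι → ℝ), gl (T (Sum.inr i)) z = -(u i).im * z (Sum.inl i) + (u i).re * z (Sum.inr i) := by
    intro i z
    unfold gl
    rw [Fintype.sum_sum_type]
    simp [hT, Pi.single_apply]
  have hiso : ∀ t : ι ⊕ ι → ℝ, ∑ k, (∑ k', t k' * T k' k) ^ 2 = ∑ k', t k' ^ 2 := by
    intro t
    rw [Fintype.sum_sum_type, Fintype.sum_sum_type (fun k' => t k' ^ 2), ← Finset.sum_add_distrib, ← Finset.sum_add_distrib]
    apply Finset.sum_congr rfl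
    intro i _
    have e1 : ∑ k', t k' * T k' (Sum.inl i) = t (Sum.inl i) * (u i).re - t (Sum.inr i) * (u i).im := by
      rw [Fintype.sum_sum_type]
      simp [hT, Pi.single_apply]
      ring
    have e2 : ∑ k', t k' * T k' (Sum.inr i) = t (Sum.inl i) * (u i).im + t (Sum.inr i) * (u i).re := by
      rw [Fintype.sum_sum_type]
      simp [hT, Pi.single_apply]
    rw [e1, e2]
    have h1 : (u i).re ^ 2 + (u i).im ^ 2 = 1 := by
      have := Complex.sq_norm (u i)
      rw [hu, Complex.normSq_apply] at this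
      linarith
    calc _ = ((u i).re ^ 2 + (u i).im ^ 2) * (t (Sum.inl i) ^ 2 + t (Sum.inr i) ^ 2) := by ring
      _ = _ := by rw [h1, one_mul]
  have hmap := gs_map T hiso
  have hm : Measurable (fun (x : ι ⊕ ι → ℝ) k' => gl (T k') x) := measurable_pi_lambda _ fun k' => measurable_gl _
  have h2 : ∫ z, Φ (zt z) ∂((gs (ι ⊕ ι)).map (fun x k' => gl (T k') x)) = ∫ z, Φ (zt z) ∂(gs (ι ⊕ ι)) := by rw [hmap]
  rw [← h2, integral_map (f := fun z => Φ (zt z)) hm.aemeasurable (hΦ.comp continuous_zt).aestronglyMeasurable]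
  congr 1
  ext z
  congr 1
  ext i
  unfold zt
  simp only [hT1, hT2]
  apply Complex.ext
  · simp
  · simp

lemma integrable_zt (i : ι) : Integrable (fun z : ι ⊕ ι → ℝ => ‖zt z i‖) (gs (ι ⊕ ι)) := by
  apply Integrable.mono' ((integrable_coord (Sum.inl i)).abs.add (integrable_coord (Sum.inr i)).abs)
  · exact ((continuous_pi_iff.1 continuous_zt i).norm).aestronglyMeasurable
  · filter_upwards with z
    rw [norm_norm]
    unfold zt
    refine (norm_sub_le _ _).trans ?_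
    rw [norm_mul, Complex.norm_I, one_mul, Complex.norm_real, Complex.norm_real]
    exact le_rfl

/-- the Gaussian expected maximum is at most the average of Steinhaus expected maxima -/
lemma GS_le_avg {χ : ι → G → ℂ} (h : IsCharSys χ) (b : ι → ℝ) (F : Finset G) (hF : F.Nonempty) :
    Integrable (fun z => ES χ (fun i => (b i : ℂ) * zt z i) F hF) (gs (ι ⊕ ι)) ∧
    GS χ b F hF ≤ ∫ z, ES χ (fun i => (b i : ℂ) * zt z i) F hF ∂(gs (ι ⊕ ι)) := by
  -- joint integrability
  have hcont : Continuous (fun q : (ι ⊕ ι → ℝ) × (ι → ℝ) => NF χ F hF (fun i => ((b i : ℂ) * zt q.1 i) * ph q.2 i)) := by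
    apply (continuous_NF χ F hF).comp
    unfold ph zt
    fun_prop
  have hdom : Integrable (fun q : (ι ⊕ ι → ℝ) × (ι → ℝ) => ∑ i, |b i| * ‖zt q.1 i‖) ((gs (ι ⊕ ι)).prod (phases ι)) := by
    have h1 : Integrable (fun z : ι ⊕ ι → ℝ => ∑ i, |b i| * ‖zt z i‖) (gs (ι ⊕ ι)) :=
      integrable_finsetSum _ fun i _ => (integrable_zt i).const_mul _
    exact h1.comp_fst (phases ι)
  have hjoint : Integrable (fun q : (ι ⊕ ι → ℝ) × (ι → ℝ) => NF χ F hF (fun i => ((b i : ℂ) * zt q.1 i) * ph q.2 i))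
      ((gs (ι ⊕ ι)).prod (phases ι)) := by
    apply hdom.mono' hcont.aestronglyMeasurable
    filter_upwards with q
    rw [Real.norm_of_nonneg (NF_nonneg _ _ _ _)]
    refine (NF_le h F hF _).trans (le_of_eq ?_)
    apply Finset.sum_congr rfl
    intro i _
    rw [norm_mul, norm_mul, norm_ph, mul_one, Complex.norm_real, Real.norm_eq_abs]
  refine ⟨hjoint.integral_prod_left, ?_⟩
  have hN : Integrable (fun z => NF χ F hF (fun i => (b i : ℂ) * zt z i)) (gs (ι ⊕ ι)) := by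
    have h1 : Integrable (fun z : ι ⊕ ι → ℝ => ∑ i, |b i| * ‖zt z i‖) (gs (ι ⊕ ι)) :=
      integrable_finsetSum _ fun i _ => (integrable_zt i).const_mul _
    apply h1.mono'
    · apply Continuous.aestronglyMeasurable
      apply (continuous_NF χ F hF).comp
      unfold zt
      fun_prop
    · filter_upwards with z
      rw [Real.norm_of_nonneg (NF_nonneg _ _ _ _)]
      refine (NF_le h F hF _).trans (le_of_eq ?_)
      apply Finset.sum_congr rfl
      intro i _
      rw [norm_mul, Complex.norm_real, Real.norm_eq_abs]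
  have h1 : GS χ b F hF ≤ ∫ z, NF χ F hF (fun i => (b i : ℂ) * zt z i) ∂(gs (ι ⊕ ι)) := by
    unfold GS
    refine integral_mono (integrable_sup' _ _ _ fun q _ => integrable_gl _) hN (fun z => ?_)
    simp only
    unfold NF
    apply Finset.sup'_le
    intro x hx
    rw [gl_gv]
    exact (Complex.re_le_norm _).trans (Finset.le_sup' (fun x => ‖∑ i, ((b i : ℂ) * zt z i) * χ i x‖) hx)
  refine h1.trans (le_of_eq ?_)
  have h2 : ∀ α : ι → ℝ, ∫ z, NF χ F hF (fun i => (b i : ℂ) * zt z i) ∂(gs (ι ⊕ ι)) =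
      ∫ z, NF χ F hF (fun i => ((b i : ℂ) * zt z i) * ph α i) ∂(gs (ι ⊕ ι)) := by
    intro α
    have := rot_gs (ph α) (norm_ph α) (fun c => NF χ F hF (fun i => (b i : ℂ) * c i))
      ((continuous_NF χ F hF).comp (by fun_prop))
    rw [← this]
    congr 1
    ext z
    congr 1
    ext i
    ring
  calc ∫ z, NF χ F hF (fun i => (b i : ℂ) * zt z i) ∂(gs (ι ⊕ ι))
      = ∫ α, (∫ z, NF χ F hF (fun i => ((b i : ℂ) * zt z i) * ph α i) ∂(gs (ι ⊕ ι))) ∂(phases ι) := by
        simp_rw [← h2]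
        simp
    _ = ∫ z, (∫ α, NF χ F hF (fun i => ((b i : ℂ) * zt z i) * ph α i) ∂(phases ι)) ∂(gs (ι ⊕ ι)) :=
        (integral_integral_swap hjoint).symm
    _ = _ := rfl

end Pool.Agent.Helper26.Bmoa
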