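import Mathlib
import Pool.Agent.Helper26.Bmoa.LB1

set_option autoImplicit false
set_option linter.unusedSectionVars false

/-!
Truncation of the Gaussian multipliers and the lower bound for random sums with uniform phases.
-/

namespace Pool.Agent.Helper26.Bmoa
open MeasureTheory ProbabilityTheory Set Filter Topology
open scoped ENNReal NNReal

variable {G ι : Type} [AddCommGroup G] [MeasurableSpace G] [Fintype ι]

/-- Radii for random weights, by Markov's inequality. -/
lemma rad_succ_le {μ : Measure G} [IsProbabilityMeasure μ] {χ : ι → G → ℂ} (h : IsCharSys χ) (b c : ι → ℝ) (p : ℕ) :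
    rad μ χ c (p + 1) ≤ √(2 * (∑ i, c i ^ 2 * ∫ x in {x | dsq χ b x ≤ rad μ χ b p ^ 2}, ‖χ i x - 1‖ ^ 2 ∂μ) /
      μ.real {x | dsq χ b x ≤ rad μ χ b p ^ 2}) := by
  set B : Set G := {x | dsq χ b x ≤ rad μ χ b p ^ 2} with hB
  have hBm : MeasurableSet B := measurableSet_ball h b _
  have hB1 : ENNReal.ofReal ((1 / 2) ^ (2 ^ p)) ≤ μ B := rad_spec h b p
  have hB2 : (1 / 2 : ℝ) ^ (2 ^ p) ≤ μ.real B := by
    have := ENNReal.toReal_mono (measure_ne_top _ _) hB1
    rwa [ENNReal.toReal_ofReal (by positivity)] at this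
  have hB0 : 0 < μ.real B := lt_of_lt_of_le (by positivity) hB2
  have hint : ∀ i, Integrable (fun x => ‖χ i x - 1‖ ^ 2) (μ.restrict B) := by
    intro i
    apply Integrable.of_bound (C := 4)
    · have := h.meas i
      exact (by fun_prop : Measurable fun x => ‖χ i x - 1‖ ^ 2).aestronglyMeasurable
    · filter_upwards with x
      rw [Real.norm_of_nonneg (by positivity)]
      have : ‖χ i x - 1‖ ≤ 2 := by
        refine (norm_sub_le _ _).trans ?_
        rw [h.norm_eq, norm_one]; norm_num
      nlinarith [norm_nonneg (χ i x - 1)]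
  set A : ℝ := ∑ i, c i ^ 2 * ∫ x in B, ‖χ i x - 1‖ ^ 2 ∂μ with hA
  have hA0 : 0 ≤ A := Finset.sum_nonneg fun i _ => mul_nonneg (sq_nonneg _) (integral_nonneg fun x => by positivity)
  have hAeq : ∫ x in B, dsq χ c x ∂μ = A := by
    unfold dsq
    rw [integral_finsetSum _ fun i _ => (hint i).const_mul _]
    simp_rw [integral_const_mul]
    rfl
  have hdint : Integrable (dsq χ c) (μ.restrict B) := by
    unfold dsq
    exact integrable_finsetSum _ fun i _ => (hint i).const_mul _
  set T : ℝ := 2 * A / μ.real B with hT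
  have hT0 : 0 ≤ T := by positivity
  apply rad_le (Real.sqrt_nonneg _)
  rw [Real.sq_sqrt hT0]
  -- the complement within the ball is small
  have key : μ.real (B ∩ {x | T < dsq χ c x}) ≤ μ.real B / 2 := by
    have hm : MeasurableSet {x | T < dsq χ c x} := measurableSet_lt measurable_const (measurable_dsq h c)
    rcases hA0.eq_or_lt with h0 | h0
    · -- the integral vanishes
      have h1 : dsq χ c =ᵐ[μ.restrict B] 0 := by
        rw [← integral_eq_zero_iff_of_nonneg (fun x => dsq_nonneg _ _ _) hdint, hAeq, ← h0]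
      have h2 : μ (B ∩ {x | T < dsq χ c x}) = 0 := by
        rw [inter_comm, ← Measure.restrict_apply hm]
        have h3 : {x | T < dsq χ c x} ⊆ {x | ¬ dsq χ c x = (0 : G → ℝ) x} := by
          intro x hx
          simp only [Set.mem_ofPred_eq, Pi.zero_apply] at hx ⊢
          exact (lt_of_le_of_lt hT0 hx).ne'
        exact measure_mono_null h3 h1
      rw [Measure.real, h2]
      simp only [ENNReal.toReal_zero]
      positivity
    · have hTp : 0 < T := by positivity
      have h1 := mul_meas_ge_le_integral_of_nonneg (μ := μ.restrict B) (f := dsq χ c)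
        (Eventually.of_forall fun x => dsq_nonneg _ _ _) hdint T
      rw [hAeq] at h1
      have h2 : μ.real (B ∩ {x | T < dsq χ c x}) ≤ (μ.restrict B).real {x | T ≤ dsq χ c x} := by
        have h3 : (μ.restrict B).real {x | T ≤ dsq χ c x} = μ.real ({x | T ≤ dsq χ c x} ∩ B) := by
          rw [Measure.real, Measure.restrict_apply (measurableSet_le measurable_const (measurable_dsq h c))]
          rfl
        rw [h3]
        apply measureReal_mono _ (measure_ne_top _ _)
        intro x hx
        exact ⟨(le_of_lt hx.2 : T ≤ dsq χ c x), hx.1⟩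
      have h4 : T * μ.real (B ∩ {x | T < dsq χ c x}) ≤ A := (mul_le_mul_of_nonneg_left h2 hT0).trans h1
      rw [← le_div_iff₀' hTp] at h4
      refine h4.trans (le_of_eq ?_)
      rw [hT]
      field_simp
  have key2 : μ.real B / 2 ≤ μ.real {x | dsq χ c x ≤ T} := by
    have h1 : μ.real B ≤ μ.real (B ∩ {x | T < dsq χ c x}) + μ.real {x | dsq χ c x ≤ T} := by
      refine le_trans (measureReal_mono ?_ (measure_ne_top _ _)) (measureReal_union_le _ _)
      intro x hx
      by_cases hx2 : dsq χ c x ≤ T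
      · exact Or.inr hx2
      · exact Or.inl ⟨hx, not_le.1 hx2⟩
    linarith
  have h5 : (1 / 2 : ℝ) ^ (2 ^ (p + 1)) ≤ μ.real {x | dsq χ c x ≤ T} := by
    refine le_trans ?_ key2
    have h6 : (1 / 2 : ℝ) ^ (2 ^ (p + 1)) ≤ (1 / 2 : ℝ) ^ (2 ^ p) / 2 := by
      have h7 : 2 ^ p + 1 ≤ 2 ^ (p + 1) := by
        have : 1 ≤ 2 ^ p := Nat.one_le_two_pow
        rw [pow_succ]; omega
      calc (1 / 2 : ℝ) ^ (2 ^ (p + 1)) ≤ (1 / 2 : ℝ) ^ (2 ^ p + 1) :=
            pow_le_pow_of_le_one (by norm_num) (by norm_num) h7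
        _ = _ := by rw [pow_succ]; ring
    linarith
  calc ENNReal.ofReal ((1 / 2) ^ (2 ^ (p + 1))) ≤ ENNReal.ofReal (μ.real {x | dsq χ c x ≤ T}) := ENNReal.ofReal_le_ofReal h5
    _ = _ := ENNReal.ofReal_toReal (measure_ne_top _ _)

/-- Jensen's inequality for the square root, in the form used below -/
lemma integral_sqrt_le {Ω : Type*} [MeasurableSpace Ω] {P : Measure Ω} [IsProbabilityMeasure P] {X : Ω → ℝ}
    (hX : Integrable X P) (hX0 : ∀ ω, 0 ≤ X ω) (s : ℝ) (hs : 0 ≤ s) (h : ∫ ω, X ω ∂P ≤ s ^ 2) :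
    Integrable (fun ω => √(X ω)) P ∧ ∫ ω, √(X ω) ∂P ≤ s := by
  have hI : Integrable (fun ω => √(X ω)) P := by
    have h1 : Integrable (fun ω => 1 + X ω) P := (integrable_const _).add hX
    apply h1.mono'
    · exact (Real.continuous_sqrt.measurable.comp_aemeasurable hX.aemeasurable).aestronglyMeasurable
    · filter_upwards with ω
      rw [Real.norm_of_nonneg (Real.sqrt_nonneg _), Real.sqrt_le_left (by have := hX0 ω; positivity)]
      have := hX0 ω
      nlinarith [sq_nonneg (X ω)]
  refine ⟨hI, ?_⟩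
  apply le_of_forall_pos_le_add
  intro ε hε
  have hse : 0 < s + ε := by positivity
  have h2 : ∀ ω, √(X ω) ≤ X ω / (2 * (s + ε)) + (s + ε) / 2 := by
    intro ω
    have h3 := Real.sq_sqrt (hX0 ω)
    have h4 : X ω / (2 * (s + ε)) + (s + ε) / 2 - √(X ω) = (√(X ω) - (s + ε)) ^ 2 / (2 * (s + ε)) := by
      field_simp
      nlinarith
    have h5 : 0 ≤ (√(X ω) - (s + ε)) ^ 2 / (2 * (s + ε)) := by positivity
    linarith
  calc ∫ ω, √(X ω) ∂P ≤ ∫ ω, (X ω / (2 * (s + ε)) + (s + ε) / 2) ∂P :=
        integral_mono hI ((hX.div_const _).add (integrable_const _)) h2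
    _ = (∫ ω, X ω ∂P) / (2 * (s + ε)) + (s + ε) / 2 := by
        rw [integral_add (hX.div_const _) (integrable_const _), integral_div]
        simp
    _ ≤ (s + ε) ^ 2 / (2 * (s + ε)) + (s + ε) / 2 := by
        gcongr
        refine h.trans ?_
        nlinarith
    _ = s + ε := by field_simp; ring

end Pool.Agent.Helper26.Bmoa
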