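import Mathlib
import Pool.Agent.Helper26.Bmoa.LB2

set_option autoImplicit false
set_option linter.unusedSectionVars false

/-!
The lower bound for random sums with independent uniform phases.
-/

namespace Pool.Agent.Helper26.Bmoa
open MeasureTheory ProbabilityTheory Set Filter Topology
open scoped ENNReal NNReal

variable {G ι : Type} [AddCommGroup G] [MeasurableSpace G] [MeasurableAdd₂ G] [Fintype ι]

/-- projection to the disc of radius `τ` -/
noncomputable def trc (τ : ℝ) (z : ℂ) : ℂ := if ‖z‖ ≤ τ then z else ((τ / ‖z‖ : ℝ) : ℂ) * z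

lemma norm_trc_le {τ : ℝ} (hτ : 0 ≤ τ) (z : ℂ) : ‖trc τ z‖ ≤ τ := by
  unfold trc
  split_ifs with h
  · exact h
  · have : 0 < ‖z‖ := lt_of_le_of_lt hτ (not_le.1 h)
    rw [norm_mul, Complex.norm_real, Real.norm_of_nonneg (by positivity)]
    field_simp
    exact le_rfl

lemma norm_sub_trc {τ : ℝ} (hτ : 0 ≤ τ) (z : ℂ) : ‖z - trc τ z‖ = max (‖z‖ - τ) 0 := by
  unfold trc
  split_ifs with h
  · rw [sub_self, norm_zero, max_eq_right]; linarith
  · have h0 : 0 < ‖z‖ := lt_of_le_of_lt hτ (not_le.1 h)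
    have h1 : z - ((τ / ‖z‖ : ℝ) : ℂ) * z = ((1 - τ / ‖z‖ : ℝ) : ℂ) * z := by push_cast; ring
    have h2 : τ / ‖z‖ ≤ 1 := by rw [div_le_one h0]; exact (not_le.1 h).le
    rw [h1, norm_mul, Complex.norm_real, Real.norm_of_nonneg (by linarith), max_eq_left (by linarith [not_le.1 h])]
    field_simp

/-- the truncated second moment is small -/
lemma exists_trunc (ε : ℝ) (hε : 0 < ε) : ∃ τ : ℝ, 0 < τ ∧ ∫ x, (max (|x| - τ / 2) 0) ^ 2 ∂(gaussianReal 0 1) ≤ ε := by
  have h2 : Integrable (fun x : ℝ => x ^ 2) (gaussianReal 0 1) := by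
    have : MemLp (id : ℝ → ℝ) 2 (gaussianReal 0 1) := IsGaussian.memLp_two_id
    exact this.integrable_sq
  have ht : Tendsto (fun n : ℕ => ∫ x, (max (|x| - (n : ℝ) / 2) 0) ^ 2 ∂(gaussianReal 0 1)) atTop
      (𝓝 (∫ x, (0:ℝ) ∂(gaussianReal 0 1))) := by
    apply tendsto_integral_of_dominated_convergence (fun x => x ^ 2)
    · intro n
      exact (by fun_prop : Continuous fun x : ℝ => (max (|x| - (n : ℝ) / 2) 0) ^ 2).aestronglyMeasurable
    · exact h2
    · intro n
      filter_upwards with x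
      rw [Real.norm_of_nonneg (by positivity), ← sq_abs x]
      apply pow_le_pow_left₀ (le_max_right _ _)
      apply max_le _ (abs_nonneg x)
      have : (0:ℝ) ≤ (n : ℝ) / 2 := by positivity
      linarith
    · filter_upwards with x
      apply tendsto_const_nhds.congr'
      filter_upwards [eventually_ge_atTop (⌈2 * |x|⌉₊)] with n hn
      have h3 : 2 * |x| ≤ n := (Nat.le_ceil _).trans (by exact_mod_cast hn)
      rw [max_eq_right (by linarith)]
      norm_num
  rw [integral_zero] at ht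
  obtain ⟨n, hn⟩ := ((ht.eventually (gt_mem_nhds hε)).and (eventually_gt_atTop 0)).exists
  exact ⟨n, by exact_mod_cast hn.2, hn.1.le⟩

lemma w_sq_le (τ x y : ℝ) : (max (‖((x : ℂ) - Complex.I * y)‖ - τ) 0) ^ 2 ≤
    2 * (max (|x| - τ / 2) 0) ^ 2 + 2 * (max (|y| - τ / 2) 0) ^ 2 := by
  have h1 : ‖((x : ℂ) - Complex.I * y)‖ ≤ |x| + |y| := by
    refine (norm_sub_le _ _).trans ?_
    rw [norm_mul, Complex.norm_I, one_mul, Complex.norm_real, Complex.norm_real]
    exact le_rfl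
  have h2 : max (‖((x : ℂ) - Complex.I * y)‖ - τ) 0 ≤ max (|x| - τ / 2) 0 + max (|y| - τ / 2) 0 := by
    apply max_le
    · have a1 := le_max_left (|x| - τ / 2) 0
      have a2 := le_max_left (|y| - τ / 2) 0
      linarith
    · have a1 := le_max_right (|x| - τ / 2) 0
      have a2 := le_max_right (|y| - τ / 2) 0
      linarith
  have h3 := pow_le_pow_left₀ (le_max_right _ _) h2 2
  nlinarith [sq_nonneg (max (|x| - τ / 2) 0 - max (|y| - τ / 2) 0)]

/-- the multiplier of the tail -/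
noncomputable def wt (τ : ℝ) (z : ι ⊕ ι → ℝ) (i : ι) : ℝ := ‖zt z i - trc τ (zt z i)‖

lemma continuous_wt {τ : ℝ} (hτ : 0 ≤ τ) (i : ι) : Continuous (fun z : ι ⊕ ι → ℝ => wt τ z i) := by
  unfold wt
  simp_rw [norm_sub_trc hτ]
  exact (((continuous_pi_iff.1 continuous_zt i).norm).sub continuous_const).max continuous_const

lemma wt_moment {τ ε : ℝ} (hτ : 0 < τ) (h : ∫ x, (max (|x| - τ / 2) 0) ^ 2 ∂(gaussianReal 0 1) ≤ ε) (i : ι) :
    Integrable (fun z : ι ⊕ ι → ℝ => wt τ z i ^ 2) (gs (ι ⊕ ι)) ∧ ∫ z, wt τ z i ^ 2 ∂(gs (ι ⊕ ι)) ≤ 4 * ε := by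
  have hc : Continuous (fun x : ℝ => (max (|x| - τ / 2) 0) ^ 2) := by fun_prop
  have h2 : Integrable (fun x : ℝ => (max (|x| - τ / 2) 0) ^ 2) (gaussianReal 0 1) := by
    have h3 : Integrable (fun x : ℝ => x ^ 2) (gaussianReal 0 1) := by
      have : MemLp (id : ℝ → ℝ) 2 (gaussianReal 0 1) := IsGaussian.memLp_two_id
      exact this.integrable_sq
    apply h3.mono' hc.aestronglyMeasurable
    filter_upwards with x
    rw [Real.norm_of_nonneg (by positivity), ← sq_abs x]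
    apply pow_le_pow_left₀ (le_max_right _ _)
    exact max_le (by linarith) (abs_nonneg x)
  have hk : ∀ k : ι ⊕ ι, Integrable (fun z : ι ⊕ ι → ℝ => (max (|z k| - τ / 2) 0) ^ 2) (gs (ι ⊕ ι)) := fun k =>
    integrable_comp_eval (μ := fun _ : ι ⊕ ι => gaussianReal 0 1) (f := fun x : ℝ => (max (|x| - τ / 2) 0) ^ 2) h2
  have hv : ∀ k : ι ⊕ ι, ∫ z, (max (|z k| - τ / 2) 0) ^ 2 ∂(gs (ι ⊕ ι)) ≤ ε := fun k => by
    have e := integral_comp_eval (μ := fun _ : ι ⊕ ι => gaussianReal 0 1) (i := k) (f := fun x : ℝ => (max (|x| - τ / 2) 0) ^ 2)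
      hc.aestronglyMeasurable
    unfold gs
    rw [e]
    exact h
  have hdom : Integrable (fun z : ι ⊕ ι → ℝ => 2 * (max (|z (Sum.inl i)| - τ / 2) 0) ^ 2 + 2 * (max (|z (Sum.inr i)| - τ / 2) 0) ^ 2)
      (gs (ι ⊕ ι)) := ((hk _).const_mul 2).add ((hk _).const_mul 2)
  have hle : ∀ z : ι ⊕ ι → ℝ, wt τ z i ^ 2 ≤ 2 * (max (|z (Sum.inl i)| - τ / 2) 0) ^ 2 + 2 * (max (|z (Sum.inr i)| - τ / 2) 0) ^ 2 := by
    intro z
    unfold wt
    rw [norm_sub_trc hτ.le]
    exact w_sq_le τ _ _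
  have hI : Integrable (fun z : ι ⊕ ι → ℝ => wt τ z i ^ 2) (gs (ι ⊕ ι)) := by
    have hcw : Continuous (fun z : ι ⊕ ι → ℝ => wt τ z i ^ 2) := (continuous_wt hτ.le i).pow 2
    apply hdom.mono' hcw.aestronglyMeasurable
    filter_upwards with z
    rw [Real.norm_of_nonneg (sq_nonneg _)]
    exact hle z
  refine ⟨hI, ?_⟩
  calc _ ≤ ∫ z : ι ⊕ ι → ℝ, (2 * (max (|z (Sum.inl i)| - τ / 2) 0) ^ 2 + 2 * (max (|z (Sum.inr i)| - τ / 2) 0) ^ 2) ∂(gs (ι ⊕ ι)) :=
        integral_mono hI hdom hle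
    _ = 2 * (∫ z : ι ⊕ ι → ℝ, (max (|z (Sum.inl i)| - τ / 2) 0) ^ 2 ∂(gs (ι ⊕ ι))) +
        2 * (∫ z : ι ⊕ ι → ℝ, (max (|z (Sum.inr i)| - τ / 2) 0) ^ 2 ∂(gs (ι ⊕ ι))) := by
        rw [integral_add ((hk _).const_mul 2) ((hk _).const_mul 2), integral_const_mul, integral_const_mul]
    _ ≤ _ := by
        have a1 := hv (Sum.inl i)
        have a2 := hv (Sum.inr i)
        linarith

/-- comparison of the Gaussian and the Steinhaus maxima -/
lemma GS_le {μ : Measure G} [IsProbabilityMeasure μ] [μ.IsAddLeftInvariant] {χ : ι → G → ℂ}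
    (h : IsCharSys χ) (b : ι → ℝ) (D : ℝ) (hD : ∀ P, ∑ p ∈ Finset.range P, √(2 ^ p) * rad μ χ b p ≤ D)
    {τ ε : ℝ} (hτ : 0 < τ) (hε : 0 ≤ ε) (hm : ∫ x, (max (|x| - τ / 2) 0) ^ 2 ∂(gaussianReal 0 1) ≤ ε ^ 2 / 4)
    (F : Finset G) (hF : F.Nonempty) :
    GS χ b F hF ≤ τ * ES χ (fun i => (b i : ℂ)) F hF + 180 * (3 * (ε * √(∑ i, b i ^ 2)) + 2 * ε * D) := by
  obtain ⟨hI, hle⟩ := GS_le_avg h b F hF
  have hD0 : 0 ≤ D := by simpa using hD 0
  -- moments
  have hwI : ∀ i : ι, Integrable (fun z : ι ⊕ ι → ℝ => wt τ z i ^ 2) (gs (ι ⊕ ι)) := fun i => (wt_moment hτ hm i).1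
  have hwE : ∀ i : ι, ∫ z, wt τ z i ^ 2 ∂(gs (ι ⊕ ι)) ≤ ε ^ 2 := fun i => by
    have := (wt_moment hτ hm i).2; linarith
  -- weighted sums
  have hws : ∀ κ : ι → ℝ, (∀ i, 0 ≤ κ i) → Integrable (fun z : ι ⊕ ι → ℝ => ∑ i, (wt τ z i * b i) ^ 2 * κ i) (gs (ι ⊕ ι)) ∧
      ∫ z, ∑ i, (wt τ z i * b i) ^ 2 * κ i ∂(gs (ι ⊕ ι)) ≤ ε ^ 2 * ∑ i, b i ^ 2 * κ i := by
    intro κ hκ
    have h1 : ∀ i, Integrable (fun z : ι ⊕ ι → ℝ => (wt τ z i * b i) ^ 2 * κ i) (gs (ι ⊕ ι)) := by
      intro i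
      have : (fun z : ι ⊕ ι → ℝ => (wt τ z i * b i) ^ 2 * κ i) = fun z => wt τ z i ^ 2 * (b i ^ 2 * κ i) := by
        ext z; ring
      rw [this]
      exact (hwI i).mul_const _
    refine ⟨integrable_finsetSum _ fun i _ => h1 i, ?_⟩
    rw [integral_finsetSum _ fun i _ => h1 i, Finset.mul_sum]
    apply Finset.sum_le_sum
    intro i _
    have : (fun z : ι ⊕ ι → ℝ => (wt τ z i * b i) ^ 2 * κ i) = fun z => wt τ z i ^ 2 * (b i ^ 2 * κ i) := by
      ext z; ring
    rw [this, integral_mul_const]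
    exact mul_le_mul_of_nonneg_right (hwE i) (mul_nonneg (sq_nonneg _) (hκ i))
  -- the norm part
  set Nz : (ι ⊕ ι → ℝ) → ℝ := fun z => √(∑ i, (wt τ z i * b i) ^ 2 * 1) with hNz
  have hN := integral_sqrt_le (hws (fun _ => 1) fun _ => zero_le_one).1 (fun z => Finset.sum_nonneg fun i _ => by positivity)
    (ε * √(∑ i, b i ^ 2)) (by positivity) (by
      refine (hws (fun _ => 1) fun _ => zero_le_one).2.trans (le_of_eq ?_)
      rw [mul_pow, Real.sq_sqrt (Finset.sum_nonneg fun i _ => sq_nonneg _)]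
      simp)
  -- the radii part
  set B : ℕ → Set G := fun p => {x | dsq χ b x ≤ rad μ χ b p ^ 2} with hB
  set κ : ℕ → ι → ℝ := fun p i => ∫ x in B p, ‖χ i x - 1‖ ^ 2 ∂μ with hκ
  have hκ0 : ∀ p i, 0 ≤ κ p i := fun p i => integral_nonneg fun x => by positivity
  set X : ℕ → (ι ⊕ ι → ℝ) → ℝ := fun p z => 2 * (∑ i, (wt τ z i * b i) ^ 2 * κ p i) / μ.real (B p) with hX
  have hX0 : ∀ p z, 0 ≤ X p z := fun p z =>
    div_nonneg (mul_nonneg (by norm_num) (Finset.sum_nonneg fun i _ => mul_nonneg (sq_nonneg _) (hκ0 p i))) measureReal_nonneg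
  have hXI : ∀ p, Integrable (X p) (gs (ι ⊕ ι)) := fun p => ((hws (κ p) (hκ0 p)).1.const_mul 2).div_const _
  have hXE : ∀ p, ∫ z, X p z ∂(gs (ι ⊕ ι)) ≤ (√2 * ε * rad μ χ b p) ^ 2 := by
    intro p
    have hint : ∀ i, Integrable (fun x => ‖χ i x - 1‖ ^ 2) (μ.restrict (B p)) := by
      intro i
      apply Integrable.of_bound (C := 4)
      · have := h.meas i
        exact (by fun_prop : Measurable fun x => ‖χ i x - 1‖ ^ 2).aestronglyMeasurable
      · filter_upwards with x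
        rw [Real.norm_of_nonneg (by positivity)]
        have : ‖χ i x - 1‖ ≤ 2 := by
          refine (norm_sub_le _ _).trans ?_
          rw [h.norm_eq, norm_one]; norm_num
        nlinarith [norm_nonneg (χ i x - 1)]
    have hB0 : 0 < μ.real (B p) := by
      have h1 : ENNReal.ofReal ((1 / 2) ^ (2 ^ p)) ≤ μ (B p) := rad_spec h b p
      have h2 := ENNReal.toReal_mono (measure_ne_top _ _) h1
      rw [ENNReal.toReal_ofReal (by positivity)] at h2
      exact lt_of_lt_of_le (by positivity) h2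
    have h1 : ∫ z, X p z ∂(gs (ι ⊕ ι)) = 2 * (∫ z, ∑ i, (wt τ z i * b i) ^ 2 * κ p i ∂(gs (ι ⊕ ι))) / μ.real (B p) := by
      simp only [hX]
      rw [integral_div, integral_const_mul]
    have h2 : ∑ i, b i ^ 2 * κ p i ≤ rad μ χ b p ^ 2 * μ.real (B p) := by
      have h3 : ∫ x in B p, dsq χ b x ∂μ = ∑ i, b i ^ 2 * κ p i := by
        unfold dsq
        rw [integral_finsetSum _ fun i _ => (hint i).const_mul _]
        simp_rw [integral_const_mul]
        rfl
      rw [← h3]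
      have hdint : Integrable (dsq χ b) (μ.restrict (B p)) := by
        unfold dsq
        exact integrable_finsetSum _ fun i _ => (hint i).const_mul _
      calc _ ≤ ∫ x in B p, rad μ χ b p ^ 2 ∂μ := by
            apply setIntegral_mono_on hdint (integrable_const _) (measurableSet_ball h b _)
            intro x hx
            exact hx
        _ = _ := by
            rw [setIntegral_const, smul_eq_mul, mul_comm]
    rw [h1, div_le_iff₀ hB0]
    have h4 := (hws (κ p) (hκ0 p)).2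
    have h5 : (√2 * ε * rad μ χ b p) ^ 2 = 2 * ε ^ 2 * rad μ χ b p ^ 2 := by
      rw [mul_pow, mul_pow, Real.sq_sqrt (by norm_num)]
    rw [h5]
    have h6 : ε ^ 2 * ∑ i, b i ^ 2 * κ p i ≤ ε ^ 2 * (rad μ χ b p ^ 2 * μ.real (B p)) :=
      mul_le_mul_of_nonneg_left h2 (sq_nonneg _)
    linarith
  have hXS : ∀ p, Integrable (fun z => √(X p z)) (gs (ι ⊕ ι)) ∧ ∫ z, √(X p z) ∂(gs (ι ⊕ ι)) ≤ √2 * ε * rad μ χ b p := fun p =>
    integral_sqrt_le (hXI p) (hX0 p) _ (by have := rad_nonneg μ χ b p; positivity) (hXE p)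
  set T : (ι ⊕ ι → ℝ) → ℝ≥0∞ := fun z => ∑' p : ℕ, ENNReal.ofReal (√(2 ^ (p + 1)) * √(X p z)) with hT
  have hterm : ∀ p, AEMeasurable (fun z => ENNReal.ofReal (√(2 ^ (p + 1)) * √(X p z))) (gs (ι ⊕ ι)) := fun p =>
    ((hXS p).1.aemeasurable.const_mul _).ennreal_ofReal
  have hTi : ∫⁻ z, T z ∂(gs (ι ⊕ ι)) ≤ ENNReal.ofReal (2 * ε * D) := by
    simp only [hT]
    rw [lintegral_tsum hterm]
    have h1 : ∀ p, ∫⁻ z, ENNReal.ofReal (√(2 ^ (p + 1)) * √(X p z)) ∂(gs (ι ⊕ ι)) ≤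
        ENNReal.ofReal (2 * ε * (√(2 ^ p) * rad μ χ b p)) := by
      intro p
      rw [← ofReal_integral_eq_lintegral_ofReal ((hXS p).1.const_mul _) (Eventually.of_forall fun z => by positivity)]
      apply ENNReal.ofReal_le_ofReal
      rw [integral_const_mul]
      have h2 : √(2 ^ (p + 1)) = √2 * √(2 ^ p) := by
        rw [pow_succ, mul_comm, Real.sqrt_mul (by norm_num)]
      have h3 := (hXS p).2
      calc √(2 ^ (p + 1)) * ∫ z, √(X p z) ∂(gs (ι ⊕ ι)) ≤ √(2 ^ (p + 1)) * (√2 * ε * rad μ χ b p) :=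
            mul_le_mul_of_nonneg_left h3 (Real.sqrt_nonneg _)
        _ = (√2 * √2) * ε * (√(2 ^ p) * rad μ χ b p) := by rw [h2]; ring
        _ = _ := by rw [Real.mul_self_sqrt (by norm_num)]
    refine (ENNReal.tsum_le_tsum h1).trans ?_
    rw [ENNReal.tsum_eq_iSup_nat]
    apply iSup_le
    intro P
    rw [← ENNReal.ofReal_sum_of_nonneg (fun p _ => by have := rad_nonneg μ χ b p; positivity)]
    apply ENNReal.ofReal_le_ofReal
    rw [← Finset.mul_sum]
    exact mul_le_mul_of_nonneg_left (hD P) (by positivity)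
  have hTm : AEMeasurable T (gs (ι ⊕ ι)) := AEMeasurable.tsum hterm
  have hTne : ∫⁻ z, T z ∂(gs (ι ⊕ ι)) ≠ ∞ := ne_top_of_le_ne_top ENNReal.ofReal_ne_top hTi
  have hTf : ∀ᵐ z ∂(gs (ι ⊕ ι)), T z < ∞ := ae_lt_top' hTm hTne
  have hTr : Integrable (fun z => (T z).toReal) (gs (ι ⊕ ι)) := integrable_toReal_of_lintegral_ne_top hTm hTne
  have hTE : ∫ z, (T z).toReal ∂(gs (ι ⊕ ι)) ≤ 2 * ε * D := by
    rw [integral_toReal hTm hTf]
    have := ENNReal.toReal_mono ENNReal.ofReal_ne_top hTi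
    rwa [ENNReal.toReal_ofReal (by positivity)] at this
  -- pointwise bound
  have hpt : ∀ z, T z < ∞ → ES χ (fun i => (b i : ℂ) * zt z i) F hF ≤
      τ * ES χ (fun i => (b i : ℂ)) F hF + 180 * (3 * Nz z + (T z).toReal) := by
    intro z hz
    have e1 : (fun i => (b i : ℂ) * zt z i) = fun i => (τ : ℂ) * (((trc τ (zt z i)) / τ) * b i) + (b i : ℂ) * (zt z i - trc τ (zt z i)) := by
      ext i
      have : (τ : ℂ) ≠ 0 := by exact_mod_cast hτ.ne'
      field_simp
      ring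
    rw [e1]
    refine (ES_add_le h _ _ F hF).trans (add_le_add ?_ ?_)
    · rw [ES_smul _ F hF τ hτ.le]
      apply mul_le_mul_of_nonneg_left _ hτ.le
      apply contraction h (fun i => (b i : ℂ)) (fun i => trc τ (zt z i) / τ)
      intro i
      rw [norm_div, Complex.norm_real, Real.norm_of_nonneg hτ.le, div_le_one hτ]
      exact norm_trc_le hτ.le _
    · set a : ι → ℂ := fun i => (b i : ℂ) * (zt z i - trc τ (zt z i)) with ha
      have hna : ∀ i, ‖a i‖ = |b i| * wt τ z i := by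
        intro i
        simp only [ha]
        rw [norm_mul, Complex.norm_real, Real.norm_eq_abs]
        rfl
      have hnrm : nrm a = Nz z := by
        unfold nrm nsq
        simp only [hNz]
        congr 1
        apply Finset.sum_congr rfl
        intro i _
        rw [hna, mul_pow, sq_abs]
        ring
      have hrad : ∀ p, rad μ χ (fun i => ‖a i‖) (p + 1) ≤ √(X p z) := by
        intro p
        refine (rad_succ_le h b (fun i => ‖a i‖) p).trans (le_of_eq ?_)
        congr 1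
        simp only [hX]
        congr 2
        apply Finset.sum_congr rfl
        intro i _
        rw [hna, mul_pow, sq_abs]
        simp only [hκ, hB]
        ring
      have hrad0 : rad μ χ (fun i => ‖a i‖) 0 ≤ 2 * Nz z := by
        rw [← hnrm]
        exact rad_le_norm h _ 0
      have hS : ∀ P, ∑ p ∈ Finset.range P, √(2 ^ p) * rad μ χ (fun i => ‖a i‖) p ≤ 2 * Nz z + (T z).toReal := by
        intro P
        have hN0 : 0 ≤ Nz z := Real.sqrt_nonneg _
        rcases P with _ | P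
        · simp only [Finset.range_zero, Finset.sum_empty]
          have := ENNReal.toReal_nonneg (a := T z)
          positivity
        · rw [Finset.sum_range_succ', add_comm]
          apply add_le_add
          · simpa using hrad0
          · have h1 : ∑ p ∈ Finset.range P, √(2 ^ (p + 1)) * rad μ χ (fun i => ‖a i‖) (p + 1) ≤
                ∑ p ∈ Finset.range P, √(2 ^ (p + 1)) * √(X p z) :=
              Finset.sum_le_sum fun p _ => mul_le_mul_of_nonneg_left (hrad p) (Real.sqrt_nonneg _)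
            refine h1.trans ?_
            have h2 : ENNReal.ofReal (∑ p ∈ Finset.range P, √(2 ^ (p + 1)) * √(X p z)) ≤ T z := by
              rw [ENNReal.ofReal_sum_of_nonneg (fun p _ => by positivity)]
              exact ENNReal.sum_le_tsum _
            have h3 := ENNReal.toReal_mono hz.ne h2
            rwa [ENNReal.toReal_ofReal (Finset.sum_nonneg fun p _ => by positivity)] at h3
      have := upper_single h a (2 * Nz z + (T z).toReal) hS F hF
      rw [hnrm] at this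
      linarith
  refine hle.trans ?_
  have hJ : Integrable (fun z => τ * ES χ (fun i => (b i : ℂ)) F hF + 180 * (3 * Nz z + (T z).toReal)) (gs (ι ⊕ ι)) :=
    (integrable_const _).add (((hN.1.const_mul 3).add hTr).const_mul _)
  calc _ ≤ ∫ z, (τ * ES χ (fun i => (b i : ℂ)) F hF + 180 * (3 * Nz z + (T z).toReal)) ∂(gs (ι ⊕ ι)) := by
        apply integral_mono_ae hI hJ
        filter_upwards [hTf] with z hz
        exact hpt z hz
    _ = τ * ES χ (fun i => (b i : ℂ)) F hF + 180 * (3 * (∫ z, Nz z ∂(gs (ι ⊕ ι))) + ∫ z, (T z).toReal ∂(gs (ι ⊕ ι))) := by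
        have k1 : Integrable (fun z => 3 * Nz z) (gs (ι ⊕ ι)) := hN.1.const_mul 3
        have k2 : Integrable (fun z => 3 * Nz z + (T z).toReal) (gs (ι ⊕ ι)) := k1.add hTr
        rw [integral_add (integrable_const _) (k2.const_mul _), integral_const_mul (180:ℝ), integral_add k1 hTr, integral_const_mul (3:ℝ)]
        simp
    _ ≤ _ := by
        have k1 := hN.2
        have k2 := hTE
        simp only [hNz]
        linarith

/-- **Lower bound for random Fourier sums with independent uniform phases.** -/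
theorem lower_bound : ∃ C : ℝ, 0 < C ∧ ∀ (G ι : Type) [AddCommGroup G] [MeasurableSpace G]
    [MeasurableAdd₂ G] [Fintype ι] (μ : Measure G) [IsProbabilityMeasure μ]
    [μ.IsAddLeftInvariant] (χ : ι → G → ℂ) (_ : IsCharSys χ) (b : ι → ℝ) (D : ℝ)
    (_ : ∀ P, ∑ p ∈ Finset.range P, √(2 ^ p) * rad μ χ b p ≤ D),
    ∃ (F : Finset G) (hF : F.Nonempty), ∀ P,
      ∑ p ∈ Finset.range P, √(2 ^ p) * rad μ χ b p ≤
        C * (ES χ (fun i => (b i : ℂ)) F hF + √(∑ i, b i ^ 2)) := by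
  set ε : ℝ := 1 / 2880000 with hε
  obtain ⟨τ, hτ, hm⟩ := exists_trunc (ε ^ 2 / 4) (by positivity)
  refine ⟨8000 * τ + 2, by positivity, ?_⟩
  intro G ι _ _ _ _ μ _ _ χ h b D hD
  set s : ℕ → ℝ := fun P => ∑ p ∈ Finset.range P, √(2 ^ p) * rad μ χ b p with hs
  have hbdd : BddAbove (Set.range s) := ⟨D, by rintro _ ⟨P, rfl⟩; exact hD P⟩
  set D' := ⨆ P, s P with hD'
  have hle : ∀ P, s P ≤ D' := fun P => le_ciSup hbdd P
  have h0 : 0 ≤ D' := by have := hle 0; simpa [hs] using this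
  have hn0 : 0 ≤ √(∑ i, b i ^ 2) := Real.sqrt_nonneg _
  rcases h0.eq_or_lt with h0 | h0
  · refine ⟨{0}, Finset.singleton_nonempty _, fun P => ?_⟩
    have h1 := hle P
    rw [← h0] at h1
    refine h1.trans ?_
    have := ES_nonneg (χ := χ) (fun i => (b i : ℂ)) {0} (Finset.singleton_nonempty _)
    positivity
  · obtain ⟨P, hP⟩ := exists_lt_of_lt_ciSup (show D' / 2 < ⨆ P, s P by rw [← hD']; linarith)
    obtain ⟨F, hF, hFP⟩ := lb_gauss (μ := μ) h b P
    refine ⟨F, hF, fun P' => ?_⟩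
    have h1 := GS_le (μ := μ) h b D' hle hτ (by positivity : 0 ≤ ε) hm F hF
    have hE := ES_nonneg (χ := χ) (fun i => (b i : ℂ)) F hF
    have h2 := hle P'
    have h3 : s P ≤ 2000 * GS χ b F hF := hFP
    have h4 : D' ≤ 8000 * τ * ES χ (fun i => (b i : ℂ)) F hF + 2 * √(∑ i, b i ^ 2) := by
      rw [hε] at h1
      linarith
    refine h2.trans (h4.trans ?_)
    nlinarith [mul_nonneg hτ.le hn0]

end Pool.Agent.Helper26.Bmoa
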