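import Mathlib
import Pool.Agent.Helper26.Bmoa.Det2

set_option autoImplicit false

/-!
Square summable power series: boundary functions.
-/

namespace Pool.Agent.Helper26.Bmoa.RF

open MeasureTheory Set Filter Topology Det
open scoped ENNReal NNReal

/-- Lebesgue measure on one period -/
noncomputable def nu : Measure ℝ := volume.restrict (Ioc 0 (2 * Real.pi))

instance : IsFiniteMeasure nu := by unfold nu; infer_instance

/-- partial sums on the circle -/
noncomputable def SN (c : ℕ → ℂ) (N : ℕ) (t : ℝ) : ℂ := ∑ k ∈ Finset.range N, c k * E (k * t)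

/-- the power series -/
noncomputable def PS (c : ℕ → ℂ) (z : ℂ) : ℂ := ∑' k, c k * z ^ k

lemma continuous_SN (c : ℕ → ℂ) (N : ℕ) : Continuous (SN c N) := by
  unfold SN
  exact continuous_finsetSum _ fun k _ => continuous_const.mul (continuous_E.comp (by fun_prop))

lemma int_eq (f : ℝ → ℝ) : ∫ t in (0:ℝ)..(2 * Real.pi), f t = ∫ t, f t ∂nu := by
  rw [intervalIntegral.integral_of_le (by positivity)]; rfl

lemma sq_norm_int {f : ℝ → ℂ} (hf : MemLp f 2 nu) : ∫ t, ‖f t‖ ^ 2 ∂nu = (eLpNorm f 2 nu).toReal ^ 2 := by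
  rw [hf.eLpNorm_eq_integral_rpow_norm (by norm_num) (by norm_num)]
  have h0 : 0 ≤ ∫ t, ‖f t‖ ^ (2:ℝ≥0∞).toReal ∂nu := integral_nonneg fun t => by positivity
  rw [ENNReal.toReal_ofReal (by positivity), ← Real.rpow_natCast, ← Real.rpow_mul h0]
  simp

lemma memLp_of_cont {f : ℝ → ℂ} (hf : Continuous f) (_ : Function.Periodic f (2 * Real.pi)) : MemLp f 2 nu := by
  obtain ⟨C, hC⟩ := (isCompact_Icc (a := (0:ℝ)) (b := 2 * Real.pi)).exists_bound_of_continuousOn hf.continuousOn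
  apply MemLp.of_bound (C := C) hf.aestronglyMeasurable
  unfold nu
  rw [ae_restrict_iff' measurableSet_Ioc]
  filter_upwards with t ht
  exact hC t ⟨ht.1.le, ht.2⟩

lemma SN_periodic (c : ℕ → ℂ) (N : ℕ) : Function.Periodic (SN c N) (2 * Real.pi) := by
  intro t
  unfold SN
  apply Finset.sum_congr rfl
  intro k _
  have : E (k * (t + 2 * Real.pi)) = E (k * t) := by
    have : (k : ℝ) * (t + 2 * Real.pi) = k * t + 2 * Real.pi * ((k : ℤ) : ℝ) := by push_cast; ring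
    rw [this, E_add, E_two_pi, mul_one]
  rw [this]

lemma memLp_SN (c : ℕ → ℂ) (N : ℕ) : MemLp (SN c N) 2 nu := memLp_of_cont (continuous_SN c N) (SN_periodic c N)

lemma int_SN_sub (c : ℕ → ℂ) {M N : ℕ} (hMN : M ≤ N) :
    ∫ t, ‖SN c N t - SN c M t‖ ^ 2 ∂nu = 2 * Real.pi * ∑ k ∈ Finset.Ico M N, ‖c k‖ ^ 2 := by
  rw [← int_eq, ← parseval]
  congr 1
  ext t
  unfold SN
  rw [← Finset.sum_range_add_sum_Ico _ hMN, add_sub_cancel_left]

lemma sum_Ico_le_tail {x : ℕ → ℝ} (hx : Summable x) (h0 : ∀ k, 0 ≤ x k) (M N : ℕ) :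
    ∑ k ∈ Finset.Ico M N, x k ≤ ∑' k, x (k + M) := by
  rw [Finset.sum_Ico_eq_sum_range]
  have h1 : Summable fun k => x (k + M) := (summable_nat_add_iff M).2 hx
  simp_rw [add_comm M]
  exact h1.sum_le_tsum _ fun k _ => h0 _

/-- Riesz-Fischer with a periodic representative. -/
theorem riesz_fischer (c : ℕ → ℂ) (hc : Summable fun k => ‖c k‖ ^ 2) :
    ∃ g : ℝ → ℂ, Function.Periodic g (2 * Real.pi) ∧ MemLp g 2 nu ∧
      Tendsto (fun N => ∫ t, ‖SN c N t - g t‖ ^ 2 ∂nu) atTop (𝓝 0) := by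
  set f : ℕ → Lp ℂ 2 nu := fun N => (memLp_SN c N).toLp (SN c N) with hf
  have hdist : ∀ N M, dist (f N) (f M) ^ 2 = ∫ t, ‖SN c N t - SN c M t‖ ^ 2 ∂nu := by
    intro N M
    have h1 : ∫ t, ‖SN c N t - SN c M t‖ ^ 2 ∂nu = ∫ t, ‖(SN c N - SN c M) t‖ ^ 2 ∂nu := rfl
    rw [h1, sq_norm_int ((memLp_SN c N).sub (memLp_SN c M)), dist_eq_norm, hf]
    simp only
    rw [← MemLp.toLp_sub, Lp.norm_toLp]
  have htail : Tendsto (fun M => ∑' k, ‖c (k + M)‖ ^ 2) atTop (𝓝 0) := tendsto_sum_nat_add fun k => ‖c k‖ ^ 2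
  have hcau : CauchySeq f := by
    rw [Metric.cauchySeq_iff']
    intro ε hε
    have h1 : ∀ᶠ M in atTop, ∑' k, ‖c (k + M)‖ ^ 2 < ε ^ 2 / (2 * Real.pi) :=
      htail.eventually (gt_mem_nhds (by positivity))
    obtain ⟨M, hM⟩ := h1.exists
    refine ⟨M, fun N hN => ?_⟩
    have h2 : dist (f N) (f M) ^ 2 < ε ^ 2 := by
      rw [hdist, int_SN_sub c hN]
      have h3 := sum_Ico_le_tail hc (fun k => sq_nonneg _) M N
      rw [lt_div_iff₀ (by positivity)] at hM
      have hpi := Real.pi_pos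
      nlinarith
    exact lt_of_pow_lt_pow_left₀ 2 hε.le h2
  obtain ⟨G, hG⟩ := cauchySeq_tendsto_of_complete hcau
  have hp : (0:ℝ) < 2 * Real.pi := Real.two_pi_pos
  set g : ℝ → ℂ := fun t => G (toIocMod hp 0 t) with hg
  have hgG : ∀ t ∈ Ioc 0 (2 * Real.pi), g t = G t := by
    intro t ht
    simp only [hg]
    rw [(toIocMod_eq_self hp).2 (by rwa [zero_add])]
  have hae : g =ᵐ[nu] G := by
    unfold nu
    rw [EventuallyEq, ae_restrict_iff' measurableSet_Ioc]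
    filter_upwards with t ht
    exact hgG t ht
  have hgm : MemLp g 2 nu := (memLp_congr_ae hae).2 (Lp.memLp G)
  refine ⟨g, fun t => ?_, hgm, ?_⟩
  · simp only [hg]
    rw [toIocMod_add_right]
  · have h1 : ∀ N, ∫ t, ‖SN c N t - g t‖ ^ 2 ∂nu = dist (f N) G ^ 2 := by
      intro N
      have h2 : ∫ t, ‖SN c N t - g t‖ ^ 2 ∂nu = ∫ t, ‖(SN c N - g) t‖ ^ 2 ∂nu := rfl
      rw [h2, sq_norm_int ((memLp_SN c N).sub hgm), Lp.dist_def]
      congr 2
      apply eLpNorm_congr_ae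
      exact ((memLp_SN c N).coeFn_toLp.symm).sub hae
    simp_rw [h1]
    have := (tendsto_iff_dist_tendsto_zero.1 hG).pow 2
    simpa using this

/-- the radial sums -/
noncomputable def cr (c : ℕ → ℂ) (r : ℝ) (k : ℕ) : ℂ := c k * (r : ℂ) ^ k

lemma bdd_of_summable {c : ℕ → ℂ} (hc : Summable fun k => ‖c k‖ ^ 2) : ∃ B, 0 ≤ B ∧ ∀ k, ‖c k‖ ≤ B := by
  refine ⟨√(∑' k, ‖c k‖ ^ 2), Real.sqrt_nonneg _, fun k => ?_⟩
  apply Real.le_sqrt_of_sq_le
  exact hc.le_tsum k fun j _ => sq_nonneg _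

lemma summable_cr {c : ℕ → ℂ} (hc : Summable fun k => ‖c k‖ ^ 2) {r : ℝ} (h0 : 0 ≤ r) (h1 : r < 1) :
    Summable fun k => ‖cr c r k‖ := by
  obtain ⟨B, hB0, hB⟩ := bdd_of_summable hc
  apply Summable.of_nonneg_of_le (fun k => norm_nonneg _) (fun k => ?_) ((summable_geometric_of_lt_one h0 h1).mul_left B)
  unfold cr
  rw [norm_mul, norm_pow, Complex.norm_real, Real.norm_of_nonneg h0]
  exact mul_le_mul_of_nonneg_right (hB k) (by positivity)

lemma PS_eq (c : ℕ → ℂ) (r t : ℝ) : PS c (r * E t) = ∑' k, cr c r k * E (k * t) := by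
  unfold PS cr
  congr 1
  ext k
  rw [mul_pow, mul_assoc]
  congr 2
  unfold E
  rw [← Complex.exp_nat_mul]
  congr 1
  push_cast
  ring

lemma PS_sub_le {c : ℕ → ℂ} (hc : Summable fun k => ‖c k‖ ^ 2) {r : ℝ} (h0 : 0 ≤ r) (h1 : r < 1) (N : ℕ) (t : ℝ) :
    ‖PS c (r * E t) - SN (cr c r) N t‖ ≤ ∑' k, ‖cr c r (k + N)‖ := by
  have hs := summable_cr hc h0 h1
  have hs2 : Summable fun k => cr c r k * E (k * t) := by
    apply Summable.of_norm
    simpa [norm_E] using hs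
  rw [PS_eq, SN, ← hs2.sum_add_tsum_nat_add N, add_sub_cancel_left]
  refine (norm_tsum_le_tsum_norm ?_).trans (le_of_eq ?_)
  · simp only [norm_mul, norm_E, mul_one]
    exact (summable_nat_add_iff N).2 hs
  · congr 1
    ext k
    rw [norm_mul, norm_E, mul_one]

lemma continuous_PS {c : ℕ → ℂ} (hc : Summable fun k => ‖c k‖ ^ 2) {r : ℝ} (h0 : 0 ≤ r) (h1 : r < 1) :
    Continuous fun t : ℝ => PS c (r * E t) := by
  simp_rw [PS_eq]
  apply continuous_tsum (u := fun k => ‖cr c r k‖)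
  · intro k
    exact continuous_const.mul (continuous_E.comp (by fun_prop))
  · exact summable_cr hc h0 h1
  · intro k t
    rw [norm_mul, norm_E, mul_one]

lemma PS_periodic (c : ℕ → ℂ) (r : ℝ) : Function.Periodic (fun t : ℝ => PS c (r * E t)) (2 * Real.pi) := by
  intro t
  simp only
  have : E (t + 2 * Real.pi) = E t := by
    have := E_two_pi 1
    rw [E_add]
    simp only [Int.cast_one, mul_one] at this
    rw [this, mul_one]
  rw [this]

lemma sq_add_three (x y z : ℂ) : ‖x + y + z‖ ^ 2 ≤ 3 * ‖x‖ ^ 2 + 3 * ‖y‖ ^ 2 + 3 * ‖z‖ ^ 2 := by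
  have h1 : ‖x + y + z‖ ≤ ‖x‖ + ‖y‖ + ‖z‖ := (norm_add_le _ _).trans (by linarith [norm_add_le x y])
  have h2 := norm_nonneg (x + y + z)
  nlinarith [sq_nonneg (‖x‖ - ‖y‖), sq_nonneg (‖y‖ - ‖z‖), sq_nonneg (‖x‖ - ‖z‖)]

lemma summable_cr_sub {c : ℕ → ℂ} (hc : Summable fun k => ‖c k‖ ^ 2) {r : ℝ} (h0 : 0 ≤ r) (h1 : r < 1) :
    Summable fun k => ‖cr c r k - c k‖ ^ 2 := by
  apply Summable.of_nonneg_of_le (fun k => sq_nonneg _) (fun k => ?_) hc
  have : cr c r k - c k = c k * ((r : ℂ) ^ k - 1) := by unfold cr; ring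
  rw [this, norm_mul, mul_pow]
  have h2 : ‖(r : ℂ) ^ k - 1‖ ≤ 1 := by
    have : (r : ℂ) ^ k - 1 = ((r ^ k - 1 : ℝ) : ℂ) := by push_cast; ring
    rw [this, Complex.norm_real, Real.norm_eq_abs, abs_le]
    have h3 : 0 ≤ r ^ k := by positivity
    have h4 : r ^ k ≤ 1 := pow_le_one₀ h0 h1.le
    constructor <;> linarith
  have h5 : ‖(r : ℂ) ^ k - 1‖ ^ 2 ≤ 1 := pow_le_one₀ (norm_nonneg _) h2
  nlinarith [sq_nonneg ‖c k‖]

/-- the distance of the radial function and the boundary function -/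
lemma radial_bound {c : ℕ → ℂ} (hc : Summable fun k => ‖c k‖ ^ 2) {g : ℝ → ℂ} (hg : MemLp g 2 nu)
    (hlim : Tendsto (fun N => ∫ t, ‖SN c N t - g t‖ ^ 2 ∂nu) atTop (𝓝 0)) {r : ℝ} (h0 : 0 ≤ r) (h1 : r < 1) :
    ∫ t, ‖PS c (r * E t) - g t‖ ^ 2 ∂nu ≤ 6 * Real.pi * ∑' k, ‖cr c r k - c k‖ ^ 2 := by
  have hpi := Real.pi_pos
  set ψ : ℕ → ℝ := fun N => ∑' k, ‖cr c r (k + N)‖ with hψ
  have hψt : Tendsto ψ atTop (𝓝 0) := tendsto_sum_nat_add fun k => ‖cr c r k‖
  have hsub := summable_cr_sub hc h0 h1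
  have hPm : MemLp (fun t : ℝ => PS c (r * E t)) 2 nu := memLp_of_cont (continuous_PS hc h0 h1) (PS_periodic c r)
  have hb : ∀ N, ∫ t, ‖PS c (r * E t) - g t‖ ^ 2 ∂nu ≤
      3 * (ψ N ^ 2 * (2 * Real.pi)) + 3 * (2 * Real.pi * ∑' k, ‖cr c r k - c k‖ ^ 2) + 3 * ∫ t, ‖SN c N t - g t‖ ^ 2 ∂nu := by
    intro N
    have i1 : Integrable (fun t => ‖PS c (r * E t) - g t‖ ^ 2) nu := (hPm.sub hg).integrable_norm_pow (by norm_num)
    have i2 : Integrable (fun t => ‖SN c N t - g t‖ ^ 2) nu := ((memLp_SN c N).sub hg).integrable_norm_pow (by norm_num)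
    have i3 : Integrable (fun t => ‖SN (cr c r) N t - SN c N t‖ ^ 2) nu :=
      ((memLp_SN (cr c r) N).sub (memLp_SN c N)).integrable_norm_pow (by norm_num)
    have i4 : Integrable (fun t => 3 * ψ N ^ 2 + 3 * ‖SN (cr c r) N t - SN c N t‖ ^ 2) nu :=
      (integrable_const _).add (i3.const_mul 3)
    have i5 : Integrable (fun t => 3 * ψ N ^ 2 + 3 * ‖SN (cr c r) N t - SN c N t‖ ^ 2 + 3 * ‖SN c N t - g t‖ ^ 2) nu :=
      i4.add (i2.const_mul 3)
    have e3 : ∫ t, ‖SN (cr c r) N t - SN c N t‖ ^ 2 ∂nu ≤ 2 * Real.pi * ∑' k, ‖cr c r k - c k‖ ^ 2 := by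
      have h2 : ∀ t, SN (cr c r) N t - SN c N t = ∑ k ∈ Finset.range N, (cr c r k - c k) * E (k * t) := by
        intro t
        unfold SN
        rw [← Finset.sum_sub_distrib]
        apply Finset.sum_congr rfl
        intro k _
        ring
      simp_rw [h2]
      rw [← int_eq, parseval]
      apply mul_le_mul_of_nonneg_left _ (by positivity)
      exact hsub.sum_le_tsum _ fun k _ => sq_nonneg _
    calc ∫ t, ‖PS c (r * E t) - g t‖ ^ 2 ∂nu
        ≤ ∫ t, (3 * ψ N ^ 2 + 3 * ‖SN (cr c r) N t - SN c N t‖ ^ 2 + 3 * ‖SN c N t - g t‖ ^ 2) ∂nu := by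
          apply integral_mono i1 i5
          intro t
          simp only
          have h2 : PS c (r * E t) - g t = (PS c (r * E t) - SN (cr c r) N t) + (SN (cr c r) N t - SN c N t) + (SN c N t - g t) := by
            ring
          rw [h2]
          refine (sq_add_three _ _ _).trans ?_
          have h3 := PS_sub_le hc h0 h1 N t
          have h4 : ‖PS c (r * E t) - SN (cr c r) N t‖ ^ 2 ≤ ψ N ^ 2 := pow_le_pow_left₀ (norm_nonneg _) h3 2
          linarith
      _ = 3 * (ψ N ^ 2 * (2 * Real.pi)) + 3 * (∫ t, ‖SN (cr c r) N t - SN c N t‖ ^ 2 ∂nu) + 3 * ∫ t, ‖SN c N t - g t‖ ^ 2 ∂nu := by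
          rw [integral_add i4 (i2.const_mul 3), integral_add (integrable_const _) (i3.const_mul 3), integral_const,
            integral_const_mul, integral_const_mul]
          have : nu.real univ = 2 * Real.pi := by
            unfold nu
            rw [Measure.real, Measure.restrict_apply_univ, Real.volume_Ioc, sub_zero, ENNReal.toReal_ofReal (by positivity)]
          rw [this, smul_eq_mul]
          ring
      _ ≤ _ := by linarith
  have hlim2 : Tendsto (fun N => 3 * (ψ N ^ 2 * (2 * Real.pi)) + 3 * (2 * Real.pi * ∑' k, ‖cr c r k - c k‖ ^ 2) +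
      3 * ∫ t, ‖SN c N t - g t‖ ^ 2 ∂nu) atTop
      (𝓝 (3 * (0 ^ 2 * (2 * Real.pi)) + 3 * (2 * Real.pi * ∑' k, ‖cr c r k - c k‖ ^ 2) + 3 * 0)) := by
    exact (((hψt.pow 2).mul_const _).const_mul 3 |>.add_const _).add (hlim.const_mul 3)
  have := ge_of_tendsto' hlim2 hb
  refine this.trans (le_of_eq ?_)
  ring

/-- the boundary function in mean square -/
theorem radial_tendsto {c : ℕ → ℂ} (hc : Summable fun k => ‖c k‖ ^ 2) {g : ℝ → ℂ} (hg : MemLp g 2 nu)
    (hlim : Tendsto (fun N => ∫ t, ‖SN c N t - g t‖ ^ 2 ∂nu) atTop (𝓝 0)) :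
    Tendsto (fun r : ℝ => ∫ t, ‖PS c (r * E t) - g t‖ ^ 2 ∂nu) (𝓝[<] 1) (𝓝 0) := by
  have h1 : Tendsto (fun r : ℝ => ∑' k, ‖cr c r k - c k‖ ^ 2) (𝓝[<] 1) (𝓝 (∑' k : ℕ, (0:ℝ))) := by
    apply tendsto_tsum_of_dominated_convergence hc
    · intro k
      have h2 : Tendsto (fun r : ℝ => ‖cr c r k - c k‖ ^ 2) (𝓝 1) (𝓝 (‖cr c 1 k - c k‖ ^ 2)) := by
        apply Continuous.tendsto (f := fun r : ℝ => ‖cr c r k - c k‖ ^ 2)
        unfold cr
        fun_prop
      have h3 : ‖cr c 1 k - c k‖ ^ 2 = 0 := by unfold cr; simp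
      rw [h3] at h2
      exact h2.mono_left nhdsWithin_le_nhds
    · have : ∀ᶠ r : ℝ in 𝓝[<] 1, 0 ≤ r ∧ r < 1 := by
        have h2 : ∀ᶠ r : ℝ in 𝓝[<] 1, (0:ℝ) < r := (lt_mem_nhds one_pos).filter_mono nhdsWithin_le_nhds
        filter_upwards [h2, self_mem_nhdsWithin] with r h3 h4
        exact ⟨h3.le, h4⟩
      filter_upwards [this] with r hr k
      rw [Real.norm_of_nonneg (sq_nonneg _)]
      have : cr c r k - c k = c k * ((r : ℂ) ^ k - 1) := by unfold cr; ring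
      rw [this, norm_mul, mul_pow]
      have h2 : ‖(r : ℂ) ^ k - 1‖ ≤ 1 := by
        have : (r : ℂ) ^ k - 1 = ((r ^ k - 1 : ℝ) : ℂ) := by push_cast; ring
        rw [this, Complex.norm_real, Real.norm_eq_abs, abs_le]
        have h3 : 0 ≤ r ^ k := pow_nonneg hr.1 k
        have h4 : r ^ k ≤ 1 := pow_le_one₀ hr.1 hr.2.le
        constructor <;> linarith
      have h5 : ‖(r : ℂ) ^ k - 1‖ ^ 2 ≤ 1 := pow_le_one₀ (norm_nonneg _) h2
      nlinarith [sq_nonneg ‖c k‖]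
  rw [tsum_zero] at h1
  have h2 : Tendsto (fun r : ℝ => 6 * Real.pi * ∑' k, ‖cr c r k - c k‖ ^ 2) (𝓝[<] 1) (𝓝 0) := by
    simpa using h1.const_mul (6 * Real.pi)
  apply squeeze_zero' _ _ h2
  · filter_upwards with r
    exact integral_nonneg fun t => sq_nonneg _
  · have : ∀ᶠ r : ℝ in 𝓝[<] 1, 0 ≤ r ∧ r < 1 := by
      have h2 : ∀ᶠ r : ℝ in 𝓝[<] 1, (0:ℝ) < r := (lt_mem_nhds one_pos).filter_mono nhdsWithin_le_nhds
      filter_upwards [h2, self_mem_nhdsWithin] with r h3 h4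
      exact ⟨h3.le, h4⟩
    filter_upwards [this] with r hr
    exact radial_bound hc hg hlim hr.1 hr.2

/-- the boundary function is the `L²` limit of the partial sums -/
theorem partial_tendsto {c : ℕ → ℂ} (hc : Summable fun k => ‖c k‖ ^ 2) {g : ℝ → ℂ} (hg : MemLp g 2 nu)
    (hlim : Tendsto (fun r : ℝ => ∫ t, ‖PS c (r * E t) - g t‖ ^ 2 ∂nu) (𝓝[<] 1) (𝓝 0)) :
    Tendsto (fun N => ∫ t, ‖SN c N t - g t‖ ^ 2 ∂nu) atTop (𝓝 0) := by
  obtain ⟨g', hg'1, hg'2, hg'3⟩ := riesz_fischer c hc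
  have hr := radial_tendsto hc hg'2 hg'3
  have i1 : Integrable (fun t => ‖g' t - g t‖ ^ 2) nu := (hg'2.sub hg).integrable_norm_pow (by norm_num)
  have h1 : ∫ t, ‖g' t - g t‖ ^ 2 ∂nu ≤ 0 := by
    have h2 : Tendsto (fun r : ℝ => 2 * (∫ t, ‖PS c (r * E t) - g' t‖ ^ 2 ∂nu) + 2 * ∫ t, ‖PS c (r * E t) - g t‖ ^ 2 ∂nu)
        (𝓝[<] 1) (𝓝 0) := by
      simpa using (hr.const_mul 2).add (hlim.const_mul 2)
    apply ge_of_tendsto h2
    have : ∀ᶠ r : ℝ in 𝓝[<] 1, 0 ≤ r ∧ r < 1 := by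
      have h2 : ∀ᶠ r : ℝ in 𝓝[<] 1, (0:ℝ) < r := (lt_mem_nhds one_pos).filter_mono nhdsWithin_le_nhds
      filter_upwards [h2, self_mem_nhdsWithin] with r h3 h4
      exact ⟨h3.le, h4⟩
    filter_upwards [this] with r hr
    have hPm : MemLp (fun t : ℝ => PS c (r * E t)) 2 nu := memLp_of_cont (continuous_PS hc hr.1 hr.2) (PS_periodic c r)
    have i2 : Integrable (fun t => ‖PS c (r * E t) - g' t‖ ^ 2) nu := (hPm.sub hg'2).integrable_norm_pow (by norm_num)
    have i3 : Integrable (fun t => ‖PS c (r * E t) - g t‖ ^ 2) nu := (hPm.sub hg).integrable_norm_pow (by norm_num)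
    have i4 : Integrable (fun t => 2 * ‖PS c (r * E t) - g' t‖ ^ 2 + 2 * ‖PS c (r * E t) - g t‖ ^ 2) nu :=
      (i2.const_mul 2).add (i3.const_mul 2)
    calc _ ≤ ∫ t, (2 * ‖PS c (r * E t) - g' t‖ ^ 2 + 2 * ‖PS c (r * E t) - g t‖ ^ 2) ∂nu := by
          apply integral_mono i1 i4
          intro t
          simp only
          have h3 : g' t - g t = (-(PS c (r * E t) - g' t)) + (PS c (r * E t) - g t) := by ring
          rw [h3]
          refine (norm_add_sq_le' _ _).trans ?_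
          rw [norm_neg]
      _ = _ := by
          rw [integral_add (i2.const_mul 2) (i3.const_mul 2), integral_const_mul, integral_const_mul]
  have h2 : Tendsto (fun N => 2 * (∫ t, ‖SN c N t - g' t‖ ^ 2 ∂nu)) atTop (𝓝 0) := by
    simpa using hg'3.const_mul 2
  apply squeeze_zero (fun N => integral_nonneg fun t => sq_nonneg _) _ h2
  intro N
  have i2 : Integrable (fun t => ‖SN c N t - g' t‖ ^ 2) nu := ((memLp_SN c N).sub hg'2).integrable_norm_pow (by norm_num)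
  have i3 : Integrable (fun t => ‖SN c N t - g t‖ ^ 2) nu := ((memLp_SN c N).sub hg).integrable_norm_pow (by norm_num)
  have i4 : Integrable (fun t => 2 * ‖SN c N t - g' t‖ ^ 2 + 2 * ‖g' t - g t‖ ^ 2) nu :=
    (i2.const_mul 2).add (i1.const_mul 2)
  calc _ ≤ ∫ t, (2 * ‖SN c N t - g' t‖ ^ 2 + 2 * ‖g' t - g t‖ ^ 2) ∂nu := by
        apply integral_mono i3 i4
        intro t
        simp only
        have h3 : SN c N t - g t = (SN c N t - g' t) + (g' t - g t) := by ring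
        rw [h3]
        exact norm_add_sq_le' _ _
    _ = 2 * (∫ t, ‖SN c N t - g' t‖ ^ 2 ∂nu) + 2 * ∫ t, ‖g' t - g t‖ ^ 2 ∂nu := by
        rw [integral_add (i2.const_mul 2) (i1.const_mul 2), integral_const_mul, integral_const_mul]
    _ ≤ _ := by linarith

/-- the power series is in the Hardy space -/
theorem hardy {c : ℕ → ℂ} (hc : Summable fun k => ‖c k‖ ^ 2) {r : ℝ} (h0 : 0 ≤ r) (h1 : r < 1) :
    ∫ t, ‖PS c (r * E t)‖ ^ 2 ∂nu ≤ 4 * Real.pi * ∑' k, ‖c k‖ ^ 2 := by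
  have hpi := Real.pi_pos
  set ψ : ℕ → ℝ := fun N => ∑' k, ‖cr c r (k + N)‖ with hψ
  have hψt : Tendsto ψ atTop (𝓝 0) := tendsto_sum_nat_add fun k => ‖cr c r k‖
  have hPm : MemLp (fun t : ℝ => PS c (r * E t)) 2 nu := memLp_of_cont (continuous_PS hc h0 h1) (PS_periodic c r)
  have hb : ∀ N, ∫ t, ‖PS c (r * E t)‖ ^ 2 ∂nu ≤ 2 * (ψ N ^ 2 * (2 * Real.pi)) + 2 * (2 * Real.pi * ∑' k, ‖c k‖ ^ 2) := by
    intro N
    have i1 : Integrable (fun t => ‖PS c (r * E t)‖ ^ 2) nu := hPm.integrable_norm_pow (by norm_num)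
    have i2 : Integrable (fun t => ‖SN (cr c r) N t‖ ^ 2) nu := (memLp_SN (cr c r) N).integrable_norm_pow (by norm_num)
    have e3 : ∫ t, ‖SN (cr c r) N t‖ ^ 2 ∂nu ≤ 2 * Real.pi * ∑' k, ‖c k‖ ^ 2 := by
      unfold SN
      rw [← int_eq, parseval]
      apply mul_le_mul_of_nonneg_left _ (by positivity)
      refine le_trans ?_ (hc.sum_le_tsum (Finset.range N) fun k _ => sq_nonneg _)
      apply Finset.sum_le_sum
      intro k _
      apply pow_le_pow_left₀ (norm_nonneg _)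
      unfold cr
      rw [norm_mul, norm_pow, Complex.norm_real, Real.norm_of_nonneg h0]
      have : r ^ k ≤ 1 := pow_le_one₀ h0 h1.le
      nlinarith [norm_nonneg (c k)]
    calc ∫ t, ‖PS c (r * E t)‖ ^ 2 ∂nu ≤ ∫ t, (2 * ψ N ^ 2 + 2 * ‖SN (cr c r) N t‖ ^ 2) ∂nu := by
          apply integral_mono i1 ((integrable_const _).add (i2.const_mul 2))
          intro t
          simp only [Pi.add_apply]
          have h2 : PS c (r * E t) = (PS c (r * E t) - SN (cr c r) N t) + SN (cr c r) N t := by ring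
          rw [h2]
          refine (norm_add_sq_le' _ _).trans ?_
          have h3 := PS_sub_le hc h0 h1 N t
          have h4 : ‖PS c (r * E t) - SN (cr c r) N t‖ ^ 2 ≤ ψ N ^ 2 := pow_le_pow_left₀ (norm_nonneg _) h3 2
          linarith
      _ = 2 * (ψ N ^ 2 * (2 * Real.pi)) + 2 * ∫ t, ‖SN (cr c r) N t‖ ^ 2 ∂nu := by
          rw [integral_add (integrable_const _) (i2.const_mul 2), integral_const, integral_const_mul]
          have : nu.real univ = 2 * Real.pi := by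
            unfold nu
            rw [Measure.real, Measure.restrict_apply_univ, Real.volume_Ioc, sub_zero, ENNReal.toReal_ofReal (by positivity)]
          rw [this, smul_eq_mul]
          ring
      _ ≤ _ := by linarith
  have hlim2 : Tendsto (fun N => 2 * (ψ N ^ 2 * (2 * Real.pi)) + 2 * (2 * Real.pi * ∑' k, ‖c k‖ ^ 2)) atTop
      (𝓝 (2 * (0 ^ 2 * (2 * Real.pi)) + 2 * (2 * Real.pi * ∑' k, ‖c k‖ ^ 2))) :=
    (((hψt.pow 2).mul_const _).const_mul 2).add_const _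
  have := ge_of_tendsto' hlim2 hb
  refine this.trans (le_of_eq ?_)
  ring

/-- the power series is analytic in the disc -/
theorem differentiable_PS {c : ℕ → ℂ} (hc : Summable fun k => ‖c k‖ ^ 2) : DifferentiableOn ℂ (PS c) (Metric.ball 0 1) := by
  obtain ⟨B, hB0, hB⟩ := bdd_of_summable hc
  intro z hz
  rw [Metric.mem_ball, dist_zero_right] at hz
  obtain ⟨r, hr1, hr2⟩ := exists_between hz
  have hr0 : 0 ≤ r := (norm_nonneg z).trans hr1.le
  have h1 : DifferentiableOn ℂ (PS c) (Metric.ball 0 r) := by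
    unfold PS
    apply Complex.differentiableOn_tsum_of_summable_norm (u := fun k => B * r ^ k)
    · exact (summable_geometric_of_lt_one hr0 hr2).mul_left B
    · intro k
      fun_prop
    · exact Metric.isOpen_ball
    · intro k w hw
      rw [Metric.mem_ball, dist_zero_right] at hw
      rw [norm_mul, norm_pow]
      exact mul_le_mul (hB k) (pow_le_pow_left₀ (norm_nonneg _) hw.le k) (by positivity) hB0
  exact (h1.differentiableAt (Metric.isOpen_ball.mem_nhds (by rwa [Metric.mem_ball, dist_zero_right]))).differentiableWithinAt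

end Pool.Agent.Helper26.Bmoa.RF
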