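import Mathlib
import Pool.Graph.R_seed8.Helper34.Bmo.JN
import Pool.Agent.Helper26.Bmoa.RF
import Pool.Agent.Helper26.Bmoa.Det3

set_option autoImplicit false

/-!
Deterministic part of the necessity: bounded mean oscillation controls the test functionals.
-/

namespace Pool.Agent.Helper26.Bmoa.Nec

open MeasureTheory Set Filter Topology Det RF
open scoped ENNReal NNReal

lemma sq_int_periodic {h : ℝ → ℝ} (hp : Function.Periodic h (2 * Real.pi)) (hi : Integrable h nu) :
    ∀ a b : ℝ, IntervalIntegrable h volume a b := by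
  have h1 : IntervalIntegrable h volume 0 (0 + 2 * Real.pi) := by
    rw [zero_add, intervalIntegrable_iff_integrableOn_Ioc_of_le Real.two_pi_pos.le]
    exact hi
  exact fun a b => hp.intervalIntegrable Real.two_pi_pos.ne' h1 a b

lemma int_le_period {h : ℝ → ℝ} (hp : Function.Periodic h (2 * Real.pi)) (hi : Integrable h nu) (h0 : ∀ t, 0 ≤ h t)
    {a b : ℝ} (hab2 : b - a ≤ 2 * Real.pi) : ∫ t in a..b, h t ≤ ∫ t, h t ∂nu := by
  have hI := sq_int_periodic hp hi
  have h1 : ∫ t in a..(a + 2 * Real.pi), h t = ∫ t, h t ∂nu := by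
    have := hp.intervalIntegral_add_eq a 0
    rw [zero_add] at this
    rw [this, int_eq]
  rw [← h1, ← intervalIntegral.integral_add_adjacent_intervals (hI a b) (hI b (a + 2 * Real.pi))]
  have h2 : 0 ≤ ∫ t in b..(a + 2 * Real.pi), h t := intervalIntegral.integral_nonneg (by linarith) fun t _ => h0 t
  linarith

lemma li_of_memLp {g : ℝ → ℂ} (hp : Function.Periodic g (2 * Real.pi)) (hg : MemLp g 2 nu) :
    Pool.Agent.Helper34.Bmo.LI g := by
  have h1 : Integrable g nu := hg.integrable (by norm_num)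
  have h2 : IntervalIntegrable g volume 0 (0 + 2 * Real.pi) := by
    rw [zero_add, intervalIntegrable_iff_integrableOn_Ioc_of_le Real.two_pi_pos.le]
    exact h1
  exact fun a b => hp.intervalIntegrable Real.two_pi_pos.ne' h2 a b

/-- the mean over an interval -/
noncomputable def mean (g : ℝ → ℂ) (a b : ℝ) : ℂ := (((b - a)⁻¹ : ℝ) : ℂ) * ∫ t in a..b, g t

/-- bounded mean oscillation with constant `m` -/
def Osc (g : ℝ → ℂ) (m : ℝ) : Prop := ∀ a b : ℝ, a < b → b - a ≤ 2 * Real.pi →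
  ∫ t in a..b, ‖g t - mean g a b‖ ≤ m * (b - a)

theorem functional_bound (c : ℕ → ℂ) {g : ℝ → ℂ} (hp : Function.Periodic g (2 * Real.pi))
    (hg : MemLp g 2 nu) (hlim : Tendsto (fun N => ∫ t, ‖SN c N t - g t‖ ^ 2 ∂nu) atTop (𝓝 0))
    {m : ℝ} (hm : 1 ≤ m) (hosc : Osc g m) (n : ℕ) (hn : 1 ≤ n) (J : ℕ) (p : ℕ → ℝ)
    (hpp : ∑ j ∈ Finset.Ico 1 J, p j ^ 2 ≤ 4) :
    ∀ᶠ N in atTop, ∀ θ : ℝ, ‖∑ k ∈ Finset.range N, c k * ((lam n J p k : ℂ) * E (k * θ))‖ ≤ 56 * m := by
  have hL := Ln_pos n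
  have hL2 : 2 * Ln n ≤ 2 * Real.pi := by
    unfold Ln
    have h1 : (2:ℝ) ≤ 2 ^ n := by
      calc (2:ℝ) = 2 ^ 1 := by norm_num
        _ ≤ 2 ^ n := pow_le_pow_right₀ (by norm_num) hn
    rw [← mul_div_assoc, div_le_iff₀ (by positivity)]
    have := Real.pi_pos
    nlinarith
  have h1 : ∀ᶠ N in atTop, ∫ t, ‖SN c N t - g t‖ ^ 2 ∂nu < 2 * Ln n := hlim.eventually (gt_mem_nhds (by positivity))
  filter_upwards [h1] with N hN θ
  rw [← Tg_sum]
  have hB : (0:ℝ) < 14 * m := by linarith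
  have hLI := li_of_memLp hp hg
  have hθ : θ - Ln n < θ + Ln n := by linarith
  have hlen : (θ + Ln n) - (θ - Ln n) = 2 * Ln n := by ring
  obtain ⟨j1, j2⟩ := Pool.Agent.Helper34.Bmo.jn_l2 hLI (a := θ - Ln n) (b := θ + Ln n) (m := m) hθ (by linarith)
    (fun c' d h1 h2 h3 => hosc c' d h2 (by linarith))
  set κ := Pool.Agent.Helper34.Bmo.mean g (θ - Ln n) (θ + Ln n) with hκ
  have key : ∫ t in (θ - Ln n)..(θ + Ln n), ‖SN c N t - κ‖ ^ 2 ≤ (14 * m) ^ 2 * (2 * Ln n) := by
    have hper : Function.Periodic (fun t => ‖SN c N t - g t‖ ^ 2) (2 * Real.pi) := by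
      intro t
      simp only
      rw [hp t, SN_periodic c N t]
    have hint : Integrable (fun t => ‖SN c N t - g t‖ ^ 2) nu := ((memLp_SN c N).sub hg).integrable_norm_pow (by norm_num)
    have i1 := sq_int_periodic hper hint (θ - Ln n) (θ + Ln n)
    have h2 := int_le_period hper hint (fun t => sq_nonneg _) (by rw [hlen]; exact hL2)
    have i2 : IntervalIntegrable (fun t => ‖SN c N t - κ‖ ^ 2) volume (θ - Ln n) (θ + Ln n) := by
      have : Continuous (fun t => ‖SN c N t - κ‖ ^ 2) := ((continuous_SN c N).sub continuous_const).norm.pow 2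
      exact this.intervalIntegrable _ _
    have i3 : IntervalIntegrable (fun t => 2 * ‖SN c N t - g t‖ ^ 2 + 2 * ‖g t - κ‖ ^ 2) volume (θ - Ln n) (θ + Ln n) :=
      (i1.const_mul 2).add (j1.const_mul 2)
    calc _ ≤ ∫ t in (θ - Ln n)..(θ + Ln n), (2 * ‖SN c N t - g t‖ ^ 2 + 2 * ‖g t - κ‖ ^ 2) := by
          apply intervalIntegral.integral_mono_on hθ.le i2 i3
          intro t _
          have h3 : SN c N t - κ = (SN c N t - g t) + (g t - κ) := by ring
          rw [h3]
          exact norm_add_sq_le' _ _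
      _ = 2 * (∫ t in (θ - Ln n)..(θ + Ln n), ‖SN c N t - g t‖ ^ 2) + 2 * ∫ t in (θ - Ln n)..(θ + Ln n), ‖g t - κ‖ ^ 2 := by
          rw [intervalIntegral.integral_add (i1.const_mul 2) (j1.const_mul 2), intervalIntegral.integral_const_mul,
            intervalIntegral.integral_const_mul]
      _ ≤ 2 * (2 * Ln n) + 2 * (96 * m ^ 2 * (2 * Ln n)) := by
          rw [hlen] at j2
          linarith
      _ ≤ _ := by
          have : 1 ≤ m ^ 2 := by nlinarith
          nlinarith
  have := Tg_bound n J p hpp (SN c N) (continuous_SN c N) θ κ (14 * m) hB key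
  calc _ = ‖Tg n J p (SN c N) θ‖ := rfl
    _ ≤ _ := this
    _ = _ := by ring

end Pool.Agent.Helper26.Bmoa.Nec
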