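import Mathlib
import Pool.Agent.Helper26.Bmoa.Nec1
import Pool.Agent.Helper26.Bmoa.LB3
import Pool.Agent.Helper26.Bmoa.EfronStein
import Pool.Agent.Helper26.Bmoa.Circle

set_option autoImplicit false

/-!
Probabilistic part of the necessity.
-/

namespace Pool.Agent.Helper26.Bmoa.Nec

open MeasureTheory ProbabilityTheory Set Filter Topology Det RF Circ
open scoped ENNReal NNReal

lemma NF_sub_le {N : ℕ} (F : Finset T) (hF : F.Nonempty) (u v : Fin N → ℂ) :
    |NF (ck N) F hF u - NF (ck N) F hF v| ≤ ∑ i, ‖u i - v i‖ := by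
  have h1 : ∀ u v : Fin N → ℂ, NF (ck N) F hF u ≤ NF (ck N) F hF v + ∑ i, ‖u i - v i‖ := by
    intro u v
    have h2 := NF_add_le (ck N) F hF v (fun i => u i - v i)
    have h3 : (fun i => v i + (u i - v i)) = u := by ext i; ring
    rw [h3] at h2
    have h4 := NF_le (isCharSys N) F hF (fun i => u i - v i)
    linarith
  rw [abs_le]
  have h2 := h1 u v
  have h3 := h1 v u
  have h4 : ∑ i, ‖v i - u i‖ = ∑ i, ‖u i - v i‖ := by
    apply Finset.sum_congr rfl
    intro i _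
    exact norm_sub_rev _ _
  rw [h4] at h3
  constructor <;> linarith

/-- concentration: the mean is controlled by any quantile -/
lemma ES_bound (N : ℕ) (b : Fin N → ℂ) (F : Finset T) (hF : F.Nonempty) (R c : ℝ) (hc : 0 < c)
    (h : ENNReal.ofReal c ≤ phases (Fin N) {x | NF (ck N) F hF (fun i => b i * ph x i) ≤ R}) :
    ES (ck N) b F hF ≤ 2 * R + 4 * √(∑ i, ‖b i‖ ^ 2) / √c := by
  set f : (Fin N → ℝ) → ℝ := fun x => NF (ck N) F hF (fun i => b i * ph x i) with hf
  set M := ES (ck N) b F hF with hM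
  have hMf : M = ∫ x, f x ∂(phases (Fin N)) := ES_eq _ _ _ _
  have hfc : Continuous f := by
    apply (continuous_NF (ck N) F hF).comp
    unfold ph
    fun_prop
  have hfm : StronglyMeasurable f := hfc.stronglyMeasurable
  have hfB : ∀ x, |f x| ≤ ∑ i, ‖b i‖ := by
    intro x
    rw [abs_of_nonneg (NF_nonneg _ _ _ _)]
    refine (NF_le (isCharSys N) F hF _).trans (le_of_eq ?_)
    apply Finset.sum_congr rfl
    intro i _
    rw [norm_mul, norm_ph, mul_one]
  have hfd : ∀ i x y, (∀ j, j ≠ i → x j = y j) → |f x - f y| ≤ 2 * ‖b i‖ := by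
    intro i x y hxy
    refine (NF_sub_le F hF _ _).trans ?_
    rw [Finset.sum_eq_single i]
    · rw [← mul_sub, norm_mul, mul_comm]
      apply mul_le_mul_of_nonneg_right _ (norm_nonneg _)
      refine (norm_sub_le _ _).trans ?_
      rw [norm_ph, norm_ph]
      norm_num
    · intro j _ hj
      unfold ph
      rw [hxy j hj, sub_self, norm_zero]
    · intro hh
      exact absurd (Finset.mem_univ i) hh
  have hES := efron_stein phase N f hfm _ hfB (fun i => 2 * ‖b i‖) hfd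
  have hpp : (Measure.pi fun _ : Fin N => phase) = phases (Fin N) := rfl
  rw [hpp, ← hMf] at hES
  have hM0 : 0 ≤ M := ES_nonneg _ _ _
  have hb0 : 0 ≤ √(∑ i, ‖b i‖ ^ 2) := Real.sqrt_nonneg _
  by_cases hMR : M ≤ 2 * R
  · have : 0 ≤ 4 * √(∑ i, ‖b i‖ ^ 2) / √c := by positivity
    linarith
  push Not at hMR
  have hi1 : Integrable f (phases (Fin N)) := by
    have := integrable_NF (isCharSys N) F hF b
    exact this
  have hi2 : Integrable (fun x => f x ^ 2) (phases (Fin N)) := int_sq_of_bdd hfm hfB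
  have hvar : Integrable (fun x => (f x - M) ^ 2) (phases (Fin N)) := by
    have : (fun x => (f x - M) ^ 2) = fun x => f x ^ 2 - 2 * M * f x + M ^ 2 := by ext x; ring
    rw [this]
    exact (hi2.sub (hi1.const_mul _)).add (integrable_const _)
  have hvarE : ∫ x, (f x - M) ^ 2 ∂(phases (Fin N)) ≤ 4 * ∑ i, ‖b i‖ ^ 2 := by
    have e : (fun x => (f x - M) ^ 2) = fun x => f x ^ 2 - 2 * M * f x + M ^ 2 := by ext x; ring
    have i3 : Integrable (fun x => f x ^ 2 - 2 * M * f x) (phases (Fin N)) := hi2.sub (hi1.const_mul _)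
    rw [e, integral_add i3 (integrable_const _), integral_sub hi2 (hi1.const_mul _), integral_const_mul, ← hMf]
    simp only [integral_const, probReal_univ, one_smul]
    have e2 : ∑ i, (2 * ‖b i‖) ^ 2 = 4 * ∑ i, ‖b i‖ ^ 2 := by
      rw [Finset.mul_sum]
      apply Finset.sum_congr rfl
      intro i _
      ring
    rw [e2] at hES
    nlinarith
  have hmk := mul_meas_ge_le_integral_of_nonneg (μ := phases (Fin N)) (f := fun x => (f x - M) ^ 2)
    (Eventually.of_forall fun x => sq_nonneg _) hvar ((M / 2) ^ 2)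
  have hsub : {x | f x ≤ R} ⊆ {x | (M / 2) ^ 2 ≤ (f x - M) ^ 2} := by
    intro x hx
    have hx' : f x ≤ R := hx
    change (M / 2) ^ 2 ≤ (f x - M) ^ 2
    nlinarith
  have hcl : c ≤ (phases (Fin N)).real {x | (M / 2) ^ 2 ≤ (f x - M) ^ 2} := by
    have h1 := h.trans (measure_mono hsub)
    have h2 := ENNReal.toReal_mono (measure_ne_top _ _) h1
    rwa [ENNReal.toReal_ofReal hc.le] at h2
  have h5 : c * (M / 2) ^ 2 ≤ 4 * ∑ i, ‖b i‖ ^ 2 := by
    calc c * (M / 2) ^ 2 = (M / 2) ^ 2 * c := by ring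
      _ ≤ (M / 2) ^ 2 * (phases (Fin N)).real {x | (M / 2) ^ 2 ≤ (f x - M) ^ 2} :=
          mul_le_mul_of_nonneg_left hcl (sq_nonneg _)
      _ ≤ _ := hmk
      _ ≤ _ := hvarE
  have h6 : M ≤ 4 * √(∑ i, ‖b i‖ ^ 2) / √c := by
    rw [le_div_iff₀ (Real.sqrt_pos.2 hc)]
    apply le_of_sq_le_sq _ (by positivity)
    rw [mul_pow, mul_pow, Real.sq_sqrt hc.le, Real.sq_sqrt (Finset.sum_nonneg fun i _ => sq_nonneg _)]
    nlinarith
  have hR2 : M ≤ 2 * R + 4 * √(∑ i, ‖b i‖ ^ 2) / √c ∨ R < 0 := by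
    by_cases hR : 0 ≤ R
    · left; linarith
    · right; exact not_le.1 hR
  rcases hR2 with h7 | h7
  · exact h7
  · -- impossible, as `f` is nonnegative
    exfalso
    have : {x | f x ≤ R} = ∅ := by
      ext x
      simp only [Set.mem_ofPred_eq, Set.mem_empty_iff_false, iff_false, not_le]
      exact lt_of_lt_of_le h7 (NF_nonneg _ _ _ _)
    rw [this, measure_empty] at h
    exact absurd h (not_le.2 (ENNReal.ofReal_pos.2 hc))

/-- the random coefficients -/
noncomputable def cc {Ω : Type*} (a : ℕ → ℂ) (α : ℕ → Ω → ℝ) (ω : Ω) (k : ℕ) : ℂ :=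
  a k * Complex.exp (Complex.I * α k ω)

/-- the event of a boundary function with oscillation at most `m` -/
def AA {Ω : Type*} (a : ℕ → ℂ) (α : ℕ → Ω → ℝ) (m : ℕ) : Set Ω :=
  {ω | ∃ g : ℝ → ℂ, Function.Periodic g (2 * Real.pi) ∧ MemLp g 2 nu ∧
    Tendsto (fun N => ∫ t, ‖SN (cc a α ω) N t - g t‖ ^ 2 ∂nu) atTop (𝓝 0) ∧ Osc g m}

theorem nec_mult (a : ℕ → ℂ) (ha : Summable fun k => ‖a k‖ ^ 2) {Ω : Type*} [MeasurableSpace Ω] (P : Measure Ω)
    [IsProbabilityMeasure P] (α : ℕ → Ω → ℝ) (hα : ∀ k, Measurable (α k))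
    (hlaw : ∀ N, P.map (fun ω (i : Fin N) => α i ω) = phases (Fin N)) (m : ℕ) (hm : 1 ≤ m) (hA : P (AA a α m) ≠ 0) :
    ∃ K : ℝ, ∀ n : ℕ, 1 ≤ n → ∀ (J : ℕ) (p : ℕ → ℝ), ∑ j ∈ Finset.Ico 1 J, p j ^ 2 ≤ 4 →
      ∀ᶠ N in atTop, ∀ Q : ℕ, ∑ r ∈ Finset.range Q, √(2 ^ r) * rad Circ.hm (ck N) (fun k => ‖(lam n J p k : ℂ) * a k‖) r ≤ K := by
  obtain ⟨C, hC0, hC⟩ := lower_bound
  set c : ℝ := (P (AA a α m) / 2).toReal with hc
  have hPne : P (AA a α m) / 2 ≠ ∞ := (ENNReal.div_lt_top (measure_ne_top _ _) (by norm_num)).ne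
  have hc0 : 0 < c := by
    rw [hc, ENNReal.toReal_pos_iff]
    exact ⟨ENNReal.div_pos hA (by norm_num), lt_of_le_of_ne le_top hPne⟩
  set A := √(∑' k, ‖a k‖ ^ 2) with hA'
  have hA0 : 0 ≤ A := Real.sqrt_nonneg _
  refine ⟨C * (2 * (56 * m) + 4 * (4 * A) / √c + 4 * A), ?_⟩
  intro n hn J p hp
  -- the increasing events
  set B : ℕ → Set Ω := fun N => {ω | ∀ N', N ≤ N' → ∀ θ : ℝ,
    ‖∑ k ∈ Finset.range N', cc a α ω k * ((lam n J p k : ℂ) * E (k * θ))‖ ≤ 56 * m} with hB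
  have hBmono : Monotone B := by
    intro N₁ N₂ h12 ω hω N' hN'
    exact hω N' (h12.trans hN')
  have hAB : AA a α m ⊆ ⋃ N, B N := by
    intro ω hω
    obtain ⟨g, hg1, hg2, hg3, hg4⟩ := hω
    have h1 := functional_bound (cc a α ω) hg1 hg2 hg3 (m := (m : ℝ)) (by exact_mod_cast hm) hg4 n hn J p hp
    obtain ⟨N, hN⟩ := eventually_atTop.1 h1
    exact mem_iUnion.2 ⟨N, fun N' hN' => hN N' hN'⟩
  have hlim : Tendsto (fun N => P (B N)) atTop (𝓝 (P (⋃ N, B N))) := tendsto_measure_iUnion_atTop hBmono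
  have hpos : P (AA a α m) / 2 < P (⋃ N, B N) :=
    lt_of_lt_of_le (ENNReal.half_lt_self hA (measure_ne_top _ _)) (measure_mono hAB)
  filter_upwards [hlim.eventually (lt_mem_nhds hpos)] with N hN
  set b : Fin N → ℂ := fun k => (lam n J p k : ℂ) * a k with hb
  -- norm of the coefficients
  have hbn : √(∑ k, ‖b k‖ ^ 2) ≤ 4 * A := by
    have h1 : ∑ k : Fin N, ‖b k‖ ^ 2 ≤ 16 * ∑' k, ‖a k‖ ^ 2 := by
      have h2 : ∀ k : Fin N, ‖b k‖ ^ 2 ≤ 16 * ‖a k‖ ^ 2 := by
        intro k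
        simp only [hb]
        rw [norm_mul, mul_pow, Complex.norm_real, Real.norm_eq_abs]
        have h3 := lam_le n J p hp k
        have h4 : |lam n J p k| ^ 2 ≤ 4 ^ 2 := pow_le_pow_left₀ (abs_nonneg _) h3 2
        have h5 : (0:ℝ) ≤ ‖a k‖ ^ 2 := sq_nonneg _
        nlinarith
      calc _ ≤ ∑ k : Fin N, 16 * ‖a k‖ ^ 2 := Finset.sum_le_sum fun k _ => h2 k
        _ = 16 * ∑ k : Fin N, ‖a k‖ ^ 2 := by rw [Finset.mul_sum]
        _ = 16 * ∑ k ∈ Finset.range N, ‖a k‖ ^ 2 := by rw [Fin.sum_univ_eq_sum_range (fun k => ‖a k‖ ^ 2)]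
        _ ≤ _ := mul_le_mul_of_nonneg_left (ha.sum_le_tsum _ fun k _ => sq_nonneg _) (by norm_num)
    rw [Real.sqrt_le_left (by positivity), mul_pow, hA', Real.sq_sqrt (tsum_nonneg fun k => sq_nonneg _)]
    linarith
  -- the lower bound
  obtain ⟨F, hF, hFP⟩ := hC T (Fin N) Circ.hm (ck N) (isCharSys N) (fun k => ‖b k‖) _ (fun Q => rad_sum_bdd N _ Q)
  intro Q
  refine (hFP Q).trans ?_
  apply mul_le_mul_of_nonneg_left _ hC0.le
  -- rotation
  have hrot : ES (ck N) (fun k => ((‖b k‖ : ℝ) : ℂ)) F hF = ES (ck N) b F hF := by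
    obtain ⟨u, hu, hwu⟩ : ∃ u : Fin N → ℂ, (∀ i, ‖u i‖ = 1) ∧ ∀ i, b i = u i * (‖b i‖ : ℂ) := by
      refine ⟨fun i => if b i = 0 then 1 else b i / ‖b i‖, ?_, ?_⟩
      · intro i
        simp only
        split_ifs with h0
        · simp
        · rw [norm_div, Complex.norm_real, norm_norm, div_self (norm_ne_zero_iff.2 h0)]
      · intro i
        simp only
        split_ifs with h0
        · simp [h0]
        · have : (‖b i‖ : ℂ) ≠ 0 := by exact_mod_cast norm_ne_zero_iff.2 h0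
          field_simp
    rw [← ES_rot (χ := ck N) (fun i => (‖b i‖ : ℂ)) F hF u hu]
    congr 1
    ext i
    exact (hwu i).symm
  rw [hrot]
  have hmeas : Measurable (fun ω (i : Fin N) => α i ω) := measurable_pi_lambda _ fun i => hα _
  have hquant : ENNReal.ofReal c ≤ phases (Fin N) {x | NF (ck N) F hF (fun i => b i * ph x i) ≤ 56 * m} := by
    rw [← hlaw N, Measure.map_apply hmeas]
    · rw [hc, ENNReal.ofReal_toReal hPne]
      refine hN.le.trans (measure_mono ?_)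
      intro ω hω
      change NF (ck N) F hF (fun i => b i * ph (fun i : Fin N => α i ω) i) ≤ 56 * m
      unfold NF
      apply Finset.sup'_le
      intro x _
      obtain ⟨θ, rfl⟩ := QuotientAddGroup.mk_surjective x
      have h1 := hω N le_rfl θ
      have h2 : ∑ i, b i * ph (fun i : Fin N => α i ω) i * ck N i (θ : T) =
          ∑ k ∈ Finset.range N, cc a α ω k * ((lam n J p k : ℂ) * E (k * θ)) := by
        rw [← Fin.sum_univ_eq_sum_range (fun k => cc a α ω k * ((lam n J p k : ℂ) * E (k * θ)))]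
        apply Finset.sum_congr rfl
        intro i _
        rw [ck_coe]
        simp only [hb, cc, ph]
        ring
      exact (congrArg norm h2).trans_le h1
    · apply measurableSet_le _ measurable_const
      apply Continuous.measurable
      apply (continuous_NF (ck N) F hF).comp
      unfold ph
      fun_prop
  have h1 := ES_bound N b F hF (56 * m) c hc0 hquant
  have h2 : 4 * √(∑ k, ‖b k‖ ^ 2) / √c ≤ 4 * (4 * A) / √c := by gcongr
  have h3 : √(∑ i, (fun k => ‖b k‖) i ^ 2) = √(∑ k, ‖b k‖ ^ 2) := rfl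
  linarith

end Pool.Agent.Helper26.Bmoa.Nec
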