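import Mathlib
import Pool.Agent.Helper26.Bmoa.Nec2

set_option autoImplicit false

/-!
The statement level definitions and their relation to the internal ones.
-/

namespace Pool.Agent.Helper26.Bmoa.Stmt

open MeasureTheory ProbabilityTheory Set Filter Topology
open scoped ENNReal

/-- the mean of `g` over `[a, b]` -/
noncomputable def mean (g : ℝ → ℂ) (a b : ℝ) : ℂ := (((b - a)⁻¹ : ℝ) : ℂ) * ∫ t in a..b, g t

/-- `g` has bounded mean oscillation over the arcs of the circle -/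
def IsBMO (g : ℝ → ℂ) : Prop := ∃ C : ℝ, ∀ a b : ℝ, a < b → b - a ≤ 2 * Real.pi →
  (b - a)⁻¹ * ∫ t in a..b, ‖g t - mean g a b‖ ≤ C

/-- `F` is in the Hardy space `H²` and its boundary function has bounded mean oscillation -/
structure InBMOA (F : ℂ → ℂ) : Prop where
  analytic : DifferentiableOn ℂ F (Metric.ball 0 1)
  hardy : ∃ M : ℝ, ∀ r : ℝ, 0 ≤ r → r < 1 →
    ∫ t in (0:ℝ)..(2 * Real.pi), ‖F (r * Complex.exp (Complex.I * t))‖ ^ 2 ≤ M
  boundary : ∃ g : ℝ → ℂ, Function.Periodic g (2 * Real.pi) ∧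
    MemLp g 2 (volume.restrict (Set.Ioc 0 (2 * Real.pi))) ∧
    Tendsto (fun r : ℝ => ∫ t in (0:ℝ)..(2 * Real.pi), ‖F (r * Complex.exp (Complex.I * t)) - g t‖ ^ 2)
      (𝓝[<] 1) (𝓝 0) ∧ IsBMO g

/-- the squared distance of the translation invariant metric -/
noncomputable def dist2 (μ : ℕ → ℝ) (t : ℝ) : ℝ := ∑' k : ℕ, μ k * ‖Complex.exp (Complex.I * (k * t)) - 1‖ ^ 2

/-- the radius of the ball of normalised measure `2 ^ (-2 ^ p)` -/
noncomputable def radius (μ : ℕ → ℝ) (p : ℕ) : ℝ :=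
  sInf {ε : ℝ | 0 ≤ ε ∧ ENNReal.ofReal (2 * Real.pi * (1 / 2) ^ (2 ^ p)) ≤
    volume {t : ℝ | t ∈ Set.Icc 0 (2 * Real.pi) ∧ dist2 μ t ≤ ε ^ 2}}

/-- the condition -/
def Cond (a : ℕ → ℂ) : Prop := ∃ K : ℝ, ∀ (n : ℕ) (q : ℕ → ℝ), (∀ j, 0 ≤ q j) → q 0 = 0 → Summable q →
  ∑' j, q j ≤ 1 → ∀ P : ℕ, ∑ p ∈ Finset.range P, √(2 ^ p) * radius (fun k => q (k / 2 ^ n) * ‖a k‖ ^ 2) p ≤ K

open Det Circ

lemma exp_eq (k : ℕ) (t : ℝ) : Complex.exp (Complex.I * (k * t)) = E (k * t) := by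
  unfold E; congr 1; push_cast; ring

/-- finitely supported measures -/
lemma dist2_fin (μ : ℕ → ℝ) (h0 : ∀ k, 0 ≤ μ k) (N : ℕ) (hN : ∀ k, N ≤ k → μ k = 0) (t : ℝ) :
    dist2 μ t = dl N (fun k => √(μ k)) t := by
  unfold dist2 dl
  rw [tsum_eq_sum (s := Finset.range N)]
  · rw [← Fin.sum_univ_eq_sum_range (fun k => μ k * ‖Complex.exp (Complex.I * (k * t)) - 1‖ ^ 2)]
    apply Finset.sum_congr rfl
    intro k _
    rw [Real.sq_sqrt (h0 _), exp_eq]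
  · intro k hk
    rw [Finset.mem_range, not_lt] at hk
    rw [hN k hk, zero_mul]

lemma radius_fin (μ : ℕ → ℝ) (h0 : ∀ k, 0 ≤ μ k) (N : ℕ) (hN : ∀ k, N ≤ k → μ k = 0) (p : ℕ) :
    radius μ p = rad Circ.hm (ck N) (fun k => √(μ k)) p := by
  unfold radius rad
  congr 1
  ext ε
  simp only [Set.mem_ofPred_eq, hm_ball]
  apply and_congr_right
  intro _
  have h1 : {t : ℝ | t ∈ Set.Icc 0 (2 * Real.pi) ∧ dist2 μ t ≤ ε ^ 2} =
      {t : ℝ | t ∈ Set.Icc 0 (2 * Real.pi) ∧ dl N (fun k => √(μ k)) t ≤ ε ^ 2} := by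
    ext t
    simp only [Set.mem_ofPred_eq]
    rw [dist2_fin μ h0 N hN]
  rw [h1, ENNReal.ofReal_mul (by positivity)]
  have h2 : ENNReal.ofReal (2 * Real.pi) ≠ 0 := by simp [Real.pi_pos]
  have h3 := ENNReal.ofReal_ne_top (r := 2 * Real.pi)
  set V := volume {t : ℝ | t ∈ Set.Icc 0 (2 * Real.pi) ∧ dl N (fun k => √(μ k)) t ≤ ε ^ 2}
  constructor
  · intro h
    calc ENNReal.ofReal ((1 / 2) ^ (2 ^ p)) = (ENNReal.ofReal (2 * Real.pi))⁻¹ * (ENNReal.ofReal (2 * Real.pi) * ENNReal.ofReal ((1 / 2) ^ (2 ^ p))) := by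
          rw [← mul_assoc, ENNReal.inv_mul_cancel h2 h3, one_mul]
      _ ≤ _ := by gcongr
  · intro h
    calc ENNReal.ofReal (2 * Real.pi) * ENNReal.ofReal ((1 / 2) ^ (2 ^ p)) ≤
          ENNReal.ofReal (2 * Real.pi) * ((ENNReal.ofReal (2 * Real.pi))⁻¹ * V) := by gcongr
      _ = V := by rw [← mul_assoc, ENNReal.mul_inv_cancel h2 h3, one_mul]

/-- the defining set is nonempty -/
lemma dist2_le (μ : ℕ → ℝ) (h0 : ∀ k, 0 ≤ μ k) (hs : Summable μ) (t : ℝ) : dist2 μ t ≤ 4 * ∑' k, μ k := by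
  unfold dist2
  rw [← tsum_mul_left]
  have hle : ∀ k : ℕ, μ k * ‖Complex.exp (Complex.I * (k * t)) - 1‖ ^ 2 ≤ 4 * μ k := by
    intro k
    rw [exp_eq]
    have h1 : ‖E (k * t) - 1‖ ≤ 2 := by
      refine (norm_sub_le _ _).trans ?_
      rw [norm_E, norm_one]; norm_num
    have h2 : ‖E (k * t) - 1‖ ^ 2 ≤ 2 ^ 2 := pow_le_pow_left₀ (norm_nonneg _) h1 2
    nlinarith [h0 k]
  apply Summable.tsum_le_tsum hle _ (hs.mul_left 4)
  exact Summable.of_nonneg_of_le (fun k => mul_nonneg (h0 k) (sq_nonneg _)) hle (hs.mul_left 4)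

lemma summable_dist2 (μ : ℕ → ℝ) (h0 : ∀ k, 0 ≤ μ k) (hs : Summable μ) (t : ℝ) :
    Summable fun k : ℕ => μ k * ‖Complex.exp (Complex.I * (k * t)) - 1‖ ^ 2 := by
  apply Summable.of_nonneg_of_le (fun k => mul_nonneg (h0 k) (sq_nonneg _)) _ (hs.mul_left 4)
  intro k
  rw [exp_eq]
  have h1 : ‖E (k * t) - 1‖ ≤ 2 := by
    refine (norm_sub_le _ _).trans ?_
    rw [norm_E, norm_one]; norm_num
  have h2 : ‖E (k * t) - 1‖ ^ 2 ≤ 2 ^ 2 := pow_le_pow_left₀ (norm_nonneg _) h1 2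
  nlinarith [h0 k]

/-- truncation of the measure changes the radii by little -/
lemma radius_le_add (μ : ℕ → ℝ) (h0 : ∀ k, 0 ≤ μ k) (hs : Summable μ) (N : ℕ) (p : ℕ) :
    radius μ p ≤ radius (fun k => if k < N then μ k else 0) p + 2 * √(∑' k, μ (k + N)) := by
  set μ' : ℕ → ℝ := fun k => if k < N then μ k else 0 with hμ'
  have h0' : ∀ k, 0 ≤ μ' k := by
    intro k; simp only [hμ']; split_ifs; exact h0 k; exact le_rfl
  have hN : ∀ k, N ≤ k → μ' k = 0 := by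
    intro k hk; simp only [hμ']; rw [if_neg (not_lt.2 hk)]
  set τ := ∑' k, μ (k + N) with hτ
  have hτ0 : 0 ≤ τ := tsum_nonneg fun k => h0 _
  rw [radius_fin μ' h0' N hN]
  set ρ := rad Circ.hm (ck N) (fun k => √(μ' k)) p with hρ
  have hρ0 : 0 ≤ ρ := rad_nonneg _ _ _ _
  apply csInf_le ⟨0, fun ε hε => hε.1⟩
  refine ⟨by positivity, ?_⟩
  have h1 := rad_spec (isCharSys N) (μ := Circ.hm) (fun k => √(μ' k)) p
  rw [hm_ball] at h1
  have h2 : ENNReal.ofReal (2 * Real.pi) ≠ 0 := by simp [Real.pi_pos]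
  have h3 := ENNReal.ofReal_ne_top (r := 2 * Real.pi)
  have h4 : ENNReal.ofReal (2 * Real.pi * (1 / 2) ^ (2 ^ p)) ≤
      volume {t : ℝ | t ∈ Set.Icc 0 (2 * Real.pi) ∧ dl N (fun k => √(μ' k)) t ≤ ρ ^ 2} := by
    rw [ENNReal.ofReal_mul (by positivity)]
    refine (mul_le_mul_right h1 (ENNReal.ofReal (2 * Real.pi))).trans ?_
    rw [← mul_assoc, ENNReal.mul_inv_cancel h2 h3, one_mul]
  refine h4.trans (measure_mono ?_)
  rintro t ⟨ht1, ht2⟩
  refine ⟨ht1, ?_⟩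
  rw [← dist2_fin μ' h0' N hN] at ht2
  -- dist2 μ = dist2 μ' + tail
  have h5 : dist2 μ t ≤ dist2 μ' t + 4 * τ := by
    have hs' := summable_dist2 μ h0 hs t
    unfold dist2
    rw [← hs'.sum_add_tsum_nat_add N]
    have e1 : ∑ k ∈ Finset.range N, μ k * ‖Complex.exp (Complex.I * (k * t)) - 1‖ ^ 2 =
        ∑' k : ℕ, μ' k * ‖Complex.exp (Complex.I * (k * t)) - 1‖ ^ 2 := by
      rw [tsum_eq_sum (s := Finset.range N)]
      · apply Finset.sum_congr rfl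
        intro k hk
        simp only [hμ']
        rw [if_pos (Finset.mem_range.1 hk)]
      · intro k hk
        rw [Finset.mem_range, not_lt] at hk
        rw [hN k hk, zero_mul]
    rw [e1]
    apply add_le_add le_rfl
    rw [hτ, ← tsum_mul_left]
    have hle : ∀ k : ℕ, μ (k + N) * ‖Complex.exp (Complex.I * ((k + N : ℕ) * t)) - 1‖ ^ 2 ≤ 4 * μ (k + N) := by
      intro k
      rw [exp_eq]
      have h1 : ‖E ((k + N : ℕ) * t) - 1‖ ≤ 2 := by
        refine (norm_sub_le _ _).trans ?_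
        rw [norm_E, norm_one]; norm_num
      have h2 : ‖E ((k + N : ℕ) * t) - 1‖ ^ 2 ≤ 2 ^ 2 := pow_le_pow_left₀ (norm_nonneg _) h1 2
      nlinarith [h0 (k + N)]
    have hsN : Summable fun k => μ (k + N) := (summable_nat_add_iff N).2 hs
    apply Summable.tsum_le_tsum hle _ (hsN.mul_left 4)
    exact Summable.of_nonneg_of_le (fun k => mul_nonneg (h0 _) (sq_nonneg _)) hle (hsN.mul_left 4)
  change dist2 μ t ≤ (ρ + 2 * √τ) ^ 2
  have h6 := Real.sq_sqrt hτ0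
  have h7 := Real.sqrt_nonneg τ
  nlinarith

end Pool.Agent.Helper26.Bmoa.Stmt
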