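import Mathlib
import Pool.Agent.Helper26.Bmoa.Stmt

set_option autoImplicit false

/-!
The necessity of the condition.
-/

namespace Pool.Agent.Helper26.Bmoa.Stmt

open MeasureTheory ProbabilityTheory Set Filter Topology Det RF Circ Nec
open scoped ENNReal NNReal

/-- the random power series -/
noncomputable def rps {Ω : Type*} (a : ℕ → ℂ) (α : ℕ → Ω → ℝ) (ω : Ω) (z : ℂ) : ℂ :=
  ∑' k, a k * Complex.exp (Complex.I * α k ω) * z ^ k

lemma summable_cc {Ω : Type*} {a : ℕ → ℂ} (ha : Summable fun k => ‖a k‖ ^ 2) (α : ℕ → Ω → ℝ) (ω : Ω) :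
    Summable fun k => ‖cc a α ω k‖ ^ 2 := by
  have : (fun k => ‖cc a α ω k‖ ^ 2) = fun k => ‖a k‖ ^ 2 := by
    ext k
    unfold cc
    rw [norm_mul, mul_comm Complex.I, Complex.norm_exp_ofReal_mul_I, mul_one]
  rw [this]
  exact ha

lemma mem_AA {Ω : Type*} {a : ℕ → ℂ} (ha : Summable fun k => ‖a k‖ ^ 2) (α : ℕ → Ω → ℝ) (ω : Ω)
    (h : InBMOA (rps a α ω)) : ∃ m : ℕ, ω ∈ AA a α (m + 1) := by
  obtain ⟨g, hg1, hg2, hg3, C, hC⟩ := h.boundary
  obtain ⟨m, hm⟩ := exists_nat_ge C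
  refine ⟨m, g, hg1, hg2, ?_, ?_⟩
  · apply partial_tendsto (summable_cc ha α ω) hg2
    have e : ∀ r : ℝ, ∫ t in (0:ℝ)..(2 * Real.pi), ‖rps a α ω (r * Complex.exp (Complex.I * t)) - g t‖ ^ 2 =
        ∫ t, ‖PS (cc a α ω) (r * E t) - g t‖ ^ 2 ∂nu := by
      intro r
      rw [int_eq]
      rfl
    simp_rw [e] at hg3
    exact hg3
  · intro s t hst hst2
    have h1 := hC s t hst hst2
    have h2 : 0 < t - s := by linarith
    rw [inv_mul_le_iff₀ h2] at h1
    have h3 : ∫ x in s..t, ‖g x - Nec.mean g s t‖ ≤ (t - s) * C := h1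
    refine h3.trans ?_
    push_cast
    nlinarith

/-- the case of the finitely supported weights -/
lemma nec_fin {a : ℕ → ℂ} (ha : Summable fun k => ‖a k‖ ^ 2) {K : ℝ}
    (hK : ∀ n : ℕ, 1 ≤ n → ∀ (J : ℕ) (p : ℕ → ℝ), ∑ j ∈ Finset.Ico 1 J, p j ^ 2 ≤ 4 →
      ∀ᶠ N in atTop, ∀ Q : ℕ, ∑ r ∈ Finset.range Q, √(2 ^ r) * rad Circ.hm (ck N) (fun k => ‖(lam n J p k : ℂ) * a k‖) r ≤ K) :
    ∃ K' : ℝ, ∀ (n : ℕ) (q : ℕ → ℝ), (∀ j, 0 ≤ q j) → q 0 = 0 → (∀ J, ∑ j ∈ Finset.range J, q j ≤ 1) →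
      (∃ J, ∀ j, J ≤ j → q j = 0) →
      ∀ P : ℕ, ∑ p ∈ Finset.range P, √(2 ^ p) * radius (fun k => q (k / 2 ^ n) * ‖a k‖ ^ 2) p ≤ K' := by
  obtain ⟨C, hC0, hC⟩ := lower_bound
  set A := √(∑' k, ‖a k‖ ^ 2) with hA'
  have hA0 : 0 ≤ A := Real.sqrt_nonneg _
  refine ⟨max (3 * K) (C * (A + A)), ?_⟩
  rintro n q hq0 hq00 hq1 ⟨J₀, hJ₀⟩ Q
  set μ : ℕ → ℝ := fun k => q (k / 2 ^ n) * ‖a k‖ ^ 2 with hμ
  have hμ0 : ∀ k, 0 ≤ μ k := fun k => mul_nonneg (hq0 _) (sq_nonneg _)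
  have hD : 0 < 2 ^ n := by positivity
  have hμN : ∀ N, J₀ * 2 ^ n ≤ N → ∀ k, N ≤ k → μ k = 0 := by
    intro N hN k hk
    simp only [hμ]
    rw [hJ₀ _ ((Nat.le_div_iff_mul_le hD).2 (hN.trans hk)), zero_mul]
  have hsq : ∀ k, √(μ k) = √(q (k / 2 ^ n)) * ‖a k‖ := by
    intro k
    simp only [hμ]
    rw [Real.sqrt_mul (hq0 _), Real.sqrt_sq (norm_nonneg _)]
  rcases Nat.eq_zero_or_pos n with hn | hn
  · -- the level 0
    refine le_trans ?_ (le_max_right _ _)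
    subst hn
    set N := J₀ * 2 ^ 0 with hN
    have e1 : ∀ p, radius μ p = rad Circ.hm (ck N) (fun k => √(μ k)) p := fun p =>
      radius_fin μ hμ0 N (hμN N le_rfl) p
    simp_rw [e1]
    obtain ⟨F, hF, hFP⟩ := hC T (Fin N) Circ.hm (ck N) (isCharSys N) (fun k => √(μ k)) _ (fun Q => rad_sum_bdd N _ Q)
    refine (hFP Q).trans (mul_le_mul_of_nonneg_left (add_le_add ?_ ?_) hC0.le)
    · -- trivial bound
      have h1 : ES (ck N) (fun i : Fin N => ((√(μ i) : ℝ) : ℂ)) F hF ≤ ∑ i : Fin N, √(μ i) := by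
        rw [ES_eq]
        have h2 : ∀ x, NF (ck N) F hF (fun i : Fin N => ((√(μ i) : ℝ) : ℂ) * ph x i) ≤ ∑ i : Fin N, √(μ i) := by
          intro x
          refine (NF_le (isCharSys N) F hF _).trans (le_of_eq ?_)
          apply Finset.sum_congr rfl
          intro i _
          rw [norm_mul, norm_ph, mul_one, Complex.norm_real, Real.norm_of_nonneg (Real.sqrt_nonneg _)]
        calc _ ≤ ∫ _x : Fin N → ℝ, ∑ i : Fin N, √(μ i) ∂(phases (Fin N)) :=
              integral_mono (integrable_NF (isCharSys N) F hF _) (integrable_const _) h2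
          _ = _ := by simp
      refine h1.trans ?_
      rw [Fin.sum_univ_eq_sum_range (fun k => √(μ k))]
      simp_rw [hsq, pow_zero, Nat.div_one]
      have h3 := Finset.sum_mul_sq_le_sq_mul_sq (Finset.range N) (fun k => √(q k)) (fun k => ‖a k‖)
      have h4 : ∑ k ∈ Finset.range N, √(q k) ^ 2 ≤ 1 := by
        simp_rw [Real.sq_sqrt (hq0 _)]
        exact hq1 N
      have h5 : ∑ k ∈ Finset.range N, ‖a k‖ ^ 2 ≤ A ^ 2 := by
        rw [hA', Real.sq_sqrt (tsum_nonneg fun k => sq_nonneg _)]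
        exact ha.sum_le_tsum _ fun k _ => sq_nonneg _
      apply le_of_sq_le_sq _ hA0
      refine h3.trans ?_
      calc _ ≤ 1 * ∑ k ∈ Finset.range N, ‖a k‖ ^ 2 :=
            mul_le_mul_of_nonneg_right h4 (Finset.sum_nonneg fun k _ => sq_nonneg _)
        _ ≤ _ := by rw [one_mul]; exact h5
    · rw [Real.sqrt_le_left hA0, hA', Real.sq_sqrt (tsum_nonneg fun k => sq_nonneg _)]
      simp_rw [Real.sq_sqrt (hμ0 _)]
      rw [Fin.sum_univ_eq_sum_range μ]
      refine le_trans ?_ (ha.sum_le_tsum (Finset.range N) fun k _ => sq_nonneg _)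
      apply Finset.sum_le_sum
      intro k _
      simp only [hμ]
      have h6 : q (k / 2 ^ 0) ≤ 1 := by
        have := Finset.single_le_sum (f := q) (s := Finset.range (k / 2 ^ 0 + 1)) (fun j _ => hq0 j)
          (Finset.mem_range.2 (Nat.lt_succ_self _))
        exact this.trans (hq1 _)
      nlinarith [sq_nonneg ‖a k‖]
  · -- positive levels
    refine le_trans ?_ (le_max_left _ _)
    set v : ℕ → ℝ := fun j => √(q j) with hv
    have hv2 : ∑ j ∈ Finset.range (J₀ + 2), v j ^ 2 ≤ 1 := by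
      simp only [hv]
      simp_rw [Real.sq_sqrt (hq0 _)]
      exact hq1 _
    have hpp := sum_pair_sq (J₀ + 2) v hv2
    have hKe := hK n hn (J₀ + 2) (fun j => v j + v (j - 1)) hpp
    obtain ⟨N, hN1, hN2⟩ := (hKe.and (eventually_ge_atTop (J₀ * 2 ^ n))).exists
    have e1 : ∀ p, radius μ p = rad Circ.hm (ck N) (fun k => √(μ k)) p := fun p =>
      radius_fin μ hμ0 N (hμN N hN2) p
    simp_rw [e1]
    have hpi := Real.pi_pos
    have hpi2 : Real.pi ^ 2 ≤ 12 := by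
      have := Real.pi_lt_d2
      nlinarith
    have hc4 : 0 < 4 / Real.pi ^ 2 := by positivity
    have hc3 : 1 / 3 ≤ 4 / Real.pi ^ 2 := by
      rw [div_le_div_iff₀ (by norm_num) (by positivity)]
      linarith
    have hcmp : ∀ p, rad Circ.hm (ck N) (fun k => √(μ k)) p ≤
        3 * rad Circ.hm (ck N) (fun k => ‖(lam n (J₀ + 2) (fun j => v j + v (j - 1)) k : ℂ) * a k‖) p := by
      intro p
      have h1 := rad_smul (isCharSys N) (μ := Circ.hm) (fun k : Fin N => √(μ k)) (4 / Real.pi ^ 2) hc4 p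
      have h2 : rad Circ.hm (ck N) (fun k : Fin N => 4 / Real.pi ^ 2 * √(μ k)) p ≤
          rad Circ.hm (ck N) (fun k => ‖(lam n (J₀ + 2) (fun j => v j + v (j - 1)) k : ℂ) * a k‖) p := by
        apply rad_mono (isCharSys N)
        intro k
        apply pow_le_pow_left₀ (by positivity)
        rw [norm_mul, Complex.norm_real, Real.norm_eq_abs, hsq, ← mul_assoc]
        apply mul_le_mul_of_nonneg_right _ (norm_nonneg _)
        refine le_trans ?_ (le_abs_self _)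
        exact lam_ge n (J₀ + 2) v (fun j => Real.sqrt_nonneg _) (by simp [hv, hq00])
          (fun j hj => by simp only [hv]; rw [hJ₀ j (by omega), Real.sqrt_zero]) k
      have h3 := rad_nonneg Circ.hm (ck N) (fun k : Fin N => √(μ k)) p
      nlinarith
    calc _ ≤ ∑ p ∈ Finset.range Q, 3 * (√(2 ^ p) *
          rad Circ.hm (ck N) (fun k => ‖(lam n (J₀ + 2) (fun j => v j + v (j - 1)) k : ℂ) * a k‖) p) := by
          apply Finset.sum_le_sum
          intro p _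
          have h1 := mul_le_mul_of_nonneg_left (hcmp p) (Real.sqrt_nonneg ((2:ℝ) ^ p))
          linarith
      _ = 3 * ∑ p ∈ Finset.range Q, (√(2 ^ p) *
          rad Circ.hm (ck N) (fun k => ‖(lam n (J₀ + 2) (fun j => v j + v (j - 1)) k : ℂ) * a k‖) p) := by
          rw [Finset.mul_sum]
      _ ≤ _ := mul_le_mul_of_nonneg_left (hN1 Q) (by norm_num)

/-- general weights -/
lemma cond_of_fin {a : ℕ → ℂ} (ha : Summable fun k => ‖a k‖ ^ 2) {K' : ℝ}
    (hK : ∀ (n : ℕ) (q : ℕ → ℝ), (∀ j, 0 ≤ q j) → q 0 = 0 → (∀ J, ∑ j ∈ Finset.range J, q j ≤ 1) →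
      (∃ J, ∀ j, J ≤ j → q j = 0) →
      ∀ P : ℕ, ∑ p ∈ Finset.range P, √(2 ^ p) * radius (fun k => q (k / 2 ^ n) * ‖a k‖ ^ 2) p ≤ K') : Cond a := by
  refine ⟨K', ?_⟩
  intro n q hq0 hq00 hqs hq1 P
  have hD : 0 < 2 ^ n := by positivity
  have hqle : ∀ j, q j ≤ 1 := fun j => (hqs.le_tsum j fun i _ => hq0 i).trans hq1
  set μ : ℕ → ℝ := fun k => q (k / 2 ^ n) * ‖a k‖ ^ 2 with hμ
  have hμ0 : ∀ k, 0 ≤ μ k := fun k => mul_nonneg (hq0 _) (sq_nonneg _)
  have hμs : Summable μ := by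
    apply Summable.of_nonneg_of_le hμ0 (fun k => ?_) ha
    simp only [hμ]
    nlinarith [sq_nonneg ‖a k‖, hqle (k / 2 ^ n)]
  have hbound : ∀ J : ℕ, ∑ p ∈ Finset.range P, √(2 ^ p) * radius μ p ≤
      K' + (∑ p ∈ Finset.range P, √((2:ℝ) ^ p)) * (2 * √(∑' k, μ (k + J * 2 ^ n))) := by
    intro J
    set qJ : ℕ → ℝ := fun j => if j < J then q j else 0 with hqJ
    have e1 : (fun k => if k < J * 2 ^ n then μ k else 0) = fun k => qJ (k / 2 ^ n) * ‖a k‖ ^ 2 := by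
      ext k
      simp only [hqJ, hμ]
      by_cases hk : k < J * 2 ^ n
      · rw [if_pos hk, if_pos ((Nat.div_lt_iff_lt_mul hD).2 hk)]
      · rw [if_neg hk, if_neg (fun h => hk ((Nat.div_lt_iff_lt_mul hD).1 h)), zero_mul]
    have h1 := hK n qJ (fun j => by simp only [hqJ]; split_ifs; exact hq0 j; exact le_rfl)
      (by simp only [hqJ, hq00]; split_ifs <;> rfl)
      (fun J' => by
        refine le_trans ?_ ((hqs.sum_le_tsum (Finset.range J') fun j _ => hq0 j).trans hq1)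
        apply Finset.sum_le_sum
        intro j _
        simp only [hqJ]
        split_ifs
        · exact le_rfl
        · exact hq0 j)
      ⟨J, fun j hj => by simp only [hqJ]; rw [if_neg (not_lt.2 hj)]⟩ P
    rw [← e1] at h1
    calc _ ≤ ∑ p ∈ Finset.range P, (√(2 ^ p) * radius (fun k => if k < J * 2 ^ n then μ k else 0) p +
          √((2:ℝ) ^ p) * (2 * √(∑' k, μ (k + J * 2 ^ n)))) := by
          apply Finset.sum_le_sum
          intro p _
          rw [← mul_add]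
          exact mul_le_mul_of_nonneg_left (radius_le_add μ hμ0 hμs (J * 2 ^ n) p) (Real.sqrt_nonneg _)
      _ = ∑ p ∈ Finset.range P, √(2 ^ p) * radius (fun k => if k < J * 2 ^ n then μ k else 0) p +
          (∑ p ∈ Finset.range P, √((2:ℝ) ^ p)) * (2 * √(∑' k, μ (k + J * 2 ^ n))) := by
          rw [Finset.sum_add_distrib, Finset.sum_mul]
      _ ≤ _ := by linarith
  have htail : Tendsto (fun J : ℕ => ∑' k, μ (k + J * 2 ^ n)) atTop (𝓝 0) := by
    have h1 : Tendsto (fun J : ℕ => J * 2 ^ n) atTop atTop :=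
      tendsto_id.atTop_mul_const' hD
    exact (tendsto_sum_nat_add μ).comp h1
  have hlim : Tendsto (fun J : ℕ => K' + (∑ p ∈ Finset.range P, √((2:ℝ) ^ p)) * (2 * √(∑' k, μ (k + J * 2 ^ n)))) atTop
      (𝓝 (K' + (∑ p ∈ Finset.range P, √((2:ℝ) ^ p)) * (2 * √0))) :=
    ((((Real.continuous_sqrt.tendsto 0).comp htail).const_mul 2).const_mul _).const_add K'
  have := ge_of_tendsto' hlim hbound
  simpa using this

/-- **Necessity.** -/
theorem necessity (a : ℕ → ℂ) (ha : Summable fun k => ‖a k‖ ^ 2) {Ω : Type*} [MeasurableSpace Ω] (P : Measure Ω)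
    [IsProbabilityMeasure P] (α : ℕ → Ω → ℝ) (hα : ∀ k, Measurable (α k))
    (hlaw : ∀ N, P.map (fun ω (i : Fin N) => α i ω) = phases (Fin N))
    (h : P {ω | InBMOA (rps a α ω)} ≠ 0) : Cond a := by
  obtain ⟨m, hm⟩ : ∃ m : ℕ, P (AA a α (m + 1)) ≠ 0 := by
    by_contra hcon
    push Not at hcon
    apply h
    refine measure_mono_null ?_ (measure_iUnion_null hcon)
    intro ω hω
    obtain ⟨m, hm⟩ := mem_AA ha α ω hω
    exact mem_iUnion.2 ⟨m, hm⟩
  obtain ⟨K, hK⟩ := nec_mult a ha P α hα hlaw (m + 1) (by omega) hm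
  obtain ⟨K', hK'⟩ := nec_fin ha hK
  exact cond_of_fin ha hK'

end Pool.Agent.Helper26.Bmoa.Stmt
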