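import Mathlib

set_option autoImplicit false

/-!
Chaining for the unions of the ellipsoids of all dyadic levels, part 1: cells and levels.
-/

namespace Pool.Agent.Helper26.Bmoa.Nets

open Finset

/-- the mass of the cell `j` of level `n` -/
noncomputable def M (N : ℕ) (m : ℕ → ℝ) (n j : ℕ) : ℝ := ∑ k ∈ range N, if k / 2 ^ n = j then m k else 0

/-- the energy of the level `n` -/
noncomputable def En (N : ℕ) (m : ℕ → ℝ) (n : ℕ) : ℝ := ∑ j ∈ range N, M N m n j ^ 2

variable {N : ℕ} {m : ℕ → ℝ}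

lemma M_nonneg (hm : ∀ k, 0 ≤ m k) (n j : ℕ) : 0 ≤ M N m n j :=
  sum_nonneg fun k _ => by split_ifs <;> simp [hm k]

lemma div_lt' {k n : ℕ} (hk : k < N) : k / 2 ^ n < N := lt_of_le_of_lt (Nat.div_le_self _ _) hk

/-- summation over the cells -/
lemma sum_cells (F : ℕ → ℝ) (n : ℕ) :
    ∑ k ∈ range N, m k * F (k / 2 ^ n) = ∑ j ∈ range N, M N m n j * F j := by
  simp only [M, sum_mul, ite_mul, zero_mul]
  rw [sum_comm]
  apply sum_congr rfl
  intro k hk
  rw [mem_range] at hk
  rw [sum_eq_single (k / 2 ^ n)]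
  · simp
  · intro b _ hb
    rw [if_neg (Ne.symm hb)]
  · intro h
    exact absurd (mem_range.2 (div_lt' hk)) h

lemma sum_M (n : ℕ) : ∑ j ∈ range N, M N m n j = ∑ k ∈ range N, m k := by
  have := sum_cells (N := N) (m := m) (fun _ => 1) n
  simpa using this.symm

lemma M_le_one (hm : ∀ k, 0 ≤ m k) (h1 : ∑ k ∈ range N, m k ≤ 1) (n j : ℕ) : M N m n j ≤ 1 := by
  refine le_trans (sum_le_sum fun k _ => ?_) h1
  split_ifs
  · exact le_rfl
  · exact hm k

lemma M_eq_zero {n j : ℕ} (hj : N ≤ j) : M N m n j = 0 := by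
  apply sum_eq_zero
  intro k hk
  rw [if_neg]
  rintro rfl
  exact absurd (div_lt' (mem_range.1 hk)) (not_lt.2 hj)

/-- the masses of a coarser level -/
lemma M_children {L n : ℕ} (hLn : L ≤ n) (j : ℕ) :
    M N m n j = ∑ i ∈ range N, if i / 2 ^ (n - L) = j then M N m L i else 0 := by
  have h := sum_cells (N := N) (m := m) (fun i => if i / 2 ^ (n - L) = j then (1:ℝ) else 0) L
  have e : ∀ k : ℕ, k / 2 ^ L / 2 ^ (n - L) = k / 2 ^ n := by
    intro k
    rw [Nat.div_div_eq_div_mul, ← pow_add, Nat.add_sub_cancel' hLn]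
  simp only [e, mul_ite, mul_one, mul_zero] at h
  rw [M, h]

lemma En_nonneg (n : ℕ) : 0 ≤ En N m n := sum_nonneg fun _ _ => sq_nonneg _

lemma En_le_one (hm : ∀ k, 0 ≤ m k) (h1 : ∑ k ∈ range N, m k ≤ 1) (n : ℕ) : En N m n ≤ 1 := by
  calc En N m n ≤ ∑ j ∈ range N, M N m n j := by
        apply sum_le_sum
        intro j _
        have := M_nonneg (N := N) hm n j
        have := M_le_one hm h1 n j
        nlinarith
    _ ≤ 1 := by rw [sum_M]; exact h1

/-- the energy of a level split over the cells of a coarser level -/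
lemma En_split {L n : ℕ} :
    En N m L = ∑ j ∈ range N, ∑ i ∈ range N, if i / 2 ^ (n - L) = j then M N m L i ^ 2 else 0 := by
  rw [sum_comm, En]
  apply sum_congr rfl
  intro i hi
  rw [sum_eq_single (i / 2 ^ (n - L))]
  · simp
  · intro b _ hb
    rw [if_neg (Ne.symm hb)]
  · intro h
    exact absurd (mem_range.2 (div_lt' (mem_range.1 hi))) h

lemma exists_child (_hm : ∀ k, 0 ≤ m k) (D j : ℕ) (L : ℕ) :
    ∃ i, i / 2 ^ D = j ∧ ∀ i' ∈ range N, i' / 2 ^ D = j → M N m L i' ≤ M N m L i := by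
  classical
  by_cases h : ((range N).filter fun i => i / 2 ^ D = j).Nonempty
  · obtain ⟨i, hi, hmax⟩ := exists_max_image _ (fun i => M N m L i) h
    rw [mem_filter] at hi
    exact ⟨i, hi.2, fun i' h1 h2 => hmax i' (mem_filter.2 ⟨h1, h2⟩)⟩
  · refine ⟨j * 2 ^ D, Nat.mul_div_cancel _ (by positivity), fun i' h1 h2 => ?_⟩
    exact absurd ⟨i', mem_filter.2 ⟨h1, h2⟩⟩ h

/-- the index of the heaviest child at level `L` of the cell `j` of level `n` -/
noncomputable def I (N : ℕ) (m : ℕ → ℝ) (_hm : ∀ k, 0 ≤ m k) (L D j : ℕ) : ℕ :=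
  (exists_child (N := N) _hm D j L).choose

lemma I_div (hm : ∀ k, 0 ≤ m k) (L D j : ℕ) : I N m hm L D j / 2 ^ D = j :=
  (exists_child (N := N) hm D j L).choose_spec.1

lemma I_max (hm : ∀ k, 0 ≤ m k) (L D j : ℕ) {i' : ℕ} (h : i' / 2 ^ D = j) :
    M N m L i' ≤ M N m L (I N m hm L D j) := by
  by_cases hi : i' < N
  · exact (exists_child (N := N) hm D j L).choose_spec.2 i' (mem_range.2 hi) h
  · rw [M_eq_zero (not_lt.1 hi)]
    exact M_nonneg hm _ _

/-- the loss of mass at the passage to the heaviest child -/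
lemma loss_sq_le (hm : ∀ k, 0 ≤ m k) {L n : ℕ} (hLn : L ≤ n) (j : ℕ) :
    (M N m n j - M N m L (I N m hm L (n - L) j)) ^ 2 ≤ En N m n - En N m L := by
  set X := M N m L (I N m hm L (n - L) j) with hX
  have hX0 : 0 ≤ X := M_nonneg hm _ _
  -- for each cell
  have cell : ∀ j, M N m n j * (M N m n j - M N m L (I N m hm L (n - L) j)) ≤
      M N m n j ^ 2 - ∑ i ∈ range N, if i / 2 ^ (n - L) = j then M N m L i ^ 2 else 0 := by
    intro j
    have h1 : ∑ i ∈ range N, (if i / 2 ^ (n - L) = j then M N m L i ^ 2 else 0) ≤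
        M N m L (I N m hm L (n - L) j) * M N m n j := by
      rw [M_children hLn j, mul_sum]
      apply sum_le_sum
      intro i _
      split_ifs with h
      · have h2 := I_max (N := N) hm L (n - L) j h
        have h3 := M_nonneg (N := N) hm L i
        rw [sq]
        exact mul_le_mul_of_nonneg_right h2 h3
      · simp
    nlinarith
  have hle : ∀ j, M N m L (I N m hm L (n - L) j) ≤ M N m n j := by
    intro j
    by_cases hI : I N m hm L (n - L) j < N
    · rw [M_children hLn j]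
      refine le_trans ?_ (single_le_sum (f := fun i => if i / 2 ^ (n - L) = j then M N m L i else 0)
        (fun i _ => by split_ifs <;> simp [M_nonneg hm]) (mem_range.2 hI))
      simp [I_div]
    · rw [M_eq_zero (not_lt.1 hI)]
      exact M_nonneg hm _ _
  by_cases hj : j < N
  · have h5 : M N m n j * (M N m n j - X) ≤ En N m n - En N m L := by
      rw [En_split (L := L) (n := n), En, ← sum_sub_distrib]
      refine (cell j).trans ?_
      exact single_le_sum (f := fun j => M N m n j ^ 2 - ∑ i ∈ range N,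
        if i / 2 ^ (n - L) = j then M N m L i ^ 2 else 0) (fun i _ => by
          refine le_trans ?_ (cell i)
          exact mul_nonneg (M_nonneg hm _ _) (sub_nonneg.2 (hle i))) (mem_range.2 hj)
    refine le_trans ?_ h5
    have := hle j
    rw [← hX] at this
    rw [sq]
    apply mul_le_mul_of_nonneg_right _ (by linarith)
    linarith
  · have h0 := M_eq_zero (m := m) (n := n) (not_lt.1 hj)
    have := hle j
    rw [← hX, h0] at this
    have h6 : X = 0 := le_antisymm this hX0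
    rw [h0, h6]
    have h7 : 0 ≤ En N m n - En N m L := by
      rw [En_split (L := L) (n := n), En, ← sum_sub_distrib]
      apply sum_nonneg
      intro i _
      refine le_trans ?_ (cell i)
      exact mul_nonneg (M_nonneg hm _ _) (sub_nonneg.2 (hle i))
    simpa using h7

lemma child_le (hm : ∀ k, 0 ≤ m k) {L n : ℕ} (hLn : L ≤ n) (i : ℕ) :
    M N m L i ≤ M N m n (i / 2 ^ (n - L)) := by
  by_cases hI : i < N
  · rw [M_children hLn]
    refine le_trans ?_ (single_le_sum (f := fun i' => if i' / 2 ^ (n - L) = i / 2 ^ (n - L) then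
      M N m L i' else 0)
      (fun i _ => by split_ifs <;> simp [M_nonneg hm]) (mem_range.2 hI))
    simp
  · rw [M_eq_zero (not_lt.1 hI)]
    exact M_nonneg hm _ _

/-- two different children of a cell -/
lemma two_children (hm : ∀ k, 0 ≤ m k) {L n : ℕ} (hLn : L ≤ n) {i i' j : ℕ} (hi : i / 2 ^ (n - L) = j)
    (hi' : i' / 2 ^ (n - L) = j) (hne : i ≠ i') : M N m L i + M N m L i' ≤ M N m n j := by
  by_cases h1 : i < N
  · by_cases h2 : i' < N
    · rw [M_children hLn j, ← add_sum_erase _ _ (mem_range.2 h1), if_pos hi]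
      gcongr
      refine le_trans ?_ (single_le_sum (f := fun i' => if i' / 2 ^ (n - L) = j then
        M N m L i' else 0) (fun i _ => by split_ifs <;> simp [M_nonneg hm])
        (mem_erase.2 ⟨hne.symm, mem_range.2 h2⟩))
      simp [hi']
    · rw [M_eq_zero (not_lt.1 h2), add_zero, ← hi]
      exact child_le hm hLn i
  · rw [M_eq_zero (not_lt.1 h1), zero_add, ← hi']
    exact child_le hm hLn i'

/-- the base level for stage `p`, as a function of the rounded energy -/
noncomputable def lev (N : ℕ) (m : ℕ → ℝ) (p κ : ℕ) : ℕ :=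
  sInf {L : ℕ | ⌊En N m L * 2 ^ (8 * p)⌋₊ = κ}

/-- the rounded energy -/
noncomputable def kap (N : ℕ) (m : ℕ → ℝ) (p n : ℕ) : ℕ := ⌊En N m n * 2 ^ (8 * p)⌋₊

lemma lev_le (p n : ℕ) : lev N m p (kap N m p n) ≤ n := Nat.sInf_le rfl

lemma kap_lt (hm : ∀ k, 0 ≤ m k) (h1 : ∑ k ∈ range N, m k ≤ 1) (p n : ℕ) :
    kap N m p n < 2 ^ (8 * p) + 1 := by
  rw [Nat.lt_succ_iff, kap]
  apply Nat.floor_le_of_le
  push_cast
  have := En_le_one hm h1 n
  have h2 : (0:ℝ) < 2 ^ (8 * p) := by positivity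
  nlinarith

lemma En_lev (p n : ℕ) :
    En N m n - En N m (lev N m p (kap N m p n)) < (1 / 2) ^ (8 * p) := by
  have h : ⌊En N m (lev N m p (kap N m p n)) * 2 ^ (8 * p)⌋₊ = kap N m p n :=
    Nat.sInf_mem (s := {L : ℕ | ⌊En N m L * 2 ^ (8 * p)⌋₊ = kap N m p n}) ⟨n, rfl⟩
  have h1 := Nat.floor_le (a := En N m (lev N m p (kap N m p n)) * 2 ^ (8 * p))
    (mul_nonneg (En_nonneg _) (by positivity))
  have h2 := Nat.lt_floor_add_one (En N m n * 2 ^ (8 * p))
  rw [h] at h1
  change _ < ((kap N m p n : ℕ) : ℝ) + 1 at h2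
  have h3 : (0:ℝ) < 2 ^ (8 * p) := by positivity
  have h4 : (1 / 2 : ℝ) ^ (8 * p) * 2 ^ (8 * p) = 1 := by rw [← mul_pow]; norm_num
  have h5 : (En N m n - En N m (lev N m p (kap N m p n))) * 2 ^ (8 * p) <
      (1 / 2 : ℝ) ^ (8 * p) * 2 ^ (8 * p) := by
    rw [h4, sub_mul]
    linarith
  exact lt_of_mul_lt_mul_right h5 h3.le

lemma loss_lt (hm : ∀ k, 0 ≤ m k) (p n j : ℕ) :
    M N m n j - M N m (lev N m p (kap N m p n))
      (I N m hm (lev N m p (kap N m p n)) (n - lev N m p (kap N m p n)) j) < (1 / 2) ^ (4 * p) := by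
  have h1 := loss_sq_le (N := N) hm (lev_le (N := N) (m := m) p n) j
  have h2 := En_lev (N := N) (m := m) p n
  have h3 := lt_of_le_of_lt h1 h2
  have h4 : (1 / 2 : ℝ) ^ (8 * p) = ((1 / 2) ^ (4 * p)) ^ 2 := by rw [← pow_mul]; congr 1; ring
  rw [h4] at h3
  exact lt_of_pow_lt_pow_left₀ 2 (by positivity) h3

end Pool.Agent.Helper26.Bmoa.Nets
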