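import Pool.Agent.Helper26.Bmoa.Nets1

set_option autoImplicit false

/-!
Chaining for the unions of the ellipsoids of all dyadic levels, part 2: transplantation and classes.
-/

namespace Pool.Agent.Helper26.Bmoa.Nets

open Finset

variable {N : ℕ} {m : ℕ → ℝ}

/-- dyadic class of a positive number `≤ 1` -/
noncomputable def cl (x : ℝ) : ℕ := sInf {q : ℕ | (1 / 2 : ℝ) ^ (q + 1) < x}

lemma cl_spec {x : ℝ} (hx : 0 < x) : (1 / 2 : ℝ) ^ (cl x + 1) < x := by
  apply Nat.sInf_mem (s := {q : ℕ | (1 / 2 : ℝ) ^ (q + 1) < x})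
  obtain ⟨q, hq⟩ := exists_pow_lt_of_lt_one hx (by norm_num : (1 / 2 : ℝ) < 1)
  exact ⟨q, lt_of_le_of_lt (pow_le_pow_of_le_one (by norm_num) (by norm_num) (Nat.le_succ q)) hq⟩

lemma cl_le {x : ℝ} {q : ℕ} (h : (1 / 2 : ℝ) ^ (q + 1) < x) : cl x ≤ q := Nat.sInf_le h

lemma le_cl {x : ℝ} (h1 : x ≤ 1) : x ≤ (1 / 2) ^ cl x := by
  rcases Nat.eq_zero_or_pos (cl x) with h | h
  · rw [h]; simpa using h1
  · by_contra hcon
    push Not at hcon
    have : cl x ≤ cl x - 1 := by
      apply cl_le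
      rwa [Nat.sub_add_cancel h]
    omega

/-- transplanted weight -/
noncomputable def tr (N : ℕ) (m : ℕ → ℝ) (hm : ∀ k, 0 ≤ m k) (L D : ℕ) (v : ℕ → ℝ) (i : ℕ) : ℝ :=
  if I N m hm L D (i / 2 ^ D) = i then v (i / 2 ^ D) else 0

lemma tr_sum (hm : ∀ k, 0 ≤ m k) (L D : ℕ) (v F : ℕ → ℝ) :
    ∑ i ∈ range N, F i * tr N m hm L D v i ^ 2 =
      ∑ j ∈ range N, if I N m hm L D j < N then F (I N m hm L D j) * v j ^ 2 else 0 := by
  have h : ∀ i ∈ range N, F i * tr N m hm L D v i ^ 2 =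
      ∑ j ∈ range N, if I N m hm L D j = i then F i * v j ^ 2 else 0 := by
    intro i hi
    rw [mem_range] at hi
    rw [sum_eq_single (i / 2 ^ D)]
    · unfold tr
      split_ifs <;> simp
    · intro j _ hj
      rw [if_neg]
      intro h
      rw [← h, I_div] at hj
      exact hj rfl
    · intro h
      exact absurd (mem_range.2 (div_lt' hi)) h
  rw [sum_congr rfl h, sum_comm]
  apply sum_congr rfl
  intro j _
  split_ifs with hj
  · rw [sum_eq_single (I N m hm L D j)]
    · simp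
    · intro b _ hb
      rw [if_neg (Ne.symm hb)]
    · intro h
      exact absurd (mem_range.2 hj) h
  · apply sum_eq_zero
    intro i hi
    rw [if_neg]
    rintro rfl
    exact hj (mem_range.1 hi)

/-- the error of the transplantation -/
lemma tr_err (hm : ∀ k, 0 ≤ m k) (p n : ℕ) (v : ℕ → ℝ) (hv : ∑ j ∈ range N, v j ^ 2 ≤ 1) :
    ∑ k ∈ range N, m k * (v (k / 2 ^ n) - tr N m hm (lev N m p (kap N m p n))
      (n - lev N m p (kap N m p n)) v (k / 2 ^ lev N m p (kap N m p n))) ^ 2 ≤ (1 / 2) ^ (4 * p) := by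
  set L := lev N m p (kap N m p n) with hL
  set D := n - L with hD
  have hLn : L ≤ n := lev_le p n
  have e : ∀ k : ℕ, k / 2 ^ n = k / 2 ^ L / 2 ^ D := by
    intro k
    rw [Nat.div_div_eq_div_mul, ← pow_add, Nat.add_sub_cancel' hLn]
  have h1 : ∑ k ∈ range N, m k * (v (k / 2 ^ n) - tr N m hm L D v (k / 2 ^ L)) ^ 2 =
      ∑ k ∈ range N, m k * v (k / 2 ^ n) ^ 2 -
        ∑ k ∈ range N, m k * (tr N m hm L D v (k / 2 ^ L)) ^ 2 := by
    rw [← sum_sub_distrib]
    apply sum_congr rfl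
    intro k _
    rw [e k]
    unfold tr
    split_ifs <;> ring
  rw [h1, sum_cells (fun j => v j ^ 2) n, sum_cells (fun i => tr N m hm L D v i ^ 2) L, tr_sum,
    ← sum_sub_distrib]
  calc _ ≤ ∑ j ∈ range N, (1 / 2) ^ (4 * p) * v j ^ 2 := by
        apply sum_le_sum
        intro j _
        have h2 := loss_lt (N := N) hm p n j
        rw [← hL, ← hD] at h2
        split_ifs with hj
        · nlinarith [sq_nonneg (v j)]
        · rw [M_eq_zero (m := m) (n := L) (not_lt.1 hj)] at h2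
          nlinarith [sq_nonneg (v j)]
    _ ≤ (1 / 2) ^ (4 * p) := by
        rw [← mul_sum]
        have : (0:ℝ) < (1 / 2) ^ (4 * p) := by positivity
        nlinarith

/-- number of the cells with mass `> 2 ^ (-(q+1))` -/
noncomputable def s (N : ℕ) (m : ℕ → ℝ) (n q : ℕ) : ℕ :=
  #{i ∈ range N | (1 / 2 : ℝ) ^ (q + 1) < M N m n i}

lemma s_mono {n q q' : ℕ} (h : q ≤ q') : s N m n q ≤ s N m n q' := by
  apply card_le_card
  intro i hi
  rw [mem_filter] at hi ⊢
  refine ⟨hi.1, lt_of_le_of_lt ?_ hi.2⟩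
  exact pow_le_pow_of_le_one (by norm_num) (by norm_num) (by omega)

/-- heavy children at the base level are the heaviest ones -/
lemma heavy_child (hm : ∀ k, 0 ≤ m k) {p n i : ℕ} (hp : 1 ≤ p)
    (hi : (1 / 2 : ℝ) ^ (2 * p + 1) < M N m (lev N m p (kap N m p n)) i) :
    I N m hm (lev N m p (kap N m p n)) (n - lev N m p (kap N m p n))
      (i / 2 ^ (n - lev N m p (kap N m p n))) = i := by
  set L := lev N m p (kap N m p n) with hL
  set D := n - L with hD
  by_contra hne
  have h1 := two_children (N := N) hm (lev_le (N := N) (m := m) p n) (i := i)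
    (i' := I N m hm L D (i / 2 ^ D)) (j := i / 2 ^ D) rfl (I_div hm _ _ _) (Ne.symm hne)
  have h2 := loss_lt (N := N) hm p n (i / 2 ^ D)
  rw [← hL, ← hD] at h2
  have h3 : (1 / 2 : ℝ) ^ (4 * p) ≤ (1 / 2) ^ (2 * p + 1) :=
    pow_le_pow_of_le_one (by norm_num) (by norm_num) (by omega)
  linarith

lemma s_le (hm : ∀ k, 0 ≤ m k) {p n q : ℕ} (hp : 1 ≤ p) (hq : q ≤ 2 * p) :
    s N m (lev N m p (kap N m p n)) q ≤ s N m n q := by
  set L := lev N m p (kap N m p n) with hL
  set D := n - L with hD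
  have hLn : L ≤ n := lev_le p n
  have hpow : (1 / 2 : ℝ) ^ (2 * p + 1) ≤ (1 / 2) ^ (q + 1) :=
    pow_le_pow_of_le_one (by norm_num) (by norm_num) (by omega)
  apply card_le_card_of_injOn (fun i => i / 2 ^ D)
  · intro i hi
    simp only [coe_filter, mem_range, Set.mem_ofPred_eq] at hi ⊢
    refine ⟨div_lt' hi.1, hi.2.trans_le ?_⟩
    exact child_le hm hLn i
  · intro i hi i' hi' h
    simp only [coe_filter, mem_range, Set.mem_ofPred_eq] at hi hi' h
    rw [← heavy_child (N := N) hm (n := n) hp (hpow.trans_lt hi.2),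
      ← heavy_child (N := N) hm (n := n) hp (hpow.trans_lt hi'.2), ← hL, ← hD, h]

/-- squared norm of a weight on the cells of a class -/
noncomputable def T2 (N : ℕ) (m : ℕ → ℝ) (n : ℕ) (v : ℕ → ℝ) (q : ℕ) : ℝ :=
  ∑ j ∈ range N with 0 < M N m n j ∧ cl (M N m n j) = q, v j ^ 2

lemma T2_nonneg (n : ℕ) (v : ℕ → ℝ) (q : ℕ) : 0 ≤ T2 N m n v q :=
  sum_nonneg fun _ _ => sq_nonneg _

lemma cl_compare (hm : ∀ k, 0 ≤ m k) (h1 : ∑ k ∈ range N, m k ≤ 1) {p n j : ℕ} (hp : 1 ≤ p)
    (h0 : 0 < M N m (lev N m p (kap N m p n)) (I N m hm (lev N m p (kap N m p n))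
      (n - lev N m p (kap N m p n)) j))
    (hq : cl (M N m (lev N m p (kap N m p n)) (I N m hm (lev N m p (kap N m p n))
      (n - lev N m p (kap N m p n)) j)) ≤ 2 * p) :
    0 < M N m n j ∧ (cl (M N m n j) = cl (M N m (lev N m p (kap N m p n)) (I N m hm
      (lev N m p (kap N m p n)) (n - lev N m p (kap N m p n)) j)) ∨
      cl (M N m n j) + 1 = cl (M N m (lev N m p (kap N m p n)) (I N m hm
      (lev N m p (kap N m p n)) (n - lev N m p (kap N m p n)) j))) := by
  set L := lev N m p (kap N m p n) with hL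
  set D := n - L with hD
  set x := M N m L (I N m hm L D j) with hx
  have hLn : L ≤ n := lev_le p n
  have h2 : x ≤ M N m n j := by
    have := child_le (N := N) hm hLn (I N m hm L D j)
    rwa [← hD, I_div] at this
  have h3 := loss_lt (N := N) hm p n j
  rw [← hL, ← hD, ← hx] at h3
  have h4 : x ≤ 1 := M_le_one hm h1 _ _
  have h5 := cl_spec h0
  have h6 := le_cl h4
  refine ⟨h0.trans_le h2, ?_⟩
  have h7 : cl (M N m n j) ≤ cl x := cl_le (h5.trans_le h2)
  have h8 : cl x ≤ cl (M N m n j) + 1 := by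
    by_contra hcon
    push Not at hcon
    have h9 := cl_spec (h0.trans_le h2)
    have h10 : (1 / 2 : ℝ) ^ (4 * p) ≤ (1 / 2) ^ cl x :=
      pow_le_pow_of_le_one (by norm_num) (by norm_num) (by omega)
    have h11 : (1 / 2 : ℝ) ^ (cl x - 1) ≤ (1 / 2) ^ (cl (M N m n j) + 1) :=
      pow_le_pow_of_le_one (by norm_num) (by norm_num) (by omega)
    have h12 : (1 / 2 : ℝ) ^ (cl x - 1) = 2 * (1 / 2) ^ cl x := by
      have : cl x = (cl x - 1) + 1 := by omega
      conv_rhs => rw [this, pow_succ]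
      ring
    linarith
  omega

/-- comparison of the norms on classes -/
lemma T2_tr_le (hm : ∀ k, 0 ≤ m k) (h1 : ∑ k ∈ range N, m k ≤ 1) {p n q : ℕ} (hp : 1 ≤ p)
    (hq : q ≤ 2 * p) (v : ℕ → ℝ) :
    T2 N m (lev N m p (kap N m p n)) (tr N m hm (lev N m p (kap N m p n))
      (n - lev N m p (kap N m p n)) v) q ≤
      T2 N m n v q + if q = 0 then 0 else T2 N m n v (q - 1) := by
  set L := lev N m p (kap N m p n) with hL
  set D := n - L with hD
  have e1 : T2 N m L (tr N m hm L D v) q = ∑ i ∈ range N,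
      (if 0 < M N m L i ∧ cl (M N m L i) = q then 1 else 0) * tr N m hm L D v i ^ 2 := by
    rw [T2, sum_filter]
    apply sum_congr rfl
    intro i _
    split_ifs <;> simp
  rw [e1, tr_sum]
  have e2 : T2 N m n v q + (if q = 0 then 0 else T2 N m n v (q - 1)) = ∑ j ∈ range N,
      ((if 0 < M N m n j ∧ cl (M N m n j) = q then v j ^ 2 else 0) +
        if q = 0 then 0 else if 0 < M N m n j ∧ cl (M N m n j) = q - 1 then v j ^ 2 else 0) := by
    rw [sum_add_distrib, T2, sum_filter]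
    congr 1
    split_ifs
    · simp
    · rw [T2, sum_filter]
  rw [e2]
  apply sum_le_sum
  intro j _
  have hnn : 0 ≤ ((if 0 < M N m n j ∧ cl (M N m n j) = q then v j ^ 2 else 0) +
        if q = 0 then 0 else if 0 < M N m n j ∧ cl (M N m n j) = q - 1 then v j ^ 2 else 0) := by
    split_ifs <;> positivity
  by_cases hc : I N m hm L D j < N ∧ 0 < M N m L (I N m hm L D j) ∧ cl (M N m L (I N m hm L D j)) = q
  · have h2 := cl_compare (N := N) hm h1 (n := n) (j := j) hp hc.2.1 (by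
      rw [← hL, ← hD, hc.2.2]; exact hq)
    rw [← hL, ← hD, hc.2.2] at h2
    rw [if_pos hc.1, if_pos hc.2, one_mul]
    rcases h2 with ⟨h3, h4 | h4⟩
    · rw [if_pos ⟨h3, h4⟩]
      have : 0 ≤ (if q = 0 then 0 else if 0 < M N m n j ∧ cl (M N m n j) = q - 1 then v j ^ 2 else 0) := by
        split_ifs <;> positivity
      linarith
    · have hq0 : q ≠ 0 := by omega
      rw [if_neg (c := q = 0) hq0, if_pos (c := 0 < M N m n j ∧ cl (M N m n j) = q - 1) ⟨h3, by omega⟩]
      have : 0 ≤ (if 0 < M N m n j ∧ cl (M N m n j) = q then v j ^ 2 else 0) := by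
        split_ifs <;> positivity
      linarith
  · by_cases hlt : I N m hm L D j < N
    · rw [if_pos hlt, if_neg (fun h => hc ⟨hlt, h⟩), zero_mul]
      exact hnn
    · rw [if_neg hlt]
      exact hnn

end Pool.Agent.Helper26.Bmoa.Nets
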