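import Pool.Agent.Helper26.Bmoa.Nets2

set_option autoImplicit false

/-!
Chaining for the unions of the ellipsoids of all dyadic levels, part 3: quantisation.
-/

namespace Pool.Agent.Helper26.Bmoa.Nets

open Finset

variable {N : ℕ} {m : ℕ → ℝ}

/-- fourth root -/
noncomputable def r4 (x : ℝ) : ℝ := √√x

lemma r4_nonneg (x : ℝ) : 0 ≤ r4 x := Real.sqrt_nonneg _

lemma r4_pow {x : ℝ} (hx : 0 ≤ x) : r4 x ^ 4 = x := by
  have : r4 x ^ 4 = (r4 x ^ 2) ^ 2 := by ring
  rw [this, r4, Real.sq_sqrt (Real.sqrt_nonneg _), Real.sq_sqrt hx]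

lemma r4_sq (x : ℝ) : r4 x ^ 2 = √x := by rw [r4, Real.sq_sqrt (Real.sqrt_nonneg _)]

lemma r4_mono {x y : ℝ} (h : x ≤ y) : r4 x ≤ r4 y := Real.sqrt_le_sqrt (Real.sqrt_le_sqrt h)

lemma r4_pos {x : ℝ} (h : 0 < x) : 0 < r4 x := Real.sqrt_pos.2 (Real.sqrt_pos.2 h)

/-- scales -/
noncomputable def tau (p l : ℕ) : ℝ := if l = p + 1 then 0 else (1 / 2) ^ l

/-- quantisation of the weights on one class -/
lemma quant (C : Finset ℕ) (w : ℕ → ℝ) {δ : ℝ} (hδ0 : C.Nonempty → 0 < δ) (hδ1 : δ ≤ 1) (p : ℕ)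
    (ht : ∑ i ∈ C, w i ^ 2 ≤ 1) :
    ∃ l : ℕ, l ≤ p + 1 ∧ ∃ z : ℕ → ℤ,
      ∑ i ∈ C, (w i - tau p l * δ / √(#C) * z i) ^ 2 ≤ 4 * (∑ i ∈ C, w i ^ 2) * δ ^ 2 + (1 / 4) ^ p ∧
      ∑ i ∈ C, |(z i : ℝ)| ≤ 2 * #C / δ := by
  rcases C.eq_empty_or_nonempty with hC | hC
  · subst hC
    refine ⟨0, by omega, 0, ?_, ?_⟩ <;> simp
  have hδ := hδ0 hC
  have hc : (0:ℝ) < #C := by exact_mod_cast hC.card_pos
  set t := √(∑ i ∈ C, w i ^ 2) with ht'
  have ht0 : 0 ≤ t := Real.sqrt_nonneg _
  have ht2 : t ^ 2 = ∑ i ∈ C, w i ^ 2 := Real.sq_sqrt (sum_nonneg fun _ _ => sq_nonneg _)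
  have ht1 : t ≤ 1 := Real.sqrt_le_one.2 ht
  by_cases h : t < (1 / 2) ^ p
  · refine ⟨p + 1, le_rfl, 0, ?_, ?_⟩
    · simp only [tau, if_true, zero_mul, zero_div, sub_zero]
      rw [← ht2]
      have h1 : t ^ 2 ≤ ((1 / 2) ^ p) ^ 2 := pow_le_pow_left₀ ht0 h.le 2
      have h2 : ((1 / 2 : ℝ) ^ p) ^ 2 = (1 / 4) ^ p := by
        rw [← pow_mul, mul_comm, pow_mul]; norm_num
      have h3 : 0 ≤ 4 * t ^ 2 * δ ^ 2 := by positivity
      linarith
    · simp
      positivity
  · push Not at h
    have htpos : 0 < t := lt_of_lt_of_le (by positivity) h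
    have hl : cl t ≤ p := by
      apply cl_le
      refine lt_of_lt_of_le ?_ h
      rw [pow_succ]
      have : (0:ℝ) < (1 / 2) ^ p := by positivity
      linarith
    have htau : tau p (cl t) = (1 / 2) ^ cl t := by
      rw [tau, if_neg (by omega)]
    have ha : t ≤ (1 / 2) ^ cl t := le_cl ht1
    have hb : (1 / 2 : ℝ) ^ cl t < 2 * t := by
      have := cl_spec htpos
      rw [pow_succ] at this
      linarith
    set τ : ℝ := (1 / 2) ^ cl t with hτ
    have hτ0 : 0 < τ := by positivity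
    set h' := τ * δ / √(#C) with hh
    have hh0 : 0 < h' := by positivity
    refine ⟨cl t, by omega, fun i => round (w i / h'), ?_, ?_⟩
    · rw [htau, ← hh]
      calc ∑ i ∈ C, (w i - h' * (round (w i / h') : ℤ)) ^ 2 ≤ ∑ i ∈ C, h' ^ 2 := by
            apply sum_le_sum
            intro i _
            have h1 := abs_sub_round (w i / h')
            have h2 : w i - h' * (round (w i / h') : ℤ) = h' * (w i / h' - round (w i / h')) := by
              field_simp
            rw [h2, mul_pow]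
            have h3 : (w i / h' - (round (w i / h') : ℤ)) ^ 2 ≤ 1 := by
              rw [← sq_abs]
              have := abs_nonneg (w i / h' - (round (w i / h') : ℤ))
              nlinarith
            nlinarith [sq_nonneg h']
        _ = τ ^ 2 * δ ^ 2 := by
            rw [sum_const, nsmul_eq_mul, hh, div_pow, Real.sq_sqrt hc.le]
            field_simp
        _ ≤ 4 * (∑ i ∈ C, w i ^ 2) * δ ^ 2 + (1 / 4) ^ p := by
            rw [← ht2]
            have h4 : τ ^ 2 ≤ (2 * t) ^ 2 := pow_le_pow_left₀ hτ0.le hb.le 2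
            have h5 : (0:ℝ) ≤ (1 / 4) ^ p := by positivity
            nlinarith [sq_nonneg δ]
    · calc ∑ i ∈ C, |((round (w i / h') : ℤ) : ℝ)| ≤ ∑ i ∈ C, (|w i| / h' + 1) := by
            apply sum_le_sum
            intro i _
            have h1 := abs_sub_round (w i / h')
            have h2 : |((round (w i / h') : ℤ) : ℝ)| ≤ |w i / h'| + |w i / h' - round (w i / h')| := by
              have := abs_sub_abs_le_abs_sub ((round (w i / h') : ℤ) : ℝ) (w i / h')
              rw [abs_sub_comm] at this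
              linarith
            rw [abs_div, abs_of_pos hh0] at h2
            linarith
        _ = (∑ i ∈ C, |w i|) / h' + #C := by
            rw [sum_add_distrib, sum_div]; simp
        _ ≤ #C / δ + #C := by
            refine add_le_add ?_ le_rfl
            rw [div_le_iff₀ hh0]
            have h3 : ∑ i ∈ C, |w i| ≤ √(#C) * t := by
              rw [ht', ← Real.sqrt_mul hc.le]
              apply Real.le_sqrt_of_sq_le
              have := sq_sum_le_card_mul_sum_sq (s := C) (f := fun i => |w i|)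
              simpa using this
            refine h3.trans ?_
            rw [hh]
            have h4 : (#C : ℝ) / δ * (τ * δ / √(#C)) = √(#C) * τ := by
              field_simp
              rw [Real.sq_sqrt hc.le]
            rw [h4]
            gcongr
        _ ≤ 2 * #C / δ := by
            have : (#C : ℝ) ≤ #C / δ := by
              rw [le_div_iff₀ hδ]
              nlinarith
            rw [mul_div_assoc]
            linarith

/-- integer vectors with bounded `ℓ¹` norm -/
noncomputable def Zs (ι : Type) [Fintype ι] (K : ℕ) : Finset (ι → ℤ) :=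
  by classical exact {z ∈ Fintype.piFinset fun _ : ι => Icc (-(K : ℤ)) K | ∑ i, |z i| ≤ K}

lemma geom_Icc (K : ℕ) : ∑ x ∈ Icc (-(K : ℤ)) K, (1 / 2 : ℝ) ^ x.natAbs ≤ 3 := by
  induction K with
  | zero => norm_num
  | succ K ih =>
    have h : ∀ K : ℕ, ∑ x ∈ Icc (-(K : ℤ)) K, (1 / 2 : ℝ) ^ x.natAbs ≤ 3 - 2 * (1 / 2) ^ K := by
      intro K
      induction K with
      | zero => norm_num
      | succ K ih =>
        have e : Icc (-((K + 1 : ℕ) : ℤ)) ((K + 1 : ℕ) : ℤ) =
            insert ((K : ℤ) + 1) (insert (-((K : ℤ) + 1)) (Icc (-(K : ℤ)) K)) := by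
          ext x
          simp only [mem_Icc, mem_insert, Nat.cast_add, Nat.cast_one]
          omega
        rw [e, sum_insert, sum_insert]
        · have e1 : ((K : ℤ) + 1).natAbs = K + 1 := by omega
          have e2 : (-((K : ℤ) + 1)).natAbs = K + 1 := by omega
          rw [e1, e2, pow_succ]
          linarith
        · simp
        · simp only [mem_insert, mem_Icc, not_or]
          omega
    refine (h (K + 1)).trans ?_
    have : (0:ℝ) ≤ (1 / 2) ^ (K + 1) := by positivity
    linarith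

lemma card_Zs (ι : Type) [Fintype ι] (K : ℕ) : ((Zs ι K).card : ℝ) ≤ 3 ^ Fintype.card ι * 2 ^ K := by
  classical
  have h1 : ((Zs ι K).card : ℝ) * (1 / 2) ^ K ≤ ∑ z ∈ Zs ι K, ∏ i, (1 / 2 : ℝ) ^ (z i).natAbs := by
    rw [← nsmul_eq_mul, ← sum_const]
    apply sum_le_sum
    intro z hz
    rw [prod_pow_eq_pow_sum]
    apply pow_le_pow_of_le_one (by norm_num) (by norm_num)
    simp only [Zs, mem_filter] at hz
    have : ((∑ i, (z i).natAbs : ℕ) : ℤ) ≤ K := by
      push_cast
      simpa using hz.2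
    exact_mod_cast this
  have h2 : ∑ z ∈ Zs ι K, ∏ i, (1 / 2 : ℝ) ^ (z i).natAbs ≤ 3 ^ Fintype.card ι := by
    calc _ ≤ ∑ z ∈ Fintype.piFinset fun _ : ι => Icc (-(K : ℤ)) K, ∏ i, (1 / 2 : ℝ) ^ (z i).natAbs := by
          apply sum_le_sum_of_subset_of_nonneg
          · intro z hz
            simp only [Zs, mem_filter] at hz
            exact hz.1
          · intro z _ _
            positivity
      _ = ∏ _i : ι, ∑ x ∈ Icc (-(K : ℤ)) K, (1 / 2 : ℝ) ^ x.natAbs := by
          rw [prod_univ_sum]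
      _ ≤ ∏ _i : ι, (3 : ℝ) := by
          apply prod_le_prod
          · intro i _
            positivity
          · intro i _
            exact geom_Icc K
      _ = _ := by simp
  have h3 : (1 / 2 : ℝ) ^ K * 2 ^ K = 1 := by rw [← mul_pow]; norm_num
  have h4 : (0:ℝ) < 2 ^ K := by positivity
  calc ((Zs ι K).card : ℝ) = ((Zs ι K).card : ℝ) * (1 / 2) ^ K * 2 ^ K := by
        rw [mul_assoc, h3, mul_one]
    _ ≤ _ := mul_le_mul_of_nonneg_right (h1.trans h2) h4.le

end Pool.Agent.Helper26.Bmoa.Nets
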