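import Pool.Agent.Helper26.Bmoa.Nets3

set_option autoImplicit false

/-!
Chaining for the unions of the ellipsoids of all dyadic levels, part 4: quantisation of one stage.
-/

namespace Pool.Agent.Helper26.Bmoa.Nets

open Finset

variable {N : ℕ} {m : ℕ → ℝ}

/-- the cells of a class -/
noncomputable def C (N : ℕ) (m : ℕ → ℝ) (L q : ℕ) : Finset ℕ :=
  {i ∈ range N | 0 < M N m L i ∧ cl (M N m L i) = q}

/-- precision -/
noncomputable def del (N : ℕ) (m : ℕ → ℝ) (p L q : ℕ) : ℝ := (r4 (s N m L q) / r4 (2 ^ p)) ^ 3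

/-- active cells -/
noncomputable def Act (N : ℕ) (m : ℕ → ℝ) (p L : ℕ) : Finset ℕ :=
  {i ∈ range N | 0 < M N m L i ∧ cl (M N m L i) ≤ 2 * p ∧ s N m L (cl (M N m L i)) ≤ 2 ^ p}

lemma card_Act (p L : ℕ) : #(Act N m p L) ≤ 2 ^ p := by
  rcases (Act N m p L).eq_empty_or_nonempty with h | h
  · rw [h]; simp
  · obtain ⟨i, hi, hmax⟩ := exists_max_image _ (fun i => cl (M N m L i)) h
    have hi' := hi
    rw [Act, mem_filter] at hi'
    refine le_trans (card_le_card fun j hj => ?_) hi'.2.2.2
    have h1 := hmax j hj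
    rw [Act, mem_filter] at hj
    rw [mem_filter]
    refine ⟨hj.1, lt_of_le_of_lt ?_ (cl_spec hj.2.1)⟩
    exact pow_le_pow_of_le_one (by norm_num) (by norm_num) (by omega)

/-- the value at a cell -/
noncomputable def uh (N : ℕ) (m : ℕ → ℝ) (p L : ℕ) (l : ℕ → ℕ) (z : ℕ → ℤ) (i : ℕ) : ℝ :=
  if i ∈ Act N m p L then tau p (l (cl (M N m L i))) * del N m p L (cl (M N m L i)) /
    √(#(C N m L (cl (M N m L i)))) * z i else 0

/-- the points of the nets -/
noncomputable def nf (N : ℕ) (m : ℕ → ℝ) (p L : ℕ) (l : ℕ → ℕ) (z : ℕ → ℤ) (k : ℕ) : ℝ :=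
  uh N m p L l z (k / 2 ^ L)

lemma mem_C {L q i : ℕ} : i ∈ C N m L q ↔ i < N ∧ 0 < M N m L i ∧ cl (M N m L i) = q := by
  rw [C, mem_filter, mem_range]

lemma C_card_le (L q : ℕ) : #(C N m L q) + (if q = 0 then 0 else s N m L (q - 1)) ≤ s N m L q := by
  have h1 : C N m L q ⊆ {i ∈ range N | (1 / 2 : ℝ) ^ (q + 1) < M N m L i} := by
    intro i hi
    rw [mem_C] at hi
    rw [mem_filter, mem_range]
    refine ⟨hi.1, ?_⟩
    rw [← hi.2.2]
    exact cl_spec hi.2.1
  split_ifs with hq
  · rw [add_zero]
    exact card_le_card h1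
  · unfold s
    rw [← card_union_of_disjoint]
    · apply card_le_card
      apply union_subset h1
      intro i hi
      rw [mem_filter] at hi ⊢
      refine ⟨hi.1, lt_of_le_of_lt ?_ hi.2⟩
      exact pow_le_pow_of_le_one (by norm_num) (by norm_num) (by omega)
    · rw [disjoint_left]
      intro i hi hi'
      rw [mem_C] at hi
      rw [mem_filter] at hi'
      have h2 := cl_le hi'.2
      omega

lemma s_pos {L q : ℕ} (h : (C N m L q).Nonempty) : 0 < s N m L q := by
  have := C_card_le (N := N) (m := m) L q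
  have := h.card_pos
  omega

/-- the cost of a class -/
lemma cost_class {p L q : ℕ} (hs : s N m L q ≤ 2 ^ p) :
    2 * #(C N m L q) / del N m p L q ≤ 8 * r4 (2 ^ p) ^ 3 *
      (min (r4 (s N m L q)) (r4 (2 ^ p)) - if q = 0 then 0 else
        min (r4 (s N m L (q - 1))) (r4 (2 ^ p))) := by
  set a := r4 ((2:ℝ) ^ p) with ha
  have ha0 : 0 < a := r4_pos (by positivity)
  set S := r4 (s N m L q) with hS
  have hS0 : 0 ≤ S := r4_nonneg _
  have hSa : S ≤ a := by
    apply r4_mono
    exact_mod_cast hs
  rw [min_eq_left hSa]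
  set S' : ℝ := if q = 0 then 0 else r4 (s N m L (q - 1)) with hS'
  have hS'0 : 0 ≤ S' := by
    rw [hS']; split_ifs
    · exact le_rfl
    · exact r4_nonneg _
  have hS'S : S' ≤ S := by
    rw [hS']; split_ifs
    · exact hS0
    · apply r4_mono
      exact_mod_cast s_mono (by omega)
  have e : (if q = 0 then (0:ℝ) else min (r4 (s N m L (q - 1))) a) = S' := by
    rw [hS']
    split_ifs with h
    · rfl
    · rw [min_eq_left]
      refine le_trans ?_ hSa
      apply r4_mono
      exact_mod_cast s_mono (by omega)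
  rw [e]
  have hcard : (#(C N m L q) : ℝ) ≤ S ^ 4 - S' ^ 4 := by
    have h1 := C_card_le (N := N) (m := m) L q
    have h2 : S ^ 4 = s N m L q := r4_pow (by positivity)
    have h3 : S' ^ 4 = ((if q = 0 then 0 else s N m L (q - 1) : ℕ) : ℝ) := by
      rw [hS']
      split_ifs
      · simp
      · rw [r4_pow (by positivity)]
    rw [h2, h3]
    have : ((#(C N m L q) + (if q = 0 then 0 else s N m L (q - 1)) : ℕ) : ℝ) ≤ s N m L q := by
      exact_mod_cast h1
    push_cast at this ⊢
    linarith
  rcases hS0.eq_or_lt with h | h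
  · have h4 : S' = 0 := le_antisymm (hS'S.trans h.symm.le) hS'0
    rw [← h, h4] at hcard
    have h5 : (#(C N m L q) : ℝ) = 0 := le_antisymm (by simpa using hcard) (by positivity)
    rw [h5, ← h, h4]
    simp
  · rw [del, ← hS, ← ha, div_pow, div_div_eq_mul_div, div_le_iff₀ (by positivity)]
    have h6 : S ^ 4 - S' ^ 4 ≤ 4 * S ^ 3 * (S - S') := by
      have : 4 * S ^ 3 * (S - S') - (S ^ 4 - S' ^ 4) =
          (S - S') * ((S ^ 3 - S' ^ 3) + S * (S ^ 2 - S' ^ 2) + S ^ 2 * (S - S')) := by ring
      have h7 : S' ^ 3 ≤ S ^ 3 := pow_le_pow_left₀ hS'0 hS'S 3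
      have h8 : S' ^ 2 ≤ S ^ 2 := pow_le_pow_left₀ hS'0 hS'S 2
      have : 0 ≤ 4 * S ^ 3 * (S - S') - (S ^ 4 - S' ^ 4) := by
        rw [this]
        apply mul_nonneg (by linarith)
        have : 0 ≤ S * (S ^ 2 - S' ^ 2) := mul_nonneg h.le (by linarith)
        have : 0 ≤ S ^ 2 * (S - S') := mul_nonneg (by positivity) (by linarith)
        linarith
      linarith
    calc 2 * (#(C N m L q) : ℝ) * a ^ 3 ≤ 2 * (4 * S ^ 3 * (S - S')) * a ^ 3 := by
          gcongr
          exact hcard.trans h6
      _ = _ := by ring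

/-- Quantisation of a weight on the cells of level `L`, at stage `p`. -/
lemma stage_quant (hm : ∀ k, 0 ≤ m k) (h1 : ∑ k ∈ range N, m k ≤ 1) (p L : ℕ) (w : ℕ → ℝ)
    (hw : ∑ i ∈ range N, w i ^ 2 ≤ 1) :
    ∃ (l : ℕ → ℕ) (z : ℕ → ℤ), (∀ q, l q ≤ p + 1) ∧
      ∑ i ∈ Act N m p L, |(z i : ℝ)| ≤ 8 * 2 ^ p ∧
      ∑ k ∈ range N, m k * (w (k / 2 ^ L) - nf N m p L l z k) ^ 2 ≤
        4 * ∑ q ∈ range (2 * p + 1), (1 / 2) ^ q * T2 N m L w q *
          (min 1 (r4 (s N m L q) / r4 (2 ^ p)) ^ 3) ^ 2 + 3 * (1 / 4) ^ p := by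
  classical
  set a := r4 ((2:ℝ) ^ p) with ha
  have ha0 : 0 < a := r4_pos (by positivity)
  have hq : ∀ q, ∃ l : ℕ, l ≤ p + 1 ∧ ∃ z : ℕ → ℤ, s N m L q ≤ 2 ^ p →
      (∑ i ∈ C N m L q, (w i - tau p l * del N m p L q / √(#(C N m L q)) * z i) ^ 2 ≤
        4 * (∑ i ∈ C N m L q, w i ^ 2) * del N m p L q ^ 2 + (1 / 4) ^ p ∧
      ∑ i ∈ C N m L q, |(z i : ℝ)| ≤ 2 * #(C N m L q) / del N m p L q) := by
    intro q
    by_cases hs : s N m L q ≤ 2 ^ p
    · have hsum : ∑ i ∈ C N m L q, w i ^ 2 ≤ 1 :=
        (sum_le_sum_of_subset_of_nonneg (filter_subset _ _) fun _ _ _ => sq_nonneg _).trans hw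
      obtain ⟨l, hl, z, hz⟩ := quant (C N m L q) w (δ := del N m p L q) (fun hne => by
        have := s_pos hne
        have h2 : 0 < r4 (s N m L q) := r4_pos (by exact_mod_cast this)
        rw [del, ← ha]
        positivity) (by
        rw [del, ← ha]
        apply pow_le_one₀ (div_nonneg (r4_nonneg _) ha0.le)
        rw [div_le_one ha0]
        apply r4_mono
        exact_mod_cast hs) p hsum
      exact ⟨l, hl, z, fun _ => hz⟩
    · exact ⟨0, by omega, 0, fun h => absurd h hs⟩
  choose l hl z hz using hq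
  refine ⟨l, fun i => z (cl (M N m L i)) i, hl, ?_, ?_⟩
  · -- the cost
    have e1 : ∑ i ∈ Act N m p L, |(z (cl (M N m L i)) i : ℝ)| = ∑ q ∈ range (2 * p + 1),
        ∑ i ∈ Act N m p L with cl (M N m L i) = q, |(z (cl (M N m L i)) i : ℝ)| := by
      rw [sum_fiberwise_of_maps_to]
      intro i hi
      rw [Act, mem_filter] at hi
      rw [mem_range]
      omega
    rw [e1]
    set Gf : ℕ → ℝ := fun q => if q = 0 then 0 else min (r4 (s N m L (q - 1))) a with hGf
    calc _ ≤ ∑ q ∈ range (2 * p + 1), 8 * a ^ 3 * (Gf (q + 1) - Gf q) := by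
          apply sum_le_sum
          intro q hq
          by_cases hs : s N m L q ≤ 2 ^ p
          · calc _ ≤ ∑ i ∈ C N m L q, |(z q i : ℝ)| := by
                  have h2 : ∑ i ∈ Act N m p L with cl (M N m L i) = q, |(z (cl (M N m L i)) i : ℝ)| =
                      ∑ i ∈ Act N m p L with cl (M N m L i) = q, |(z q i : ℝ)| := by
                    apply sum_congr rfl
                    intro i hi
                    rw [(mem_filter.1 hi).2]
                  rw [h2]
                  apply sum_le_sum_of_subset_of_nonneg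
                  · intro i hi
                    rw [mem_filter, Act, mem_filter, mem_range] at hi
                    rw [mem_C]
                    exact ⟨hi.1.1, hi.1.2.1, hi.2⟩
                  · intro _ _ _
                    exact abs_nonneg _
              _ ≤ 2 * #(C N m L q) / del N m p L q := (hz q hs).2
              _ ≤ _ := by
                  have := cost_class (N := N) (m := m) (L := L) (q := q) hs
                  rw [← ha] at this
                  simp only [hGf, Nat.add_eq_zero_iff, one_ne_zero, and_false, if_false,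
                    Nat.add_sub_cancel]
                  exact this
          · have h2 : (Act N m p L).filter (fun i => cl (M N m L i) = q) = ∅ := by
              rw [filter_eq_empty_iff]
              intro i hi hiq
              rw [Act, mem_filter, hiq] at hi
              exact hs hi.2.2.2
            rw [h2, sum_empty]
            apply mul_nonneg (by positivity)
            rw [sub_nonneg]
            simp only [hGf, Nat.add_eq_zero_iff, one_ne_zero, and_false, if_false,
                    Nat.add_sub_cancel]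
            split_ifs
            · exact le_min (r4_nonneg _) ha0.le
            · apply min_le_min_right
              apply r4_mono
              exact_mod_cast s_mono (by omega)
      _ = 8 * a ^ 3 * (Gf (2 * p + 1) - Gf 0) := by
          rw [← mul_sum, sum_range_sub]
      _ ≤ 8 * a ^ 3 * a := by
          gcongr
          have : Gf 0 = 0 := by simp [hGf]
          rw [this, sub_zero]
          simp only [hGf]
          split_ifs
          all_goals first | exact ha0.le | exact min_le_right _ _
      _ = 8 * 2 ^ p := by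
          have := r4_pow (x := (2:ℝ) ^ p) (by positivity)
          rw [← ha] at this
          rw [← this]
          ring
  · -- the error
    have e0 := sum_cells (N := N) (m := m)
      (fun i => (w i - uh N m p L l (fun i => z (cl (M N m L i)) i) i) ^ 2) L
    unfold nf
    rw [e0]
    set U : ℕ → ℝ := uh N m p L l (fun i => z (cl (M N m L i)) i) with hU
    have hpt : ∀ i ∈ range N, M N m L i * (w i - U i) ^ 2 ≤
        ∑ q ∈ range (2 * p + 1), (if i ∈ C N m L q then (1 / 2) ^ q * (w i - U i) ^ 2 else 0) +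
          1 / 2 * (1 / 4) ^ p * w i ^ 2 := by
      intro i hi
      have hnn : 0 ≤ ∑ q ∈ range (2 * p + 1),
          (if i ∈ C N m L q then (1 / 2 : ℝ) ^ q * (w i - U i) ^ 2 else 0) :=
        sum_nonneg fun q _ => by split_ifs <;> positivity
      rcases (M_nonneg (N := N) hm L i).eq_or_lt with h0 | h0
      · rw [← h0, zero_mul]
        positivity
      · have h2 := le_cl (M_le_one (N := N) hm h1 L i)
        by_cases hc : cl (M N m L i) ≤ 2 * p
        · have h3 := single_le_sum (f := fun q => if i ∈ C N m L q then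
            (1 / 2 : ℝ) ^ q * (w i - U i) ^ 2 else 0) (fun q _ => by split_ifs <;> positivity)
            (mem_range.2 (by omega : cl (M N m L i) < 2 * p + 1))
          have h4 : i ∈ C N m L (cl (M N m L i)) := mem_C.2 ⟨mem_range.1 hi, h0, rfl⟩
          simp only [h4, if_true] at h3
          have h5 : M N m L i * (w i - U i) ^ 2 ≤ (1 / 2) ^ cl (M N m L i) * (w i - U i) ^ 2 := by
            gcongr
          have h6 : 0 ≤ 1 / 2 * (1 / 4 : ℝ) ^ p * w i ^ 2 := by positivity
          linarith
        · have h7 : U i = 0 := by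
            rw [hU, uh, if_neg]
            intro hcon
            rw [Act, mem_filter] at hcon
            exact hc hcon.2.2.1
          rw [h7, sub_zero] at hnn ⊢
          have h8 : (1 / 2 : ℝ) ^ cl (M N m L i) ≤ (1 / 2) ^ (2 * p + 1) :=
            pow_le_pow_of_le_one (by norm_num) (by norm_num) (by omega)
          have h9 : (1 / 2 : ℝ) ^ (2 * p + 1) = 1 / 2 * (1 / 4) ^ p := by
            rw [pow_succ, pow_mul]; norm_num; ring
          have h10 : M N m L i * w i ^ 2 ≤ (1 / 2 * (1 / 4) ^ p) * w i ^ 2 := by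
            rw [← h9]
            gcongr
            exact h2.trans h8
          linarith
    refine (sum_le_sum hpt).trans ?_
    rw [sum_add_distrib, sum_comm, ← mul_sum]
    have hcls : ∀ q ∈ range (2 * p + 1),
        ∑ i ∈ range N, (if i ∈ C N m L q then (1 / 2 : ℝ) ^ q * (w i - U i) ^ 2 else 0) ≤
        4 * ((1 / 2) ^ q * T2 N m L w q * (min 1 (r4 (s N m L q) / a) ^ 3) ^ 2) +
          (1 / 2) ^ q * (1 / 4) ^ p := by
      intro q hq
      have e2 : ∑ i ∈ range N, (if i ∈ C N m L q then (1 / 2 : ℝ) ^ q * (w i - U i) ^ 2 else 0) =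
          (1 / 2) ^ q * ∑ i ∈ C N m L q, (w i - U i) ^ 2 := by
        rw [mul_sum, ← sum_filter]
        apply sum_congr
        · ext i
          rw [mem_filter, mem_range, mem_C]
          tauto
        · intro _ _; rfl
      have e3 : T2 N m L w q = ∑ i ∈ C N m L q, w i ^ 2 := rfl
      have hT : 0 ≤ T2 N m L w q := T2_nonneg _ _ _
      rw [e2]
      suffices h : ∑ i ∈ C N m L q, (w i - U i) ^ 2 ≤
          4 * T2 N m L w q * (min 1 (r4 (s N m L q) / a) ^ 3) ^ 2 + (1 / 4) ^ p by
        have h2 : (0:ℝ) ≤ (1 / 2) ^ q := by positivity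
        have := mul_le_mul_of_nonneg_left h h2
        refine this.trans (le_of_eq ?_)
        ring
      by_cases hs : s N m L q ≤ 2 ^ p
      · have h3 := (hz q hs).1
        have hr : r4 (s N m L q) / a ≤ 1 := by
          rw [div_le_one ha0]
          apply r4_mono
          exact_mod_cast hs
        rw [min_eq_right hr, e3]
        have h4 : ∑ i ∈ C N m L q, (w i - U i) ^ 2 = ∑ i ∈ C N m L q,
            (w i - tau p (l q) * del N m p L q / √(#(C N m L q)) * z q i) ^ 2 := by
          apply sum_congr rfl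
          intro i hi
          rw [mem_C] at hi
          have hact : i ∈ Act N m p L := by
            rw [Act, mem_filter, mem_range, hi.2.2]
            rw [mem_range] at hq
            exact ⟨hi.1, hi.2.1, by omega, hs⟩
          rw [hU, uh, if_pos hact, hi.2.2]
        rw [h4]
        exact h3
      · have hr : 1 ≤ r4 (s N m L q) / a := by
          rw [one_le_div ha0]
          apply r4_mono
          push Not at hs
          exact_mod_cast hs.le
        rw [min_eq_left hr]
        have h4 : ∑ i ∈ C N m L q, (w i - U i) ^ 2 = T2 N m L w q := by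
          rw [e3]
          apply sum_congr rfl
          intro i hi
          rw [mem_C] at hi
          have hact : i ∉ Act N m p L := by
            intro hcon
            rw [Act, mem_filter, hi.2.2] at hcon
            exact hs hcon.2.2.2
          rw [hU, uh, if_neg hact, sub_zero]
        rw [h4]
        have : (0:ℝ) ≤ (1 / 4) ^ p := by positivity
        norm_num
        linarith
    refine (add_le_add (sum_le_sum hcls) le_rfl).trans ?_
    rw [sum_add_distrib, ← mul_sum, ← sum_mul]
    have hgeo : ∑ q ∈ range (2 * p + 1), (1 / 2 : ℝ) ^ q ≤ 2 := by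
      rw [geom_sum_eq (by norm_num)]
      have : (0:ℝ) ≤ (1 / 2) ^ (2 * p + 1) := by positivity
      rw [div_le_iff_of_neg (by norm_num)]
      linarith
    have h5 : (0:ℝ) < (1 / 4) ^ p := by positivity
    have h6 : (∑ q ∈ range (2 * p + 1), (1 / 2 : ℝ) ^ q) * (1 / 4) ^ p ≤ 2 * (1 / 4) ^ p := by gcongr
    have h7 : 1 / 2 * (1 / 4 : ℝ) ^ p * ∑ i ∈ range N, w i ^ 2 ≤ 1 / 2 * (1 / 4) ^ p * 1 := by gcongr
    linarith

end Pool.Agent.Helper26.Bmoa.Nets
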