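import Pool.Agent.Helper26.Bmoa.Nets4

set_option autoImplicit false

/-!
Chaining for the unions of the ellipsoids of all dyadic levels, part 5: the nets and the final sum.
-/

namespace Pool.Agent.Helper26.Bmoa.Nets

open Finset

variable {N : ℕ} {m : ℕ → ℝ}

/-- extension by zero -/
noncomputable def extz (A : Finset ℕ) (z : A → ℤ) (i : ℕ) : ℤ :=
  if h : i ∈ A then z ⟨i, h⟩ else 0

/-- extension of the code of the scales -/
def extl (p : ℕ) (l : Fin (2 * p + 1) → Fin (p + 2)) (q : ℕ) : ℕ := (l (Fin.ofNat (2 * p + 1) q)).val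

noncomputable local instance : DecidableEq (ℕ → ℝ) := Classical.decEq _

/-- the net of stage `p` -/
noncomputable def Up (N : ℕ) (m : ℕ → ℝ) (p : ℕ) : Finset (ℕ → ℝ) :=
  (range (2 ^ (8 * p) + 1)).biUnion fun κ =>
    (univ : Finset (Fin (2 * p + 1) → Fin (p + 2))).biUnion fun l =>
      (Zs (Act N m p (lev N m p κ)) (8 * 2 ^ p)).image fun z =>
        nf N m p (lev N m p κ) (extl p l) (extz _ z)

lemma mem_Zs {ι : Type} [Fintype ι] {K : ℕ} {z : ι → ℤ} (h : ∑ i, |z i| ≤ (K : ℤ)) : z ∈ Zs ι K := by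
  classical
  unfold Zs
  rw [mem_filter]
  refine ⟨?_, h⟩
  rw [Fintype.mem_piFinset]
  intro i
  rw [mem_Icc, ← abs_le]
  refine le_trans ?_ h
  exact single_le_sum (f := fun i : ι => |z i|) (fun _ _ => abs_nonneg _) (mem_univ i)

lemma mem_Up {p κ : ℕ} (hκ : κ < 2 ^ (8 * p) + 1) {l : ℕ → ℕ} (hl : ∀ q, l q ≤ p + 1) {z : ℕ → ℤ}
    (hz : ∑ i ∈ Act N m p (lev N m p κ), |(z i : ℝ)| ≤ 8 * 2 ^ p) :
    nf N m p (lev N m p κ) l z ∈ Up N m p := by
  unfold Up
  rw [mem_biUnion]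
  refine ⟨κ, mem_range.2 hκ, ?_⟩
  rw [mem_biUnion]
  refine ⟨fun q => ⟨l q, by have := hl q; omega⟩, mem_univ _, ?_⟩
  rw [mem_image]
  refine ⟨fun i => z i, ?_, ?_⟩
  · have h1 : ∑ i ∈ Act N m p (lev N m p κ), |z i| ≤ 8 * 2 ^ p := by exact_mod_cast hz
    have h2 : ∑ i : Act N m p (lev N m p κ), |z i| ≤ ((8 * 2 ^ p : ℕ) : ℤ) := by
      rw [← sum_coe_sort] at h1
      push_cast
      exact h1
    exact mem_Zs h2
  · funext k
    unfold nf uh
    split_ifs with h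
    · have h3 : cl (M N m (lev N m p κ) (k / 2 ^ lev N m p κ)) ≤ 2 * p := by
        rw [Act, mem_filter] at h
        exact h.2.2.1
      have h4 : extl p (fun q => ⟨l q, by have := hl q; omega⟩)
          (cl (M N m (lev N m p κ) (k / 2 ^ lev N m p κ))) =
          l (cl (M N m (lev N m p κ) (k / 2 ^ lev N m p κ))) := by
        simp only [extl, Fin.ofNat]
        rw [Nat.mod_eq_of_lt (by omega)]
      rw [h4, extz, dif_pos h]
    · rfl

lemma two_pow_aux1 (p : ℕ) : 8 * p + 1 ≤ 6 * 2 ^ p := by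
  induction p with
  | zero => norm_num
  | succ p ih =>
    rcases Nat.eq_zero_or_pos p with h | h
    · subst h; norm_num
    · rw [pow_succ]
      have : 2 ≤ 2 ^ p := by
        calc 2 = 2 ^ 1 := by norm_num
          _ ≤ 2 ^ p := Nat.pow_le_pow_right (by norm_num) h
      omega

lemma two_pow_aux2 (p : ℕ) : (p + 1) * (2 * p + 1) ≤ 4 * 2 ^ p := by
  induction p with
  | zero => norm_num
  | succ p ih =>
    rcases Nat.lt_or_ge p 2 with h | h
    · interval_cases p <;> norm_num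
    · rw [pow_succ]
      nlinarith

lemma card_Up (p : ℕ) : ((Up N m p).card : ℝ) ≤ 2 ^ (20 * 2 ^ p) := by
  have h1 : ∀ κ, ((Zs (Act N m p (lev N m p κ)) (8 * 2 ^ p)).card : ℝ) ≤ 3 ^ (2 ^ p) * 2 ^ (8 * 2 ^ p) := by
    intro κ
    refine (card_Zs _ _).trans ?_
    gcongr
    · norm_num
    · rw [Fintype.card_coe]
      exact card_Act p _
  have h2 : ((Up N m p).card : ℝ) ≤ ∑ κ ∈ range (2 ^ (8 * p) + 1),
      ∑ l : Fin (2 * p + 1) → Fin (p + 2), (3 ^ (2 ^ p) * 2 ^ (8 * 2 ^ p) : ℝ) := by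
    unfold Up
    refine le_trans (Nat.cast_le.2 card_biUnion_le) ?_
    rw [Nat.cast_sum]
    apply sum_le_sum
    intro κ _
    refine le_trans (Nat.cast_le.2 card_biUnion_le) ?_
    rw [Nat.cast_sum]
    apply sum_le_sum
    intro l _
    exact (Nat.cast_le.2 card_image_le).trans (h1 κ)
  refine h2.trans ?_
  rw [sum_const, sum_const, card_range, card_univ, Fintype.card_fun, Fintype.card_fin, Fintype.card_fin,
    nsmul_eq_mul, nsmul_eq_mul]
  push_cast
  have e1 : (2 : ℝ) ^ (8 * p) + 1 ≤ 2 ^ (6 * 2 ^ p) := by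
    calc (2 : ℝ) ^ (8 * p) + 1 ≤ 2 ^ (8 * p) + 2 ^ (8 * p) := by
          gcongr
          exact one_le_pow₀ (by norm_num)
      _ = 2 ^ (8 * p + 1) := by rw [pow_succ]; ring
      _ ≤ _ := pow_le_pow_right₀ (by norm_num) (two_pow_aux1 p)
  have e2 : ((p : ℝ) + 2) ^ (2 * p + 1) ≤ 2 ^ (4 * 2 ^ p) := by
    have h3 : (p : ℝ) + 2 ≤ 2 ^ (p + 1) := by
      have := Nat.lt_two_pow_self (n := p)
      have h4 : p + 2 ≤ 2 ^ (p + 1) := by rw [pow_succ]; omega
      exact_mod_cast h4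
    calc ((p : ℝ) + 2) ^ (2 * p + 1) ≤ (2 ^ (p + 1)) ^ (2 * p + 1) := by gcongr
      _ = 2 ^ ((p + 1) * (2 * p + 1)) := by rw [← pow_mul]
      _ ≤ _ := pow_le_pow_right₀ (by norm_num) (two_pow_aux2 p)
  have e3 : (3 : ℝ) ^ (2 ^ p) ≤ 2 ^ (2 * 2 ^ p) := by
    rw [pow_mul]
    gcongr
    norm_num
  calc ((2 : ℝ) ^ (8 * p) + 1) * (((p : ℝ) + 2) ^ (2 * p + 1) * (3 ^ (2 ^ p) * 2 ^ (8 * 2 ^ p)))
      ≤ 2 ^ (6 * 2 ^ p) * (2 ^ (4 * 2 ^ p) * (2 ^ (2 * 2 ^ p) * 2 ^ (8 * 2 ^ p))) := by gcongr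
    _ = 2 ^ (20 * 2 ^ p) := by
        rw [← pow_add, ← pow_add, ← pow_add]
        congr 1
        ring

/-- weighted Minkowski inequality -/
lemma mink (hm : ∀ k, 0 ≤ m k) (x y : ℕ → ℝ) :
    √(∑ k ∈ range N, m k * (x k + y k) ^ 2) ≤ √(∑ k ∈ range N, m k * x k ^ 2) +
      √(∑ k ∈ range N, m k * y k ^ 2) := by
  have hX : 0 ≤ ∑ k ∈ range N, m k * x k ^ 2 := sum_nonneg fun k _ => mul_nonneg (hm k) (sq_nonneg _)
  have hY : 0 ≤ ∑ k ∈ range N, m k * y k ^ 2 := sum_nonneg fun k _ => mul_nonneg (hm k) (sq_nonneg _)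
  rw [Real.sqrt_le_left (by positivity), add_sq, Real.sq_sqrt hX, Real.sq_sqrt hY]
  have h1 : (∑ k ∈ range N, m k * (x k * y k)) ^ 2 ≤
      (∑ k ∈ range N, m k * x k ^ 2) * ∑ k ∈ range N, m k * y k ^ 2 := by
    have := sum_mul_sq_le_sq_mul_sq (range N) (fun k => √(m k) * x k) (fun k => √(m k) * y k)
    have e1 : ∀ k, √(m k) * x k * (√(m k) * y k) = m k * (x k * y k) := by
      intro k
      have := Real.mul_self_sqrt (hm k)
      calc _ = (√(m k) * √(m k)) * (x k * y k) := by ring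
        _ = _ := by rw [this]
    have e2 : ∀ (z : ℕ → ℝ) k, (√(m k) * z k) ^ 2 = m k * z k ^ 2 := by
      intro z k
      rw [mul_pow, Real.sq_sqrt (hm k)]
    simpa only [e1, e2] using this
  have h2 : ∑ k ∈ range N, m k * (x k * y k) ≤ √(∑ k ∈ range N, m k * x k ^ 2) *
      √(∑ k ∈ range N, m k * y k ^ 2) := by
    rw [← Real.sqrt_mul hX]
    exact Real.le_sqrt_of_sq_le h1
  have h3 : ∑ k ∈ range N, m k * (x k + y k) ^ 2 = ∑ k ∈ range N, m k * x k ^ 2 +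
      2 * ∑ k ∈ range N, m k * (x k * y k) + ∑ k ∈ range N, m k * y k ^ 2 := by
    rw [mul_sum, ← sum_add_distrib, ← sum_add_distrib]
    apply sum_congr rfl
    intro k _
    ring
  rw [h3]
  linarith

lemma sqrt_add_le' {x y : ℝ} (hx : 0 ≤ x) (hy : 0 ≤ y) : √(x + y) ≤ √x + √y := by
  rw [Real.sqrt_le_left (by positivity)]
  nlinarith [Real.sq_sqrt hx, Real.sq_sqrt hy, mul_nonneg (Real.sqrt_nonneg x) (Real.sqrt_nonneg y)]

lemma sqrt_sum_le (A : ℕ → ℝ) (hA : ∀ q, 0 ≤ A q) (Q : ℕ) :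
    √(∑ q ∈ range Q, A q) ≤ ∑ q ∈ range Q, √(A q) := by
  induction Q with
  | zero => simp
  | succ Q ih =>
    rw [sum_range_succ, sum_range_succ]
    refine (sqrt_add_le' (sum_nonneg fun q _ => hA q) (hA Q)).trans ?_
    linarith

/-- bound for the norms on classes at the base levels -/
noncomputable def bq (N : ℕ) (m : ℕ → ℝ) (n : ℕ) (v : ℕ → ℝ) (q : ℕ) : ℝ :=
  √(T2 N m n v q) + if q = 0 then 0 else √(T2 N m n v (q - 1))

lemma bq_nonneg (n : ℕ) (v : ℕ → ℝ) (q : ℕ) : 0 ≤ bq N m n v q := by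
  unfold bq; split_ifs <;> positivity

/-- the error factor -/
noncomputable def ef (N : ℕ) (m : ℕ → ℝ) (p L q : ℕ) : ℝ := min 1 (r4 (s N m L q) / r4 (2 ^ p)) ^ 3

lemma ef_nonneg (p L q : ℕ) : 0 ≤ ef N m p L q := by
  unfold ef
  exact pow_nonneg (le_min zero_le_one (div_nonneg (r4_nonneg _) (r4_nonneg _))) 3

/-- one stage -/
lemma stage (hm : ∀ k, 0 ≤ m k) (h1 : ∑ k ∈ range N, m k ≤ 1) {p : ℕ} (hp : 1 ≤ p) (n : ℕ)
    (v : ℕ → ℝ) (hv : ∑ j ∈ range N, v j ^ 2 ≤ 1) :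
    ∃ u ∈ Up N m p, √(∑ k ∈ range N, m k * (v (k / 2 ^ n) - u k) ^ 2) ≤
      4 * (1 / 2) ^ p + 2 * ∑ q ∈ range (2 * p + 1), √((1 / 2) ^ q) * bq N m n v q * ef N m p n q := by
  set L := lev N m p (kap N m p n) with hL
  set D := n - L with hD
  set w := tr N m hm L D v with hw
  have hw1 : ∑ i ∈ range N, w i ^ 2 ≤ 1 := by
    have := tr_sum (N := N) hm L D v (fun _ => 1)
    simp only [one_mul] at this
    rw [hw, this]
    refine le_trans (sum_le_sum fun j _ => ?_) hv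
    split_ifs
    · exact le_rfl
    · exact sq_nonneg _
  obtain ⟨l, z, hl, hz1, hz2⟩ := stage_quant (N := N) hm h1 p L w hw1
  refine ⟨nf N m p L l z, mem_Up (kap_lt hm h1 p n) hl hz1, ?_⟩
  have hE1 := tr_err (N := N) hm p n v hv
  rw [← hL, ← hD, ← hw] at hE1
  have hM := mink (N := N) hm (fun k => v (k / 2 ^ n) - w (k / 2 ^ L)) (fun k => w (k / 2 ^ L) -
    nf N m p L l z k)
  simp only [sub_add_sub_cancel] at hM
  refine hM.trans ?_
  have hS1 : √(∑ k ∈ range N, m k * (v (k / 2 ^ n) - w (k / 2 ^ L)) ^ 2) ≤ (1 / 2) ^ p := by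
    rw [Real.sqrt_le_left (by positivity)]
    refine hE1.trans ?_
    rw [← pow_mul]
    exact pow_le_pow_of_le_one (by norm_num) (by norm_num) (by omega)
  have hS2 : √(∑ k ∈ range N, m k * (w (k / 2 ^ L) - nf N m p L l z k) ^ 2) ≤
      2 * ∑ q ∈ range (2 * p + 1), √((1 / 2) ^ q) * bq N m n v q * ef N m p n q + 2 * (1 / 2) ^ p := by
    refine (Real.sqrt_le_sqrt hz2).trans ?_
    have hA : ∀ q, 0 ≤ (1 / 2) ^ q * T2 N m L w q *
          (min 1 (r4 (s N m L q) / r4 (2 ^ p)) ^ 3) ^ 2 := fun q =>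
      mul_nonneg (mul_nonneg (by positivity) (T2_nonneg _ _ _)) (sq_nonneg _)
    refine (sqrt_add_le' (mul_nonneg (by norm_num) (sum_nonneg fun q _ => hA q)) (by positivity)).trans ?_
    apply add_le_add
    · rw [Real.sqrt_mul (by norm_num)]
      have : √(4:ℝ) = 2 := by
        rw [show (4:ℝ) = 2 ^ 2 by norm_num, Real.sqrt_sq (by norm_num)]
      rw [this]
      gcongr
      refine (sqrt_sum_le _ hA _).trans (sum_le_sum fun q hq => ?_)
      rw [mem_range] at hq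
      rw [Real.sqrt_mul (mul_nonneg (by positivity) (T2_nonneg _ _ _)), Real.sqrt_mul (by positivity)]
      change √((1 / 2) ^ q) * √(T2 N m L w q) * √(ef N m p L q ^ 2) ≤ _
      rw [Real.sqrt_sq (ef_nonneg p L q)]
      have h2 : √(T2 N m L w q) ≤ bq N m n v q := by
        have h3 := T2_tr_le (N := N) hm h1 (n := n) hp (by omega : q ≤ 2 * p) v
        rw [← hL, ← hD, ← hw] at h3
        refine (Real.sqrt_le_sqrt h3).trans ?_
        unfold bq
        split_ifs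
        · simp
        · exact sqrt_add_le' (T2_nonneg _ _ _) (T2_nonneg _ _ _)
      have h4 : ef N m p L q ≤ ef N m p n q := by
        unfold ef
        apply pow_le_pow_left₀ (le_min zero_le_one (div_nonneg (r4_nonneg _) (r4_nonneg _)))
        apply min_le_min_left
        apply div_le_div_of_nonneg_right _ (r4_nonneg _)
        apply r4_mono
        exact_mod_cast s_le (N := N) hm hp (by omega : q ≤ 2 * p)
      apply mul_le_mul _ h4 (ef_nonneg _ _ _) (mul_nonneg (Real.sqrt_nonneg _) (bq_nonneg _ _ _))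
      exact mul_le_mul_of_nonneg_left h2 (Real.sqrt_nonneg _)
    · rw [Real.sqrt_le_left (by positivity), mul_pow, ← pow_mul, mul_comm p 2, pow_mul]
      have : (0:ℝ) < (1 / 4) ^ p := by positivity
      norm_num
  have h5 : (0:ℝ) < (1 / 2) ^ p := by positivity
  linarith

end Pool.Agent.Helper26.Bmoa.Nets
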