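import Pool.Agent.Helper26.Bmoa.Nets5

set_option autoImplicit false

/-!
Chaining for the unions of the ellipsoids of all dyadic levels, part 6: the final sum.
-/

namespace Pool.Agent.Helper26.Bmoa.Nets

open Finset

variable {N : ℕ} {m : ℕ → ℝ}

lemma g_bound : (13 : ℝ) / 11 ≤ √√2 := by
  apply Real.le_sqrt_of_sq_le
  apply Real.le_sqrt_of_sq_le
  norm_num

lemma tel_step {S a : ℝ} (hS : 0 ≤ S) (ha : 0 < a) :
    min 1 (S / a) ^ 3 * a ^ 2 ≤ 24 * (S ^ 2 * (√√2 * a) / (S + √√2 * a) - S ^ 2 * a / (S + a)) := by
  set g := √√2 with hg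
  have h1 : (13 : ℝ) / 11 ≤ g := g_bound
  have hg0 : 0 < g := by linarith
  have e : S ^ 2 * (g * a) / (S + g * a) - S ^ 2 * a / (S + a) =
      S ^ 3 * a * (g - 1) / ((S + g * a) * (S + a)) := by
    field_simp
    ring
  rw [e]
  rcases hS.eq_or_lt with h | h
  · rw [← h]
    simp
  · rcases le_or_gt a S with hc | hc
    · have : min 1 (S / a) = 1 := min_eq_left ((one_le_div ha).2 hc)
      rw [this, one_pow, one_mul]
      rw [mul_div_assoc', le_div_iff₀ (by positivity)]
      have h2 : (S + g * a) * (S + a) ≤ ((1 + g) * S) * (2 * S) := by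
        apply mul_le_mul _ _ (by positivity) (by positivity)
        · nlinarith
        · linarith
      have h3 : a ^ 2 * ((S + g * a) * (S + a)) ≤ a ^ 2 * (((1 + g) * S) * (2 * S)) := by gcongr
      refine h3.trans ?_
      have h4 : 1 + g ≤ 12 * (g - 1) := by linarith
      have h5 : a ^ 2 * (((1 + g) * S) * (2 * S)) ≤ a ^ 2 * (((12 * (g - 1)) * S) * (2 * S)) := by gcongr
      refine h5.trans ?_
      have h6 : 0 ≤ 24 * (g - 1) * S ^ 2 * a * (S - a) := by
        apply mul_nonneg _ (by linarith)
        have : 0 ≤ g - 1 := by linarith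
        positivity
      nlinarith
    · have : min 1 (S / a) = S / a := min_eq_right ((div_le_one ha).2 hc.le)
      rw [this, div_pow]
      have e2 : S ^ 3 / a ^ 3 * a ^ 2 = S ^ 3 / a := by field_simp
      rw [e2, mul_div_assoc', div_le_div_iff₀ ha (by positivity)]
      have h2 : (S + g * a) * (S + a) ≤ ((1 + g) * a) * (2 * a) := by
        apply mul_le_mul _ _ (by positivity) (by positivity)
        · nlinarith
        · linarith
      have h3 : S ^ 3 * ((S + g * a) * (S + a)) ≤ S ^ 3 * (((1 + g) * a) * (2 * a)) := by gcongr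
      refine h3.trans ?_
      have h4 : 1 + g ≤ 12 * (g - 1) := by linarith
      have h5 : S ^ 3 * (((1 + g) * a) * (2 * a)) ≤ S ^ 3 * (((12 * (g - 1)) * a) * (2 * a)) := by gcongr
      refine h5.trans (le_of_eq ?_)
      ring

lemma r4_two_pow_succ (p : ℕ) : r4 ((2:ℝ) ^ (p + 1)) = √√2 * r4 (2 ^ p) := by
  unfold r4
  rw [pow_succ, mul_comm, Real.sqrt_mul (by norm_num), Real.sqrt_mul (by positivity)]

lemma tel (x : ℕ) (P : ℕ) :
    ∑ p ∈ range P, √(2 ^ p) * min 1 (r4 x / r4 (2 ^ p)) ^ 3 ≤ 24 * √x := by
  set S := r4 x with hS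
  have hS0 : 0 ≤ S := r4_nonneg _
  set f : ℕ → ℝ := fun p => 24 * (S ^ 2 * r4 (2 ^ p) / (S + r4 (2 ^ p))) with hf
  have hstep : ∀ p, √(2 ^ p) * min 1 (S / r4 (2 ^ p)) ^ 3 ≤ f (p + 1) - f p := by
    intro p
    have ha : 0 < r4 ((2:ℝ) ^ p) := r4_pos (by positivity)
    have := tel_step hS0 ha
    simp only [hf]
    rw [r4_two_pow_succ, ← r4_sq, mul_comm]
    refine this.trans (le_of_eq ?_)
    ring
  refine (sum_le_sum fun p _ => hstep p).trans ?_
  rw [sum_range_sub]
  have h0 : 0 ≤ f 0 := by
    simp only [hf]
    have : 0 < r4 ((2:ℝ) ^ 0) := r4_pos (by positivity)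
    positivity
  have h1 : f P ≤ 24 * √x := by
    simp only [hf]
    have ha : 0 < r4 ((2:ℝ) ^ P) := r4_pos (by positivity)
    rw [← r4_sq, ← hS]
    gcongr
    rw [div_le_iff₀ (by positivity)]
    nlinarith [sq_nonneg S]
  linarith

lemma sqrt_two_pow (p : ℕ) : √((2:ℝ) ^ p) = √2 ^ p := by
  induction p with
  | zero => simp
  | succ p ih => rw [pow_succ, pow_succ, Real.sqrt_mul (by positivity), ih]

lemma geo_sqrt (P : ℕ) : ∑ p ∈ range P, √((2:ℝ) ^ p) * (4 * (1 / 2) ^ p) ≤ 14 := by
  have h : ∀ p, √((2:ℝ) ^ p) * (4 * (1 / 2) ^ p) = 4 * (√2 * (1 / 2)) ^ p := by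
    intro p
    rw [sqrt_two_pow, mul_pow]
    ring
  simp_rw [h]
  rw [← mul_sum]
  have hs : √(2:ℝ) < 1.4143 := by
    rw [Real.sqrt_lt' (by norm_num)]; norm_num
  have hs0 : 0 ≤ √(2:ℝ) := Real.sqrt_nonneg _
  have h1 := mul_neg_geom_sum (√2 * (1 / 2) : ℝ) P
  have h2 : 0 ≤ (√2 * (1 / 2) : ℝ) ^ P := by positivity
  have h3 : 0 ≤ ∑ p ∈ range P, (√2 * (1 / 2) : ℝ) ^ p := sum_nonneg fun _ _ => by positivity
  nlinarith

lemma sum_T2_le (n : ℕ) (v : ℕ → ℝ) (Q : ℕ) :
    ∑ q ∈ range Q, T2 N m n v q ≤ ∑ j ∈ range N, v j ^ 2 := by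
  have h : ∀ q, T2 N m n v q = ∑ j ∈ range N, if 0 < M N m n j ∧ cl (M N m n j) = q then v j ^ 2 else 0 := by
    intro q
    rw [T2, sum_filter]
  simp_rw [h]
  rw [sum_comm]
  apply sum_le_sum
  intro j _
  calc _ ≤ ∑ q ∈ range Q, if q = cl (M N m n j) then v j ^ 2 else 0 := by
        apply sum_le_sum
        intro q _
        split_ifs with h1 h2 h2
        · exact le_rfl
        · exact absurd h1.2.symm h2
        · exact sq_nonneg _
        · exact le_rfl
    _ ≤ v j ^ 2 := by
        rw [sum_ite_eq']
        split_ifs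
        · exact le_rfl
        · exact sq_nonneg _

lemma sum_s_le (hm : ∀ k, 0 ≤ m k) (h1 : ∑ k ∈ range N, m k ≤ 1) (n Q : ℕ) :
    ∑ q ∈ range Q, (1 / 2 : ℝ) ^ q * s N m n q ≤ 4 := by
  have h : ∀ q, (s N m n q : ℝ) = ∑ j ∈ range N, if (1 / 2 : ℝ) ^ (q + 1) < M N m n j then 1 else 0 := by
    intro q
    rw [s, card_filter]
    push_cast
    rfl
  simp_rw [h, mul_sum]
  rw [sum_comm]
  calc _ ≤ ∑ j ∈ range N, 4 * M N m n j := by
        apply sum_le_sum
        intro j _
        rcases (M_nonneg (N := N) hm n j).eq_or_lt with h0 | h0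
        · rw [← h0, mul_zero]
          apply le_of_eq
          apply sum_eq_zero
          intro q _
          rw [if_neg (not_lt.2 (by positivity)), mul_zero]
        · set x := M N m n j with hx
          have hc := cl_spec h0
          -- sum over `q ≥ cl x`
          have h2 : ∀ Q, ∑ q ∈ range Q, (1 / 2 : ℝ) ^ q * (if (1 / 2 : ℝ) ^ (q + 1) < x then 1 else 0) ≤
              if Q ≤ cl x then 0 else 2 * (1 / 2) ^ cl x - 2 * (1 / 2) ^ Q := by
            intro Q
            induction Q with
            | zero => simp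
            | succ Q ih =>
              rw [sum_range_succ]
              by_cases hQ : (1 / 2 : ℝ) ^ (Q + 1) < x
              · have h3 := cl_le hQ
                rw [if_pos hQ, if_neg (by omega)]
                by_cases h4 : Q ≤ cl x
                · rw [if_pos h4] at ih
                  have : cl x = Q := le_antisymm h3 h4
                  rw [this, pow_succ]
                  linarith
                · rw [if_neg h4] at ih
                  rw [pow_succ]
                  linarith
              · rw [if_neg hQ, mul_zero, add_zero]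
                refine ih.trans ?_
                have h5 : Q < cl x := by
                  by_contra hcon
                  push Not at hcon
                  apply hQ
                  refine lt_of_le_of_lt ?_ hc
                  exact pow_le_pow_of_le_one (by norm_num) (by norm_num) (by omega)
                rw [if_pos h5.le, if_pos (by omega)]
          refine (h2 Q).trans ?_
          split_ifs
          · positivity
          · rw [pow_succ] at hc
            have : (0:ℝ) < (1 / 2) ^ Q := by positivity
            linarith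
    _ = 4 * ∑ j ∈ range N, M N m n j := by rw [mul_sum]
    _ ≤ 4 := by
        rw [sum_M]
        linarith

/-- **Nets.** -/
theorem nets (N : ℕ) (m : ℕ → ℝ) (hm : ∀ k, 0 ≤ m k) (h1 : ∑ k ∈ range N, m k ≤ 1) :
    ∃ U : ℕ → Finset (ℕ → ℝ), (∀ p, ((U p).card : ℝ) ≤ 2 ^ (20 * 2 ^ p)) ∧ U 0 = {0} ∧
      ∀ (n : ℕ) (v : ℕ → ℝ), ∑ j ∈ range N, v j ^ 2 ≤ 1 →
        ∃ u : ℕ → ℕ → ℝ, (∀ p, u p ∈ U p) ∧ ∀ P : ℕ,
          ∑ p ∈ range P, √(2 ^ p) * √(∑ k ∈ range N, m k * (v (k / 2 ^ n) - u p k) ^ 2) ≤ 207 := by
  refine ⟨fun p => if p = 0 then {0} else Up N m p, ?_, by simp, ?_⟩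
  · intro p
    dsimp only
    split_ifs with h
    · rw [card_singleton, Nat.cast_one]
      exact one_le_pow₀ (by norm_num)
    · exact card_Up p
  · intro n v hv
    have hst : ∀ p, ∃ u ∈ (if p = 0 then {0} else Up N m p),
        √(∑ k ∈ range N, m k * (v (k / 2 ^ n) - u k) ^ 2) ≤ (if p = 0 then 1 else 0) +
        4 * (1 / 2) ^ p + 2 * ∑ q ∈ range (2 * p + 1), √((1 / 2) ^ q) * bq N m n v q * ef N m p n q := by
      intro p
      rcases Nat.eq_zero_or_pos p with h | h
      · subst h
        refine ⟨0, by simp, ?_⟩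
        have h2 : √(∑ k ∈ range N, m k * (v (k / 2 ^ n) - (0 : ℕ → ℝ) k) ^ 2) ≤ 1 := by
          rw [Real.sqrt_le_one]
          refine le_trans (sum_le_sum fun k hk => ?_) h1
          have h3 : v (k / 2 ^ n) ^ 2 ≤ 1 := (single_le_sum (f := fun j => v j ^ 2)
            (fun _ _ => sq_nonneg _) (mem_range.2 (div_lt' (mem_range.1 hk)))).trans hv
          have := hm k
          simp only [Pi.zero_apply, sub_zero]
          nlinarith
        have h4 : 0 ≤ 2 * ∑ q ∈ range (2 * 0 + 1), √((1 / 2) ^ q) * bq N m n v q * ef N m 0 n q := by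
          apply mul_nonneg (by norm_num)
          exact sum_nonneg fun q _ => mul_nonneg (mul_nonneg (Real.sqrt_nonneg _) (bq_nonneg _ _ _))
            (ef_nonneg _ _ _)
        rw [if_pos rfl]
        have h5 : (0:ℝ) < 4 * (1 / 2) ^ 0 := by norm_num
        linarith
      · obtain ⟨u, hu, hu2⟩ := stage (N := N) hm h1 h n v hv
        refine ⟨u, by rw [if_neg (by omega)]; exact hu, ?_⟩
        rw [if_neg (by omega)]
        linarith
    choose u hu hu2 using hst
    refine ⟨u, hu, fun P => ?_⟩
    have hs1 : ∑ p ∈ range P, √(2 ^ p) * (if p = 0 then (1:ℝ) else 0) ≤ 1 := by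
      have : ∀ p, √((2:ℝ) ^ p) * (if p = 0 then (1:ℝ) else 0) = if p = 0 then 1 else 0 := by
        intro p
        split_ifs with h
        · subst h; simp
        · simp
      simp_rw [this]
      rw [sum_ite_eq']
      split_ifs <;> norm_num
    have hs2 := geo_sqrt P
    have hs3 : ∑ p ∈ range P, √(2 ^ p) *
        (2 * ∑ q ∈ range (2 * p + 1), √((1 / 2) ^ q) * bq N m n v q * ef N m p n q) ≤ 192 := by
      calc _ ≤ ∑ p ∈ range P, √(2 ^ p) *
            (2 * ∑ q ∈ range (2 * P + 1), √((1 / 2) ^ q) * bq N m n v q * ef N m p n q) := by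
            apply sum_le_sum
            intro p hp
            rw [mem_range] at hp
            refine mul_le_mul_of_nonneg_left (mul_le_mul_of_nonneg_left ?_ (by norm_num))
              (Real.sqrt_nonneg _)
            apply sum_le_sum_of_subset_of_nonneg
            · apply range_subset_range.2
              omega
            · intro q _ _
              exact mul_nonneg (mul_nonneg (Real.sqrt_nonneg _) (bq_nonneg _ _ _)) (ef_nonneg _ _ _)
        _ = 2 * ∑ q ∈ range (2 * P + 1), √((1 / 2) ^ q) * bq N m n v q *
            ∑ p ∈ range P, √(2 ^ p) * ef N m p n q := by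
            simp_rw [mul_sum]
            rw [sum_comm]
            apply sum_congr rfl
            intro q _
            apply sum_congr rfl
            intro p _
            ring
        _ ≤ 2 * ∑ q ∈ range (2 * P + 1), √((1 / 2) ^ q) * bq N m n v q * (24 * √(s N m n q)) := by
            gcongr with q hq
            · exact mul_nonneg (Real.sqrt_nonneg _) (bq_nonneg _ _ _)
            · exact tel _ P
        _ = 48 * ∑ q ∈ range (2 * P + 1), bq N m n v q * √((1 / 2) ^ q * s N m n q) := by
            rw [mul_sum, mul_sum]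
            apply sum_congr rfl
            intro q _
            rw [Real.sqrt_mul (by positivity)]
            ring
        _ ≤ 48 * (√4 * √4) := by
            gcongr
            have hCS := sum_mul_sq_le_sq_mul_sq (range (2 * P + 1)) (fun q => bq N m n v q)
              (fun q => √((1 / 2) ^ q * s N m n q))
            have hb : ∑ q ∈ range (2 * P + 1), bq N m n v q ^ 2 ≤ 4 := by
              have hT := sum_T2_le (N := N) (m := m) n v (2 * P + 1)
              have hT' : ∑ q ∈ range (2 * P + 1), (if q = 0 then 0 else T2 N m n v (q - 1)) ≤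
                  ∑ j ∈ range N, v j ^ 2 := by
                rw [sum_range_succ']
                simp only [Nat.add_eq_zero_iff, one_ne_zero, and_false, if_false, Nat.add_sub_cancel,
                  if_true, add_zero]
                exact sum_T2_le (N := N) (m := m) n v (2 * P)
              calc _ ≤ ∑ q ∈ range (2 * P + 1), (2 * T2 N m n v q +
                    2 * (if q = 0 then 0 else T2 N m n v (q - 1))) := by
                    apply sum_le_sum
                    intro q _
                    unfold bq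
                    split_ifs
                    · rw [add_zero, Real.sq_sqrt (T2_nonneg _ _ _)]
                      have := T2_nonneg (N := N) (m := m) n v q
                      linarith
                    · have e1 := Real.sq_sqrt (T2_nonneg (N := N) (m := m) n v q)
                      have e2 := Real.sq_sqrt (T2_nonneg (N := N) (m := m) n v (q - 1))
                      nlinarith [sq_nonneg (√(T2 N m n v q) - √(T2 N m n v (q - 1)))]
                _ = 2 * ∑ q ∈ range (2 * P + 1), T2 N m n v q +
                    2 * ∑ q ∈ range (2 * P + 1), (if q = 0 then 0 else T2 N m n v (q - 1)) := by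
                    rw [sum_add_distrib, mul_sum, mul_sum]
                _ ≤ 4 := by linarith
            have hs : ∑ q ∈ range (2 * P + 1), √((1 / 2 : ℝ) ^ q * s N m n q) ^ 2 ≤ 4 := by
              have : ∀ q, √((1 / 2 : ℝ) ^ q * s N m n q) ^ 2 = (1 / 2 : ℝ) ^ q * s N m n q := by
                intro q
                exact Real.sq_sqrt (by positivity)
              simp_rw [this]
              exact sum_s_le (N := N) hm h1 n _
            rw [← Real.sqrt_mul (by norm_num)]
            apply Real.le_sqrt_of_sq_le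
            refine hCS.trans ?_
            apply mul_le_mul hb hs (sum_nonneg fun _ _ => sq_nonneg _) (by norm_num)
        _ = 192 := by
            rw [Real.mul_self_sqrt (by norm_num)]
            norm_num
    calc _ ≤ ∑ p ∈ range P, √(2 ^ p) * ((if p = 0 then 1 else 0) +
        4 * (1 / 2) ^ p + 2 * ∑ q ∈ range (2 * p + 1), √((1 / 2) ^ q) * bq N m n v q * ef N m p n q) := by
          apply sum_le_sum
          intro p _
          exact mul_le_mul_of_nonneg_left (hu2 p) (Real.sqrt_nonneg _)
      _ = ∑ p ∈ range P, √(2 ^ p) * (if p = 0 then (1:ℝ) else 0) +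
          ∑ p ∈ range P, √((2:ℝ) ^ p) * (4 * (1 / 2) ^ p) +
          ∑ p ∈ range P, √(2 ^ p) *
        (2 * ∑ q ∈ range (2 * p + 1), √((1 / 2) ^ q) * bq N m n v q * ef N m p n q) := by
          rw [← sum_add_distrib, ← sum_add_distrib]
          apply sum_congr rfl
          intro p _
          ring
      _ ≤ 207 := by linarith

end Pool.Agent.Helper26.Bmoa.Nets
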