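import Mathlib
import Pool.Agent.Helper26.Bmoa.Nec3
import Pool.Agent.Helper26.Bmoa.Nets6

set_option autoImplicit false

/-!
The sufficiency of the condition.
-/

namespace Pool.Agent.Helper26.Bmoa.Stmt

open MeasureTheory ProbabilityTheory Set Filter Topology Det RF Circ Nec
open scoped ENNReal NNReal

lemma radius_mono {μ μ' : ℕ → ℝ} (h0' : ∀ k, 0 ≤ μ' k) (hle : ∀ k, μ' k ≤ μ k) (hs : Summable μ) (p : ℕ) :
    radius μ' p ≤ radius μ p := by
  have h0 : ∀ k, 0 ≤ μ k := fun k => (h0' k).trans (hle k)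
  have hs' : Summable μ' := Summable.of_nonneg_of_le h0' hle hs
  unfold radius
  apply csInf_le_csInf ⟨0, fun ε hε => hε.1⟩
  · refine ⟨2 * √(∑' k, μ k), by positivity, ?_⟩
    have h1 : {t : ℝ | t ∈ Set.Icc 0 (2 * Real.pi) ∧ dist2 μ t ≤ (2 * √(∑' k, μ k)) ^ 2} = Set.Icc 0 (2 * Real.pi) := by
      ext t
      simp only [Set.mem_ofPred_eq, and_iff_left_iff_imp]
      intro _
      refine (dist2_le μ h0 hs t).trans (le_of_eq ?_)
      rw [mul_pow, Real.sq_sqrt (tsum_nonneg h0)]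
      norm_num
    rw [h1, Real.volume_Icc, sub_zero]
    apply ENNReal.ofReal_le_ofReal
    have h2 : (1 / 2 : ℝ) ^ (2 ^ p) ≤ 1 := pow_le_one₀ (by norm_num) (by norm_num)
    have := Real.pi_pos
    nlinarith
  · rintro ε ⟨h1, h2⟩
    refine ⟨h1, h2.trans (measure_mono ?_)⟩
    rintro t ⟨ht1, ht2⟩
    refine ⟨ht1, le_trans ?_ ht2⟩
    unfold dist2
    apply Summable.tsum_le_tsum _ (summable_dist2 μ' h0' hs' t) (summable_dist2 μ h0 hs t)
    intro k
    exact mul_le_mul_of_nonneg_right (hle k) (sq_nonneg _)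

/-- the uniform bound at stage `N` -/
theorem suff_N (a : ℕ → ℂ) (ha : Summable fun k => ‖a k‖ ^ 2) {K : ℝ}
    (hK : ∀ (n : ℕ) (q : ℕ → ℝ), (∀ j, 0 ≤ q j) → q 0 = 0 → Summable q →
      ∑' j, q j ≤ 1 → ∀ P : ℕ, ∑ p ∈ Finset.range P, √(2 ^ p) * radius (fun k => q (k / 2 ^ n) * ‖a k‖ ^ 2) p ≤ K) (N : ℕ) :
    ∃ W : (Fin N → ℝ) → ℝ≥0∞, Measurable W ∧ ∫⁻ x, W x ∂(phases (Fin N)) ≤ 2 ∧ ∀ x, W x < ∞ →
      ∀ c : ℕ → ℂ, (∀ k : Fin N, c k = a k * Complex.exp (Complex.I * x k)) → ∀ n θ,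
        ∑ j ∈ Finset.Ico 1 N, ‖blk c N n j θ‖ ^ 2 ≤
          (210 * (1 + √(Real.log (1 + (W x).toReal))) * (K + 207 * √(∑' k, ‖a k‖ ^ 2))) ^ 2 := by
  classical
  set A := √(∑' k, ‖a k‖ ^ 2) with hA
  have hA0 : 0 ≤ A := Real.sqrt_nonneg _
  have hA2 : A ^ 2 = ∑' k, ‖a k‖ ^ 2 := Real.sq_sqrt (tsum_nonneg fun k => sq_nonneg _)
  -- the nets
  set m : ℕ → ℝ := fun k => ‖a k‖ ^ 2 / A ^ 2 with hm
  have hm0 : ∀ k, 0 ≤ m k := fun k => by simp only [hm]; positivity
  have hm1 : ∑ k ∈ Finset.range N, m k ≤ 1 := by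
    simp only [hm]
    rw [← Finset.sum_div]
    apply div_le_one_of_le₀ _ (sq_nonneg _)
    rw [hA2]
    exact ha.sum_le_tsum _ fun k _ => sq_nonneg _
  obtain ⟨U, hUc, hU0, hUn⟩ := Nets.nets N m hm0 hm1
  set U' : ℕ → Finset (Fin N → ℝ) := fun p => (U p).image (fun f k => f (k : ℕ)) with hU'
  have hU'c : ∀ p, ((U' p).card : ℝ) ≤ 2 ^ (20 * 2 ^ p) := fun p =>
    le_trans (by exact_mod_cast Finset.card_image_le) (hUc p)
  have hU'0 : U' 0 = {0} := by
    simp only [hU']
    rw [hU0, Finset.image_singleton]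
    rfl
  set b : Fin N → ℂ := fun k => a k with hb
  set W₁ : (Fin N → ℝ) → ℝ≥0∞ := ctrl Circ.hm (ck N) b U' with hW₁
  set W₂ : (Fin N → ℝ) → ℝ≥0∞ := ctrl Circ.hm (ck N) (fun k => -Complex.I * b k) U' with hW₂
  have hW₁m : Measurable W₁ := measurable_ctrl (isCharSys N) _ _
  have hW₂m : Measurable W₂ := measurable_ctrl (isCharSys N) _ _
  refine ⟨fun x => W₁ x + W₂ x, hW₁m.add hW₂m, ?_, ?_⟩
  · rw [lintegral_add_left hW₁m]
    calc _ ≤ (1 : ℝ≥0∞) + 1 := add_le_add (lintegral_ctrl (isCharSys N) _ _) (lintegral_ctrl (isCharSys N) _ _)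
      _ = 2 := by norm_num
  intro x hx c hc n θ
  have hx1 : W₁ x < ∞ := lt_of_le_of_lt le_self_add hx
  have hx2 : W₂ x < ∞ := lt_of_le_of_lt le_add_self hx
  have hK0 : 0 ≤ K := by
    have := hK 0 (fun _ => 0) (fun _ => le_rfl) rfl summable_zero (by simp) 0
    simpa using this
  -- the chaining hypothesis for each weight
  have hchain : ∀ b' : Fin N → ℂ, (∀ k, ‖b' k‖ = ‖b k‖) → ∀ v : ℕ → ℝ, v 0 = 0 → (∀ j, N ≤ j → v j = 0) →
      ∑ j ∈ Finset.range N, v j ^ 2 ≤ 1 →
      ∃ u : ℕ → Fin N → ℝ, (∀ p, u p ∈ U' p) ∧ ∀ P : ℕ, ∑ p ∈ Finset.range P,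
        √(2 ^ p) * (rw' Circ.hm (ck N) b' (fun k => v (k / 2 ^ n)) p + wd b' (fun k => v (k / 2 ^ n)) (u p)) ≤ K + 207 * A := by
    intro b' hb' v hv0 hvN hv1
    obtain ⟨u, hu1, hu2⟩ := hUn n v hv1
    refine ⟨fun p k => u p k, fun p => Finset.mem_image_of_mem _ (hu1 p), fun P => ?_⟩
    simp_rw [mul_add]
    rw [Finset.sum_add_distrib]
    apply add_le_add
    · -- radii
      set μ : ℕ → ℝ := fun k => v (k / 2 ^ n) ^ 2 * ‖a k‖ ^ 2 with hμ
      have hv1' : ∀ j, v j ^ 2 ≤ 1 := by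
        intro j
        by_cases hj : j < N
        · exact (Finset.single_le_sum (f := fun j => v j ^ 2) (fun i _ => sq_nonneg _) (Finset.mem_range.2 hj)).trans hv1
        · rw [hvN j (not_lt.1 hj)]; norm_num
      have hμs : Summable μ := by
        apply Summable.of_nonneg_of_le (fun k => by simp only [hμ]; positivity) (fun k => ?_) ha
        simp only [hμ]
        nlinarith [sq_nonneg ‖a k‖, hv1' (k / 2 ^ n)]
      set μ' : ℕ → ℝ := fun k => if k < N then μ k else 0 with hμ'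
      have hμ'0 : ∀ k, 0 ≤ μ' k := fun k => by simp only [hμ', hμ]; split_ifs <;> positivity
      have hμ'N : ∀ k, N ≤ k → μ' k = 0 := fun k hk => by simp only [hμ']; rw [if_neg (not_lt.2 hk)]
      have e1 : ∀ p, rw' Circ.hm (ck N) b' (fun k => v (k / 2 ^ n)) p = radius μ' p := by
        intro p
        rw [radius_fin μ' hμ'0 N hμ'N]
        unfold rw'
        congr 1
        ext k
        simp only [hμ', hμ]
        rw [if_pos k.2, ← mul_pow, Real.sqrt_sq_eq_abs, abs_mul, abs_norm, hb']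
      simp_rw [e1]
      have hqs : Summable (fun j => v j ^ 2) := by
        apply summable_of_ne_finset_zero (s := Finset.range N)
        intro j hj
        rw [Finset.mem_range, not_lt] at hj
        rw [hvN j hj]; norm_num
      have hqt : ∑' j, v j ^ 2 ≤ 1 := by
        rw [tsum_eq_sum (s := Finset.range N)]
        · exact hv1
        · intro j hj
          rw [Finset.mem_range, not_lt] at hj
          rw [hvN j hj]; norm_num
      have h1 := hK n (fun j => v j ^ 2) (fun j => sq_nonneg _) (by simp only [hv0]; norm_num) hqs hqt P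
      refine le_trans ?_ h1
      apply Finset.sum_le_sum
      intro p _
      apply mul_le_mul_of_nonneg_left _ (Real.sqrt_nonneg _)
      exact radius_mono hμ'0 (fun k => by
        simp only [hμ']
        split_ifs
        · exact le_rfl
        · simp only [hμ]; positivity) hμs p
    · -- nets
      have e2 : ∀ p, wd b' (fun k => v (k / 2 ^ n)) (fun k => u p k) =
          A * √(∑ k ∈ Finset.range N, m k * (v (k / 2 ^ n) - u p k) ^ 2) := by
        intro p
        unfold wd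
        rw [← Fin.sum_univ_eq_sum_range (fun k => m k * (v (k / 2 ^ n) - u p k) ^ 2)]
        rw [← Real.sqrt_sq hA0, ← Real.sqrt_mul (by positivity)]
        congr 1
        rw [Finset.mul_sum]
        apply Finset.sum_congr rfl
        intro k _
        rw [hb']
        simp only [hb, hm]
        by_cases hz : A = 0
        · have h3 : ‖a k‖ ^ 2 = 0 := by
            apply le_antisymm _ (sq_nonneg _)
            have h4 := ha.le_tsum (k : ℕ) fun i _ => sq_nonneg _
            rw [← hA2, hz] at h4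
            simpa using h4
          rw [h3, hz]
          ring
        · field_simp
      simp_rw [e2]
      calc _ = A * ∑ p ∈ Finset.range P, √(2 ^ p) * √(∑ k ∈ Finset.range N, m k * (v (k / 2 ^ n) - u p k) ^ 2) := by
            rw [Finset.mul_sum]
            apply Finset.sum_congr rfl
            intro p _
            ring
        _ ≤ A * 207 := mul_le_mul_of_nonneg_left (hu2 P) hA0
        _ = _ := by ring
  -- duality
  have hS0 : 0 ≤ K + 207 * A := by positivity
  set l := √(Real.log (1 + (W₁ x + W₂ x).toReal)) with hl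
  have hl0 : 0 ≤ l := Real.sqrt_nonneg _
  have hsq65 : √(3 * ((20:ℕ):ℝ) + 5) ≤ 8.1 := by
    rw [Real.sqrt_le_left (by norm_num)]; norm_num
  have hlog : ∀ w : ℝ≥0∞, w ≤ W₁ x + W₂ x → √(Real.log (1 + w.toReal)) ≤ l := by
    intro w hw
    apply Real.sqrt_le_sqrt
    apply Real.log_le_log (by have := ENNReal.toReal_nonneg (a := w); positivity)
    have := ENNReal.toReal_mono hx.ne hw
    linarith
  have hdual : ∀ R : ℕ → ℝ, (∀ v : ℕ → ℝ, v 0 = 0 → (∀ j, N ≤ j → v j = 0) → ∑ j ∈ Finset.range N, v j ^ 2 ≤ 1 →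
      ∑ j ∈ Finset.Ico 1 N, v j * R j ≤ 146 * (1 + l) * (K + 207 * A)) →
      ∑ j ∈ Finset.Ico 1 N, R j ^ 2 ≤ (146 * (1 + l) * (K + 207 * A)) ^ 2 := by
    intro R hR
    set Q := ∑ j ∈ Finset.Ico 1 N, R j ^ 2 with hQ
    have hQ0 : 0 ≤ Q := Finset.sum_nonneg fun j _ => sq_nonneg _
    rcases hQ0.eq_or_lt with h0 | h0
    · rw [← h0]; positivity
    have hs : 0 < √Q := Real.sqrt_pos.2 h0
    have h1 := hR (fun j => if j ∈ Finset.Ico 1 N then R j / √Q else 0) (by simp)
      (fun j hj => by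
        rw [if_neg]
        intro hh
        rw [Finset.mem_Ico] at hh
        omega)
      (by
        have : ∑ j ∈ Finset.range N, (if j ∈ Finset.Ico 1 N then R j / √Q else 0) ^ 2 = ∑ j ∈ Finset.Ico 1 N, (R j / √Q) ^ 2 := by
          rw [← Finset.sum_subset (s₁ := Finset.Ico 1 N) (s₂ := Finset.range N)]
          · apply Finset.sum_congr rfl
            intro j hj
            rw [if_pos hj]
          · intro j hj
            exact Finset.mem_range.2 (Finset.mem_Ico.1 hj).2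
          · intro j _ hj
            rw [if_neg hj]; norm_num
        rw [this]
        simp_rw [div_pow]
        rw [← Finset.sum_div, Real.sq_sqrt hQ0, div_self h0.ne'])
    have h2 : ∑ j ∈ Finset.Ico 1 N, (if j ∈ Finset.Ico 1 N then R j / √Q else 0) * R j = √Q := by
      have : ∀ j ∈ Finset.Ico 1 N, (if j ∈ Finset.Ico 1 N then R j / √Q else 0) * R j = R j ^ 2 / √Q := by
        intro j hj
        rw [if_pos hj]; ring
      rw [Finset.sum_congr rfl this, ← Finset.sum_div, ← hQ]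
      rw [div_eq_iff hs.ne', Real.mul_self_sqrt hQ0]
    rw [h2] at h1
    calc Q = √Q ^ 2 := (Real.sq_sqrt hQ0).symm
      _ ≤ _ := pow_le_pow_left₀ hs.le h1 2
  -- the value of the process
  have hval : ∀ v : ℕ → ℝ, (∀ j, N ≤ j → v j = 0) → v 0 = 0 →
      ∑ k : Fin N, ((v (k / 2 ^ n) : ℝ) : ℂ) * b k * ck N k (θ : T) * Complex.exp (Complex.I * x k) =
        ∑ j ∈ Finset.Ico 1 N, (v j : ℂ) * blk c N n j θ := by
    intro v _ hv0
    have h1 : ∑ k : Fin N, ((v (k / 2 ^ n) : ℝ) : ℂ) * b k * ck N k (θ : T) * Complex.exp (Complex.I * x k) =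
        ∑ k ∈ Finset.range N, (v (k / 2 ^ n) : ℂ) * (c k * E (k * θ)) := by
      rw [← Fin.sum_univ_eq_sum_range (fun k => (v (k / 2 ^ n) : ℂ) * (c k * E (k * θ)))]
      apply Finset.sum_congr rfl
      intro k _
      rw [ck_coe, hc k]
      ring
    rw [h1]
    have h2 : ∀ j, (v j : ℂ) * blk c N n j θ = ∑ k ∈ (Finset.range N).filter (fun k => k / 2 ^ n = j),
        (v (k / 2 ^ n) : ℂ) * (c k * E (k * θ)) := by
      intro j
      unfold blk
      rw [Finset.mul_sum]
      apply Finset.sum_congr rfl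
      intro k hk
      rw [(Finset.mem_filter.1 hk).2]
    have h3 : ∑ j ∈ Finset.range N, (v j : ℂ) * blk c N n j θ = ∑ k ∈ Finset.range N, (v (k / 2 ^ n) : ℂ) * (c k * E (k * θ)) := by
      simp_rw [h2]
      rw [Finset.sum_fiberwise_of_maps_to]
      intro k hk
      rw [Finset.mem_range] at hk ⊢
      exact lt_of_le_of_lt (Nat.div_le_self _ _) hk
    rw [← h3]
    rcases Nat.eq_zero_or_pos N with h0 | h0
    · subst h0; simp
    · rw [Finset.range_eq_Ico, Finset.sum_eq_sum_Ico_succ_bot h0, hv0]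
      simp
  have hY : ∀ (b' : Fin N → ℂ) (hb' : ∀ k, ‖b' k‖ = ‖b k‖), ctrl Circ.hm (ck N) b' U' x ≤ W₁ x + W₂ x → ∀ v : ℕ → ℝ, v 0 = 0 →
      (∀ j, N ≤ j → v j = 0) → ∑ j ∈ Finset.range N, v j ^ 2 ≤ 1 →
      Y (cf (ck N) b' (fun k => v (k / 2 ^ n)) (θ : T)) x ≤ 146 * (1 + l) * (K + 207 * A) := by
    intro b' hb' hctrl v hv0 hvN hv1
    obtain ⟨u, hu1, hu2⟩ := hchain b' hb' v hv0 hvN hv1
    have h1 := chain (isCharSys N) b' U' 20 hU'c hU'0 x (lt_of_le_of_lt hctrl hx) (fun k => v (k / 2 ^ n)) u hu1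
      (K + 207 * A) hu2 (θ : T)
    refine (le_abs_self _).trans (h1.trans ?_)
    apply mul_le_mul_of_nonneg_right _ hS0
    have h2 := hlog _ hctrl
    have h3 := Real.sqrt_nonneg (Real.log (1 + (ctrl Circ.hm (ck N) b' U' x).toReal))
    apply mul_le_mul _ (by linarith) (by positivity) (by norm_num)
    exact (mul_le_mul_of_nonneg_left hsq65 (by norm_num)).trans (by norm_num)
  have hre := hdual (fun j => (blk c N n j θ).re) (fun v hv0 hvN hv1 => by
    have h1 := hY b (fun _ => rfl) le_self_add v hv0 hvN hv1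
    refine le_trans (le_of_eq ?_) h1
    have h2 : Y (cf (ck N) b (fun k => v (k / 2 ^ n)) (θ : T)) x =
        (∑ k : Fin N, ((v (k / 2 ^ n) : ℝ) : ℂ) * b k * ck N k (θ : T) * Complex.exp (Complex.I * x k)).re := by
      rw [Complex.re_sum]; rfl
    rw [h2, hval v hvN hv0, Complex.re_sum]
    apply Finset.sum_congr rfl
    intro j _
    rw [Complex.re_ofReal_mul])
  have him := hdual (fun j => (blk c N n j θ).im) (fun v hv0 hvN hv1 => by
    have h1 := hY (fun k => -Complex.I * b k) (fun _ => by rw [norm_mul, norm_neg, Complex.norm_I, one_mul]) le_add_self v hv0 hvN hv1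
    refine le_trans (le_of_eq ?_) h1
    have h2 : Y (cf (ck N) (fun k => -Complex.I * b k) (fun k => v (k / 2 ^ n)) (θ : T)) x =
        (-Complex.I * ∑ k : Fin N, ((v (k / 2 ^ n) : ℝ) : ℂ) * b k * ck N k (θ : T) * Complex.exp (Complex.I * x k)).re := by
      rw [Finset.mul_sum, Complex.re_sum]
      unfold Y cf
      apply Finset.sum_congr rfl
      intro k _
      congr 1
      ring
    rw [h2, hval v hvN hv0]
    have h3 : (-Complex.I * ∑ j ∈ Finset.Ico 1 N, (v j : ℂ) * blk c N n j θ).re = (∑ j ∈ Finset.Ico 1 N, (v j : ℂ) * blk c N n j θ).im := by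
      simp
    rw [h3, Complex.im_sum]
    apply Finset.sum_congr rfl
    intro j _
    rw [Complex.im_ofReal_mul])
  have hsum : ∑ j ∈ Finset.Ico 1 N, ‖blk c N n j θ‖ ^ 2 = ∑ j ∈ Finset.Ico 1 N, (blk c N n j θ).re ^ 2 +
      ∑ j ∈ Finset.Ico 1 N, (blk c N n j θ).im ^ 2 := by
    rw [← Finset.sum_add_distrib]
    apply Finset.sum_congr rfl
    intro j _
    rw [← Complex.normSq_eq_norm_sq, Complex.normSq_apply]
    ring
  rw [hsum]
  have hfin : (146 * (1 + l) * (K + 207 * A)) ^ 2 + (146 * (1 + l) * (K + 207 * A)) ^ 2 ≤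
      (210 * (1 + l) * (K + 207 * A)) ^ 2 := by
    have : 0 ≤ ((1 + l) * (K + 207 * A)) ^ 2 := sq_nonneg _
    nlinarith
  linarith

end Pool.Agent.Helper26.Bmoa.Stmt
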