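import Mathlib
import Pool.Agent.Helper26.Bmoa.Suff

set_option autoImplicit false

/-!
The sufficiency of the condition, and the main theorem.
-/

namespace Pool.Agent.Helper26.Bmoa.Stmt

open MeasureTheory ProbabilityTheory Set Filter Topology Det RF Circ Nec
open scoped ENNReal NNReal

/-- the deterministic conclusion -/
theorem inBMOA_of_freq {Ω : Type*} {a : ℕ → ℂ} (ha : Summable fun k => ‖a k‖ ^ 2) (α : ℕ → Ω → ℝ) (ω : Ω) (M : ℝ)
    (hM0 : 0 ≤ M) (h : ∃ᶠ N in atTop, ∀ n θ, ∑ j ∈ Finset.Ico 1 N, ‖blk (cc a α ω) N n j θ‖ ^ 2 ≤ M ^ 2) :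
    InBMOA (rps a α ω) := by
  have hc := summable_cc ha α ω
  obtain ⟨g, hg1, hg2, hg3⟩ := riesz_fischer _ hc
  refine ⟨differentiable_PS hc, ⟨4 * Real.pi * ∑' k, ‖cc a α ω k‖ ^ 2, fun r hr0 hr1 => ?_⟩, g, hg1, hg2, ?_, ?_⟩
  · rw [int_eq]
    exact hardy hc hr0 hr1
  · have e : ∀ r : ℝ, ∫ t in (0:ℝ)..(2 * Real.pi), ‖rps a α ω (r * Complex.exp (Complex.I * t)) - g t‖ ^ 2 =
        ∫ t, ‖PS (cc a α ω) (r * E t) - g t‖ ^ 2 ∂nu := by
      intro r
      rw [int_eq]
      rfl
    simp_rw [e]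
    exact radial_tendsto hc hg2 hg3
  · set R := √(2 + 800 * M ^ 2) with hR
    have hR0 : 0 < R := Real.sqrt_pos.2 (by positivity)
    have hR2 : R ^ 2 = 2 + 800 * M ^ 2 := Real.sq_sqrt (by positivity)
    refine ⟨2 * R, fun s t hst hst2 => ?_⟩
    have hts : 0 < t - s := by linarith
    have hLI := li_of_memLp hg1 hg2
    -- choice of the partial sum
    have h1 : ∀ᶠ N in atTop, ∫ x, ‖SN (cc a α ω) N x - g x‖ ^ 2 ∂nu < t - s := hg3.eventually (gt_mem_nhds hts)
    obtain ⟨N, hN1, hN2⟩ := (h.and_eventually h1).exists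
    obtain ⟨κ, hκ⟩ := mean_osc (cc a α ω) N M hM0 hN1 s t hst hst2
    have hper : Function.Periodic (fun x => ‖SN (cc a α ω) N x - g x‖ ^ 2) (2 * Real.pi) := by
      intro x
      simp only
      rw [hg1 x, SN_periodic _ N x]
    have hint : Integrable (fun x => ‖SN (cc a α ω) N x - g x‖ ^ 2) nu :=
      ((memLp_SN _ N).sub hg2).integrable_norm_pow (by norm_num)
    have i1 := sq_int_periodic hper hint s t
    have h2 := int_le_period hper hint (fun x => sq_nonneg _) hst2
    have i2 : IntervalIntegrable (fun x => ‖SN (cc a α ω) N x - κ‖ ^ 2) volume s t := by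
      have : Continuous (fun x => ‖SN (cc a α ω) N x - κ‖ ^ 2) := ((continuous_SN _ N).sub continuous_const).norm.pow 2
      exact this.intervalIntegrable _ _
    have hκ' : ∫ x in s..t, ‖SN (cc a α ω) N x - κ‖ ^ 2 ≤ 400 * M ^ 2 * (t - s) := hκ
    have i3 : IntervalIntegrable (fun x => ‖g x - κ‖) volume s t := hLI.sub_norm κ s t
    have i4 : IntervalIntegrable (fun x => (2 * ‖SN (cc a α ω) N x - g x‖ ^ 2 + 2 * ‖SN (cc a α ω) N x - κ‖ ^ 2) / (2 * R) + R / 2)
        volume s t := (((i1.const_mul 2).add (i2.const_mul 2)).div_const _).add (intervalIntegrable_const)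
    have h3 : ∫ x in s..t, ‖g x - κ‖ ≤ R * (t - s) := by
      calc _ ≤ ∫ x in s..t, ((2 * ‖SN (cc a α ω) N x - g x‖ ^ 2 + 2 * ‖SN (cc a α ω) N x - κ‖ ^ 2) / (2 * R) + R / 2) := by
            apply intervalIntegral.integral_mono_on hst.le i3 i4
            intro x _
            have h4 : ‖g x - κ‖ ^ 2 ≤ 2 * ‖SN (cc a α ω) N x - g x‖ ^ 2 + 2 * ‖SN (cc a α ω) N x - κ‖ ^ 2 := by
              have h5 : g x - κ = (-(SN (cc a α ω) N x - g x)) + (SN (cc a α ω) N x - κ) := by ring
              rw [h5]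
              refine (norm_add_sq_le' _ _).trans ?_
              rw [norm_neg]
            have h6 : ‖g x - κ‖ ≤ ‖g x - κ‖ ^ 2 / (2 * R) + R / 2 := by
              have h7 : ‖g x - κ‖ ^ 2 / (2 * R) + R / 2 - ‖g x - κ‖ = (‖g x - κ‖ - R) ^ 2 / (2 * R) := by
                field_simp
                ring
              have h8 : 0 ≤ (‖g x - κ‖ - R) ^ 2 / (2 * R) := by positivity
              linarith
            refine h6.trans ?_
            gcongr
        _ = (2 * (∫ x in s..t, ‖SN (cc a α ω) N x - g x‖ ^ 2) + 2 * ∫ x in s..t, ‖SN (cc a α ω) N x - κ‖ ^ 2) / (2 * R) + R / 2 * (t - s) := by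
            have i5 : IntervalIntegrable (fun x => 2 * ‖SN (cc a α ω) N x - g x‖ ^ 2 + 2 * ‖SN (cc a α ω) N x - κ‖ ^ 2)
              volume s t := (i1.const_mul 2).add (i2.const_mul 2)
            rw [intervalIntegral.integral_add (i5.div_const _) intervalIntegrable_const, intervalIntegral.integral_div,
              intervalIntegral.integral_add (i1.const_mul 2) (i2.const_mul 2), intervalIntegral.integral_const_mul,
              intervalIntegral.integral_const_mul, intervalIntegral.integral_const, smul_eq_mul]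
            ring
        _ ≤ (2 * (t - s) + 2 * (400 * M ^ 2 * (t - s))) / (2 * R) + R / 2 * (t - s) := by
            gcongr
            linarith
        _ = R ^ 2 * (t - s) / (2 * R) + R / 2 * (t - s) := by rw [hR2]; ring
        _ = R * (t - s) := by field_simp; ring
    have h4 := Pool.Agent.Helper34.Bmo.osc_le_two hLI hst κ
    rw [inv_mul_le_iff₀ hts]
    have h5 : ∫ x in s..t, ‖g x - mean g s t‖ ≤ 2 * ∫ x in s..t, ‖g x - κ‖ := h4
    linarith

/-- **Sufficiency.** -/
theorem sufficiency (a : ℕ → ℂ) (ha : Summable fun k => ‖a k‖ ^ 2) {Ω : Type*} [MeasurableSpace Ω] (P : Measure Ω)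
    [IsProbabilityMeasure P] (α : ℕ → Ω → ℝ) (hα : ∀ k, Measurable (α k))
    (hlaw : ∀ N, P.map (fun ω (i : Fin N) => α i ω) = phases (Fin N))
    (h : Cond a) : ∀ᵐ ω ∂P, InBMOA (rps a α ω) := by
  obtain ⟨K, hK⟩ := h
  choose W hW1 hW2 hW3 using suff_N a ha hK
  set V : ℕ → Ω → ℝ≥0∞ := fun N ω => W N (fun i : Fin N => α i ω) with hV
  have hmeas : ∀ N, Measurable (fun ω (i : Fin N) => α i ω) := fun N => measurable_pi_lambda _ fun i => hα _
  have hVm : ∀ N, Measurable (V N) := fun N => (hW1 N).comp (hmeas N)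
  have hVi : ∀ N, ∫⁻ ω, V N ω ∂P ≤ 2 := by
    intro N
    have h1 : ∫⁻ ω, V N ω ∂P = ∫⁻ x, W N x ∂(P.map (fun ω (i : Fin N) => α i ω)) := by
      rw [lintegral_map (hW1 N) (hmeas N)]
    rw [h1, hlaw]
    exact hW2 N
  have hF : ∫⁻ ω, liminf (fun N => V N ω) atTop ∂P ≤ 2 := by
    refine (lintegral_liminf_le hVm).trans ?_
    apply liminf_le_of_le
    · isBoundedDefault
    · intro c hc
      obtain ⟨N, hN⟩ := hc.exists
      exact hN.trans (hVi N)
  have hfin : ∀ᵐ ω ∂P, liminf (fun N => V N ω) atTop < ∞ :=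
    ae_lt_top (Measurable.liminf hVm) (ne_top_of_le_ne_top (by norm_num) hF)
  filter_upwards [hfin] with ω hω
  obtain ⟨R, hR1, hR2⟩ := exists_between hω
  have hfreq : ∃ᶠ N in atTop, V N ω < R := frequently_lt_of_liminf_lt (by isBoundedDefault) hR1
  set A := √(∑' k, ‖a k‖ ^ 2) with hA
  have hK0 : 0 ≤ K := by
    have := hK 0 (fun _ => 0) (fun _ => le_rfl) rfl summable_zero (by simp) 0
    simpa using this
  have hA0 : 0 ≤ A := Real.sqrt_nonneg _
  apply inBMOA_of_freq ha α ω (210 * (1 + √(Real.log (1 + R.toReal))) * (K + 207 * A)) (by positivity)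
  apply hfreq.mono
  intro N hN n θ
  have h1 := hW3 N (fun i : Fin N => α i ω) (hN.trans hR2) (cc a α ω) (fun k => rfl) n θ
  refine h1.trans ?_
  apply pow_le_pow_left₀ (by positivity)
  apply mul_le_mul_of_nonneg_right _ (by positivity)
  apply mul_le_mul_of_nonneg_left _ (by norm_num)
  apply add_le_add le_rfl
  apply Real.sqrt_le_sqrt
  apply Real.log_le_log (by have := ENNReal.toReal_nonneg (a := V N ω); positivity)
  have h2 := ENNReal.toReal_mono hR2.ne hN.le
  have h3 : (W N (fun i : Fin N => α i ω)).toReal ≤ R.toReal := h2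
  linarith

/-- the joint law of finitely many phases -/
lemma law_of_indep {Ω : Type*} [MeasurableSpace Ω] (P : Measure Ω) [IsProbabilityMeasure P] (α : ℕ → Ω → ℝ)
    (hα : ∀ k, Measurable (α k)) (hind : iIndepFun α P) (hunif : ∀ k, P.map (α k) = phase) (N : ℕ) :
    P.map (fun ω (i : Fin N) => α i ω) = phases (Fin N) := by
  have h1 : iIndepFun (fun i : Fin N => α (i : ℕ)) P := hind.precomp (g := fun i : Fin N => (i : ℕ)) Fin.val_injective
  rw [iIndepFun_iff_map_fun_eq_pi_map (fun i => (hα _).aemeasurable)] at h1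
  rw [h1]
  unfold phases
  congr 1
  ext1 i
  exact hunif _

/-- **The characterisation.** -/
theorem main (a : ℕ → ℂ) (ha : Summable fun k => ‖a k‖ ^ 2) {Ω : Type*} [MeasurableSpace Ω] (P : Measure Ω)
    [IsProbabilityMeasure P] (α : ℕ → Ω → ℝ) (hα : ∀ k, Measurable (α k)) (hind : iIndepFun α P)
    (hunif : ∀ k, P.map (α k) = phase) :
    (Cond a → ∀ᵐ ω ∂P, InBMOA (rps a α ω)) ∧ (¬ Cond a → ∀ᵐ ω ∂P, ¬ InBMOA (rps a α ω)) := by
  have hlaw := law_of_indep P α hα hind hunif
  refine ⟨sufficiency a ha P α hα hlaw, fun hn => ?_⟩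
  by_contra hcon
  apply hn
  apply necessity a ha P α hα hlaw
  intro h0
  apply hcon
  rw [ae_iff]
  simpa using h0

end Pool.Agent.Helper26.Bmoa.Stmt
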